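import Pool.Agent.Lib.MP_3de3a3_co.M.Defs

/-! # The adaptive counting lemma (module M/Adapt) -/

set_option autoImplicit false

namespace Pool.TSphM

open Finset
open Pool.TSph (verts IsSphere2 adj comp Ep PhiK)
open Pool.TSphD (fc rdg lk Lo PM side IsLF mv Closings)

variable {ι : Type*} [DecidableEq ι]

private theorem adapt_aux {X Y : Type*} [Fintype X] [DecidableEq X] [DecidableEq Y]
    (G : Finset (X → Y)) (N : (X → Y) → X → ℕ) (hN : ∀ g ∈ G, ∀ x, 1 ≤ N g x)
    (h : ∀ P : Finset X, P ≠ univ → ∀ g ∈ G, ∃ x, x ∉ P ∧ ∀ g' ∈ G, (∀ y ∈ P, g' y = g y) →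
      ((G.filter (fun g'' => ∀ y ∈ P, g'' y = g y)).image (fun g'' => g'' x)).card ≤ N g' x)
    (n : ℕ) : ∀ P : Finset X, Pᶜ.card = n → ∀ g ∈ G,
      ∑ g' ∈ G.filter (fun g'' => ∀ y ∈ P, g'' y = g y), ∏ x ∈ Pᶜ, (1 / (N g' x : ℚ)) ≤ 1 := by
  induction n with
  | zero =>
    intro P hP g hg
    have hPu : P = univ := by
      rw [card_eq_zero, compl_eq_empty_iff] at hP
      exact hP
    subst hPu
    have h1 : G.filter (fun g'' => ∀ y ∈ (univ : Finset X), g'' y = g y) = {g} := by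
      ext g'
      rw [mem_filter, mem_singleton]
      constructor
      · rintro ⟨-, h2⟩
        exact funext fun y => h2 y (mem_univ y)
      · rintro rfl
        exact ⟨hg, fun _ _ => rfl⟩
    rw [h1, sum_singleton, compl_univ, prod_empty]
  | succ n ih =>
    intro P hP g hg
    have hPu : P ≠ univ := by
      rintro rfl
      simp at hP
    obtain ⟨x, hx, hx2⟩ := h P hPu g hg
    set F := G.filter (fun g'' => ∀ y ∈ P, g'' y = g y) with hF
    set V := F.image (fun g'' => g'' x) with hV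
    have hgF : g ∈ F := mem_filter.2 ⟨hg, fun _ _ => rfl⟩
    have hVpos : 0 < V.card := card_pos.2 ⟨g x, mem_image_of_mem _ hgF⟩
    have hcompl : Pᶜ = insert x (insert x P)ᶜ := by
      ext z
      simp only [mem_compl, mem_insert, not_or]
      by_cases hz : z = x
      · subst hz
        simp [hx]
      · simp [hz]
    have hxn : x ∉ (insert x P)ᶜ := by simp
    have hcard : (insert x P)ᶜ.card = n := by
      have h1 := congrArg Finset.card hcompl
      rw [card_insert_of_notMem hxn, hP] at h1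
      omega
    rw [← sum_fiberwise_of_maps_to (s := F) (t := V) (g := fun g'' => g'' x)
      (fun g' hg' => mem_image_of_mem _ hg')]
    have hterm : ∀ y ∈ V, ∑ g' ∈ F.filter (fun g'' => g'' x = y), ∏ z ∈ Pᶜ, (1 / (N g' z : ℚ)) ≤
        1 / (V.card : ℚ) := by
      intro y hy
      obtain ⟨g₁, hg₁, rfl⟩ := mem_image.1 hy
      obtain ⟨hg₁G, hg₁P⟩ := mem_filter.1 hg₁
      have hfib : F.filter (fun g'' => g'' x = g₁ x) =
          G.filter (fun g'' => ∀ y ∈ insert x P, g'' y = g₁ y) := by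
        ext g'
        rw [mem_filter, mem_filter, mem_filter]
        constructor
        · rintro ⟨⟨h1, h2⟩, h3⟩
          refine ⟨h1, fun z hz => ?_⟩
          rcases mem_insert.1 hz with rfl | hz
          · exact h3
          · rw [h2 z hz, hg₁P z hz]
        · rintro ⟨h1, h2⟩
          refine ⟨⟨h1, fun z hz => ?_⟩, h2 x (mem_insert_self _ _)⟩
          rw [h2 z (mem_insert_of_mem hz), hg₁P z hz]
      have h1 := ih (insert x P) hcard g₁ hg₁G
      rw [hfib]
      calc ∑ g' ∈ G.filter (fun g'' => ∀ y ∈ insert x P, g'' y = g₁ y), ∏ z ∈ Pᶜ, (1 / (N g' z : ℚ))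
          ≤ ∑ g' ∈ G.filter (fun g'' => ∀ y ∈ insert x P, g'' y = g₁ y),
              (1 / (V.card : ℚ)) * ∏ z ∈ (insert x P)ᶜ, (1 / (N g' z : ℚ)) := by
            refine sum_le_sum fun g' hg' => ?_
            have hg'F : g' ∈ F := by
              rw [← hfib] at hg'
              exact (mem_filter.1 hg').1
            obtain ⟨hg'G, hg'P⟩ := mem_filter.1 hg'F
            rw [hcompl, prod_insert hxn]
            refine mul_le_mul_of_nonneg_right ?_ (prod_nonneg fun z _ => by positivity)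
            have h2 := hx2 g' hg'G hg'P
            have h3 : (0 : ℚ) < V.card := by exact_mod_cast hVpos
            exact one_div_le_one_div_of_le h3 (by exact_mod_cast h2)
        _ = (1 / (V.card : ℚ)) * ∑ g' ∈ G.filter (fun g'' => ∀ y ∈ insert x P, g'' y = g₁ y),
              ∏ z ∈ (insert x P)ᶜ, (1 / (N g' z : ℚ)) := by rw [mul_sum]
        _ ≤ (1 / (V.card : ℚ)) * 1 := mul_le_mul_of_nonneg_left h1 (by positivity)
        _ = 1 / (V.card : ℚ) := mul_one _
    calc ∑ y ∈ V, ∑ g' ∈ F.filter (fun g'' => g'' x = y), ∏ z ∈ Pᶜ, (1 / (N g' z : ℚ))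
        ≤ ∑ _y ∈ V, 1 / (V.card : ℚ) := sum_le_sum hterm
      _ = 1 := by
          rw [sum_const, nsmul_eq_mul]
          have h3 : (V.card : ℚ) ≠ 0 := by exact_mod_cast hVpos.ne'
          field_simp

/-- Induction on the number of elements outside `P`: for every `P` and `g ∈ G`
`∑ g' ∈ fiber, ∏ x ∉ P, 1 / N g' x ≤ 1`, where the fiber of `(P, g)` is the set of the `g' ∈ G` which
agree with `g` on `P`. For the step choose `x ∉ P` by `h`; the fiber splits according to the value
`g' x` into at most `N g' x` fibers of `insert x P`. For `P = ∅`: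
`G.card / Q ≤ ∑ g ∈ G, ∏ x, 1 / N g x ≤ 1`. -/
theorem adapt {X Y : Type*} [Fintype X] [DecidableEq X] [DecidableEq Y] (G : Finset (X → Y))
    (N : (X → Y) → X → ℕ) (Q : ℕ) (hN : ∀ g ∈ G, ∀ x, 1 ≤ N g x)
    (h : ∀ P : Finset X, P ≠ univ → ∀ g ∈ G, ∃ x, x ∉ P ∧ ∀ g' ∈ G, (∀ y ∈ P, g' y = g y) →
      ((G.filter (fun g'' => ∀ y ∈ P, g'' y = g y)).image (fun g'' => g'' x)).card ≤ N g' x)
    (hQ : ∀ g ∈ G, ∏ x, N g x ≤ Q) : G.card ≤ Q := by
  rcases G.eq_empty_or_nonempty with rfl | ⟨g, hg⟩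
  · simp
  have h1 := adapt_aux G N hN h _ ∅ rfl g hg
  have h2 : G.filter (fun g'' => ∀ y ∈ (∅ : Finset X), g'' y = g y) = G := by
    ext g'
    simp
  rw [h2, compl_empty] at h1
  have hQpos : 0 < Q := lt_of_lt_of_le (prod_pos fun x _ => hN g hg x) (hQ g hg)
  have hQ' : (0 : ℚ) < Q := by exact_mod_cast hQpos
  have h3 : (G.card : ℚ) * (1 / (Q : ℚ)) ≤ 1 := by
    refine le_trans ?_ h1
    rw [← nsmul_eq_mul, ← sum_const]
    refine sum_le_sum fun g' hg' => ?_
    rw [prod_div_distrib, prod_const_one]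
    have h4 : (0 : ℚ) < ∏ x, (N g' x : ℚ) :=
      prod_pos fun x _ => by exact_mod_cast hN g' hg' x
    refine one_div_le_one_div_of_le h4 ?_
    have h5 := hQ g' hg'
    exact_mod_cast h5
  rw [mul_one_div, div_le_one hQ'] at h3
  exact_mod_cast h3

end Pool.TSphM
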