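import Pool.Agent.Lib.MP_3de3a3_co.M.Defs

/-! # The number of conditions (module M/AltCodim) -/

set_option autoImplicit false

namespace Pool.TSphM

open Finset
open Pool.TSph (verts IsSphere2 adj comp Ep PhiK)
open Pool.TSphD (fc rdg lk Lo PM side IsLF mv Closings)

variable {ι : Type*} [DecidableEq ι]

/-- the increasing enumeration -/
noncomputable def acd_z {n k : ℕ} (s : {s : Finset (Fin n) // s.card = k}) : Fin k → Fin n :=
  s.1.orderEmbOfFin s.2

theorem acd_perm {n k : ℕ} (w : Fin k → Fin n) (hw : Function.Injective w) :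
    ∃ (s : {s : Finset (Fin n) // s.card = k}) (σ : Equiv.Perm (Fin k)), w = acd_z s ∘ σ := by
  classical
  let T : Finset (Fin n) := Finset.univ.image w
  have hT : T.card = k := by
    rw [Finset.card_image_of_injective _ hw, Finset.card_univ, Fintype.card_fin]
  have hm : ∀ j, w j ∈ T := fun j => Finset.mem_image_of_mem _ (Finset.mem_univ _)
  let f : Fin k → Fin k := fun j => (T.orderIsoOfFin hT).symm ⟨w j, hm j⟩
  have hf : Function.Injective f := by
    intro i j hij
    have := (T.orderIsoOfFin hT).symm.injective hij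
    exact hw (congrArg Subtype.val this)
  refine ⟨⟨T, hT⟩, Equiv.ofBijective f (Finite.injective_iff_bijective.1 hf), ?_⟩
  funext j
  show w j = T.orderEmbOfFin hT (f j)
  rw [← Finset.coe_orderIsoOfFin_apply]
  simp [f]

theorem acd_fix {b : ℕ} (τ' : Equiv.Perm (Fin (b + 2)))
    (h : τ' (Fin.last (b + 1)) = Fin.last (b + 1)) :
    ∃ τ : Equiv.Perm (Fin (b + 1)), (∀ k, τ' k.castSucc = (τ k).castSucc) ∧
      Equiv.Perm.sign τ' = Equiv.Perm.sign τ := by
  have h1 : ∀ k : Fin (b + 1), τ' k.castSucc ≠ Fin.last (b + 1) := by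
    intro k hk
    have : τ' k.castSucc = τ' (Fin.last (b + 1)) := by rw [h, hk]
    exact absurd (τ'.injective this) (Fin.castSucc_lt_last k).ne
  let f : Fin (b + 1) → Fin (b + 1) := fun k => (τ' k.castSucc).castPred (h1 k)
  have hfc : ∀ k, (f k).castSucc = τ' k.castSucc := fun k => Fin.castSucc_castPred _ _
  have hf : Function.Injective f := by
    intro k k' hk
    have : τ' k.castSucc = τ' k'.castSucc := by rw [← hfc, ← hfc, hk]
    exact Fin.castSucc_injective _ (τ'.injective this)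
  let τ : Equiv.Perm (Fin (b + 1)) := Equiv.ofBijective f (Finite.injective_iff_bijective.1 hf)
  have hτ : ∀ k, τ' k.castSucc = (τ k).castSucc := fun k => (hfc k).symm
  refine ⟨τ, hτ, ?_⟩
  have he : τ' = τ.viaFintypeEmbedding ⟨Fin.castSucc, Fin.castSucc_injective _⟩ := by
    refine Equiv.ext fun x => ?_
    induction x using Fin.lastCases with
    | last =>
      rw [Equiv.Perm.viaFintypeEmbedding_apply_notMem_range, h]
      rintro ⟨y, hy⟩
      exact absurd hy (Fin.castSucc_lt_last y).ne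
    | cast k =>
      rw [hτ]
      exact (Equiv.Perm.viaFintypeEmbedding_apply_image τ
        (⟨Fin.castSucc, Fin.castSucc_injective _⟩ : Fin (b + 1) ↪ Fin (b + 2)) k).symm
  rw [he, Equiv.Perm.viaFintypeEmbedding_sign]

section
variable {n b : ℕ} (F : (Fin (b + 1) → Fin n) → Fin n → ℝ)

/-- the map of `b + 2` arguments -/
def acd_G (w : Fin (b + 2) → Fin n) : ℝ := F (fun k => w k.castSucc) (w (Fin.last (b + 1)))

theorem acd_G_fix
    (hF : ∀ (l : Fin (b + 1) → Fin n) (σ : Equiv.Perm (Fin (b + 1))) (μ : Fin n),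
      F (l ∘ σ) μ = ((Equiv.Perm.sign σ : ℤ) : ℝ) * F l μ)
    (w : Fin (b + 2) → Fin n) (τ' : Equiv.Perm (Fin (b + 2)))
    (h : τ' (Fin.last (b + 1)) = Fin.last (b + 1)) :
    acd_G F (w ∘ τ') = ((Equiv.Perm.sign τ' : ℤ) : ℝ) * acd_G F w := by
  obtain ⟨τ, h1, h2⟩ := acd_fix τ' h
  rw [h2, acd_G, acd_G, ← hF]
  congr 1
  · funext k
    simp only [Function.comp_apply, h1]
  · simp only [Function.comp_apply, h]

theorem acd_sq (σ : Equiv.Perm (Fin (b + 2))) :
    ((Equiv.Perm.sign σ : ℤ) : ℝ) * ((Equiv.Perm.sign σ : ℤ) : ℝ) = 1 := by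
  rcases Int.units_eq_one_or (Equiv.Perm.sign σ) with h | h <;> rw [h] <;> norm_num

theorem acd_G_perm
    (hF : ∀ (l : Fin (b + 1) → Fin n) (σ : Equiv.Perm (Fin (b + 1))) (μ : Fin n),
      F (l ∘ σ) μ = ((Equiv.Perm.sign σ : ℤ) : ℝ) * F l μ)
    (z : Fin (b + 2) → Fin n)
    (h2 : ∀ i : Fin (b + 1), acd_G F (z ∘ Equiv.swap i.castSucc (Fin.last (b + 1))) + acd_G F z = 0)
    (σ : Equiv.Perm (Fin (b + 2))) :
    acd_G F (z ∘ σ) = ((Equiv.Perm.sign σ : ℤ) : ℝ) * acd_G F z := by
  by_cases h : σ (Fin.last (b + 1)) = Fin.last (b + 1)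
  · exact acd_G_fix F hF z σ h
  · obtain ⟨i, hi⟩ := Fin.exists_castSucc_eq.2 h
    have hτ : (Equiv.swap i.castSucc (Fin.last (b + 1)) * σ) (Fin.last (b + 1)) =
        Fin.last (b + 1) := by
      rw [Equiv.Perm.mul_apply, ← hi, Equiv.swap_apply_left]
    have e1 := acd_G_fix F hF (z ∘ Equiv.swap i.castSucc (Fin.last (b + 1))) _ hτ
    have e2 : (z ∘ Equiv.swap i.castSucc (Fin.last (b + 1))) ∘
        (Equiv.swap i.castSucc (Fin.last (b + 1)) * σ : Equiv.Perm (Fin (b + 2))) = z ∘ σ := by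
      funext k
      simp only [Function.comp_apply, Equiv.Perm.mul_apply, Equiv.swap_apply_self]
    have e3 : ((Equiv.Perm.sign (Equiv.swap i.castSucc (Fin.last (b + 1)) * σ) : ℤ) : ℝ) =
        -((Equiv.Perm.sign σ : ℤ) : ℝ) := by
      rw [Equiv.Perm.sign_mul, Equiv.Perm.sign_swap (Fin.castSucc_lt_last i).ne]
      push_cast
      ring
    rw [e2, e3] at e1
    rw [e1]
    have e4 := h2 i
    have e5 : acd_G F (z ∘ Equiv.swap i.castSucc (Fin.last (b + 1))) = -acd_G F z := by linarith
    rw [e5]; ring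

theorem acd_zero
    (hF : ∀ (l : Fin (b + 1) → Fin n) (σ : Equiv.Perm (Fin (b + 1))) (μ : Fin n),
      F (l ∘ σ) μ = ((Equiv.Perm.sign σ : ℤ) : ℝ) * F l μ)
    (h1 : ∀ (s : {s : Finset (Fin n) // s.card = b + 1}) (j : Fin (b + 1)),
      F (acd_z s) (acd_z s j) = 0)
    (w : Fin (b + 2) → Fin n) (hw : ¬ Function.Injective w) : acd_G F w = 0 := by
  rw [acd_G]
  by_cases hi : Function.Injective (fun k : Fin (b + 1) => w k.castSucc)
  · obtain ⟨s, σ, hs⟩ := acd_perm _ hi
    have hj : ∃ j : Fin (b + 1), w (Fin.last (b + 1)) = w j.castSucc := by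
      by_contra hcon
      push Not at hcon
      apply hw
      intro x y hxy
      induction x using Fin.lastCases with
      | last =>
        induction y using Fin.lastCases with
        | last => rfl
        | cast k => exact absurd hxy (hcon k)
      | cast k =>
        induction y using Fin.lastCases with
        | last => exact absurd hxy.symm (hcon k)
        | cast k' => rw [hi hxy]
    obtain ⟨j, hj⟩ := hj
    have e1 : w (Fin.last (b + 1)) = acd_z s (σ j) := by
      rw [hj]; exact congrFun hs j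
    rw [hs, e1, hF, h1, mul_zero]
  · rw [Function.Injective] at hi
    push Not at hi
    obtain ⟨i, j, hij, hne⟩ := hi
    have e1 : (fun k : Fin (b + 1) => w k.castSucc) ∘ (Equiv.swap i j) =
        fun k : Fin (b + 1) => w k.castSucc := by
      funext k
      simp only [Function.comp_apply]
      by_cases hk : k = i
      · rw [hk, Equiv.swap_apply_left]; exact hij.symm
      · by_cases hk' : k = j
        · rw [hk', Equiv.swap_apply_right]; exact hij
        · rw [Equiv.swap_apply_of_ne_of_ne hk hk']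
    have e2 := hF (fun k : Fin (b + 1) => w k.castSucc) (Equiv.swap i j) (w (Fin.last (b + 1)))
    rw [e1, Equiv.Perm.sign_swap hne] at e2
    push_cast at e2
    linarith

theorem acd_swap
    (hF : ∀ (l : Fin (b + 1) → Fin n) (σ : Equiv.Perm (Fin (b + 1))) (μ : Fin n),
      F (l ∘ σ) μ = ((Equiv.Perm.sign σ : ℤ) : ℝ) * F l μ)
    (h1 : ∀ (s : {s : Finset (Fin n) // s.card = b + 1}) (j : Fin (b + 1)),
      F (acd_z s) (acd_z s j) = 0)
    (h2 : ∀ (s : {s : Finset (Fin n) // s.card = b + 2}) (i : Fin (b + 1)),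
      acd_G F (acd_z s ∘ Equiv.swap i.castSucc (Fin.last (b + 1))) + acd_G F (acd_z s) = 0)
    (w : Fin (b + 2) → Fin n) (i j : Fin (b + 2)) (hij : i ≠ j) :
    acd_G F w + acd_G F (w ∘ Equiv.swap i j) = 0 := by
  by_cases hw : Function.Injective w
  · obtain ⟨s, σ, hs⟩ := acd_perm _ hw
    have e1 := acd_G_perm F hF (acd_z s) (h2 s) σ
    have e2 := acd_G_perm F hF (acd_z s) (h2 s) (σ * Equiv.swap i j)
    have e3 : acd_z s ∘ (σ * Equiv.swap i j : Equiv.Perm (Fin (b + 2))) = w ∘ Equiv.swap i j := by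
      rw [hs]; rfl
    rw [e3, Equiv.Perm.sign_mul, Equiv.Perm.sign_swap hij] at e2
    rw [← hs] at e1
    rw [e1, e2]
    push_cast
    ring
  · rw [acd_zero F hF h1 w hw, acd_zero F hF h1 (w ∘ Equiv.swap i j), add_zero]
    intro h
    apply hw
    have : w = (w ∘ Equiv.swap i j) ∘ Equiv.swap i j := by
      funext k
      simp only [Function.comp_apply, Equiv.swap_apply_self]
    rw [this]
    exact h.comp (Equiv.injective _)

theorem acd_snoc
    (hF : ∀ (l : Fin (b + 1) → Fin n) (σ : Equiv.Perm (Fin (b + 1))) (μ : Fin n),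
      F (l ∘ σ) μ = ((Equiv.Perm.sign σ : ℤ) : ℝ) * F l μ)
    (h1 : ∀ (s : {s : Finset (Fin n) // s.card = b + 1}) (j : Fin (b + 1)),
      F (acd_z s) (acd_z s j) = 0)
    (h2 : ∀ (s : {s : Finset (Fin n) // s.card = b + 2}) (i : Fin (b + 1)),
      acd_G F (acd_z s ∘ Equiv.swap i.castSucc (Fin.last (b + 1))) + acd_G F (acd_z s) = 0)
    (l : Fin b → Fin n) (κ μ : Fin n) :
    F (Fin.snoc l κ : Fin (b + 1) → Fin n) μ + F (Fin.snoc l μ : Fin (b + 1) → Fin n) κ = 0 := by
  have hne : (Fin.last b).castSucc ≠ Fin.last (b + 1) := (Fin.castSucc_lt_last _).ne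
  have e0 := acd_swap F hF h1 h2
    (Fin.snoc (Fin.snoc l κ : Fin (b + 1) → Fin n) μ : Fin (b + 2) → Fin n)
    (Fin.last b).castSucc (Fin.last (b + 1)) hne
  have e1 : acd_G F (Fin.snoc (Fin.snoc l κ : Fin (b + 1) → Fin n) μ : Fin (b + 2) → Fin n) =
      F (Fin.snoc l κ : Fin (b + 1) → Fin n) μ := by
    rw [acd_G]
    congr 1
    · funext k
      rw [Fin.snoc_castSucc]
    · rw [Fin.snoc_last]
  have e2 : acd_G F ((Fin.snoc (Fin.snoc l κ : Fin (b + 1) → Fin n) μ : Fin (b + 2) → Fin n) ∘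
      Equiv.swap (Fin.last b).castSucc (Fin.last (b + 1))) =
      F (Fin.snoc l μ : Fin (b + 1) → Fin n) κ := by
    rw [acd_G]
    congr 1
    · funext k
      simp only [Function.comp_apply]
      induction k using Fin.lastCases with
      | last => rw [Equiv.swap_apply_left, Fin.snoc_last, Fin.snoc_last]
      | cast k =>
        rw [Equiv.swap_apply_of_ne_of_ne, Fin.snoc_castSucc, Fin.snoc_castSucc,
          Fin.snoc_castSucc]
        · intro h
          exact absurd (Fin.castSucc_injective _ h) (Fin.castSucc_lt_last _).ne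
        · exact (Fin.castSucc_lt_last _).ne
    · simp only [Function.comp_apply]
      rw [Equiv.swap_apply_right, Fin.snoc_castSucc, Fin.snoc_last]
  rw [e1, e2] at e0
  exact e0

end

/-- `Φ x` is alternating in the `b + 1` arguments of the first kind. The conditions: (1)
`Φ x l μ = 0` for `μ` a value of `l`, (2) for every subset of `b + 2` elements
`z_0 < … < z_(b+1)` of `Fin n` the numbers `(-1)^i Φ x (z without z_i) z_i` are equal. Up to the order
of the entries of `l` the first are `(b + 1) (n choose (b + 1))` linear conditions, the second are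
`(b + 1) (n choose (b + 2))`; together `(b + 1) ((n + 1) choose (b + 2))`. The set `Z` of the `x` which
satisfy them is a subspace with the properties claimed. (Alternatively: codimension of the
alternating maps with `b + 2` arguments in the maps which alternate in the first `b + 1`.) -/
theorem alt_codim (n b : ℕ) {X : Type*} [AddCommGroup X] [Module ℝ X] [FiniteDimensional ℝ X]
    (Φ : X →ₗ[ℝ] ((Fin (b + 1) → Fin n) → Fin n → ℝ))
    (hΦ : ∀ (x : X) (l : Fin (b + 1) → Fin n) (σ : Equiv.Perm (Fin (b + 1))) (μ : Fin n),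
      Φ x (l ∘ σ) μ = ((Equiv.Perm.sign σ : ℤ) : ℝ) * Φ x l μ) :
    ∃ Z : Submodule ℝ X,
      Module.finrank ℝ X ≤ Module.finrank ℝ Z + (b + 1) * (n + 1).choose (b + 2) ∧
      ∀ x ∈ Z, ∀ (l : Fin b → Fin n) (κ μ : Fin n),
        Φ x (Fin.snoc l κ : Fin (b + 1) → Fin n) μ + Φ x (Fin.snoc l μ : Fin (b + 1) → Fin n) κ = 0 := by
  classical
  let ev : (Fin (b + 1) → Fin n) → Fin n → (X →ₗ[ℝ] ℝ) := fun l μ =>
    (LinearMap.proj μ).comp ((LinearMap.proj l).comp Φ)
  have hev : ∀ l μ x, ev l μ x = Φ x l μ := fun l μ x => rfl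
  let Λ : X →ₗ[ℝ] ((({s : Finset (Fin n) // s.card = b + 1} × Fin (b + 1)) ⊕
      ({s : Finset (Fin n) // s.card = b + 2} × Fin (b + 1))) → ℝ) :=
    LinearMap.pi (fun i => Sum.elim
      (fun p : {s : Finset (Fin n) // s.card = b + 1} × Fin (b + 1) =>
        ev (acd_z p.1) (acd_z p.1 p.2))
      (fun p : {s : Finset (Fin n) // s.card = b + 2} × Fin (b + 1) =>
        ev (fun k => (acd_z p.1 ∘ Equiv.swap p.2.castSucc (Fin.last (b + 1))) k.castSucc)
          ((acd_z p.1 ∘ Equiv.swap p.2.castSucc (Fin.last (b + 1))) (Fin.last (b + 1))) +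
        ev (fun k => acd_z p.1 k.castSucc) (acd_z p.1 (Fin.last (b + 1)))) i)
  refine ⟨LinearMap.ker Λ, ?_, ?_⟩
  · have e1 := LinearMap.finrank_range_add_finrank_ker Λ
    have e2 : Module.finrank ℝ (LinearMap.range Λ) ≤ (b + 1) * (n + 1).choose (b + 2) := by
      refine (Submodule.finrank_le _).trans ?_
      rw [Module.finrank_pi, Fintype.card_sum, Fintype.card_prod, Fintype.card_prod,
        Fintype.card_finset_len, Fintype.card_finset_len, Fintype.card_fin, Fintype.card_fin,
        Nat.choose_succ_succ' n (b + 1)]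
      apply le_of_eq
      ring
    omega
  · intro x hx l κ μ
    rw [LinearMap.mem_ker] at hx
    refine acd_snoc (fun l μ => Φ x l μ) (fun l σ μ => hΦ x l σ μ) ?_ ?_ l κ μ
    · intro s j
      exact congrFun hx (Sum.inl (s, j))
    · intro s i
      exact congrFun hx (Sum.inr (s, i))

end Pool.TSphM
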