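import Pool.Agent.Lib.MP_3de3a3_co.M.Defs
import Pool.Agent.Lib.MP_3de3a3_co.DAvg

/-! # The average over all orders with the lowest element (module M/AvgMn) -/

set_option autoImplicit false

namespace Pool.TSphM

open Finset
open Pool.TSph (verts IsSphere2 adj comp Ep PhiK)
open Pool.TSphD (fc rdg lk Lo PM side IsLF mv Closings)

variable {ι : Type*} [DecidableEq ι]

private theorem AvgMn_mn' (σ : Finset ι) (pos : ι → ℕ) (x0 : ι) (hx0 : x0 ∈ σ)
    (hmin : ∀ x ∈ σ, pos x0 ≤ pos x) (hinj : ∀ x ∈ σ, pos x = pos x0 → x = x0) (h : ι → ℝ) :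
    mn pos σ h = h x0 := by
  unfold mn
  rw [sum_eq_single x0]
  · intro x hx hne
    have h1 := mem_filter.1 hx
    exact absurd (hinj x h1.1 (le_antisymm (h1.2 x0 hx0) (hmin x h1.1))) hne
  · intro h1
    exact absurd (mem_filter.2 ⟨hx0, hmin⟩) h1

private theorem AvgMn_mn [Fintype ι] (σ : Finset ι) (φ : Numbering ι) (x0 : ι) (hx0 : x0 ∈ σ)
    (hmin : ∀ x ∈ σ, (φ x0 : ℕ) ≤ φ x) (h : ι → ℝ) :
    mn (fun y => (φ y : ℕ)) σ h = h x0 :=
  AvgMn_mn' σ _ x0 hx0 hmin (fun _ _ h => φ.injective (Fin.ext h)) h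

private theorem AvgMn_single [Fintype ι] (σ : Finset ι) (hσ : σ.Nonempty) (N : Finset ι)
    (f : Finset ι → ℝ) (h : ι → ℝ) (φ : Numbering ι) :
    f (N.filter (fun y => ∀ x ∈ σ, (φ y : ℕ) < φ x)) * mn (fun y => (φ y : ℕ)) σ h =
      ∑ x ∈ σ, ∑ P ∈ (univ \ σ).powerset,
        if univ.filter (fun y => (φ y : ℕ) < φ x) = P then f (P ∩ N) * h x else 0 := by
  obtain ⟨x0, hx0, hmin⟩ := exists_min_image σ (fun y => (φ y : ℕ)) hσ
  rw [AvgMn_mn σ φ x0 hx0 hmin, sum_eq_single x0]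
  · rw [sum_ite_eq, if_pos]
    · congr 2
      ext y
      simp only [mem_filter, mem_inter, mem_univ, true_and]
      constructor
      · rintro ⟨h1, h2⟩
        exact ⟨h2 x0 hx0, h1⟩
      · rintro ⟨h1, h2⟩
        exact ⟨h2, fun x hx => lt_of_lt_of_le h1 (hmin x hx)⟩
    · rw [mem_powerset]
      intro y hy
      rw [mem_filter] at hy
      rw [mem_sdiff]
      exact ⟨mem_univ y, fun h => absurd (hmin y h) (not_le.2 hy.2)⟩
  · intro x hx hne
    rw [sum_ite_eq, if_neg]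
    rw [mem_powerset]
    intro h
    have h1 : (φ x0 : ℕ) ≠ φ x := fun h2 => hne (φ.injective (Fin.ext h2)).symm
    have h2 := hmin x hx
    have h3 : x0 ∈ univ.filter (fun y => (φ y : ℕ) < φ x) := by
      rw [mem_filter]
      exact ⟨mem_univ _, lt_of_le_of_ne h2 h1⟩
    exact (mem_sdiff.1 (h h3)).2 hx0
  · intro h
    exact absurd hx0 h

private theorem AvgMn_sum [Fintype ι] (σ : Finset ι) (hσ : σ.Nonempty) (N : Finset ι)
    (f : Finset ι → ℝ) (h : ι → ℝ) :
    ∑ φ : Numbering ι, f (N.filter (fun y => ∀ x ∈ σ, (φ y : ℕ) < φ x)) *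
        mn (fun y => (φ y : ℕ)) σ h =
      (∑ x ∈ σ, h x) * ∑ P ∈ ((univ : Finset ι) \ σ).powerset,
        (P.card.factorial : ℝ) * (Fintype.card ι - 1 - P.card).factorial * f (P ∩ N) := by
  rw [sum_congr rfl fun φ _ => AvgMn_single σ hσ N f h φ, sum_comm, sum_mul]
  refine sum_congr rfl fun x hx => ?_
  rw [sum_comm, mul_sum]
  refine sum_congr rfl fun P hP => ?_
  have hxP : x ∉ P := fun h => (mem_sdiff.1 (mem_powerset.1 hP h)).2 hx
  rw [← sum_filter, sum_const, Pool.TSph.card_pred x P hxP, nsmul_eq_mul, Nat.cast_mul]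
  ring

/-- As `average_lower` (file DAvg.lean): for a numbering let `x` be the lowest element of `σ` and `P` the
set of its predecessors, `P ⊆ univ \ σ`; the number of numberings with given `(x, P)` is
`P.card! * (Fintype.card ι - 1 - P.card)!`, independent of `x`, so the sum over `x` gives
`∑ x ∈ σ, h x` in place of `σ.card`. -/
theorem average_mn [Fintype ι] (σ : Finset ι) (hσ : σ.Nonempty) (N : Finset ι)
    (hN : Disjoint σ N) (f : Finset ι → ℝ) (h : ι → ℝ) :
    ∑ φ : Numbering ι, f (N.filter (fun y => ∀ x ∈ σ, (φ y : ℕ) < φ x)) *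
        mn (fun y => (φ y : ℕ)) σ h =
      (Fintype.card ι).factorial * (PhiK σ.card N f * av σ h) := by
  have hcard : (0 : ℝ) < σ.card := by exact_mod_cast card_pos.2 hσ
  have h1 := AvgMn_sum σ hσ N f (fun _ => 1)
  have h2 := Pool.TSph.average_lower σ hσ N hN f
  have h3 : ∑ φ : Numbering ι, f (N.filter (fun y => ∀ x ∈ σ, (φ y : ℕ) < φ x)) *
      mn (fun y => (φ y : ℕ)) σ (fun _ => 1) =
      ∑ φ : Numbering ι, f (N.filter (fun y => ∀ x ∈ σ, (φ y : ℕ) < φ x)) := by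
    refine sum_congr rfl fun φ _ => ?_
    obtain ⟨x0, hx0, hmin⟩ := exists_min_image σ (fun y => (φ y : ℕ)) hσ
    rw [AvgMn_mn σ φ x0 hx0 hmin, mul_one]
  rw [h3, h2, sum_const, nsmul_eq_mul, mul_one] at h1
  rw [AvgMn_sum σ hσ N f h]
  unfold av
  have h4 : ((Fintype.card ι).factorial : ℝ) * (PhiK σ.card N f * ((∑ x ∈ σ, h x) / σ.card)) =
      (∑ x ∈ σ, h x) / σ.card * ((Fintype.card ι).factorial * PhiK σ.card N f) := by ring
  rw [h4, h1]
  field_simp

end Pool.TSphM
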