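import Pool.Agent.Lib.MP_3de3a3_co.M.Defs

/-! # The complete graph with D + 1 vertices (module M/Clique) -/

set_option autoImplicit false

namespace Pool.TSphM

open Finset
open Pool.TSph (verts IsSphere2 adj comp Ep PhiK)
open Pool.TSphD (fc rdg lk Lo PM side IsLF mv Closings)

variable {ι : Type*} [DecidableEq ι]

/-- The `θ x`, `x ∈ V`, are a basis of `ℝ ^ (D + 1)`; let `S` be the matrix with `S θ_x = v_x` for
`x ∈ V`. Then `θ_x ⬝ S θ_y + θ_y ⬝ S θ_x = 0` for all `x, y ∈ V` (also for `x = y`), so the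
bilinear form `a ⬝ S b + b ⬝ S a` vanishes on a basis, so `S` is skew. -/
theorem rig_clique (D : ℕ) (V : Finset ι) (A : ι → ι → Prop) (θ : ι → Fin (D + 1) → ℝ)
    (hV : V.card = D + 1) (hA : ∀ x ∈ V, ∀ y ∈ V, x ≠ y → A x y)
    (hθ : LinearIndependent ℝ (fun x : V => θ (x : ι))) : Rig D V A θ := by
  classical
  intro v h0 h1
  have hcard : Fintype.card V = Module.finrank ℝ (Fin (D + 1) → ℝ) := by
    rw [Fintype.card_coe, hV, Module.finrank_fin_fun]
  have hne : Nonempty V := by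
    rw [← Fintype.card_pos_iff, Fintype.card_coe, hV]
    exact Nat.succ_pos D
  let b := basisOfLinearIndependentOfCardEqFinrank hθ hcard
  have hb : ∀ x : V, b x = θ (x : ι) := fun x => by
    simp [b]
  let f : (Fin (D + 1) → ℝ) →ₗ[ℝ] (Fin (D + 1) → ℝ) := b.constr ℝ (fun x : V => v (x : ι))
  have hf : ∀ x : V, f (θ (x : ι)) = v (x : ι) := fun x => by
    rw [← hb x]
    exact b.constr_basis ℝ _ x
  let S := LinearMap.toMatrix' f
  have hS : ∀ a, S.mulVec a = f a := fun a => by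
    rw [← Matrix.toLin'_apply, Matrix.toLin'_toMatrix']
  -- the symmetric form
  let B : (Fin (D + 1) → ℝ) →ₗ[ℝ] (Fin (D + 1) → ℝ) →ₗ[ℝ] ℝ :=
    LinearMap.mk₂ ℝ (fun a c => a ⬝ᵥ f c + c ⬝ᵥ f a)
      (fun a a' c => by simp only [add_dotProduct, map_add, dotProduct_add]; ring)
      (fun r a c => by simp only [smul_dotProduct, map_smul, dotProduct_smul, smul_add])
      (fun a c c' => by simp only [add_dotProduct, map_add, dotProduct_add]; ring)
      (fun r a c => by simp only [smul_dotProduct, map_smul, dotProduct_smul, smul_add])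
  have hB : B = 0 := by
    refine b.ext (fun x => b.ext (fun y => ?_))
    rw [hb, hb]
    show θ (x : ι) ⬝ᵥ f (θ (y : ι)) + θ (y : ι) ⬝ᵥ f (θ (x : ι)) = 0
    rw [hf, hf]
    by_cases hxy : (x : ι) = y
    · rw [hxy, h0 _ y.2, add_zero]
    · exact h1 _ x.2 _ y.2 (hA _ x.2 _ y.2 hxy)
  refine ⟨S, ?_, fun x hx => ?_⟩
  · ext i j
    rw [Matrix.transpose_apply, Matrix.neg_apply]
    have h2 : B (Pi.single i 1) (Pi.single j 1) = 0 := by rw [hB]; rfl
    have h3 : (Pi.single i 1 : Fin (D + 1) → ℝ) ⬝ᵥ f (Pi.single j 1) +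
        (Pi.single j 1 : Fin (D + 1) → ℝ) ⬝ᵥ f (Pi.single i 1) = 0 := h2
    rw [← hS, ← hS, single_dotProduct, single_dotProduct, one_mul, one_mul,
      Matrix.mulVec_single_one, Matrix.mulVec_single_one] at h3
    have h4 : S i j + S j i = 0 := h3
    linarith
  · rw [hS]
    exact (hf ⟨x, hx⟩).symm

end Pool.TSphM
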