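import Pool.Agent.Lib.MP_3de3a3_co.M.Defs

/-! # Generic points are independent (module M/Ind) -/

set_option autoImplicit false

namespace Pool.TSphM

open Finset
open Pool.TSph (verts IsSphere2 adj comp Ep PhiK)
open Pool.TSphD (fc rdg lk Lo PM side IsLF mv Closings)

variable {ι : Type*} [DecidableEq ι]

/-- A nonzero polynomial is nonzero at some point (`MvPolynomial.funext`). -/
theorem exists_eval_ne {σ : Type*} {p : MvPolynomial σ ℝ} (hp : p ≠ 0) :
    ∃ θ : σ → ℝ, MvPolynomial.eval θ p ≠ 0 := by
  by_contra h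
  push Not at h
  exact hp (MvPolynomial.funext fun x => by rw [h x, map_zero])

/-- Number the elements of `R`: `x_0, …, x_(r-1)`, `r ≤ D + 1`, and let `p` be the determinant of
the `r × r` matrix of the variables `X (x_i, j)`, `j < r`. It is not zero (evaluate at
`θ (x_i, j) = δ_ij`), and if it does not vanish at `θ` then the points are independent. -/
theorem exists_ind (D : ℕ) (R : Finset ι) (hR : R.card ≤ D + 1) :
    ∃ p : MvPolynomial (ι × ℕ) ℝ, p ≠ 0 ∧ ∀ θ : ι × ℕ → ℝ, MvPolynomial.eval θ p ≠ 0 →
      LinearIndependent ℝ (fun x : R => pt D θ (x : ι)) := by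
  classical
  set x : Fin R.card → ι := fun i => (R.equivFin.symm i : ι) with hx
  have hxinj : Function.Injective x := by
    intro i j h
    exact R.equivFin.symm.injective (Subtype.ext h)
  set A : Matrix (Fin R.card) (Fin R.card) (MvPolynomial (ι × ℕ) ℝ) :=
    Matrix.of fun i j => MvPolynomial.X (x i, (j : ℕ)) with hA
  have hev : ∀ θ : ι × ℕ → ℝ, MvPolynomial.eval θ A.det =
      (Matrix.of fun i j : Fin R.card => θ (x i, (j : ℕ))).det := by
    intro θ
    rw [RingHom.map_det]
    congr 1
    ext i j
    simp [hA]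
  refine ⟨A.det, ?_, ?_⟩
  · intro h0
    have h1 := hev (fun y => if ∃ i : Fin R.card, x i = y.1 ∧ (i : ℕ) = y.2 then 1 else 0)
    rw [h0, map_zero] at h1
    have h2 : (Matrix.of fun i j : Fin R.card =>
        (fun y : ι × ℕ => if ∃ i : Fin R.card, x i = y.1 ∧ (i : ℕ) = y.2 then (1 : ℝ) else 0)
          (x i, (j : ℕ))) = 1 := by
      ext i j
      simp only [Matrix.of_apply, Matrix.one_apply]
      by_cases hij : i = j
      · subst hij
        rw [if_pos ⟨i, rfl, rfl⟩, if_pos rfl]
      · rw [if_neg hij, if_neg]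
        rintro ⟨l, hl1, hl2⟩
        have h3 : l = i := hxinj hl1
        have h4 : l = j := Fin.ext hl2
        exact hij (h3.symm.trans h4)
    rw [h2, Matrix.det_one] at h1
    exact one_ne_zero h1.symm
  · intro θ hθ
    rw [hev] at hθ
    have h1 := Matrix.linearIndependent_rows_of_det_ne_zero hθ
    have h2 : LinearIndependent ℝ ((LinearMap.funLeft ℝ ℝ (Fin.castLE hR)) ∘
        (fun y : R => pt D θ (y : ι))) := by
      rw [← linearIndependent_equiv R.equivFin.symm]
      exact h1
    exact h2.of_comp _

end Pool.TSphM
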