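import Pool.Agent.Lib.MP_3de3a3_co.M.Defs

/-! # Semicontinuity of the rank (module M/Semi) -/

set_option autoImplicit false

namespace Pool.TSphM

open Finset
open Pool.TSph (verts IsSphere2 adj comp Ep PhiK)
open Pool.TSphD (fc rdg lk Lo PM side IsLF mv Closings)

variable {ι : Type*} [DecidableEq ι]

private theorem semi_aux {m n : Type*} [Fintype m] [Fintype n] [DecidableEq m] [DecidableEq n]
    (M : Matrix m n ℝ) :
    ∃ (B : Matrix (Fin M.rank) m ℝ) (C : Matrix n (Fin M.rank) ℝ), B * M * C = 1 := by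
  classical
  set r := M.rank with hr
  have hfin : Module.finrank ℝ (LinearMap.range M.mulVecLin) = r := by
    rw [hr, Matrix.rank]
  let b : Module.Basis (Fin r) ℝ (LinearMap.range M.mulVecLin) :=
    Module.finBasisOfFinrankEq ℝ _ hfin
  have hc : ∀ j : Fin r, ∃ c : n → ℝ, M.mulVecLin c = (b j : m → ℝ) := fun j => (b j).2
  choose c hc using hc
  have hli : LinearIndependent ℝ (fun j : Fin r => (b j : m → ℝ)) := by
    have := b.linearIndependent.map' (LinearMap.range M.mulVecLin).subtype
      (Submodule.ker_subtype _)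
    simpa [Function.comp_def] using this
  let e : (Fin r → ℝ) →ₗ[ℝ] (m → ℝ) := Fintype.linearCombination ℝ (fun j : Fin r => (b j : m → ℝ))
  have he : LinearMap.ker e = ⊥ := by
    rw [LinearMap.ker_eq_bot]
    exact hli.fintypeLinearCombination_injective
  obtain ⟨g, hg⟩ := LinearMap.exists_leftInverse_of_injective e he
  refine ⟨LinearMap.toMatrix' g, Matrix.of (fun i j => c j i), ?_⟩
  ext i j
  have h1 : g (b j : m → ℝ) = Pi.single j 1 := by
    have : e (Pi.single j 1) = (b j : m → ℝ) := by
      simp [e, Fintype.linearCombination_apply_single]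
    rw [← this, ← LinearMap.comp_apply, hg, LinearMap.id_apply]
  have h2 : M.mulVec (c j) = (b j : m → ℝ) := by rw [← hc j]; rfl
  rw [Matrix.mul_assoc, Matrix.mul_apply]
  have h3 : ∀ k, (M * (Matrix.of fun i j => c j i)) k j = (b j : m → ℝ) k := by
    intro k
    rw [← h2, Matrix.mul_apply]
    rfl
  simp only [h3]
  have h4 : (LinearMap.toMatrix' g).mulVec (b j : m → ℝ) = Pi.single j 1 := by
    rw [LinearMap.toMatrix'_mulVec, h1]
  have h5 := congrFun h4 i
  rw [Matrix.mulVec, dotProduct] at h5
  rw [h5, Matrix.one_apply, Pi.single_apply]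

/-- Let `r` be the rank of `M₀ = M(θ₀)`. There are real matrices `B` (`r` rows) and `C` (`r` columns)
with `B M₀ C = 1` (choose a basis of the range of `M₀`, preimages of the basis vectors as columns of
`C`, and dual coordinates as rows of `B`). Put `p = det (B M C)`. Then `eval θ₀ p = 1`, and if
`eval θ p ≠ 0` then `B M(θ) C` is invertible, so the rank of `M(θ)` is at least `r`. -/
theorem semi {σ m n : Type*} [Fintype m] [Fintype n] [DecidableEq m] [DecidableEq n]
    (M : Matrix m n (MvPolynomial σ ℝ)) (θ₀ : σ → ℝ) :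
    ∃ p : MvPolynomial σ ℝ, MvPolynomial.eval θ₀ p ≠ 0 ∧
      ∀ θ : σ → ℝ, MvPolynomial.eval θ p ≠ 0 →
        (M.map (fun q => MvPolynomial.eval θ₀ q)).rank ≤
          (M.map (fun q => MvPolynomial.eval θ q)).rank := by
  classical
  obtain ⟨B, C, hBC⟩ := semi_aux (M.map (fun q => MvPolynomial.eval θ₀ q))
  have key : ∀ θ : σ → ℝ, MvPolynomial.eval θ
      (Matrix.det (B.map (MvPolynomial.C (σ := σ)) * M * C.map (MvPolynomial.C (σ := σ)))) =
      Matrix.det (B * M.map (fun q => MvPolynomial.eval θ q) * C) := by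
    intro θ
    rw [RingHom.map_det]
    congr 1
    rw [RingHom.mapMatrix_apply, Matrix.map_mul, Matrix.map_mul]
    have hB : (B.map (MvPolynomial.C (σ := σ))).map (MvPolynomial.eval θ) = B := by
      ext i j; simp
    have hC : (C.map (MvPolynomial.C (σ := σ))).map (MvPolynomial.eval θ) = C := by
      ext i j; simp
    rw [hB, hC]
  refine ⟨Matrix.det (B.map (MvPolynomial.C (σ := σ)) * M * C.map (MvPolynomial.C (σ := σ))),
    ?_, ?_⟩
  · rw [key, hBC, Matrix.det_one]
    exact one_ne_zero
  · intro θ hθ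
    rw [key] at hθ
    have h1 : (B * M.map (fun q => MvPolynomial.eval θ q) * C).rank =
        (M.map (fun q => MvPolynomial.eval θ₀ q)).rank := by
      rw [Matrix.rank_of_isUnit _ ((Matrix.isUnit_iff_isUnit_det _).2 (isUnit_iff_ne_zero.2 hθ)),
        Fintype.card_fin]
    calc (M.map (fun q => MvPolynomial.eval θ₀ q)).rank
        = (B * M.map (fun q => MvPolynomial.eval θ q) * C).rank := h1.symm
      _ ≤ (B * M.map (fun q => MvPolynomial.eval θ q)).rank := Matrix.rank_mul_le_left _ _
      _ ≤ (M.map (fun q => MvPolynomial.eval θ q)).rank := Matrix.rank_mul_le_right _ _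

end Pool.TSphM
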