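import Pool.Agent.Lib.MP_3de3a3_co.M.Defs

/-! # Skew matrices (module M/Skew) -/

set_option autoImplicit false

namespace Pool.TSphM

open Finset
open Pool.TSph (verts IsSphere2 adj comp Ep PhiK)
open Pool.TSphD (fc rdg lk Lo PM side IsLF mv Closings)

variable {ι : Type*} [DecidableEq ι]

/-- The skew symmetric matrices. -/
def Sk (D : ℕ) : Submodule ℝ (Matrix (Fin (D + 1)) (Fin (D + 1)) ℝ) where
  carrier := {S | S.transpose = -S}
  add_mem' := by
    intro a b ha hb
    simp only [Set.mem_setOf_eq] at ha hb ⊢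
    rw [Matrix.transpose_add, ha, hb]
    abel
  zero_mem' := by simp
  smul_mem' := by
    intro c a ha
    simp only [Set.mem_setOf_eq] at ha ⊢
    rw [Matrix.transpose_smul, ha, smul_neg]

/-- A skew symmetric matrix is determined by its entries above the diagonal. -/
theorem skew_finrank (D : ℕ) : 2 * Module.finrank ℝ (Sk D) ≤ D * (D + 1) := by
  classical
  let I := {p : Fin (D + 1) × Fin (D + 1) // p.1 < p.2}
  let φ : Sk D →ₗ[ℝ] (I → ℝ) :=
    { toFun := fun S p => (S : Matrix (Fin (D + 1)) (Fin (D + 1)) ℝ) p.1.1 p.1.2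
      map_add' := fun a b => by ext p; simp
      map_smul' := fun c a => by ext p; simp }
  have hφ : Function.Injective φ := by
    rw [← LinearMap.ker_eq_bot, LinearMap.ker_eq_bot']
    intro S hS
    have hsk : (S : Matrix (Fin (D + 1)) (Fin (D + 1)) ℝ).transpose = -(S : Matrix _ _ ℝ) := S.2
    have he : ∀ i j, (S : Matrix (Fin (D + 1)) (Fin (D + 1)) ℝ) j i =
        -(S : Matrix (Fin (D + 1)) (Fin (D + 1)) ℝ) i j := by
      intro i j
      have := congrFun (congrFun hsk i) j
      simpa [Matrix.transpose_apply] using this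
    have hlt : ∀ i j, i < j → (S : Matrix (Fin (D + 1)) (Fin (D + 1)) ℝ) i j = 0 := by
      intro i j hij
      have := congrFun hS (⟨(i, j), hij⟩ : I)
      simpa [φ] using this
    apply Subtype.ext
    ext i j
    rcases lt_trichotomy i j with h | h | h
    · simpa using hlt i j h
    · subst h
      have := he i i
      have h0 : (S : Matrix (Fin (D + 1)) (Fin (D + 1)) ℝ) i i = 0 := by linarith
      simpa using h0
    · have h1 := hlt j i h
      have h2 := he j i
      rw [h1, neg_zero] at h2
      simpa using h2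
  have h1 := LinearMap.finrank_le_finrank_of_injective hφ
  have h2 : Module.finrank ℝ (I → ℝ) = Fintype.card I := Module.finrank_fintype_fun_eq_card ℝ
  have hsw : Fintype.card {p : Fin (D + 1) × Fin (D + 1) // p.2 < p.1} = Fintype.card I := by
    refine Fintype.card_congr ?_
    exact (Equiv.prodComm _ _).subtypeEquiv (fun p => by simp)
  have hdg : Fintype.card {p : Fin (D + 1) × Fin (D + 1) // p.1 = p.2} = D + 1 := by
    have : Fintype.card {p : Fin (D + 1) × Fin (D + 1) // p.1 = p.2} =
        Fintype.card (Fin (D + 1)) := by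
      refine Fintype.card_congr ?_
      exact
        { toFun := fun p => p.1.1
          invFun := fun i => ⟨(i, i), rfl⟩
          left_inv := by
            rintro ⟨⟨a, b⟩, h⟩
            simp only at h
            subst h
            rfl
          right_inv := fun i => rfl }
    rw [this, Fintype.card_fin]
  have htot : Fintype.card I + Fintype.card {p : Fin (D + 1) × Fin (D + 1) // p.2 < p.1} +
      Fintype.card {p : Fin (D + 1) × Fin (D + 1) // p.1 = p.2} = (D + 1) * (D + 1) := by
    have hc : Fintype.card (Fin (D + 1) × Fin (D + 1)) = (D + 1) * (D + 1) := by simp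
    rw [← hc]
    simp only [I, Fintype.card_subtype]
    rw [← Finset.card_union_of_disjoint, ← Finset.card_union_of_disjoint]
    · rw [← Finset.card_univ]
      congr 1
      ext p
      simp only [Finset.mem_union, Finset.mem_filter, Finset.mem_univ, true_and, iff_true]
      rcases lt_trichotomy p.1 p.2 with h | h | h
      · exact Or.inl (Or.inl h)
      · exact Or.inr h
      · exact Or.inl (Or.inr h)
    · rw [Finset.disjoint_left]
      intro p hp hq
      simp only [Finset.mem_union, Finset.mem_filter, Finset.mem_univ, true_and] at hp hq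
      rcases hp with h | h
      · exact absurd hq (ne_of_lt h)
      · exact absurd hq.symm (ne_of_lt h)
    · rw [Finset.disjoint_left]
      intro p hp hq
      simp only [Finset.mem_filter, Finset.mem_univ, true_and] at hp hq
      exact absurd (hp.trans hq) (lt_irrefl _)
  rw [hsw, hdg] at htot
  rw [h2] at h1
  nlinarith [h1, htot]

/-- For `T = S₁ - S₂`, skew, and `T u_i = 0` for `D` independent vectors: the range of `T` is
orthogonal to all `u_i` (`(T x) ⬝ u = - x ⬝ (T u)`), so it is contained in a line `ℝ w`,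
`T x = f x • w`. From `x ⬝ T x = 0` for `x = w` we get `f w = 0`, so `T w = 0`, and
`f x (w ⬝ w) = w ⬝ T x = - (T w) ⬝ x = 0`. -/
theorem skew_eq {D : ℕ} {S₁ S₂ : Matrix (Fin (D + 1)) (Fin (D + 1)) ℝ}
    (h₁ : S₁.transpose = -S₁) (h₂ : S₂.transpose = -S₂) {α : Type*} [Fintype α]
    (hα : D ≤ Fintype.card α) (u : α → Fin (D + 1) → ℝ) (hu : LinearIndependent ℝ u)
    (h : ∀ i, S₁.mulVec (u i) = S₂.mulVec (u i)) : S₁ = S₂ := by
  classical
  obtain ⟨T, hT⟩ : ∃ T, T = S₁ - S₂ := ⟨_, rfl⟩
  have hTs : T.transpose = -T := by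
    rw [hT, Matrix.transpose_sub, h₁, h₂]; abel
  have hTu : ∀ i, T.mulVec (u i) = 0 := by
    intro i; rw [hT, Matrix.sub_mulVec, h i, sub_self]
  -- `x ⬝ T y = - T x ⬝ y`
  have hsk : ∀ x y : Fin (D + 1) → ℝ, x ⬝ᵥ T.mulVec y = -(T.mulVec x ⬝ᵥ y) := by
    intro x y
    rw [Matrix.dotProduct_mulVec, ← Matrix.mulVec_transpose, hTs, Matrix.neg_mulVec,
      neg_dotProduct]
  have hself : ∀ x : Fin (D + 1) → ℝ, x ⬝ᵥ T.mulVec x = 0 := by
    intro x
    have h3 := hsk x x
    rw [dotProduct_comm (T.mulVec x) x] at h3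
    linarith
  have hT0 : T = 0 := by
    by_contra hne
    have hx : ∃ x, T.mulVec x ≠ 0 := by
      by_contra hcon
      push Not at hcon
      apply hne
      have : T.mulVecLin = 0 := by
        ext1; ext1
        simp [hcon]
      have h5 : Matrix.toLin' T = Matrix.toLin' (0 : Matrix (Fin (D + 1)) (Fin (D + 1)) ℝ) := by
        rw [map_zero, Matrix.toLin'_apply']
        exact this
      exact Matrix.toLin'.injective h5
    obtain ⟨x, hx⟩ := hx
    have hker : Submodule.span ℝ (Set.range u) ≤ LinearMap.ker T.mulVecLin := by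
      rw [Submodule.span_le]
      rintro _ ⟨i, rfl⟩
      simpa [LinearMap.mem_ker] using hTu i
    have hd1 : Module.finrank ℝ (Submodule.span ℝ (Set.range u)) = Fintype.card α :=
      finrank_span_eq_card hu
    have hd2 := Submodule.finrank_mono hker
    have hd3 := LinearMap.finrank_range_add_finrank_ker T.mulVecLin
    rw [Module.finrank_fintype_fun_eq_card, Fintype.card_fin] at hd3
    have hd4 : Module.finrank ℝ (LinearMap.range T.mulVecLin) ≤ 1 := by omega
    obtain ⟨v, hv⟩ := finrank_le_one_iff.1 hd4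
    -- the range is the line through `w = T x`
    obtain ⟨c, hc⟩ := hv ⟨T.mulVec x, x, rfl⟩
    obtain ⟨d, hd⟩ := hv ⟨T.mulVec (T.mulVec x), T.mulVec x, rfl⟩
    have hc' : c • (v : Fin (D + 1) → ℝ) = T.mulVec x := congrArg Subtype.val hc
    have hd' : d • (v : Fin (D + 1) → ℝ) = T.mulVec (T.mulVec x) := congrArg Subtype.val hd
    have hc0 : c ≠ 0 := by
      rintro rfl
      rw [zero_smul] at hc'
      exact hx hc'.symm
    have hw : T.mulVec (T.mulVec x) = (d / c) • T.mulVec x := by
      rw [← hd', ← hc', smul_smul, div_mul_cancel₀ _ hc0]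
    have hww : 0 < T.mulVec x ⬝ᵥ T.mulVec x := by
      have h6 : 0 ≤ T.mulVec x ⬝ᵥ T.mulVec x :=
        Finset.sum_nonneg fun i _ => mul_self_nonneg _
      refine lt_of_le_of_ne h6 fun h7 => hx ?_
      exact dotProduct_self_eq_zero.1 h7.symm
    have h8 := hself (T.mulVec x)
    rw [hw, dotProduct_smul, smul_eq_mul] at h8
    have h9 : d / c = 0 := by
      rcases mul_eq_zero.1 h8 with h9 | h9
      · exact h9
      · exact absurd h9 hww.ne'
    rw [h9, zero_smul] at hw
    have h10 := hsk (T.mulVec x) x
    rw [hw, zero_dotProduct, neg_zero] at h10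
    exact hww.ne' h10
  rw [hT] at hT0
  exact sub_eq_zero.1 hT0

end Pool.TSphM
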