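import Pool.Agent.Lib.MP_3de3a3_co.M.Defs
import Pool.Agent.Lib.MP_3de3a3_co.M.Semi
import Pool.Agent.Lib.MP_3de3a3_co.M.Skew
import Pool.Agent.Lib.MP_3de3a3_co.M.Ind

/-! # Rigidity at one point implies generic rigidity (module M/Spec) -/

set_option autoImplicit false

namespace Pool.TSphM

open Finset
open Pool.TSph (verts IsSphere2 adj comp Ep PhiK)
open Pool.TSphD (fc rdg lk Lo PM side IsLF mv Closings)

variable {ι : Type*} [DecidableEq ι]

open Classical in
/-- The matrix of the equations. -/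
private noncomputable def Spec_M (D : ℕ) (V : Finset ι) (A : ι → ι → Prop) :
    Matrix (V ⊕ V × V) (V × Fin (D + 1)) (MvPolynomial (ι × ℕ) ℝ) := fun r c =>
  match r with
  | Sum.inl x => if c.1 = x then MvPolynomial.X ((x : ι), (c.2 : ℕ)) else 0
  | Sum.inr xy => if A xy.1 xy.2 then
      (if c.1 = xy.2 then MvPolynomial.X ((xy.1 : ι), (c.2 : ℕ)) else 0) +
        (if c.1 = xy.1 then MvPolynomial.X ((xy.2 : ι), (c.2 : ℕ)) else 0) else 0

private theorem Spec_sum {D : ℕ} {V : Finset ι} (f : Fin (D + 1) → ℝ) (z : V)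
    (v : V × Fin (D + 1) → ℝ) :
    ∑ c : V × Fin (D + 1), (if c.1 = z then f c.2 else 0) * v c = f ⬝ᵥ (fun i => v (z, i)) := by
  rw [Fintype.sum_prod_type, Finset.sum_eq_single z]
  · simp [dotProduct]
  · intro y _ hy
    simp [hy]
  · intro h
    exact absurd (mem_univ z) h

private theorem Spec_inl {D : ℕ} {V : Finset ι} {A : ι → ι → Prop} (θ : ι × ℕ → ℝ)
    (v : V × Fin (D + 1) → ℝ) (x : V) :
    ((Spec_M D V A).map (fun q => MvPolynomial.eval θ q)).mulVec v (Sum.inl x) =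
      pt D θ x ⬝ᵥ (fun i => v (x, i)) := by
  rw [← Spec_sum (pt D θ x) x v]
  show ∑ c, MvPolynomial.eval θ (if c.1 = x then MvPolynomial.X ((x : ι), (c.2 : ℕ)) else 0) * v c = _
  refine Finset.sum_congr rfl (fun c _ => ?_)
  by_cases h : c.1 = x
  · rw [if_pos h, if_pos h, MvPolynomial.eval_X]
    rfl
  · rw [if_neg h, if_neg h, map_zero]

private theorem Spec_inr {D : ℕ} {V : Finset ι} {A : ι → ι → Prop} (θ : ι × ℕ → ℝ)
    (v : V × Fin (D + 1) → ℝ) (x y : V) (hA : A x y) :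
    ((Spec_M D V A).map (fun q => MvPolynomial.eval θ q)).mulVec v (Sum.inr (x, y)) =
      pt D θ x ⬝ᵥ (fun i => v (y, i)) + pt D θ y ⬝ᵥ (fun i => v (x, i)) := by
  classical
  rw [← Spec_sum (pt D θ x) y v, ← Spec_sum (pt D θ y) x v, ← Finset.sum_add_distrib]
  show ∑ c, MvPolynomial.eval θ (Spec_M D V A (Sum.inr (x, y)) c) * v c = _
  refine Finset.sum_congr rfl (fun c _ => ?_)
  have h1 : Spec_M D V A (Sum.inr (x, y)) c =
      (if c.1 = y then MvPolynomial.X ((x : ι), (c.2 : ℕ)) else 0) +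
        (if c.1 = x then MvPolynomial.X ((y : ι), (c.2 : ℕ)) else 0) := by
    unfold Spec_M
    exact if_pos hA
  rw [h1, map_add, ← add_mul]
  congr 1
  congr 1
  · by_cases h : c.1 = y
    · rw [if_pos h, if_pos h, MvPolynomial.eval_X]
      rfl
    · rw [if_neg h, if_neg h, map_zero]
  · by_cases h : c.1 = x
    · rw [if_pos h, if_pos h, MvPolynomial.eval_X]
      rfl
    · rw [if_neg h, if_neg h, map_zero]

private theorem Spec_inr0 {D : ℕ} {V : Finset ι} {A : ι → ι → Prop} (θ : ι × ℕ → ℝ)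
    (v : V × Fin (D + 1) → ℝ) (x y : V) (hA : ¬ A x y) :
    ((Spec_M D V A).map (fun q => MvPolynomial.eval θ q)).mulVec v (Sum.inr (x, y)) = 0 := by
  classical
  show ∑ c, MvPolynomial.eval θ (Spec_M D V A (Sum.inr (x, y)) c) * v c = _
  refine Finset.sum_eq_zero (fun c _ => ?_)
  have h1 : Spec_M D V A (Sum.inr (x, y)) c = 0 := by
    unfold Spec_M
    exact if_neg hA
  rw [h1, map_zero, zero_mul]

private theorem Spec_ker {D : ℕ} {V : Finset ι} {A : ι → ι → Prop} (θ : ι × ℕ → ℝ)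
    (v : V × Fin (D + 1) → ℝ) :
    v ∈ LinearMap.ker ((Spec_M D V A).map (fun q => MvPolynomial.eval θ q)).mulVecLin ↔
      (∀ x : V, pt D θ x ⬝ᵥ (fun i => v (x, i)) = 0) ∧
      ∀ x y : V, A x y → pt D θ x ⬝ᵥ (fun i => v (y, i)) + pt D θ y ⬝ᵥ (fun i => v (x, i)) = 0 := by
  rw [LinearMap.mem_ker, Matrix.mulVecLin_apply]
  constructor
  · intro h
    refine ⟨fun x => ?_, fun x y hA => ?_⟩
    · rw [← Spec_inl (A := A), h]
      rfl
    · rw [← Spec_inr θ v x y hA, h]
      rfl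
  · rintro ⟨h1, h2⟩
    ext r
    rcases r with x | ⟨x, y⟩
    · rw [Spec_inl, h1 x]
      rfl
    · by_cases hA : A x y
      · rw [Spec_inr θ v x y hA, h2 x y hA]
        rfl
      · rw [Spec_inr0 θ v x y hA]
        rfl

/-- The trivial motions. -/
private def Spec_Phi {D : ℕ} (V : Finset ι) (θ : ι → Fin (D + 1) → ℝ) :
    Sk D →ₗ[ℝ] (V × Fin (D + 1) → ℝ) where
  toFun S c := (S : Matrix (Fin (D + 1)) (Fin (D + 1)) ℝ).mulVec (θ c.1) c.2
  map_add' S T := by
    ext c
    simp [Matrix.add_mulVec]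
  map_smul' a S := by
    ext c
    simp [Matrix.smul_mulVec]

private theorem Spec_skew {D : ℕ} {S : Matrix (Fin (D + 1)) (Fin (D + 1)) ℝ}
    (hS : S.transpose = -S) (a b : Fin (D + 1) → ℝ) :
    a ⬝ᵥ S.mulVec b + b ⬝ᵥ S.mulVec a = 0 := by
  have h1 : b ⬝ᵥ S.mulVec a = -(a ⬝ᵥ S.mulVec b) := by
    rw [Matrix.dotProduct_mulVec, ← Matrix.mulVec_transpose, hS, Matrix.neg_mulVec,
      neg_dotProduct, dotProduct_comm]
  rw [h1, add_neg_cancel]

private theorem Spec_range_le {D : ℕ} {V : Finset ι} {A : ι → ι → Prop} (θ : ι × ℕ → ℝ) :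
    LinearMap.range (Spec_Phi (D := D) V (pt D θ)) ≤
      LinearMap.ker ((Spec_M D V A).map (fun q => MvPolynomial.eval θ q)).mulVecLin := by
  rintro _ ⟨S, rfl⟩
  rw [Spec_ker]
  refine ⟨fun x => ?_, fun x y _ => ?_⟩
  · have h1 := Spec_skew S.2 (pt D θ x) (pt D θ x)
    have h2 : pt D θ x ⬝ᵥ (S : Matrix (Fin (D + 1)) (Fin (D + 1)) ℝ).mulVec (pt D θ x) = 0 := by
      linarith
    exact h2
  · exact Spec_skew S.2 (pt D θ x) (pt D θ y)

/-- Let `M` be the matrix with the columns `V × Fin (D + 1)` (unknowns `v x i`) and the rows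
`V` (equation `θ x ⬝ v x = 0`) and `V × V` (equation `θ x ⬝ v y + θ y ⬝ v x = 0` if `A x y`, else
`0 = 0`), its entries are variables `X (x, i)` (or sums of two). At `θ₀` (extended by `0`) the kernel
of `M` is contained in the image of the linear map `S ↦ (S θ₀ x)_x` on `Sk D`, so it has at most
the dimension of `Sk D`. By `semi` there is `p`, `p ≠ 0`, such that for `p(θ) ≠ 0` the kernel of `M(θ)` has
at most the dimension of `Sk D` (rank-nullity). Let `q` be the polynomial of `exists_ind` for `D`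
elements of `V`. For `p q (θ) ≠ 0` the map `S ↦ (S θ x)_x` is injective (`skew_eq`) and its image is
contained in the kernel of `M(θ)`, so they are equal. -/
theorem grig_of_rig (D : ℕ) (V : Finset ι) (A : ι → ι → Prop) (θ₀ : ι → Fin (D + 1) → ℝ)
    (hV : D ≤ V.card) (h : Rig D V A θ₀) : GRig D V A := by
  classical
  -- the point `θ₀` extended by zero
  set θ' : ι × ℕ → ℝ := fun z => if hz : z.2 < D + 1 then θ₀ z.1 ⟨z.2, hz⟩ else 0 with hθ'
  have hpt : ∀ x, pt D θ' x = θ₀ x := by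
    intro x
    ext i
    show (if hz : (i : ℕ) < D + 1 then θ₀ x ⟨i, hz⟩ else 0) = θ₀ x i
    rw [dif_pos i.2]
  -- the kernel at `θ₀`
  have hker0 : LinearMap.ker ((Spec_M D V A).map (fun q => MvPolynomial.eval θ' q)).mulVecLin ≤
      LinearMap.range (Spec_Phi (D := D) V (pt D θ')) := by
    intro v hv
    rw [Spec_ker] at hv
    obtain ⟨S, hS, hSv⟩ := h (fun x => if hx : x ∈ V then fun i => v (⟨x, hx⟩, i) else 0)
      (fun x hx => by
        simp only [dif_pos hx]
        rw [← hpt x]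
        exact hv.1 ⟨x, hx⟩)
      (fun x hx y hy hA => by
        simp only [dif_pos hx, dif_pos hy]
        rw [← hpt x, ← hpt y]
        exact hv.2 ⟨x, hx⟩ ⟨y, hy⟩ hA)
    refine ⟨⟨S, hS⟩, ?_⟩
    ext c
    obtain ⟨⟨x, hx⟩, i⟩ := c
    have h1 := hSv x hx
    simp only [dif_pos hx] at h1
    have h2 := congrFun h1 i
    show S.mulVec (pt D θ' x) i = v (⟨x, hx⟩, i)
    rw [hpt x, h2]
  have hdim0 : Module.finrank ℝ
      (LinearMap.ker ((Spec_M D V A).map (fun q => MvPolynomial.eval θ' q)).mulVecLin) ≤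
      Module.finrank ℝ (Sk D) :=
    (Submodule.finrank_mono hker0).trans (LinearMap.finrank_range_le _)
  obtain ⟨p, hp0, hp⟩ := semi (Spec_M D V A) θ'
  obtain ⟨R, hRV, hR⟩ := Finset.exists_subset_card_eq hV
  obtain ⟨q, hq0, hq⟩ := exists_ind D R (by omega)
  refine ⟨p * q, mul_ne_zero (fun e => hp0 (by rw [e, map_zero])) hq0, fun θ hθ => ?_⟩
  rw [map_mul] at hθ
  have hpθ := left_ne_zero_of_mul hθ
  have hqθ := right_ne_zero_of_mul hθ
  have hrank := hp θ hpθ
  -- rank and nullity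
  have hrn : ∀ N : Matrix (V ⊕ V × V) (V × Fin (D + 1)) ℝ,
      N.rank + Module.finrank ℝ (LinearMap.ker N.mulVecLin) = Fintype.card (V × Fin (D + 1)) := by
    intro N
    have h1 := LinearMap.finrank_range_add_finrank_ker N.mulVecLin
    rw [Module.finrank_fintype_fun_eq_card] at h1
    exact h1
  have h1 := hrn ((Spec_M D V A).map (fun q => MvPolynomial.eval θ' q))
  have h2 := hrn ((Spec_M D V A).map (fun q => MvPolynomial.eval θ q))
  -- the trivial motions
  have hinj : Function.Injective (Spec_Phi (D := D) V (pt D θ)) := by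
    intro S T hST
    apply Subtype.ext
    refine skew_eq S.2 T.2 (α := R) (by rw [Fintype.card_coe]; exact hR.ge)
      (fun x : R => pt D θ (x : ι)) (hq θ hqθ) (fun x => ?_)
    ext i
    exact congrFun hST (⟨x, hRV x.2⟩, i)
  have h3 : Module.finrank ℝ (LinearMap.range (Spec_Phi (D := D) V (pt D θ))) =
      Module.finrank ℝ (Sk D) := LinearMap.finrank_range_of_inj hinj
  have heq := Submodule.eq_of_le_of_finrank_le (Spec_range_le (D := D) (V := V) (A := A) θ) (by omega)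
  intro v hv1 hv2
  have hv : (fun c : V × Fin (D + 1) => v c.1 c.2) ∈
      LinearMap.ker ((Spec_M D V A).map (fun q => MvPolynomial.eval θ q)).mulVecLin := by
    rw [Spec_ker]
    exact ⟨fun x => hv1 x x.2, fun x y hA => hv2 x x.2 y y.2 hA⟩
  rw [← heq] at hv
  obtain ⟨S, hS⟩ := hv
  refine ⟨S, S.2, fun x hx => ?_⟩
  ext i
  exact (congrFun hS (⟨x, hx⟩, i)).symm

end Pool.TSphM
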