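import Pool.Agent.Lib.MP_3de3a3_co.M.Defs
import Pool.Agent.Lib.MP_3de3a3_co.M.Spec

/-! # Vertex splitting (module M/Split) -/

set_option autoImplicit false

namespace Pool.TSphM

open Finset
open Pool.TSph (verts IsSphere2 adj comp Ep PhiK)
open Pool.TSphD (fc rdg lk Lo PM side IsLF mv Closings)

variable {ι : Type*} [DecidableEq ι]

private theorem split_abs {E : Type*} [AddCommGroup E] [Module ℝ E] [FiniteDimensional ℝ E]
    (P : Set ((E →ₗ[ℝ] ℝ) × (E →ₗ[ℝ] ℝ))) (T : Submodule ℝ E)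
    (h0 : ∀ x, (∀ p ∈ P, p.1 x = 0) → x ∈ T)
    (hT : ∀ x ∈ T, ∀ p ∈ P, p.1 x = 0 ∧ p.2 x = 0) :
    ∃ t : ℝ, t ≠ 0 ∧ ∀ x, (∀ p ∈ P, p.1 x + t * p.2 x = 0) → x ∈ T := by
  classical
  obtain ⟨E', hE'⟩ := Submodule.exists_isCompl T
  set L0 : E' →ₗ[ℝ] (P → ℝ) := (LinearMap.pi (fun p : P => p.1.1)).comp E'.subtype with hL0
  set L1 : E' →ₗ[ℝ] (P → ℝ) := (LinearMap.pi (fun p : P => p.1.2)).comp E'.subtype with hL1
  have hinj : LinearMap.ker L0 = ⊥ := by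
    rw [LinearMap.ker_eq_bot']
    intro e he
    have h1 : ∀ p ∈ P, p.1 (e : E) = 0 := by
      intro p hp
      have := congrFun he ⟨p, hp⟩
      simpa [hL0] using this
    have h2 : (e : E) ∈ T ⊓ E' := ⟨h0 _ h1, e.2⟩
    rw [hE'.inf_eq_bot, Submodule.mem_bot] at h2
    exact Subtype.ext h2
  obtain ⟨B, hB⟩ := LinearMap.exists_leftInverse_of_injective L0 hinj
  set N : Module.End ℝ E' := B.comp L1 with hN
  have hfin : Set.Finite {μ : ℝ | N.HasEigenvalue μ} := Module.End.finite_hasEigenvalue N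
  obtain ⟨μ, hμ⟩ := (hfin.union (Set.finite_singleton (0 : ℝ))).infinite_compl.nonempty
  simp only [Set.mem_compl_iff, Set.mem_union, Set.mem_setOf_eq, Set.mem_singleton_iff,
    not_or] at hμ
  obtain ⟨hμ1, hμ0⟩ := hμ
  refine ⟨-μ⁻¹, neg_ne_zero.mpr (inv_ne_zero hμ0), fun x hx => ?_⟩
  have hxtop : x ∈ T ⊔ E' := by rw [hE'.sup_eq_top]; trivial
  obtain ⟨τ, hτ, e, he, rfl⟩ := Submodule.mem_sup.mp hxtop
  have h3 : L0 ⟨e, he⟩ + (-μ⁻¹) • L1 ⟨e, he⟩ = 0 := by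
    funext p
    have h4 := hx p.1 p.2
    rw [map_add, map_add, (hT τ hτ p.1 p.2).1, (hT τ hτ p.1 p.2).2, zero_add, zero_add] at h4
    simpa [hL0, hL1] using h4
  have h5 : B (L0 ⟨e, he⟩) = ⟨e, he⟩ := by
    have := LinearMap.congr_fun hB ⟨e, he⟩
    simpa using this
  have h6 : (⟨e, he⟩ : E') + (-μ⁻¹) • N ⟨e, he⟩ = 0 := by
    have := congrArg B h3
    rw [map_add, map_smul, h5, map_zero] at this
    exact this
  have h7 : N ⟨e, he⟩ = μ • (⟨e, he⟩ : E') := by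
    have h8 : (⟨e, he⟩ : E') = μ⁻¹ • N ⟨e, he⟩ := by
      have := eq_neg_of_add_eq_zero_left h6
      rw [neg_smul, neg_neg] at this
      exact this
    calc N ⟨e, he⟩ = μ • (μ⁻¹ • N ⟨e, he⟩) := by
          rw [smul_smul, mul_inv_cancel₀ hμ0, one_smul]
      _ = μ • (⟨e, he⟩ : E') := by rw [← h8]
  have h9 : (⟨e, he⟩ : E') = 0 := by
    by_contra hne
    exact hμ1 (Module.End.hasEigenvalue_of_hasEigenvector
      (Module.End.hasEigenvector_iff.mpr ⟨Module.End.mem_eigenspace_iff.mpr h7, hne⟩))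
  have h10 : e = 0 := congrArg Subtype.val h9
  rw [h10, add_zero]
  exact hτ

private theorem split_skew {n : ℕ} {S : Matrix (Fin n) (Fin n) ℝ} (hS : S.transpose = -S)
    (x y : Fin n → ℝ) : x ⬝ᵥ S.mulVec y + y ⬝ᵥ S.mulVec x = 0 := by
  have h1 : x ⬝ᵥ S.mulVec y = (S.transpose.mulVec x) ⬝ᵥ y := by
    rw [Matrix.dotProduct_mulVec, Matrix.mulVec_transpose]
  rw [h1, hS, Matrix.neg_mulVec, neg_dotProduct, dotProduct_comm y]
  ring

private theorem split_skew_self {n : ℕ} {S : Matrix (Fin n) (Fin n) ℝ} (hS : S.transpose = -S)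
    (x : Fin n → ℝ) : x ⬝ᵥ S.mulVec x = 0 := by
  have := split_skew hS x x
  linarith

/-- a vector which is not in a proper subspace, and then orthogonality to both gives zero -/
private theorem split_z {D : ℕ} {α : Type*} [Fintype α] (hα : Fintype.card α = D)
    (u : α → Fin (D + 1) → ℝ) (hu : LinearIndependent ℝ u) :
    ∃ z : Fin (D + 1) → ℝ, ∀ r : Fin (D + 1) → ℝ, z ⬝ᵥ r = 0 → (∀ i, u i ⬝ᵥ r = 0) → r = 0 := by
  set S0 : Submodule ℝ (Fin (D + 1) → ℝ) := Submodule.span ℝ (Set.range u) with hS0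
  have hfr : Module.finrank ℝ S0 = D := by
    rw [hS0, finrank_span_eq_card hu, hα]
  have hne : S0 ≠ ⊤ := by
    intro h
    rw [h, finrank_top, Module.finrank_fin_fun] at hfr
    omega
  obtain ⟨z, -, hz⟩ := SetLike.exists_of_lt (lt_top_iff_ne_top.mpr hne)
  refine ⟨z, fun r hr1 hr2 => ?_⟩
  have hlt : S0 < S0 ⊔ Submodule.span ℝ {z} := by
    refine lt_of_le_of_ne le_sup_left ?_
    intro h
    apply hz
    rw [h]
    exact Submodule.mem_sup_right (Submodule.mem_span_singleton_self z)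
  have htop : S0 ⊔ Submodule.span ℝ {z} = ⊤ := by
    apply Submodule.eq_top_of_finrank_eq
    have h1 := Submodule.finrank_lt_finrank_of_lt hlt
    have h2 := Submodule.finrank_le (S0 ⊔ Submodule.span ℝ {z})
    rw [Module.finrank_fin_fun] at h2 ⊢
    omega
  set K : Submodule ℝ (Fin (D + 1) → ℝ) :=
    { carrier := {x | x ⬝ᵥ r = 0}
      add_mem' := by
        intro a b ha hb
        simp only [Set.mem_setOf_eq] at ha hb ⊢
        rw [add_dotProduct, ha, hb, add_zero]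
      zero_mem' := by simp
      smul_mem' := by
        intro c a ha
        simp only [Set.mem_setOf_eq] at ha ⊢
        rw [smul_dotProduct, ha, smul_zero] } with hK
  have hle : S0 ⊔ Submodule.span ℝ {z} ≤ K := by
    refine sup_le ?_ ?_
    · rw [hS0, Submodule.span_le]
      rintro _ ⟨i, rfl⟩
      exact hr2 i
    · rw [Submodule.span_le]
      intro x hx
      rw [Set.mem_singleton_iff] at hx
      subst hx
      exact hr1
  rw [htop] at hle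
  have h3 : r ∈ K := hle (Submodule.mem_top)
  exact dotProduct_self_eq_zero.mp h3

/-- Choose `θ` with `p(θ) ≠ 0` (for `h`) and `θ_a, θ_y (y ∈ Y)` independent (`exists_ind`, these are
`D` vectors of `ℝ ^ (D + 1)`; multiply the two polynomials), and `z` such that `z, θ_a, θ_y (y ∈ Y)` is
a basis. We show that for some `t ≠ 0` the graph is rigid at the points `θ_x` (`x ∈ V`) and
`θ_w = θ_a + t z` (then `grig_of_rig`). Write a motion as `v x` (`x ∈ V`), `v w = v a + t u`. Consider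
the linear system `(t)` for the unknowns `(v|_V, u)`:
(0) all equations of `A` between vertices of `V`, and `θ_x ⬝ v_x = 0` for `x ∈ V`;
(1) `z ⬝ u = 0`; (2) `θ_a ⬝ u + z ⬝ v_a = 0`; (3) `θ_y ⬝ u + z ⬝ v_y = 0` for `y ∈ Y`;
(4) `θ_y ⬝ v_a + t θ_y ⬝ u + θ_a ⬝ v_y + t z ⬝ v_y = 0` for `y ∈ V` with `A w y`.
For `t ≠ 0` every motion of the graph at `θ, θ_w` satisfies `(t)`. At `t = 0` all solutions are
trivial, and trivial motions satisfy `(t)` for all `t`; `split_abs` gives `t ≠ 0` such that all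
solutions of `(t)` are trivial. -/
theorem grig_split (D : ℕ) (V : Finset ι) (w a : ι) (hw : w ∉ V) (ha : a ∈ V)
    (A A' : ι → ι → Prop) (Y : Finset ι) (hYV : Y ⊆ V) (haY : a ∉ Y) (hY : Y.card + 1 = D)
    (hYA : ∀ y ∈ Y, A a y ∧ A w y) (haw : A w a)
    (hA' : ∀ x ∈ V, ∀ y ∈ V, A' x y → A x y ∨ (x = a ∧ A w y) ∨ (y = a ∧ A w x))
    (hV : D ≤ V.card) (h : GRig D V A') : GRig D (insert w V) A := by
  classical
  obtain ⟨p, hp0, hp⟩ := h
  have hcard : (insert a Y).card = D := by rw [card_insert_of_notMem haY, hY]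
  obtain ⟨q, hq0, hq⟩ := exists_ind D (insert a Y) (by omega)
  obtain ⟨θ', hθ'⟩ := exists_eval_ne (mul_ne_zero hp0 hq0)
  rw [map_mul] at hθ'
  have hrig : Rig D V A' (pt D θ') := hp θ' (left_ne_zero_of_mul hθ')
  have hind := hq θ' (right_ne_zero_of_mul hθ')
  set θ : ι → Fin (D + 1) → ℝ := pt D θ' with hθ
  obtain ⟨z, hz⟩ := split_z (α := (insert a Y : Finset ι)) (by simpa using hcard)
    (fun x => θ (x : ι)) hind
  have hz' : ∀ r : Fin (D + 1) → ℝ, z ⬝ᵥ r = 0 → θ a ⬝ᵥ r = 0 → (∀ y ∈ Y, θ y ⬝ᵥ r = 0) →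
      r = 0 := by
    intro r h1 h2 h3
    refine hz r h1 fun i => ?_
    have hi := i.2
    rw [mem_insert] at hi
    rcases hi with hi | hi
    · show θ (i : ι) ⬝ᵥ r = 0
      rw [hi]; exact h2
    · exact h3 _ hi
  -- functionals
  set ev : V → (Fin (D + 1) → ℝ) → (((V → Fin (D + 1) → ℝ) × (Fin (D + 1) → ℝ)) →ₗ[ℝ] ℝ) :=
    fun x c =>
      { toFun := fun e => c ⬝ᵥ e.1 x
        map_add' := by intro e e'; simp [dotProduct_add]
        map_smul' := by intro s e; simp [dotProduct_smul] } with hev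
  set eu : (Fin (D + 1) → ℝ) → (((V → Fin (D + 1) → ℝ) × (Fin (D + 1) → ℝ)) →ₗ[ℝ] ℝ) :=
    fun c =>
      { toFun := fun e => c ⬝ᵥ e.2
        map_add' := by intro e e'; simp [dotProduct_add]
        map_smul' := by intro s e; simp [dotProduct_smul] } with heu
  have ev_apply : ∀ x c e, ev x c e = c ⬝ᵥ e.1 x := fun _ _ _ => rfl
  have eu_apply : ∀ c e, eu c e = c ⬝ᵥ e.2 := fun _ _ => rfl
  set P : Set ((((V → Fin (D + 1) → ℝ) × (Fin (D + 1) → ℝ)) →ₗ[ℝ] ℝ) ×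
      (((V → Fin (D + 1) → ℝ) × (Fin (D + 1) → ℝ)) →ₗ[ℝ] ℝ)) :=
    {p | (∃ x : V, p = (ev x (θ x), 0)) ∨
      (∃ x y : V, A x y ∧ p = (ev y (θ x) + ev x (θ y), 0)) ∨
      p = (eu z, 0) ∨
      p = (eu (θ a) + ev ⟨a, ha⟩ z, 0) ∨
      (∃ y : V, (y : ι) ∈ Y ∧ p = (eu (θ y) + ev y z, 0)) ∨
      (∃ y : V, A w y ∧ p = (ev ⟨a, ha⟩ (θ y) + ev y (θ a), eu (θ y) + ev y z))} with hP
  set T : Submodule ℝ ((V → Fin (D + 1) → ℝ) × (Fin (D + 1) → ℝ)) :=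
    { carrier := {e | ∃ S : Matrix (Fin (D + 1)) (Fin (D + 1)) ℝ, S.transpose = -S ∧
        (∀ x : V, e.1 x = S.mulVec (θ x)) ∧ e.2 = S.mulVec z}
      add_mem' := by
        rintro e e' ⟨S, h1, h2, h3⟩ ⟨S', h1', h2', h3'⟩
        refine ⟨S + S', by rw [Matrix.transpose_add, h1, h1']; abel, fun x => ?_, ?_⟩
        · rw [Matrix.add_mulVec, Prod.fst_add, Pi.add_apply, h2, h2']
        · rw [Matrix.add_mulVec, Prod.snd_add, h3, h3']
      zero_mem' := ⟨0, by simp, fun x => by simp, by simp⟩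
      smul_mem' := by
        rintro c e ⟨S, h1, h2, h3⟩
        refine ⟨c • S, by rw [Matrix.transpose_smul, h1, smul_neg], fun x => ?_, ?_⟩
        · rw [Matrix.smul_mulVec, Prod.smul_fst, Pi.smul_apply, h2]
        · rw [Matrix.smul_mulVec, Prod.smul_snd, h3] } with hTdef
  have hTmem : ∀ e, e ∈ T ↔ ∃ S : Matrix (Fin (D + 1)) (Fin (D + 1)) ℝ, S.transpose = -S ∧
        (∀ x : V, e.1 x = S.mulVec (θ x)) ∧ e.2 = S.mulVec z := fun e => Iff.rfl
  obtain ⟨t, ht0, ht⟩ := split_abs P T (by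
    intro e he
    -- equations at t = 0
    have e0 : ∀ x : V, θ x ⬝ᵥ e.1 x = 0 := fun x =>
      he (ev x (θ x), 0) (Or.inl ⟨x, rfl⟩)
    have e1 : ∀ x y : V, A x y → θ x ⬝ᵥ e.1 y + θ y ⬝ᵥ e.1 x = 0 := fun x y hxy =>
      he (ev y (θ x) + ev x (θ y), 0) (Or.inr (Or.inl ⟨x, y, hxy, rfl⟩))
    have e2 : z ⬝ᵥ e.2 = 0 := he (eu z, 0) (Or.inr (Or.inr (Or.inl rfl)))
    have e3 : θ a ⬝ᵥ e.2 + z ⬝ᵥ e.1 ⟨a, ha⟩ = 0 :=
      he (eu (θ a) + ev ⟨a, ha⟩ z, 0) (Or.inr (Or.inr (Or.inr (Or.inl rfl))))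
    have e4 : ∀ y : V, (y : ι) ∈ Y → θ y ⬝ᵥ e.2 + z ⬝ᵥ e.1 y = 0 := fun y hy =>
      he (eu (θ y) + ev y z, 0) (Or.inr (Or.inr (Or.inr (Or.inr (Or.inl ⟨y, hy, rfl⟩)))))
    have e5 : ∀ y : V, A w y → θ y ⬝ᵥ e.1 ⟨a, ha⟩ + θ a ⬝ᵥ e.1 y = 0 := fun y hy =>
      he (ev ⟨a, ha⟩ (θ y) + ev y (θ a), eu (θ y) + ev y z)
        (Or.inr (Or.inr (Or.inr (Or.inr (Or.inr ⟨y, hy, rfl⟩)))))
    obtain ⟨S, hS, hSv⟩ := hrig (fun x => if hx : x ∈ V then e.1 ⟨x, hx⟩ else 0)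
      (fun x hx => by
        simp only [hx, dif_pos]
        exact e0 ⟨x, hx⟩)
      (fun x hx y hy hxy => by
        simp only [hx, hy, dif_pos]
        rcases hA' x hx y hy hxy with h1 | ⟨rfl, h1⟩ | ⟨rfl, h1⟩
        · exact e1 ⟨x, hx⟩ ⟨y, hy⟩ h1
        · have := e5 ⟨y, hy⟩ h1
          linarith
        · have := e5 ⟨x, hx⟩ h1
          linarith)
    have hSv' : ∀ x : V, e.1 x = S.mulVec (θ x) := by
      intro x
      have := hSv x x.2
      simpa using this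
    rw [hTmem]
    refine ⟨S, hS, hSv', ?_⟩
    rw [← sub_eq_zero]
    apply hz'
    · rw [dotProduct_sub, e2, split_skew_self hS, sub_zero]
    · rw [dotProduct_sub]
      have h1 := split_skew hS (θ a) z
      rw [hSv'] at e3
      linarith
    · intro y hy
      rw [dotProduct_sub]
      have h1 := split_skew hS (θ y) z
      have h2 := e4 ⟨y, hYV hy⟩ hy
      rw [hSv'] at h2
      simp only at h2
      linarith) (by
    rintro e he p hpP
    obtain ⟨S, hS, h1, h2⟩ := (hTmem e).mp he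
    rcases hpP with ⟨x, rfl⟩ | ⟨x, y, hxy, rfl⟩ | rfl | rfl | ⟨y, hy, rfl⟩ | ⟨y, hy, rfl⟩
    · refine ⟨?_, rfl⟩
      show θ x ⬝ᵥ e.1 x = 0
      rw [h1]; exact split_skew_self hS _
    · refine ⟨?_, rfl⟩
      show θ x ⬝ᵥ e.1 y + θ y ⬝ᵥ e.1 x = 0
      rw [h1, h1]; exact split_skew hS _ _
    · refine ⟨?_, rfl⟩
      show z ⬝ᵥ e.2 = 0
      rw [h2]; exact split_skew_self hS _
    · refine ⟨?_, rfl⟩
      show θ a ⬝ᵥ e.2 + z ⬝ᵥ e.1 ⟨a, ha⟩ = 0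
      rw [h1, h2]; exact split_skew hS _ _
    · refine ⟨?_, rfl⟩
      show θ y ⬝ᵥ e.2 + z ⬝ᵥ e.1 y = 0
      rw [h1, h2]; exact split_skew hS _ _
    · constructor
      · show θ y ⬝ᵥ e.1 ⟨a, ha⟩ + θ a ⬝ᵥ e.1 y = 0
        rw [h1, h1]; exact split_skew hS _ _
      · show θ y ⬝ᵥ e.2 + z ⬝ᵥ e.1 y = 0
        rw [h1, h2]; exact split_skew hS _ _)
  -- the rigid point
  set Θ : ι → Fin (D + 1) → ℝ := fun x => if x = w then θ a + t • z else θ x with hΘ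
  have hΘw : Θ w = θ a + t • z := by simp [hΘ]
  have hΘV : ∀ x ∈ V, Θ x = θ x := by
    intro x hx
    have : x ≠ w := fun h => hw (h ▸ hx)
    simp [hΘ, this]
  refine grig_of_rig D (insert w V) A Θ (le_trans hV (card_le_card (subset_insert _ _))) ?_
  intro v hv0 hv1
  set u : Fin (D + 1) → ℝ := t⁻¹ • (v w - v a) with hu
  have hvw : v w = v a + t • u := by
    rw [hu, smul_smul, mul_inv_cancel₀ ht0, one_smul]
    abel
  have m0 : ∀ x ∈ V, θ x ⬝ᵥ v x = 0 := by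
    intro x hx
    rw [← hΘV x hx]
    exact hv0 x (mem_insert_of_mem hx)
  have m1 : ∀ x ∈ V, ∀ y ∈ V, A x y → θ x ⬝ᵥ v y + θ y ⬝ᵥ v x = 0 := by
    intro x hx y hy hxy
    rw [← hΘV x hx, ← hΘV y hy]
    exact hv1 x (mem_insert_of_mem hx) y (mem_insert_of_mem hy) hxy
  have m4 : ∀ y ∈ V, A w y →
      θ y ⬝ᵥ v a + θ a ⬝ᵥ v y + t * (θ y ⬝ᵥ u + z ⬝ᵥ v y) = 0 := by
    intro y hy hwy
    have h1 := hv1 w (mem_insert_self _ _) y (mem_insert_of_mem hy) hwy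
    rw [hΘw, hΘV y hy, hvw] at h1
    simp only [add_dotProduct, smul_dotProduct, dotProduct_add, dotProduct_smul,
      smul_eq_mul] at h1
    linarith
  have m2 : θ a ⬝ᵥ u + z ⬝ᵥ v a = 0 := by
    have h1 := m4 a ha haw
    have h2 := m0 a ha
    rw [h2] at h1
    have h3 : t * (θ a ⬝ᵥ u + z ⬝ᵥ v a) = 0 := by linarith
    exact (mul_eq_zero.mp h3).resolve_left ht0
  have m1' : z ⬝ᵥ u = 0 := by
    have h1 := hv0 w (mem_insert_self _ _)
    rw [hΘw, hvw] at h1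
    simp only [add_dotProduct, smul_dotProduct, dotProduct_add, dotProduct_smul,
      smul_eq_mul] at h1
    have h2 := m0 a ha
    rw [h2] at h1
    have h3 : t * (t * (z ⬝ᵥ u)) = 0 := by linear_combination h1 - t * m2
    exact (mul_eq_zero.mp ((mul_eq_zero.mp h3).resolve_left ht0)).resolve_left ht0
  have m3 : ∀ y ∈ Y, θ y ⬝ᵥ u + z ⬝ᵥ v y = 0 := by
    intro y hy
    have h1 := m4 y (hYV hy) (hYA y hy).2
    have h2 := m1 a ha y (hYV hy) (hYA y hy).1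
    have h3 : t * (θ y ⬝ᵥ u + z ⬝ᵥ v y) = 0 := by linarith
    exact (mul_eq_zero.mp h3).resolve_left ht0
  obtain ⟨S, hS, hS1, hS2⟩ := (hTmem _).mp (ht ((fun x : V => v x), u) (by
    intro p hpP
    rcases hpP with ⟨x, rfl⟩ | ⟨x, y, hxy, rfl⟩ | rfl | rfl | ⟨y, hy, rfl⟩ | ⟨y, hy, rfl⟩
    · show θ x ⬝ᵥ v x + t * 0 = 0
      rw [m0 x x.2]; ring
    · show θ x ⬝ᵥ v y + θ y ⬝ᵥ v x + t * 0 = 0
      rw [m1 x x.2 y y.2 hxy]; ring
    · show z ⬝ᵥ u + t * 0 = 0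
      rw [m1']; ring
    · show θ a ⬝ᵥ u + z ⬝ᵥ v a + t * 0 = 0
      rw [m2]; ring
    · show θ y ⬝ᵥ u + z ⬝ᵥ v y + t * 0 = 0
      rw [m3 y hy]; ring
    · show θ y ⬝ᵥ v a + θ a ⬝ᵥ v y + t * (θ y ⬝ᵥ u + z ⬝ᵥ v y) = 0
      exact m4 y y.2 hy))
  refine ⟨S, hS, fun x hx => ?_⟩
  rw [mem_insert] at hx
  rcases hx with rfl | hx
  · rw [hΘw, hvw, Matrix.mulVec_add, Matrix.mulVec_smul, ← hS2, ← hS1 ⟨a, ha⟩]
  · rw [hΘV x hx]
    exact hS1 ⟨x, hx⟩

end Pool.TSphM
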