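import Pool.Agent.Lib.MP_3de3a3_co.M.Defs
import Pool.Agent.Lib.MP_3de3a3_co.M.Split
import Pool.Agent.Lib.MP_3de3a3_co.M.Clique
import Pool.Agent.Lib.MP_3de3a3_co.Reduce
import Pool.Agent.Lib.MP_3de3a3_co.DTheoremA

/-! # Triangulated 2-spheres are generically 3-rigid (module M/Base) -/

set_option autoImplicit false

namespace Pool.TSphM

open Finset
open Pool.TSph (verts IsSphere2 adj comp Ep PhiK)
open Pool.TSphD (fc rdg lk Lo PM side IsLF mv Closings)

variable {ι : Type*} [DecidableEq ι]

open Pool.TSph (LinkCycle adj_symm adj_mem_right adj_of_four four_le_verts three_le_degree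
  exists_small_degree exists_linkCycle reduce3 reduce4 reduce5 sep4 sep5) in
private theorem base_step {d : ℕ} [NeZero d] {L : Finset (Finset ι)} {w : ι} (hw : w ∈ verts L)
    {a : Fin d → ι} (hc : LinkCycle L w d a) (i : Fin d)
    (hi : ∃ j : Fin d, j + 1 = i ∧ j ≠ i ∧ i + 1 ≠ i ∧ i + 1 ≠ j) {L' : Finset (Finset ι)}
    (hv : verts L' = (verts L).erase w)
    (hadj : ∀ u v, u ≠ w → v ≠ w → adj L' u v →
      adj L u v ∨ (u = a i ∧ adj L w v) ∨ (v = a i ∧ adj L w u))
    (hV : 5 ≤ (verts L).card) (h : GRig 3 (verts L') (adj L')) : GRig 3 (verts L) (adj L) := by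
  obtain ⟨j, hj, hji, hi1, hij⟩ := hi
  have haw : ∀ k, adj L w (a k) := fun k => (hc.all (a k)).2 ⟨k, rfl⟩
  have haV : ∀ k, a k ∈ (verts L).erase w := fun k =>
    mem_erase.2 ⟨hc.ne k, adj_mem_right (haw k)⟩
  have hcard : ((verts L).erase w).card = (verts L).card - 1 := card_erase_of_mem hw
  have h1 : adj L (a i) (a (i + 1)) :=
    ⟨hc.inj.ne hi1.symm, _, hc.tri i, by simp, by simp⟩
  have h2 : adj L (a i) (a j) := by
    refine ⟨hc.inj.ne hji.symm, _, hc.tri j, ?_, by simp⟩
    rw [hj]
    simp
  have key := grig_split 3 ((verts L).erase w) w (a i) (notMem_erase w (verts L)) (haV i)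
    (adj L) (adj L') {a (i + 1), a j}
    (by
      intro x hx
      rw [mem_insert, mem_singleton] at hx
      rcases hx with rfl | rfl
      · exact haV _
      · exact haV _)
    (by
      rw [mem_insert, mem_singleton, not_or]
      exact ⟨hc.inj.ne hi1.symm, hc.inj.ne hji.symm⟩)
    (by rw [card_pair (hc.inj.ne hij)])
    (by
      intro y hy
      rw [mem_insert, mem_singleton] at hy
      rcases hy with rfl | rfl
      · exact ⟨h1, haw _⟩
      · exact ⟨h2, haw _⟩)
    (haw i)
    (by
      intro x hx y hy hxy
      exact hadj x y (mem_erase.1 hx).1 (mem_erase.1 hy).1 hxy)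
    (by omega)
    (by rw [← hv]; exact h)
  rw [insert_erase hw] at key
  exact key

open Pool.TSph (LinkCycle adj_symm adj_mem_right adj_of_four four_le_verts three_le_degree
  exists_small_degree exists_linkCycle reduce3 reduce4 reduce5 sep4 sep5) in
/-- Induction on the number of vertices, as in `ep_le` (file DTheoremA.lean): with four vertices
`rig_clique`, `exists_ind`. Otherwise take `w` of degree 3, 4 or 5 (`exists_small_degree`,
`exists_linkCycle`) with the link cycle `a 0, …, a (d-1)` and remove it: `reduce3`; `reduce4` with `i`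
such that `a i`, `a (i+2)` are not adjacent; `reduce5` with `i` such that `a i` is not adjacent to
`a (i+2)`, `a (i+3)` (existence of `i`: see how the files DStep4.lean, DStep5.lean choose it, e.g. from
`sep` or the non-crossing of diagonals). Then `grig_split` with `D = 3`, `a := a i`,
`Y = {a (i+1), a (i-1)}`, `A = adj L`, `A' = adj L'`. -/
theorem grig_sphere {L : Finset (Finset ι)} (hL : IsSphere2 L) : GRig 3 (verts L) (adj L) := by
  have key : ∀ (N : ℕ) (L : Finset (Finset ι)), IsSphere2 L → (verts L).card = N →
      GRig 3 (verts L) (adj L) := by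
    intro N
    induction N with
    | zero =>
      intro L hL h
      have := four_le_verts hL
      omega
    | succ N ih =>
      intro L hL h
      rcases (four_le_verts hL).eq_or_lt with h4 | h5
      · obtain ⟨p, hp, hind⟩ := exists_ind 3 (verts L) (by omega)
        refine ⟨p, hp, fun θ hθ => ?_⟩
        exact rig_clique 3 (verts L) (adj L) (pt 3 θ) h4.symm
          (fun x hx y hy hxy => adj_of_four hL h4.symm hx hy hxy) (hind θ hθ)
      · have hV : 5 ≤ (verts L).card := h5
        obtain ⟨w, hw, hd⟩ := exists_small_degree hL
        have h3 := three_le_degree hL hw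
        have hcardE : ((verts L).erase w).card = N := by
          rw [card_erase_of_mem hw]; omega
        obtain hdeg | hdeg | hdeg : (L.filter (fun t => w ∈ t)).card = 3 ∨
            (L.filter (fun t => w ∈ t)).card = 4 ∨ (L.filter (fun t => w ∈ t)).card = 5 := by
          omega
        · obtain ⟨a, hc⟩ := exists_linkCycle hL hw hdeg
          obtain ⟨L', hL', hv, hadj⟩ := reduce3 hL hV hc
          refine base_step hw hc 0 (by decide) hv (fun u v hu hv' huv => ?_) hV
            (ih L' hL' (by rw [hv]; exact hcardE))
          exact Or.inl ((hadj u v hu hv').1 huv)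
        · obtain ⟨a, hc⟩ := exists_linkCycle hL hw hdeg
          have hex : ∃ i : Fin 4, ¬ adj L (a i) (a (i + 2)) := by
            by_cases h : adj L (a 0) (a 2)
            · refine ⟨1, ?_⟩
              have e13 : (1 : Fin 4) + 2 = 3 := by decide
              rw [e13]
              intro h2
              have e2 : (0 : Fin 4) + 2 = 2 := by decide
              have e1 : (0 : Fin 4) + 1 = 1 := by decide
              have e3 : (0 : Fin 4) + 3 = 3 := by decide
              have h3 := sep4 hL hc 0 (by rw [e2]; exact h) (S := {a 1, a 3})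
                (by
                  rw [mem_insert, mem_singleton, not_or]
                  exact ⟨(hc.ne 1).symm, (hc.ne 3).symm⟩)
                (by
                  rw [mem_insert, mem_singleton, not_or]
                  exact ⟨hc.inj.ne (by decide), hc.inj.ne (by decide)⟩)
                (by
                  rw [e2, mem_insert, mem_singleton, not_or]
                  exact ⟨hc.inj.ne (by decide), hc.inj.ne (by decide)⟩)
                (by rw [e1]; exact mem_insert_self _ _)
              rw [e1, e3] at h3
              exact h3 (Relation.ReflTransGen.single ⟨by simp, h2⟩)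
            · refine ⟨0, ?_⟩
              have e2 : (0 : Fin 4) + 2 = 2 := by decide
              rw [e2]
              exact h
          obtain ⟨i, hn⟩ := hex
          obtain ⟨L', hL', hv, hadj⟩ := reduce4 hL hV hc i hn
          have hi : ∀ i : Fin 4, ∃ j : Fin 4, j + 1 = i ∧ j ≠ i ∧ i + 1 ≠ i ∧ i + 1 ≠ j := by
            decide
          refine base_step hw hc i (hi i) hv (fun u v hu hv' huv => ?_) hV
            (ih L' hL' (by rw [hv]; exact hcardE))
          rcases (hadj u v hu hv').1 huv with h | ⟨h, h'⟩ | ⟨h, h'⟩
          · exact Or.inl h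
          · exact Or.inr (Or.inl ⟨h, (hc.all v).2 ⟨_, h'⟩⟩)
          · exact Or.inr (Or.inr ⟨h', (hc.all u).2 ⟨_, h⟩⟩)
        · obtain ⟨a, hc⟩ := exists_linkCycle hL hw hdeg
          have hex : ∃ i : Fin 5, ¬ adj L (a i) (a (i + 2)) ∧ ¬ adj L (a i) (a (i + 3)) := by
            by_cases hno : ∀ i, ¬ adj L (a i) (a (i + 2))
            · refine ⟨0, hno 0, ?_⟩
              intro h
              have e : (0 : Fin 5) + 3 + 2 = 0 := by decide
              have h2 := hno (0 + 3)
              rw [e] at h2
              exact h2 (adj_symm h)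
            · push Not at hno
              obtain ⟨k, hk⟩ := hno
              have f1 : ∀ k : Fin 5, k + 1 ≠ k := by decide
              have f2 : ∀ k : Fin 5, k + 3 ≠ k := by decide
              have f3 : ∀ k : Fin 5, k + 4 ≠ k := by decide
              have f4 : ∀ k : Fin 5, k + 1 ≠ k + 2 := by decide
              have f5 : ∀ k : Fin 5, k + 3 ≠ k + 2 := by decide
              have f6 : ∀ k : Fin 5, k + 4 ≠ k + 2 := by decide
              have g1 : ∀ k : Fin 5, k + 1 + 2 = k + 3 := by decide
              have g2 : ∀ k : Fin 5, k + 1 + 3 = k + 4 := by decide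
              refine ⟨k + 1, ?_, ?_⟩
              · rw [g1]
                intro h
                have h3 := (sep5 hL hc k hk (S := {a (k + 1), a (k + 3)})
                  (by
                    rw [mem_insert, mem_singleton, not_or]
                    exact ⟨(hc.ne _).symm, (hc.ne _).symm⟩)
                  (by
                    rw [mem_insert, mem_singleton, not_or]
                    exact ⟨hc.inj.ne (f1 k).symm, hc.inj.ne (f2 k).symm⟩)
                  (by
                    rw [mem_insert, mem_singleton, not_or]
                    exact ⟨hc.inj.ne (f4 k).symm, hc.inj.ne (f5 k).symm⟩)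
                  (mem_insert_self _ _)).1
                exact h3 (Relation.ReflTransGen.single ⟨by simp, h⟩)
              · rw [g2]
                intro h
                have h3 := (sep5 hL hc k hk (S := {a (k + 1), a (k + 4)})
                  (by
                    rw [mem_insert, mem_singleton, not_or]
                    exact ⟨(hc.ne _).symm, (hc.ne _).symm⟩)
                  (by
                    rw [mem_insert, mem_singleton, not_or]
                    exact ⟨hc.inj.ne (f1 k).symm, hc.inj.ne (f3 k).symm⟩)
                  (by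
                    rw [mem_insert, mem_singleton, not_or]
                    exact ⟨hc.inj.ne (f4 k).symm, hc.inj.ne (f6 k).symm⟩)
                  (mem_insert_self _ _)).2
                exact h3 (Relation.ReflTransGen.single ⟨by simp, h⟩)
          obtain ⟨i, hn2, hn3⟩ := hex
          obtain ⟨L', hL', hv, hadj⟩ := reduce5 hL hV hc i hn2 hn3
          have hi : ∀ i : Fin 5, ∃ j : Fin 5, j + 1 = i ∧ j ≠ i ∧ i + 1 ≠ i ∧ i + 1 ≠ j := by
            decide
          refine base_step hw hc i (hi i) hv (fun u v hu hv' huv => ?_) hV
            (ih L' hL' (by rw [hv]; exact hcardE))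
          rcases (hadj u v hu hv').1 huv with h | ⟨h, h'⟩ | ⟨h, h'⟩ | ⟨h, h'⟩ | ⟨h, h'⟩
          · exact Or.inl h
          · exact Or.inr (Or.inl ⟨h, (hc.all v).2 ⟨_, h'⟩⟩)
          · exact Or.inr (Or.inr ⟨h', (hc.all u).2 ⟨_, h⟩⟩)
          · exact Or.inr (Or.inl ⟨h, (hc.all v).2 ⟨_, h'⟩⟩)
          · exact Or.inr (Or.inr ⟨h', (hc.all u).2 ⟨_, h⟩⟩)
  exact key _ L hL rfl

end Pool.TSphM
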