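import Pool.Agent.Lib.MP_3de3a3_co.M.Defs
import Pool.Agent.Lib.MP_3de3a3_co.CardMono

/-! # The number of labels (module M/CardL) -/

set_option autoImplicit false

namespace Pool.TSphM

open Finset
open Pool.TSph (verts IsSphere2 adj comp Ep PhiK)
open Pool.TSphD (fc rdg lk Lo PM side IsLF mv Closings)

variable {ι : Type*} [DecidableEq ι]

/-- The constant. -/
def cL (δ : ℕ) : ℕ :=
  4 * (δ + 1) * (Fintype.card (Kind δ)) ^ (δ + 1) * (2 ^ (δ + 1)) ^ (2 ^ (δ + 1))

/-- See `card_Codes_le`. -/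
theorem card_lbl (δ n : ℕ) :
    (univ.filter (fun L : Lbl δ n => Monotone L.1)).card ≤ cL δ ^ n := by
  classical
  set A := univ.filter (fun p : Fin n → Fin n => Monotone p) with hA
  have h1 : A.card ≤ 4 ^ n := Pool.TSph.card_monotone_le n
  have h2 : (univ : Finset (Fin n → Fin (δ + 1))).card = (δ + 1) ^ n := by
    rw [card_univ, Fintype.card_fun, Fintype.card_fin, Fintype.card_fin]
  have h3 : (univ : Finset (Fin n × Fin (δ + 1) → Kind δ)).card =
      (Fintype.card (Kind δ)) ^ (n * (δ + 1)) := by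
    rw [card_univ, Fintype.card_fun, Fintype.card_prod, Fintype.card_fin, Fintype.card_fin]
  have h4 : (univ : Finset (Fin n → Finset (Fin (δ + 1)) → Finset (Fin (δ + 1)))).card =
      ((2 ^ (δ + 1)) ^ (2 ^ (δ + 1))) ^ n := by
    rw [card_univ, Fintype.card_fun, Fintype.card_fun, Fintype.card_finset, Fintype.card_fin,
      Fintype.card_fin]
  have hle : (univ.filter (fun L : Lbl δ n => Monotone L.1)).card ≤
      (A ×ˢ (univ : Finset (Fin n → Fin (δ + 1))) ×ˢ
        (univ : Finset (Fin n × Fin (δ + 1) → Kind δ)) ×ˢ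
        (univ : Finset (Fin n → Finset (Fin (δ + 1)) → Finset (Fin (δ + 1))))).card := by
    refine card_le_card ?_
    intro L hL
    rw [mem_filter] at hL
    simp only [mem_product, mem_univ, and_true, hA, mem_filter, true_and]
    exact hL.2
  refine hle.trans ?_
  rw [card_product, card_product, card_product, h2, h3, h4]
  have h5 : (Fintype.card (Kind δ)) ^ (n * (δ + 1)) =
      ((Fintype.card (Kind δ)) ^ (δ + 1)) ^ n := by
    rw [← pow_mul, Nat.mul_comm n (δ + 1)]
  rw [h5]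
  unfold cL
  rw [mul_pow, mul_pow, mul_pow]
  calc A.card * ((δ + 1) ^ n * (((Fintype.card (Kind δ)) ^ (δ + 1)) ^ n *
        ((2 ^ (δ + 1)) ^ (2 ^ (δ + 1))) ^ n))
      ≤ 4 ^ n * ((δ + 1) ^ n * (((Fintype.card (Kind δ)) ^ (δ + 1)) ^ n *
        ((2 ^ (δ + 1)) ^ (2 ^ (δ + 1))) ^ n)) := Nat.mul_le_mul_right _ h1
    _ = 4 ^ n * (δ + 1) ^ n * ((Fintype.card (Kind δ)) ^ (δ + 1)) ^ n *
        ((2 ^ (δ + 1)) ^ (2 ^ (δ + 1))) ^ n := by rw [mul_assoc, mul_assoc]

end Pool.TSphM
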