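import Pool.Agent.Lib.MP_3de3a3_co.M.Defs
import Pool.Agent.Lib.MP_3de3a3_co.DMfdPM

/-! # Links of normal pseudomanifolds (module M/Links) -/

set_option autoImplicit false

namespace Pool.TSphM

open Finset
open Pool.TSph (verts IsSphere2 adj comp Ep PhiK)
open Pool.TSphD (fc rdg lk Lo PM side IsLF mv Closings)
open Pool.TSphD (mem_fc mem_lk mem_lk' IsMfdD)

variable {ι : Type*} [DecidableEq ι]

theorem lk_lk (F : Finset (Finset ι)) {s t : Finset ι} (h : Disjoint s t) :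
    lk (lk F s) t = lk F (s ∪ t) := by
  ext u
  rw [mem_lk', mem_lk', mem_lk', disjoint_union_right, disjoint_union_left, union_assoc]
  constructor
  · rintro ⟨h1, ⟨-, h3⟩, h4⟩
    exact ⟨⟨h3, h1⟩, h4⟩
  · rintro ⟨⟨h3, h1⟩, h4⟩
    exact ⟨h1, ⟨h, h3⟩, h4⟩

theorem card_lk (F : Finset (Finset ι)) (s : Finset ι) : (lk F s).card = dg F s := by
  unfold lk dg up
  rw [Finset.card_image_of_injOn]
  intro a ha b hb hab
  have ha' := (mem_filter.1 (mem_coe.1 ha)).2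
  have hb' := (mem_filter.1 (mem_coe.1 hb)).2
  have hab' : a \ s = b \ s := hab
  rw [← union_sdiff_of_subset ha', hab', union_sdiff_of_subset hb']

theorem dg_lk (F : Finset (Finset ι)) {s t : Finset ι} (h : Disjoint s t) :
    dg (lk F s) t = dg F (s ∪ t) := by
  rw [← card_lk, ← card_lk, lk_lk F h]

theorem fc_lk (F : Finset (Finset ι)) {s t : Finset ι} {i : ℕ} :
    t ∈ fc i (lk F s) ↔ Disjoint s t ∧ t.card = i ∧ s ∪ t ∈ fc (s.card + i) F := by
  rw [mem_fc, mem_fc]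
  constructor
  · rintro ⟨h1, u, hu, htu⟩
    obtain ⟨h2, h3⟩ := mem_lk'.1 hu
    have h4 : Disjoint s t := disjoint_of_subset_right htu h2
    exact ⟨h4, h1, by rw [card_union_of_disjoint h4, h1], s ∪ u, h3, union_subset_union_right htu⟩
  · rintro ⟨h1, h2, -, a, ha, hsa⟩
    refine ⟨h2, a \ s, mem_lk.2 ⟨a, ha, subset_union_left.trans hsa, rfl⟩, ?_⟩
    exact subset_sdiff.2 ⟨subset_union_right.trans hsa, h1.symm⟩

theorem adj_lk (F : Finset (Finset ι)) (s : Finset ι) (x y : ι) :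
    adj (lk F s) x y ↔ x ≠ y ∧ x ∉ s ∧ y ∉ s ∧ ∃ a ∈ F, s ⊆ a ∧ x ∈ a ∧ y ∈ a := by
  unfold adj
  constructor
  · rintro ⟨h1, t, ht, hx, hy⟩
    obtain ⟨a, ha, hsa, rfl⟩ := mem_lk.1 ht
    obtain ⟨hx1, hx2⟩ := mem_sdiff.1 hx
    obtain ⟨hy1, hy2⟩ := mem_sdiff.1 hy
    exact ⟨h1, hx2, hy2, a, ha, hsa, hx1, hy1⟩
  · rintro ⟨h1, hx2, hy2, a, ha, hsa, hx1, hy1⟩
    exact ⟨h1, a \ s, mem_lk.2 ⟨a, ha, hsa, rfl⟩, mem_sdiff.2 ⟨hx1, hx2⟩, mem_sdiff.2 ⟨hy1, hy2⟩⟩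

theorem adj_iff (L : Finset (Finset ι)) (x y : ι) : adj L x y ↔ ({x, y} : Finset ι) ∈ fc 2 L := by
  rw [mem_fc]
  unfold adj
  constructor
  · rintro ⟨h1, t, ht, hx, hy⟩
    exact ⟨card_pair h1, t, ht, insert_subset hx (singleton_subset_iff.2 hy)⟩
  · rintro ⟨h1, t, ht, hxy⟩
    refine ⟨?_, t, ht, hxy (mem_insert_self _ _), hxy (mem_insert_of_mem (mem_singleton_self _))⟩
    rintro rfl
    simp at h1

/-- The link of a face with `j` vertices. -/
theorem nor_link {d j : ℕ} {F : Finset (Finset ι)} (hF : IsNor d F) {s : Finset ι}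
    (hs : s ∈ fc j F) (hj : j + 3 ≤ d) : IsNor (d - j) (lk F s) := by
  have hsj := (mem_fc.1 hs).1
  refine ⟨?_, ?_, ?_⟩
  · intro u hu
    obtain ⟨a, ha, hsa, rfl⟩ := mem_lk.1 hu
    rw [card_sdiff_of_subset hsa, hF.card a ha, hsj]
  · intro t ht a ha b hb hta htb
    obtain ⟨A, hA, hsA, rfl⟩ := mem_lk.1 ha
    obtain ⟨B, hB, hsB, rfl⟩ := mem_lk.1 hb
    have hst : Disjoint s t := (subset_sdiff.1 hta).2.symm
    have h1 : (s ∪ t).card + 3 ≤ d := by
      rw [card_union_of_disjoint hst]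
      omega
    have h2 := hF.star (s ∪ t) h1 A hA B hB (union_subset hsA (hta.trans sdiff_subset))
      (union_subset hsB (htb.trans sdiff_subset))
    refine Relation.ReflTransGen.lift (fun a => a \ s) ?_ _ _ h2
    rintro a b ⟨h3, h4, h5⟩
    have h6 : s ⊆ a ∩ b := subset_union_left.trans h5
    have h7 : (a \ s) ∩ (b \ s) = (a ∩ b) \ s := by
      ext x
      simp only [mem_inter, mem_sdiff]
      tauto
    show b \ s ∈ lk F s ∧ ((a \ s) ∩ (b \ s)).card + 1 = d - j ∧ t ⊆ (a \ s) ∩ (b \ s)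
    rw [h7]
    refine ⟨mem_lk.2 ⟨b, h3, h6.trans inter_subset_right, rfl⟩, ?_,
      subset_sdiff.2 ⟨subset_union_right.trans h5, hst.symm⟩⟩
    rw [card_sdiff_of_subset h6]
    have h8 := card_le_card h6
    omega
  · intro t ht
    obtain ⟨h1, h2, h3⟩ := (fc_lk F).1 ht
    rw [lk_lk F h1]
    refine hF.sphere _ ?_
    have h4 : s.card + (d - j - 3) = d - 3 := by omega
    rw [h4] at h3
    exact h3

theorem nor_mfd {k : ℕ} (hk : 0 < k) {F : Finset (Finset ι)} (hF : IsNor (k + 3) F) :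
    IsMfdD k F := by
  refine ⟨hF.card, ?_, ?_, ?_⟩
  · intro a ha b hb
    refine Relation.ReflTransGen.mono ?_ _ _ (hF.star ∅ (by rw [card_empty]; omega) a ha b hb (empty_subset _)
      (empty_subset _))
    rintro x y ⟨h1, h2, -⟩
    exact ⟨h1, by omega⟩
  · intro x a ha b hb hxa hxb
    refine Relation.ReflTransGen.mono ?_ _ _ (hF.star {x} (by rw [card_singleton]; omega) a ha b hb
      (singleton_subset_iff.2 hxa) (singleton_subset_iff.2 hxb))
    rintro u v ⟨h1, h2, h3⟩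
    exact ⟨h1, by omega, singleton_subset_iff.1 h3⟩
  · intro σ hσ
    exact hF.sphere σ hσ

theorem nor_pm {k : ℕ} {F : Finset (Finset ι)} (hF : IsNor (k + 3) F) (hk : 0 < k) :
    PM (k + 2) F :=
  Pool.TSphD.mfd_pm (nor_mfd hk hF)

end Pool.TSphM
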