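import Pool.Agent.Lib.MP_3de3a3_co.M.Defs
import Pool.Agent.Lib.MP_3de3a3_co.M.Links
import Pool.Agent.Lib.MP_3de3a3_co.DTop

/-! # Levels of the pointers (module M/Lev) -/

set_option autoImplicit false

namespace Pool.TSphM

open Finset
open Pool.TSph (verts IsSphere2 adj comp Ep PhiK)
open Pool.TSphD (fc rdg lk Lo PM side IsLF mv Closings)

variable {ι : Type*} [DecidableEq ι]

private theorem lev_insert {F : Finset (Finset ι)} {pos : ι → ℕ} {j : ℕ} {s : Finset ι}
    (hs : s ∈ fc j F) {u : ι} (hu : u ∈ Lo F pos s) : u ∉ s ∧ insert u s ∈ fc (j + 1) F := by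
  have h1 : u ∈ verts (lk F s) := (Finset.mem_filter.1 hu).1
  obtain ⟨t, ht, hut⟩ := Finset.mem_biUnion.1 h1
  obtain ⟨a, ha, hsa, rfl⟩ := Pool.TSphD.mem_lk.1 ht
  have h2 : u ∉ s := (Finset.mem_sdiff.1 hut).2
  refine ⟨h2, Pool.TSphD.mem_fc.2 ⟨?_, a, ha, Finset.insert_subset (Finset.mem_sdiff.1 hut).1 hsa⟩⟩
  rw [Finset.card_insert_of_notMem h2, (Pool.TSphD.mem_fc.1 hs).1]

/-- Every element of `B s` is a ridge outside `Cl` with the top part `s` (induction from level `k`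
down: `Top pos (insert u s) t` and `u ∈ Lo F pos s` give `Top pos s t`). -/
theorem nest_top {k : ℕ} {F : Finset (Finset ι)} {pos : ι → ℕ} {Cl : Finset (Finset ι)}
    {B : Finset ι → Finset (Finset ι)} (hN : Nest k F pos Cl B) {j : ℕ} (hj : j ≤ k)
    {s : Finset ι} (hs : s ∈ fc j F) {t : Finset ι} (ht : t ∈ B s) :
    t ∈ rdg (k + 2) F ∧ t ∉ Cl ∧ Top pos s t := by
  obtain ⟨i, rfl⟩ := Nat.exists_eq_add_of_le hj
  induction i generalizing j s with
  | zero =>
    rw [hN.last s (by simpa using hs), Finset.mem_filter, Finset.mem_sdiff] at ht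
    exact ⟨ht.1.1, ht.1.2, ht.2⟩
  | succ i ih =>
    have h1 := hN.sub j (by omega) s hs ht
    obtain ⟨u, hu, htu⟩ := Finset.mem_biUnion.1 h1
    obtain ⟨hus, hins⟩ := lev_insert hs hu
    have e : j + (i + 1) = j + 1 + i := by omega
    obtain ⟨h2, h3, h4⟩ := ih (j := j + 1) (s := insert u s) hins htu (by rw [← e]; exact hN) (by omega)
    refine ⟨by rw [e]; exact h2, h3, (Finset.subset_insert u s).trans h4.1, ?_⟩
    intro y hy x hx
    by_cases hyu : y = u
    · subst hyu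
      exact (Finset.mem_filter.1 hu).2 x hx
    · refine h4.2 y ?_ x (Finset.mem_insert_of_mem hx)
      rw [Finset.mem_sdiff, Finset.mem_insert, not_or]
      exact ⟨(Finset.mem_sdiff.1 hy).1, hyu, (Finset.mem_sdiff.1 hy).2⟩

private theorem lev_unique {pos : ι → ℕ} {s s' t : Finset ι} (h : Top pos s t) (h' : Top pos s' t)
    (hc : s.card = s'.card) : s = s' := by
  refine (Pool.TSphD.top_unique (pos := pos) (τ := t \ s) (τ' := t \ s') ?_ hc h.2 h'.2).1
  rw [Finset.union_sdiff_of_subset h.1, Finset.union_sdiff_of_subset h'.1]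

/-- membership goes up the levels -/
private theorem lev_up {k : ℕ} {F : Finset (Finset ι)} {pos : ι → ℕ} {Cl : Finset (Finset ι)}
    {B : Finset ι → Finset (Finset ι)} (hN : Nest k F pos Cl B) {j : ℕ} {s : Finset ι}
    (hs : s ∈ fc j F) {t : Finset ι} (ht : t ∈ B s) (i : ℕ) (hi : j + i ≤ k) :
    ∃ s' ∈ fc (j + i) F, t ∈ B s' := by
  induction i with
  | zero => exact ⟨s, hs, ht⟩
  | succ i ih =>
    obtain ⟨s', hs', ht'⟩ := ih (by omega)
    obtain ⟨u, hu, htu⟩ := Finset.mem_biUnion.1 (hN.sub (j + i) (by omega) s' hs' ht')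
    exact ⟨insert u s', (lev_insert hs' hu).2, htu⟩

private theorem lev_up' {k : ℕ} {F : Finset (Finset ι)} {pos : ι → ℕ} {Cl : Finset (Finset ι)}
    {B : Finset ι → Finset (Finset ι)} (hN : Nest k F pos Cl B) {j j' : ℕ} {s s' : Finset ι}
    (hs : s ∈ fc j F) {t : Finset ι} (ht : t ∈ B s) (hj : j ≤ j') (hk : j' ≤ k)
    (hs' : s' ∈ fc j' F) (htop : Top pos s' t) : t ∈ B s' := by
  obtain ⟨i, rfl⟩ := Nat.exists_eq_add_of_le hj
  obtain ⟨s2, hs2, ht2⟩ := lev_up hN hs ht i hk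
  have h := (nest_top hN hk hs2 ht2).2.2
  have e : s2 = s' := lev_unique h htop (by
    rw [(Pool.TSphD.mem_fc.1 hs2).1, (Pool.TSphD.mem_fc.1 hs').1])
  rw [← e]
  exact ht2

/-- For `t ∈ rdg (k + 2) F \ Cl` let `t_0 = ∅ ⊂ t_1 ⊂ … ⊂ t_k` be the top parts with `0, …, k` elements.
`t ∈ B t_k`, and `t ∈ B t_j` implies `t ∈ B t_(j+1)` (`sub`, `nest_top`, `top_unique`). If `t ∉ B ∅` let
`j` be the largest number with `t ∉ B t_j` and `lev t = t_j`. So `M \ B ∅` is the disjoint union over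
`j < k`, `s ∈ fc j F` of the sets `(⋃ u ∈ Lo F pos s, B (insert u s)) \ B s`, on which `lev` is
`s`; the union over `u` is disjoint (`top_unique`) and contains `B s`. -/
theorem exists_lev {k : ℕ} {F : Finset (Finset ι)} {pos : ι → ℕ}
    (hpos : Function.Injective pos) {Cl : Finset (Finset ι)}
    {B : Finset ι → Finset (Finset ι)} (hN : Nest k F pos Cl B) (hne : F.Nonempty)
    (hF : ∀ a ∈ F, a.card = k + 3) :
    ∃ lev : Finset ι → Finset ι,
      (∀ t ∈ (rdg (k + 2) F \ Cl) \ B ∅, ∃ j < k, lev t ∈ fc j F ∧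
        (∃ u ∈ Lo F pos (lev t), t ∈ B (insert u (lev t))) ∧ t ∉ B (lev t)) ∧
      ∀ h : Finset ι → ℝ, ∑ t ∈ (rdg (k + 2) F \ Cl) \ B ∅, h (lev t) =
        ∑ j ∈ range k, ∑ s ∈ fc j F,
          ((∑ u ∈ Lo F pos s, ((B (insert u s)).card : ℝ)) - (B s).card) * h s := by
  classical
  have h0 : (∅ : Finset ι) ∈ fc 0 F := by
    obtain ⟨a, ha⟩ := hne
    exact Pool.TSphD.mem_fc.2 ⟨Finset.card_empty, a, ha, Finset.empty_subset a⟩
  -- existence of the level
  have hex : ∀ t ∈ (rdg (k + 2) F \ Cl) \ B ∅, ∃ s : Finset ι, ∃ j < k, s ∈ fc j F ∧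
      (∃ u ∈ Lo F pos s, t ∈ B (insert u s)) ∧ t ∉ B s := by
    intro t ht
    rw [Finset.mem_sdiff, Finset.mem_sdiff] at ht
    obtain ⟨⟨htr, htc⟩, htB⟩ := ht
    obtain ⟨htcard, a, ha, hta⟩ := Pool.TSphD.mem_rdg.1 htr
    have hP : ∃ j, j ≤ k ∧ ∃ s ∈ fc j F, t ∈ B s := by
      obtain ⟨σ, hσ, hσc, hσt⟩ := Pool.TSphD.exists_top hpos t (k := k) (by omega)
      refine ⟨k, le_rfl, σ, Pool.TSphD.mem_fc.2 ⟨hσc, a, ha, hσ.trans hta⟩, ?_⟩
      rw [hN.last σ (Pool.TSphD.mem_fc.2 ⟨hσc, a, ha, hσ.trans hta⟩), Finset.mem_filter,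
        Finset.mem_sdiff]
      exact ⟨⟨htr, htc⟩, hσ, hσt⟩
    obtain ⟨hjk, s', hs', hts'⟩ := Nat.find_spec hP
    have hmin : ∀ m, m < Nat.find hP → ¬ (m ≤ k ∧ ∃ s ∈ fc m F, t ∈ B s) :=
      fun m hm => Nat.find_min hP hm
    rcases Nat.eq_zero_or_eq_succ_pred (Nat.find hP) with hz | hz
    · exfalso
      rw [hz] at hs'
      have : s' = ∅ := Finset.card_eq_zero.1 (Pool.TSphD.mem_fc.1 hs').1
      rw [this] at hts'
      exact htB hts'
    · obtain ⟨m, hm⟩ : ∃ m, Nat.find hP = m + 1 := ⟨_, hz⟩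
      rw [hm] at hs' hjk hmin
      obtain ⟨hc', b, hb, hsb⟩ := Pool.TSphD.mem_fc.1 hs'
      have hsne : s'.Nonempty := by rw [← Finset.card_pos, hc']; omega
      obtain ⟨u, hu, humin⟩ := Finset.exists_min_image s' pos hsne
      have hins : insert u (s'.erase u) = s' := Finset.insert_erase hu
      have hc2 : (s'.erase u).card = m := by
        rw [Finset.card_erase_of_mem hu, hc']; rfl
      have hfc : s'.erase u ∈ fc m F :=
        Pool.TSphD.mem_fc.2 ⟨hc2, b, hb, (Finset.erase_subset u s').trans hsb⟩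
      refine ⟨s'.erase u, m, by omega, hfc, ⟨u, ?_, ?_⟩, ?_⟩
      · rw [Lo, Finset.mem_filter]
        refine ⟨Finset.mem_biUnion.2 ⟨b \ s'.erase u, Pool.TSphD.mem_lk.2
          ⟨b, hb, (Finset.erase_subset u s').trans hsb, rfl⟩, ?_⟩, ?_⟩
        · exact Finset.mem_sdiff.2 ⟨hsb hu, fun h => (Finset.notMem_erase u s') h⟩
        · intro x hx
          obtain ⟨hxu, hx'⟩ := Finset.mem_erase.1 hx
          exact lt_of_le_of_ne (humin x hx') (fun h => hxu (hpos h).symm)
      · rw [hins]; exact hts'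
      · intro h
        exact hmin m (Nat.lt_succ_self m) ⟨by omega, _, hfc, h⟩
  -- the sets
  let D : Finset ι → Finset (Finset ι) := fun s =>
    (Lo F pos s).biUnion (fun u => B (insert u s)) \ B s
  have hDtop : ∀ j, j < k → ∀ s ∈ fc j F, ∀ t ∈ D s,
      t ∈ rdg (k + 2) F ∧ t ∉ Cl ∧ Top pos s t ∧ t ∉ B s ∧ ∃ u ∈ Lo F pos s, t ∈ B (insert u s) := by
    intro j hj s hs t ht
    obtain ⟨ht1, ht2⟩ := Finset.mem_sdiff.1 ht
    obtain ⟨u, hu, htu⟩ := Finset.mem_biUnion.1 ht1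
    obtain ⟨hus, hins⟩ := lev_insert hs hu
    obtain ⟨h2, h3, h4⟩ := nest_top hN (j := j + 1) (by omega) hins htu
    refine ⟨h2, h3, ⟨(Finset.subset_insert u s).trans h4.1, ?_⟩, ht2, u, hu, htu⟩
    intro y hy x hx
    by_cases hyu : y = u
    · subst hyu
      exact (Finset.mem_filter.1 hu).2 x hx
    · refine h4.2 y ?_ x (Finset.mem_insert_of_mem hx)
      rw [Finset.mem_sdiff, Finset.mem_insert, not_or]
      exact ⟨(Finset.mem_sdiff.1 hy).1, hyu, (Finset.mem_sdiff.1 hy).2⟩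
  -- uniqueness of the level
  have huniq : ∀ j, j < k → ∀ s ∈ fc j F, ∀ j', j' < k → ∀ s' ∈ fc j' F, ∀ t ∈ D s, t ∈ D s' →
      s = s' := by
    have aux : ∀ j, j < k → ∀ s ∈ fc j F, ∀ j', j' < k → ∀ s' ∈ fc j' F, ∀ t ∈ D s, t ∈ D s' →
        ¬ j < j' := by
      intro j hj s hs j' hj' s' hs' t ht ht' hlt
      obtain ⟨-, -, -, -, u, hu, htu⟩ := hDtop j hj s hs t ht
      obtain ⟨-, -, htop', hnot', -⟩ := hDtop j' hj' s' hs' t ht'
      exact hnot' (lev_up' hN (lev_insert hs hu).2 htu (by omega) hj'.le hs' htop')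
    intro j hj s hs j' hj' s' hs' t ht ht'
    have h1 := aux j hj s hs j' hj' s' hs' t ht ht'
    have h2 := aux j' hj' s' hs' j hj s hs t ht' ht
    have e : j = j' := by omega
    subst e
    refine lev_unique (hDtop j hj s hs t ht).2.2.1 (hDtop j hj s' hs' t ht').2.2.1 ?_
    rw [(Pool.TSphD.mem_fc.1 hs).1, (Pool.TSphD.mem_fc.1 hs').1]
  have hDM : ∀ j, j < k → ∀ s ∈ fc j F, D s ⊆ (rdg (k + 2) F \ Cl) \ B ∅ := by
    intro j hj s hs t ht
    obtain ⟨h1, h2, h3, h4, -⟩ := hDtop j hj s hs t ht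
    rw [Finset.mem_sdiff, Finset.mem_sdiff]
    exact ⟨⟨h1, h2⟩, fun h => h4 (lev_up' hN h0 h (Nat.zero_le j) hj.le hs h3)⟩
  choose! lev hlev using hex
  refine ⟨lev, hlev, fun h => ?_⟩
  have hlevD : ∀ t ∈ (rdg (k + 2) F \ Cl) \ B ∅, t ∈ D (lev t) := by
    intro t ht
    obtain ⟨j, hj, hf, ⟨u, hu, htu⟩, hn⟩ := hlev t ht
    exact Finset.mem_sdiff.2 ⟨Finset.mem_biUnion.2 ⟨u, hu, htu⟩, hn⟩
  -- the right hand side
  have hcardD : ∀ j, j < k → ∀ s ∈ fc j F,
      (∑ u ∈ Lo F pos s, ((B (insert u s)).card : ℝ)) - (B s).card = (D s).card := by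
    intro j hj s hs
    have hsub : B s ⊆ (Lo F pos s).biUnion (fun u => B (insert u s)) := hN.sub j hj s hs
    have hdisj : ∀ u ∈ Lo F pos s, ∀ u' ∈ Lo F pos s, u ≠ u' →
        Disjoint (B (insert u s)) (B (insert u' s)) := by
      intro u hu u' hu' hne'
      rw [Finset.disjoint_left]
      intro t ht ht'
      obtain ⟨h1, h2⟩ := lev_insert hs hu
      obtain ⟨h1', h2'⟩ := lev_insert hs hu'
      have e : insert u s = insert u' s :=
        lev_unique (nest_top hN (j := j + 1) (by omega) h2 ht).2.2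
          (nest_top hN (j := j + 1) (by omega) h2' ht').2.2
          (by rw [(Pool.TSphD.mem_fc.1 h2).1, (Pool.TSphD.mem_fc.1 h2').1])
      have h3 : u ∈ insert u' s := e ▸ Finset.mem_insert_self u s
      rcases Finset.mem_insert.1 h3 with h | h
      · exact hne' h
      · exact h1 h
    have hc1 : ((Lo F pos s).biUnion (fun u => B (insert u s))).card =
        ∑ u ∈ Lo F pos s, (B (insert u s)).card := Finset.card_biUnion hdisj
    have hc2 : (D s).card + (B s).card = ((Lo F pos s).biUnion (fun u => B (insert u s))).card :=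
      Finset.card_sdiff_add_card_eq_card hsub
    rw [hc1] at hc2
    have hc3 : ((D s).card : ℝ) + (B s).card = ∑ u ∈ Lo F pos s, ((B (insert u s)).card : ℝ) := by
      exact_mod_cast hc2
    linarith
  calc ∑ t ∈ (rdg (k + 2) F \ Cl) \ B ∅, h (lev t)
      = ∑ t ∈ (rdg (k + 2) F \ Cl) \ B ∅, ∑ j ∈ range k, ∑ s ∈ fc j F,
          (if t ∈ D s then h s else 0) := by
        refine Finset.sum_congr rfl fun t ht => ?_
        obtain ⟨j, hj, hf, -, -⟩ := hlev t ht
        have hD := hlevD t ht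
        rw [Finset.sum_eq_single_of_mem j (Finset.mem_range.2 hj)]
        · rw [Finset.sum_eq_single_of_mem (lev t) hf]
          · rw [if_pos hD]
          · intro s hs hsne
            rw [if_neg]
            intro htD
            exact hsne (huniq j hj s hs j hj (lev t) hf t htD hD)
        · intro j' hj' hne'
          refine Finset.sum_eq_zero fun s hs => ?_
          rw [if_neg]
          intro htD
          have e := huniq j' (Finset.mem_range.1 hj') s hs j hj (lev t) hf t htD hD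
          apply hne'
          rw [← (Pool.TSphD.mem_fc.1 hs).1, e, (Pool.TSphD.mem_fc.1 hf).1]
    _ = ∑ j ∈ range k, ∑ s ∈ fc j F, ∑ t ∈ (rdg (k + 2) F \ Cl) \ B ∅,
          (if t ∈ D s then h s else 0) := by
        rw [Finset.sum_comm]
        refine Finset.sum_congr rfl fun j _ => ?_
        rw [Finset.sum_comm]
    _ = _ := by
        refine Finset.sum_congr rfl fun j hj => Finset.sum_congr rfl fun s hs => ?_
        rw [hcardD j (Finset.mem_range.1 hj) s hs, ← Finset.sum_filter, Finset.filter_mem_eq_inter,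
          Finset.inter_eq_right.2 (hDM j (Finset.mem_range.1 hj) s hs), Finset.sum_const,
          nsmul_eq_mul]

end Pool.TSphM
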