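import Pool.Agent.Lib.MP_3de3a3_co.M.Defs
import Pool.Agent.Lib.MP_3de3a3_co.DConn
import Pool.Agent.Lib.MP_3de3a3_co.M.Links

/-! # The complement of a forest connects the triangles (module M/SphC) -/

set_option autoImplicit false

namespace Pool.TSphM

open Finset
open Pool.TSph (verts IsSphere2 adj comp Ep PhiK)
open Pool.TSphD (fc rdg lk Lo PM side IsLF mv Closings)

variable {ι : Type*} [DecidableEq ι]

private theorem SphC_pm {L : Finset (Finset ι)} (hL : IsSphere2 L) : PM 2 L where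
  card := fun s hs => hL.card3 s hs
  two := fun t ht => by
    obtain ⟨h1, s, hs, hts⟩ := Pool.TSphD.mem_rdg.1 ht
    exact hL.edge s hs t hts h1
  star := hL.star

/-- `L` satisfies `PM 2`. Apply `conn_of_rank` (file DConn.lean, `δ = 2`) with `M` = the edges which are not
`{w, par w}` with `w ∈ U \ Rt`, `e {w, par w} = {w}`, `rk {w, par w} = K - dist w` with `K` a bound for
`dist` on `U`: if `{w, par w}` and `{w', par w'}` are different and both contain `w` then `w = par w'`,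
so `dist w < dist w'`. -/
theorem sphere_forest_conn {L : Finset (Finset ι)} (hL : IsSphere2 L) (U Rt : Finset ι)
    (par : ι → ι) (dist : ι → ℕ)
    (hf : ∀ w ∈ U, w ∉ Rt → par w ∈ U ∧ adj L w (par w) ∧ dist (par w) < dist w) :
    ∀ a ∈ L, ∀ b ∈ L, Relation.ReflTransGen (fun a b => b ∈ L ∧ (a ∩ b).card = 2 ∧
      ∀ w ∈ U, w ∉ Rt → a ∩ b ≠ {w, par w}) a b := by
  classical
  obtain ⟨K, hK⟩ : ∃ K : ℕ, ∀ w ∈ U, dist w ≤ K := ⟨U.sup dist, fun w hw => le_sup hw⟩
  have hch : ∀ t : Finset ι, ∃ p : Finset ι × ℕ, (∃ w ∈ U, w ∉ Rt ∧ t = {w, par w}) →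
      ∃ w ∈ U, w ∉ Rt ∧ t = {w, par w} ∧ p.1 = {w} ∧ p.2 = K - dist w := by
    intro t
    by_cases h : ∃ w ∈ U, w ∉ Rt ∧ t = {w, par w}
    · obtain ⟨w, hw, h1, h2⟩ := h
      exact ⟨({w}, K - dist w), fun _ => ⟨w, hw, h1, h2, rfl, rfl⟩⟩
    · exact ⟨(∅, 0), fun h' => absurd h' h⟩
  choose p hp using hch
  have hM : ∀ t ∈ rdg 2 L, t ∉ (rdg 2 L).filter (fun t => ∀ w ∈ U, w ∉ Rt → t ≠ {w, par w}) →
      ∃ w ∈ U, w ∉ Rt ∧ t = {w, par w} ∧ (p t).1 = {w} ∧ (p t).2 = K - dist w := by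
    intro t ht htM
    apply hp
    by_contra hcon
    push Not at hcon
    exact htM (mem_filter.2 ⟨ht, hcon⟩)
  have key := Pool.TSphD.conn_of_rank (M := (rdg 2 L).filter (fun t => ∀ w ∈ U, w ∉ Rt →
    t ≠ {w, par w})) (rk := fun t => (p t).2) (e := fun t => (p t).1) (SphC_pm hL) hL.conn ?_ ?_
  · intro a ha b hb
    exact Relation.ReflTransGen.mono (fun x y hxy => ⟨hxy.1,
      (Pool.TSphD.mem_rdg.1 (mem_filter.1 hxy.2).1).1, (mem_filter.1 hxy.2).2⟩) _ _ (key a ha b hb)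
  · intro t ht htM
    obtain ⟨w, hw, _, h2, h3, _⟩ := hM t ht htM
    rw [h3, card_singleton]
    refine ⟨?_, rfl⟩
    rw [h2]
    exact singleton_subset_iff.2 (mem_insert_self _ _)
  · intro t ht htM t' ht' hsub hne
    by_cases h : t' ∈ (rdg 2 L).filter (fun t => ∀ w ∈ U, w ∉ Rt → t ≠ {w, par w})
    · exact Or.inl h
    · right
      obtain ⟨w, hw, hwR, h2, h3, h4⟩ := hM t ht htM
      obtain ⟨w', hw', hwR', h2', _, h4'⟩ := hM t' ht' h
      rw [h3, singleton_subset_iff, h2', mem_insert, mem_singleton] at hsub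
      rw [h4, h4']
      rcases hsub with h5 | h5
      · exfalso
        apply hne
        rw [h2, h2', h5]
      · have h6 := (hf w' hw' hwR').2.2
        rw [← h5] at h6
        have h7 := hK w' hw'
        omega

end Pool.TSphM
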