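import Pool.Agent.Lib.MP_3de3a3_co.M.Defs
import Pool.Agent.Lib.MP_3de3a3_co.M.SphC
import Pool.Agent.Lib.MP_3de3a3_co.M.Links
import Pool.Agent.Lib.MP_3de3a3_co.DClosCard

/-! # The last level is connected (module M/ConnLast) -/

set_option autoImplicit false

namespace Pool.TSphM

open Finset
open Pool.TSph (verts IsSphere2 adj comp Ep PhiK)
open Pool.TSphD (fc rdg lk Lo PM side IsLF mv Closings)
open Pool.TSphD (Data)

variable {ι : Type*} [DecidableEq ι]

/-- In the link of `s` (a 2-sphere) apply `sphere_forest_conn` with `U = Lo F pos s`, `Rt s`, `par s`,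
`dist s`, and add `s` to all triangles. A ridge `s ∪ {x, y}` of `F` which is a closing ridge and has
the top part `s` is `s ∪ {w, par s w}` with `w ∈ Lo F pos s \ Rt s` (`top_unique`); a ridge which
contains `s` but not with `s` as its top part meets `Wo F pos s`. -/
theorem conn_last {k : ℕ} {F : Finset (Finset ι)} (hk : 0 < k) (hF : IsNor (k + 3) F)
    {pos : ι → ℕ} (hpos : Function.Injective pos) {R G D Rt dist par}
    (hD : Data k F pos R G D Rt dist par) {s : Finset ι} (hs : s ∈ fc k F) :
    ∀ a ∈ F, ∀ b ∈ F, s ⊆ a → s ⊆ b → Relation.ReflTransGen (fun a b => b ∈ F ∧ s ⊆ a ∩ b ∧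
      a ∩ b ∈ ((rdg (k + 2) F \ Closings k F pos Rt par).filter (fun t => Top pos s t)) ∪
        Yr k F pos s) a b := by
  intro a ha b hb hsa hsb
  have hsc : s.card = k := (Pool.TSphD.mem_fc.1 hs).1
  have hL : IsSphere2 (lk F s) := by
    have h := hF.sphere s
    simp only [Nat.add_sub_cancel] at h
    exact h hs
  have hal : a \ s ∈ lk F s := Pool.TSphD.mem_lk.2 ⟨a, ha, hsa, rfl⟩
  have hbl : b \ s ∈ lk F s := Pool.TSphD.mem_lk.2 ⟨b, hb, hsb, rfl⟩
  have hch := sphere_forest_conn hL (Lo F pos s) (Rt s) (par s) (dist s)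
    (fun w hw hwR => ⟨(hD.forest s hs w hw hwR).1, (hD.forest s hs w hw hwR).2.1,
      (hD.forest s hs w hw hwR).2.2.2⟩) (a \ s) hal (b \ s) hbl
  have key : ∀ c, Relation.ReflTransGen (fun a b => b ∈ lk F s ∧ (a ∩ b).card = 2 ∧
      ∀ w ∈ Lo F pos s, w ∉ Rt s → a ∩ b ≠ {w, par s w}) (a \ s) c →
      c ∈ lk F s ∧ Relation.ReflTransGen (fun a b => b ∈ F ∧ s ⊆ a ∩ b ∧
      a ∩ b ∈ ((rdg (k + 2) F \ Closings k F pos Rt par).filter (fun t => Top pos s t)) ∪
        Yr k F pos s) (s ∪ (a \ s)) (s ∪ c) := by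
    intro c hc
    induction hc with
    | refl => exact ⟨hal, Relation.ReflTransGen.refl⟩
    | @tail x y _ hxy ih =>
      obtain ⟨hx, hch'⟩ := ih
      obtain ⟨hy, hxyc, hne⟩ := hxy
      refine ⟨hy, hch'.tail ?_⟩
      obtain ⟨hdx, hxF⟩ := Pool.TSphD.mem_lk'.1 hx
      obtain ⟨hdy, hyF⟩ := Pool.TSphD.mem_lk'.1 hy
      have hint : (s ∪ x) ∩ (s ∪ y) = s ∪ (x ∩ y) := (union_inter_distrib_left s x y).symm
      have hdis : Disjoint s (x ∩ y) := hdx.mono_right inter_subset_left
      have hr : s ∪ (x ∩ y) ∈ rdg (k + 2) F := by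
        refine Pool.TSphD.mem_rdg.2 ⟨?_, s ∪ x, hxF, union_subset_union (Subset.refl s)
          inter_subset_left⟩
        rw [card_union_of_disjoint hdis, hsc, hxyc]
      refine ⟨hyF, ?_, ?_⟩
      · rw [hint]
        exact subset_union_left
      · rw [hint, mem_union]
        by_cases hW : Disjoint (s ∪ (x ∩ y)) (Wo F pos s)
        · left
          have hlow : ∀ z ∈ x ∩ y, ∀ v ∈ s, pos z < pos v := by
            intro z hz
            have hzv : z ∈ verts (lk F s) :=
              Pool.TSph.mem_verts.2 ⟨x, hx, (mem_inter.1 hz).1⟩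
            have hzW : z ∉ Wo F pos s := fun h =>
              (disjoint_left.1 hW) (mem_union_right s hz) h
            have hzL : z ∈ Lo F pos s := by
              by_contra hcon
              exact hzW (mem_sdiff.2 ⟨hzv, hcon⟩)
            exact (Pool.TSphD.Lo_facts hzL).2
          refine mem_filter.2 ⟨mem_sdiff.2 ⟨hr, ?_⟩, subset_union_left, ?_⟩
          · intro hcl
            simp only [Closings, mem_biUnion, mem_image] at hcl
            obtain ⟨σ, hσ, w, hw, hw'⟩ := hcl
            have fw := Pool.TSphD.clos_facts hD hσ hw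
            have hc : σ.card = s.card := by rw [(Pool.TSphD.mem_fc.1 hσ).1, hsc]
            obtain ⟨e1, e2⟩ := Pool.TSphD.top_unique (pos := pos) hw' hc fw.1 hlow
            subst e1
            exact hne w (mem_sdiff.1 hw).1 (mem_sdiff.1 hw).2 e2.symm
          · intro z hz
            rw [mem_sdiff, mem_union] at hz
            rcases hz.1 with h | h
            · exact absurd h hz.2
            · exact hlow z h
        · right
          exact mem_filter.2 ⟨hr, subset_union_left, hW⟩
  have hfin := (key (b \ s) hch).2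
  rw [union_sdiff_of_subset hsa, union_sdiff_of_subset hsb] at hfin
  exact hfin

end Pool.TSphM
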