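import Pool.Agent.Lib.MP_3de3a3_co.M.Defs
import Pool.Agent.Lib.MP_3de3a3_co.M.Links

/-! # The stars are connected by the ridges of the next level (module M/ConnStep) -/

set_option autoImplicit false

namespace Pool.TSphM

open Finset
open Pool.TSph (verts IsSphere2 adj comp Ep PhiK)
open Pool.TSphD (fc rdg lk Lo PM side IsLF mv Closings)
open Pool.TSphD (mem_fc mem_verts_lk)

variable {ι : Type*} [DecidableEq ι]

/-- Claim `C u` for `u ∈ Lo F pos s`: any two facets which contain `insert u s` are connected as
wanted. Induction on `u`, from high to low `pos u`: in the chain of `hB` a ridge `r = a' ∩ b'` in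
`B (insert u s)` is fine. If `r` contains `w ∈ Wo F pos (insert u s)`: `w ∉ s`, `w` is in the link of `s`; if
`pos w > pos x` for some `x ∈ s` then `w ∈ Wo F pos s` and `r ∈ Yr k F pos s`. Otherwise `w` is lower than
all of `s` and `pos u < pos w`, so `w ∈ Lo F pos s` and both facets contain `insert w s`: use `C w`.
Then: by `hF.star` (for `s`) the facets containing `s` are connected by ridges `r ⊇ s`; if `r` meets
`Wo F pos s` then `r ∈ Yr k F pos s`, otherwise `r \ s ⊆ Lo F pos s` is nonempty (`j < k`), and the two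
facets contain `insert u s` for any `u ∈ r \ s`: use `C u`. -/
theorem conn_step {k : ℕ} {F : Finset (Finset ι)} (hF : IsNor (k + 3) F)
    {pos : ι → ℕ} (hpos : Function.Injective pos) (B : Finset ι → Finset (Finset ι)) {j : ℕ}
    (hj : j < k) {s : Finset ι} (hs : s ∈ fc j F)
    (hB : ∀ u ∈ Lo F pos s, ∀ a ∈ F, ∀ b ∈ F, insert u s ⊆ a → insert u s ⊆ b →
      Relation.ReflTransGen (fun a b => b ∈ F ∧ insert u s ⊆ a ∩ b ∧
        a ∩ b ∈ B (insert u s) ∪ Yr k F pos (insert u s)) a b) :
    ∀ a ∈ F, ∀ b ∈ F, s ⊆ a → s ⊆ b → Relation.ReflTransGen (fun a b => b ∈ F ∧ s ⊆ a ∩ b ∧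
      a ∩ b ∈ ((Lo F pos s).biUnion (fun u => B (insert u s))) ∪ Yr k F pos s) a b := by
  have hsc : s.card = j := (mem_fc.1 hs).1
  have hlo : ∀ u, u ∈ Lo F pos s ↔ (u ∉ s ∧ ∃ a ∈ F, s ⊆ a ∧ u ∈ a) ∧ ∀ x ∈ s, pos u < pos x := by
    intro u
    unfold Lo
    rw [mem_filter, mem_verts_lk]
  have key : ∀ n : ℕ, ∀ u ∈ Lo F pos s, ((Lo F pos s).filter (fun w => pos u < pos w)).card < n →
      ∀ a ∈ F, ∀ b ∈ F, insert u s ⊆ a → insert u s ⊆ b →
      Relation.ReflTransGen (fun a b => b ∈ F ∧ s ⊆ a ∩ b ∧
        a ∩ b ∈ ((Lo F pos s).biUnion (fun u => B (insert u s))) ∪ Yr k F pos s) a b := by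
    intro n
    induction n with
    | zero => intro u _ h; exact absurd h (Nat.not_lt_zero _)
    | succ n ih =>
      intro u hu hn a ha b hb hua hub
      have hch := hB u hu a ha b hb hua hub
      suffices h : ∀ c, Relation.ReflTransGen (fun a b => b ∈ F ∧ insert u s ⊆ a ∩ b ∧
          a ∩ b ∈ B (insert u s) ∪ Yr k F pos (insert u s)) a c →
          c ∈ F ∧ Relation.ReflTransGen (fun a b => b ∈ F ∧ s ⊆ a ∩ b ∧
            a ∩ b ∈ ((Lo F pos s).biUnion (fun u => B (insert u s))) ∪ Yr k F pos s) a c from
        (h b hch).2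
      intro c hc
      induction hc with
      | refl => exact ⟨ha, Relation.ReflTransGen.refl⟩
      | @tail b' c _ hstep ihc =>
        obtain ⟨hcF, hsub, hr⟩ := hstep
        obtain ⟨hb'F, hgen⟩ := ihc
        refine ⟨hcF, hgen.trans ?_⟩
        have hs2 : s ⊆ b' ∩ c := (subset_insert _ _).trans hsub
        rcases mem_union.1 hr with hr | hr
        · exact Relation.ReflTransGen.single ⟨hcF, hs2, mem_union_left _ (mem_biUnion.2 ⟨u, hu, hr⟩)⟩
        · unfold Yr at hr
          rw [mem_filter, not_disjoint_iff] at hr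
          obtain ⟨hrr, hsr, w, hwr, hwW⟩ := hr
          unfold Wo at hwW
          rw [mem_sdiff, mem_verts_lk] at hwW
          obtain ⟨⟨hwn, f, hf, hsf, hwf⟩, hwL⟩ := hwW
          have hws : w ∉ s := fun h => hwn (mem_insert_of_mem h)
          by_cases hwlo : w ∈ Lo F pos s
          · have huw : pos u < pos w := by
              by_contra hcon
              apply hwL
              unfold Lo
              rw [mem_filter, mem_verts_lk]
              refine ⟨⟨hwn, f, hf, hsf, hwf⟩, ?_⟩
              intro x hx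
              rcases mem_insert.1 hx with h | h
              · rw [h]
                refine lt_of_le_of_ne (not_lt.1 hcon) fun h2 => hwn ?_
                rw [hpos h2]
                exact mem_insert_self _ _
              · exact ((hlo w).1 hwlo).2 x h
            refine ih w hwlo ?_ b' hb'F c hcF ?_ ?_
            · refine lt_of_lt_of_le (card_lt_card ?_) (Nat.lt_succ_iff.1 hn)
              refine ⟨?_, ?_⟩
              · intro x hx
                rw [mem_filter] at hx ⊢
                exact ⟨hx.1, huw.trans hx.2⟩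
              · intro hcon
                have := hcon (mem_filter.2 ⟨hwlo, huw⟩)
                rw [mem_filter] at this
                exact lt_irrefl _ this.2
            · exact insert_subset (mem_inter.1 hwr).1 (hs2.trans inter_subset_left)
            · exact insert_subset (mem_inter.1 hwr).2 (hs2.trans inter_subset_right)
          · refine Relation.ReflTransGen.single ⟨hcF, hs2, mem_union_right _ ?_⟩
            unfold Yr
            rw [mem_filter, not_disjoint_iff]
            refine ⟨hrr, hs2, w, hwr, ?_⟩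
            unfold Wo
            rw [mem_sdiff, mem_verts_lk]
            exact ⟨⟨hws, f, hf, (subset_insert _ _).trans hsf, hwf⟩, hwlo⟩
  intro a ha b hb hsa hsb
  have hch := hF.star s (by omega) a ha b hb hsa hsb
  suffices h : ∀ c, Relation.ReflTransGen (fun a b => b ∈ F ∧ (a ∩ b).card + 1 = k + 3 ∧ s ⊆ a ∩ b) a c →
      c ∈ F ∧ Relation.ReflTransGen (fun a b => b ∈ F ∧ s ⊆ a ∩ b ∧
        a ∩ b ∈ ((Lo F pos s).biUnion (fun u => B (insert u s))) ∪ Yr k F pos s) a c from
    (h b hch).2
  intro c hc
  induction hc with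
  | refl => exact ⟨ha, Relation.ReflTransGen.refl⟩
  | @tail b' c _ hstep ihc =>
    obtain ⟨hcF, hcard, hs2⟩ := hstep
    obtain ⟨hb'F, hgen⟩ := ihc
    refine ⟨hcF, hgen.trans ?_⟩
    have hr : b' ∩ c ∈ rdg (k + 2) F := by
      unfold rdg
      rw [mem_fc]
      exact ⟨by omega, c, hcF, inter_subset_right⟩
    by_cases hd : Disjoint (b' ∩ c) (Wo F pos s)
    · have h1 : 0 < ((b' ∩ c) \ s).card := by
        rw [card_sdiff_of_subset hs2]
        omega
      obtain ⟨u, hu⟩ := card_pos.1 h1
      rw [mem_sdiff] at hu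
      have hu2 := mem_inter.1 hu.1
      have hv : u ∈ verts (lk F s) :=
        mem_verts_lk.2 ⟨hu.2, c, hcF, hs2.trans inter_subset_right, hu2.2⟩
      have hul : u ∈ Lo F pos s := by
        by_contra hcon
        exact (disjoint_left.1 hd hu.1) (by unfold Wo; exact mem_sdiff.2 ⟨hv, hcon⟩)
      exact key _ u hul (Nat.lt_succ_self _) b' hb'F c hcF
        (insert_subset hu2.1 (hs2.trans inter_subset_left))
        (insert_subset hu2.2 (hs2.trans inter_subset_right))
    · refine Relation.ReflTransGen.single ⟨hcF, hs2, mem_union_right _ ?_⟩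
      unfold Yr
      rw [mem_filter]
      exact ⟨hr, hs2, hd⟩

end Pool.TSphM
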