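import Pool.Agent.Lib.MP_3de3a3_co.M.Defs
import Pool.Agent.Lib.MP_3de3a3_co.DConnect

/-! # Joining the components with given ridges (module M/ConnZ) -/

set_option autoImplicit false

namespace Pool.TSphM

open Finset
open Pool.TSph (verts IsSphere2 adj comp Ep PhiK)
open Pool.TSphD (fc rdg lk Lo PM side IsLF mv Closings)

variable {ι : Type*} [DecidableEq ι]

private theorem connZ_symm {F M : Finset (Finset ι)} {a b : Finset ι} (ha : a ∈ F)
    (h : Relation.ReflTransGen (fun a b => b ∈ F ∧ a ∩ b ∈ M) a b) :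
    b ∈ F ∧ Relation.ReflTransGen (fun a b => b ∈ F ∧ a ∩ b ∈ M) b a := by
  induction h with
  | refl => exact ⟨ha, Relation.ReflTransGen.refl⟩
  | tail _ hbc ih =>
    refine ⟨hbc.1, Relation.ReflTransGen.head ⟨ih.1, ?_⟩ ih.2⟩
    rw [Finset.inter_comm]
    exact hbc.2

private theorem connZ_mono {F M M' : Finset (Finset ι)} {a b : Finset ι} (hM : M ⊆ M')
    (h : Relation.ReflTransGen (fun a b => b ∈ F ∧ a ∩ b ∈ M) a b) :
    Relation.ReflTransGen (fun a b => b ∈ F ∧ a ∩ b ∈ M') a b := by
  induction h with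
  | refl => exact Relation.ReflTransGen.refl
  | tail _ hbc ih => exact Relation.ReflTransGen.tail ih ⟨hbc.1, hM hbc.2⟩

private theorem connZ_aux {F Z : Finset (Finset ι)} (hne : F.Nonempty) (k : ℕ) :
    ∀ (M Rts : Finset (Finset ι)), Rts.card = k → Rts ⊆ F →
    (∀ s ∈ F, ∀ t ∈ F, Relation.ReflTransGen (fun a b => b ∈ F ∧ a ∩ b ∈ M ∪ Z) s t) →
    (∀ s ∈ F, ∃ u ∈ Rts, Relation.ReflTransGen (fun a b => b ∈ F ∧ a ∩ b ∈ M) s u) →
    ∃ X : Finset (Finset ι), X ⊆ Z ∧ X.card + 1 ≤ Rts.card ∧
      ∀ s ∈ F, ∀ t ∈ F, Relation.ReflTransGen (fun a b => b ∈ F ∧ a ∩ b ∈ M ∪ X) s t := by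
  classical
  induction k with
  | zero =>
    intro M Rts hk _ _ h
    obtain ⟨s, hs⟩ := hne
    obtain ⟨u, hu, _⟩ := h s hs
    rw [Finset.card_eq_zero] at hk
    rw [hk] at hu
    exact absurd hu (Finset.notMem_empty u)
  | succ k ih =>
    intro M Rts hk hR hconn h
    by_cases hall : ∀ s ∈ F, ∀ t ∈ F, Relation.ReflTransGen (fun a b => b ∈ F ∧ a ∩ b ∈ M) s t
    · refine ⟨∅, Finset.empty_subset _, ?_, ?_⟩
      · rw [Finset.card_empty]
        omega
      · intro s hs t ht
        rw [Finset.union_empty]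
        exact hall s hs t ht
    · push Not at hall
      obtain ⟨s, hs, t, ht, hst⟩ := hall
      -- a step which leaves the component of `s`
      have hstep : ∃ a ∈ F, ∃ b ∈ F, a ∩ b ∈ Z ∧
          Relation.ReflTransGen (fun a b => b ∈ F ∧ a ∩ b ∈ M) s a ∧
          ¬ Relation.ReflTransGen (fun a b => b ∈ F ∧ a ∩ b ∈ M) s b := by
        by_contra hcon
        push Not at hcon
        apply hst
        have hall : ∀ t', Relation.ReflTransGen (fun a b => b ∈ F ∧ a ∩ b ∈ M ∪ Z) s t' →
            t' ∈ F ∧ Relation.ReflTransGen (fun a b => b ∈ F ∧ a ∩ b ∈ M) s t' := by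
          intro t' h'
          induction h' with
          | refl => exact ⟨hs, Relation.ReflTransGen.refl⟩
          | tail _ hbc ih' =>
            refine ⟨hbc.1, ?_⟩
            rcases Finset.mem_union.1 hbc.2 with hM | hZ
            · exact ih'.2.tail ⟨hbc.1, hM⟩
            · exact hcon _ ih'.1 _ hbc.1 hZ ih'.2
        exact (hall t (hconn s hs t ht)).2
      obtain ⟨a, ha, b, hb, hab, hsa, hsb⟩ := hstep
      obtain ⟨ua, hua, hau⟩ := h a ha
      obtain ⟨ub, hub, hbu⟩ := h b hb
      have hne' : ua ≠ ub := by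
        rintro rfl
        exact hsb ((hsa.trans hau).trans (connZ_symm hb hbu).2)
      have hM : M ⊆ insert (a ∩ b) M := Finset.subset_insert _ _
      obtain ⟨X, hX1, hX2, hX3⟩ := ih (insert (a ∩ b) M) (Rts.erase ub)
        (by rw [Finset.card_erase_of_mem hub]; omega)
        ((Finset.erase_subset _ _).trans hR)
        (fun x hx y hy => connZ_mono (Finset.union_subset_union hM (Finset.Subset.refl Z))
          (hconn x hx y hy)) (by
          intro x hx
          obtain ⟨u, hu, hxu⟩ := h x hx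
          by_cases huu : u = ub
          · refine ⟨ua, Finset.mem_erase.2 ⟨hne', hua⟩, ?_⟩
            rw [huu] at hxu
            refine ((connZ_mono hM hxu).trans
              (connZ_mono hM (connZ_symm hb hbu).2)).trans ?_
            refine Relation.ReflTransGen.head ⟨ha, ?_⟩ (connZ_mono hM hau)
            rw [Finset.inter_comm]
            exact Finset.mem_insert_self _ _
          · exact ⟨u, Finset.mem_erase.2 ⟨huu, hu⟩, connZ_mono hM hxu⟩)
      have hcard := Finset.card_erase_add_one hub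
      refine ⟨insert (a ∩ b) X, ?_, ?_, ?_⟩
      · intro z hz
        rcases Finset.mem_insert.1 hz with rfl | hz
        · exact hab
        · exact hX1 hz
      · have := Finset.card_insert_le (a ∩ b) X
        omega
      · intro x hx y hy
        refine connZ_mono ?_ (hX3 x hx y hy)
        intro z hz
        simp only [Finset.mem_union, Finset.mem_insert] at hz ⊢
        tauto

/-- As `connect` (file DConnect.lean), but the ridges which are added are taken from `Z`: induction on
`Rts.card`; if not all facets are connected by `M`, a chain with steps in `M ∪ Z` leaves the component of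
some facet at a step `a, b` with `a ∩ b ∈ Z`; add `a ∩ b` to `M` and remove a representative. -/
theorem connectZ {F M Z : Finset (Finset ι)} (hne : F.Nonempty)
    (hconn : ∀ s ∈ F, ∀ t ∈ F, Relation.ReflTransGen (fun a b => b ∈ F ∧ a ∩ b ∈ M ∪ Z) s t)
    (Rts : Finset (Finset ι)) (hR : Rts ⊆ F)
    (h : ∀ s ∈ F, ∃ u ∈ Rts, Relation.ReflTransGen (fun a b => b ∈ F ∧ a ∩ b ∈ M) s u) :
    ∃ X : Finset (Finset ι), X ⊆ Z ∧ X.card + 1 ≤ Rts.card ∧
      ∀ s ∈ F, ∀ t ∈ F, Relation.ReflTransGen (fun a b => b ∈ F ∧ a ∩ b ∈ M ∪ X) s t := by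
  exact connZ_aux hne Rts.card M Rts rfl hR hconn h

end Pool.TSphM
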