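import Pool.Agent.Lib.MP_3de3a3_co.M.Defs
import Pool.Agent.Lib.MP_3de3a3_co.M.Links

/-! # Representatives of the components of a star (module M/Reps) -/

set_option autoImplicit false

namespace Pool.TSphM

open Finset
open Pool.TSph (verts IsSphere2 adj comp Ep PhiK)
open Pool.TSphD (fc rdg lk Lo PM side IsLF mv Closings)

variable {ι : Type*} [DecidableEq ι]

private theorem reps_star {k : ℕ} {F : Finset (Finset ι)} (hF : IsNor (k + 3) F)
    {pos : ι → ℕ} {j : ℕ} (hj : j < k) {s : Finset ι} (hs : s ∈ fc j F) {w : ι}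
    (hw : w ∈ Wo F pos s) {a b : Finset ι} (ha : a ∈ F) (hb : b ∈ F) (hsa : s ⊆ a) (hsb : s ⊆ b)
    (hwa : w ∈ a) (hwb : w ∈ b) :
    Relation.ReflTransGen (fun a b => b ∈ F ∧ s ⊆ a ∩ b ∧ a ∩ b ∈ Yr k F pos s) a b := by
  have hc : (insert w s).card + 3 ≤ k + 3 := by
    have h1 := Finset.card_insert_le w s
    have h2 := (Pool.TSphD.mem_fc.1 hs).1
    omega
  have h := hF.star (insert w s) hc a ha b hb (Finset.insert_subset hwa hsa)
    (Finset.insert_subset hwb hsb)
  refine Relation.ReflTransGen.mono ?_ _ _ h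
  rintro x y ⟨hy, hcard, hsub⟩
  refine ⟨hy, (Finset.subset_insert w s).trans hsub, ?_⟩
  rw [Yr, Finset.mem_filter]
  refine ⟨Pool.TSphD.mem_rdg.2 ⟨by omega, y, hy, Finset.inter_subset_right⟩,
    (Finset.subset_insert w s).trans hsub, ?_⟩
  intro hd
  exact Finset.disjoint_left.1 hd (hsub (Finset.mem_insert_self w s)) hw

/-- Take all the facets with the top part `s` (`Nn F pos s` of them), and for every component of
`adj (lk F s)` on `Wo F pos s` one facet which contains `s` and a vertex of this component. For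
`w ∈ Wo F pos s` the facets which contain `insert w s` are connected by ridges which contain
`insert w s` (`hF.star`, `j + 1 + 3 ≤ k + 3`), these are in `Yr`; adjacent `w, w' ∈ Wo F pos s` lie in a
common facet with `s`. A facet containing `s` which does not meet `Wo F pos s` has the top part `s`. -/
theorem exists_reps {k : ℕ} {F : Finset (Finset ι)} (hF : IsNor (k + 3) F)
    {pos : ι → ℕ} (hpos : Function.Injective pos) {j : ℕ} (hj : j < k) {s : Finset ι}
    (hs : s ∈ fc j F) :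
    ∃ Rts : Finset (Finset ι), (∀ a ∈ Rts, a ∈ F ∧ s ⊆ a) ∧
      Rts.card ≤ comp (adj (lk F s)) (Wo F pos s) + Nn F pos s ∧
      ∀ a ∈ F, s ⊆ a → ∃ u ∈ Rts, Relation.ReflTransGen (fun a b => b ∈ F ∧ s ⊆ a ∩ b ∧
        a ∩ b ∈ Yr k F pos s) a u := by
  classical
  set W := Wo F pos s with hW
  set A := adj (lk F s) with hA
  -- a facet for every component
  have hex : ∀ C : Finset ι, C ∈ W.image (fun a => W.filter (fun b => Pool.TSph.cn A W a b)) →
      ∃ u, u ∈ F ∧ s ⊆ u ∧ ∃ w ∈ C, w ∈ u := by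
    intro C hC
    obtain ⟨v, hv, rfl⟩ := Finset.mem_image.1 hC
    have hv1 : v ∈ verts (lk F s) := (Finset.mem_sdiff.1 hv).1
    obtain ⟨t, ht, hvt⟩ := Finset.mem_biUnion.1 hv1
    obtain ⟨u, hu, hsu, rfl⟩ := Pool.TSphD.mem_lk.1 ht
    exact ⟨u, hu, hsu, v, Finset.mem_filter.2 ⟨hv, Relation.ReflTransGen.refl⟩,
      (Finset.mem_sdiff.1 hvt).1⟩
  let f : Finset ι → Finset ι := fun C =>
    if h : ∃ u, u ∈ F ∧ s ⊆ u ∧ ∃ w ∈ C, w ∈ u then h.choose else ∅
  have hf : ∀ C : Finset ι, C ∈ W.image (fun a => W.filter (fun b => Pool.TSph.cn A W a b)) →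
      f C ∈ F ∧ s ⊆ f C ∧ ∃ w ∈ C, w ∈ f C := by
    intro C hC
    have h := hex C hC
    simp only [f]
    rw [dif_pos h]
    exact h.choose_spec
  refine ⟨(W.image (fun a => W.filter (fun b => Pool.TSph.cn A W a b))).image f ∪
    F.filter (fun a => Top pos s a), ?_, ?_, ?_⟩
  · intro a ha
    rcases Finset.mem_union.1 ha with h | h
    · obtain ⟨C, hC, rfl⟩ := Finset.mem_image.1 h
      exact ⟨(hf C hC).1, (hf C hC).2.1⟩
    · exact ⟨(Finset.mem_filter.1 h).1, (Finset.mem_filter.1 h).2.1⟩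
  · refine (Finset.card_union_le _ _).trans (Nat.add_le_add ?_ ?_)
    · refine Finset.card_image_le.trans (le_of_eq ?_)
      unfold Pool.TSph.comp
      congr!
    · unfold Nn
      refine le_of_eq ?_
      congr!
  · intro a ha hsa
    by_cases hm : ∃ w ∈ W, w ∈ a
    · obtain ⟨w, hw, hwa⟩ := hm
      have hC : W.filter (fun b => Pool.TSph.cn A W w b) ∈
          W.image (fun a => W.filter (fun b => Pool.TSph.cn A W a b)) :=
        Finset.mem_image.2 ⟨w, hw, rfl⟩
      obtain ⟨h1, h2, w', hw', hw'2⟩ := hf _ hC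
      refine ⟨f (W.filter (fun b => Pool.TSph.cn A W w b)),
        Finset.mem_union_left _ (Finset.mem_image_of_mem f hC), ?_⟩
      rw [Finset.mem_filter] at hw'
      have key : ∀ v, Pool.TSph.cn A W w v → v ∈ W ∧ ∀ b ∈ F, s ⊆ b → v ∈ b →
          Relation.ReflTransGen (fun a b => b ∈ F ∧ s ⊆ a ∩ b ∧ a ∩ b ∈ Yr k F pos s) a b := by
        intro v hv
        induction hv with
        | refl => exact ⟨hw, fun b hb hsb hvb => reps_star hF hj hs hw ha hb hsa hsb hwa hvb⟩
        | tail h1 h2 ih =>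
          rename_i p q
          refine ⟨h2.1, fun b hb hsb hvb => ?_⟩
          obtain ⟨hne, t, ht, hp, hq⟩ := h2.2
          obtain ⟨u, hu, hsu, rfl⟩ := Pool.TSphD.mem_lk.1 ht
          exact (ih.2 u hu hsu (Finset.mem_sdiff.1 hp).1).trans
            (reps_star hF hj hs h2.1 hu hb hsu hsb (Finset.mem_sdiff.1 hq).1 hvb)
      exact (key w' hw'.2).2 _ h1 h2 hw'2
    · refine ⟨a, Finset.mem_union_right _ (Finset.mem_filter.2 ⟨ha, hsa, ?_⟩),
        Relation.ReflTransGen.refl⟩
      intro y hy x hx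
      have hy1 : y ∈ verts (lk F s) :=
        Finset.mem_biUnion.2 ⟨a \ s, Pool.TSphD.mem_lk.2 ⟨a, ha, hsa, rfl⟩, hy⟩
      have hy2 : y ∈ Lo F pos s := by
        by_contra hn
        exact hm ⟨y, Finset.mem_sdiff.2 ⟨hy1, hn⟩, (Finset.mem_sdiff.1 hy).1⟩
      exact (Finset.mem_filter.1 hy2).2 x hx

end Pool.TSphM
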