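import Pool.Agent.Lib.MP_3de3a3_co.M.Defs
import Pool.Agent.Lib.MP_3de3a3_co.M.ConnZ
import Pool.Agent.Lib.MP_3de3a3_co.M.ConnLast
import Pool.Agent.Lib.MP_3de3a3_co.M.ConnStep
import Pool.Agent.Lib.MP_3de3a3_co.M.Reps

/-! # Existence of the nested family (module M/NestEx) -/

set_option autoImplicit false

namespace Pool.TSphM

open Finset
open Pool.TSph (verts IsSphere2 adj comp Ep PhiK)
open Pool.TSphD (fc rdg lk Lo PM side IsLF mv Closings)
open Pool.TSphD (Data)

variable {ι : Type*} [DecidableEq ι]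

private theorem NestEx_back {F X : Finset (Finset ι)} {s a b : Finset ι} (ha : a ∈ up F s)
    (h : Relation.ReflTransGen (fun a b => b ∈ up F s ∧ a ∩ b ∈ X) a b) :
    b ∈ up F s ∧ Relation.ReflTransGen (fun a b => b ∈ F ∧ s ⊆ a ∩ b ∧ a ∩ b ∈ X) a b := by
  induction h with
  | refl => exact ⟨ha, Relation.ReflTransGen.refl⟩
  | tail _ hbc ih =>
    refine ⟨hbc.1, Relation.ReflTransGen.tail ih.2 ⟨(mem_filter.1 hbc.1).1, ?_, hbc.2⟩⟩
    exact subset_inter (mem_filter.1 ih.1).2 (mem_filter.1 hbc.1).2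

private theorem NestEx_step {k : ℕ} {F : Finset (Finset ι)} (hF : IsNor (k + 3) F)
    {pos : ι → ℕ} (hpos : Function.Injective pos) (B : Finset ι → Finset (Finset ι)) {j : ℕ}
    (hj : j < k) {s : Finset ι} (hs : s ∈ fc j F)
    (hB : ∀ u ∈ Lo F pos s, ∀ a ∈ F, ∀ b ∈ F, insert u s ⊆ a → insert u s ⊆ b →
      Relation.ReflTransGen (fun a b => b ∈ F ∧ insert u s ⊆ a ∩ b ∧
        a ∩ b ∈ B (insert u s) ∪ Yr k F pos (insert u s)) a b) :
    ∃ X : Finset (Finset ι), X ⊆ (Lo F pos s).biUnion (fun u => B (insert u s)) ∧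
      X.card + 1 ≤ comp (adj (lk F s)) (Wo F pos s) + Nn F pos s ∧
      ∀ a ∈ F, ∀ b ∈ F, s ⊆ a → s ⊆ b →
        Relation.ReflTransGen (fun a b => b ∈ F ∧ s ⊆ a ∩ b ∧ a ∩ b ∈ X ∪ Yr k F pos s) a b := by
  have hc := conn_step hF hpos B hj hs hB
  obtain ⟨Rts, hR1, hR2, hR3⟩ := exists_reps hF hpos hj hs
  have hne : (up F s).Nonempty := by
    obtain ⟨_, a, ha, hsa⟩ := Pool.TSphD.mem_fc.1 hs
    exact ⟨a, mem_filter.2 ⟨ha, hsa⟩⟩
  obtain ⟨X, hX1, hX2, hX3⟩ := connectZ (F := up F s) (M := Yr k F pos s)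
    (Z := (Lo F pos s).biUnion (fun u => B (insert u s))) hne
    (by
      intro a ha b hb
      have h := hc a (mem_filter.1 ha).1 b (mem_filter.1 hb).1 (mem_filter.1 ha).2
        (mem_filter.1 hb).2
      refine Relation.ReflTransGen.mono ?_ _ _ h
      intro a b hab
      refine ⟨mem_filter.2 ⟨hab.1, hab.2.1.trans inter_subset_right⟩, ?_⟩
      rw [union_comm]
      exact hab.2.2) Rts
    (by
      intro a ha
      exact mem_filter.2 (hR1 a ha))
    (by
      intro a ha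
      obtain ⟨u, hu, h⟩ := hR3 a (mem_filter.1 ha).1 (mem_filter.1 ha).2
      refine ⟨u, hu, Relation.ReflTransGen.mono ?_ _ _ h⟩
      intro a b hab
      exact ⟨mem_filter.2 ⟨hab.1, hab.2.1.trans inter_subset_right⟩, hab.2.2⟩)
  refine ⟨X, hX1, hX2.trans hR2, ?_⟩
  intro a ha b hb hsa hsb
  have ha' : a ∈ up F s := mem_filter.2 ⟨ha, hsa⟩
  have hb' : b ∈ up F s := mem_filter.2 ⟨hb, hsb⟩
  have h := (NestEx_back ha' (hX3 a ha' b hb')).2
  refine Relation.ReflTransGen.mono ?_ _ _ h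
  intro a b hab
  refine ⟨hab.1, hab.2.1, ?_⟩
  rw [union_comm]
  exact hab.2.2

private theorem NestEx_aux {k : ℕ} {F : Finset (Finset ι)} (hk : 0 < k) (hF : IsNor (k + 3) F)
    {pos : ι → ℕ} (hpos : Function.Injective pos) {R G D Rt dist par}
    (hD : Data k F pos R G D Rt dist par) (i : ℕ) : ∀ j₀ : ℕ, j₀ + i = k →
    ∃ B : Finset ι → Finset (Finset ι),
      (∀ s ∈ fc k F, B s = (rdg (k + 2) F \ Closings k F pos Rt par).filter
        (fun t => Top pos s t)) ∧
      (∀ j, j₀ ≤ j → j < k → ∀ s ∈ fc j F,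
        B s ⊆ (Lo F pos s).biUnion (fun u => B (insert u s))) ∧
      (∀ j, j₀ ≤ j → j < k → ∀ s ∈ fc j F,
        (B s).card + 1 ≤ comp (adj (lk F s)) (Wo F pos s) + Nn F pos s) ∧
      (∀ j, j₀ ≤ j → j ≤ k → ∀ s ∈ fc j F, ∀ a ∈ F, ∀ b ∈ F, s ⊆ a → s ⊆ b →
        Relation.ReflTransGen
          (fun a b => b ∈ F ∧ s ⊆ a ∩ b ∧ a ∩ b ∈ B s ∪ Yr k F pos s) a b) := by
  classical
  induction i with
  | zero =>
    intro j₀ hj₀
    refine ⟨fun s => (rdg (k + 2) F \ Closings k F pos Rt par).filter (fun t => Top pos s t),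
      fun s _ => rfl, ?_, ?_, ?_⟩
    · intro j h1 h2; omega
    · intro j h1 h2; omega
    · intro j h1 h2 s hs
      have : j = k := by omega
      subst this
      exact conn_last hk hF hpos hD hs
  | succ i ih =>
    intro j₀ hj₀
    obtain ⟨B, hB1, hB2, hB3, hB4⟩ := ih (j₀ + 1) (by omega)
    have hins : ∀ s ∈ fc j₀ F, ∀ u ∈ Lo F pos s, insert u s ∈ fc (j₀ + 1) F := by
      intro s hs u hu
      have hu1 := (mem_filter.1 hu).1
      rw [Pool.TSph.mem_verts] at hu1
      obtain ⟨t, ht, hut⟩ := hu1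
      rw [Pool.TSphD.mem_lk] at ht
      obtain ⟨a, ha, hsa, rfl⟩ := ht
      rw [mem_sdiff] at hut
      rw [Pool.TSphD.mem_fc]
      refine ⟨?_, a, ha, insert_subset hut.1 hsa⟩
      rw [card_insert_of_notMem hut.2, (Pool.TSphD.mem_fc.1 hs).1]
    have hstep : ∀ s, ∃ X : Finset (Finset ι), s ∈ fc j₀ F →
        (X ⊆ (Lo F pos s).biUnion (fun u => B (insert u s)) ∧
        X.card + 1 ≤ comp (adj (lk F s)) (Wo F pos s) + Nn F pos s ∧
        ∀ a ∈ F, ∀ b ∈ F, s ⊆ a → s ⊆ b →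
          Relation.ReflTransGen
            (fun a b => b ∈ F ∧ s ⊆ a ∩ b ∧ a ∩ b ∈ X ∪ Yr k F pos s) a b) := by
      intro s
      by_cases hs : s ∈ fc j₀ F
      · obtain ⟨X, hX⟩ := NestEx_step hF hpos B (by omega : j₀ < k) hs
          (fun u hu => hB4 (j₀ + 1) le_rfl (by omega) (insert u s) (hins s hs u hu))
        exact ⟨X, fun _ => hX⟩
      · exact ⟨∅, fun h => absurd h hs⟩
    choose X hX using hstep
    set B' : Finset ι → Finset (Finset ι) := fun s => if s.card = j₀ then X s else B s with hB'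
    have hBj : ∀ s, s.card ≠ j₀ → B' s = B s := by
      intro s h; rw [hB']; simp only [if_neg h]
    have hBe : ∀ s, s.card = j₀ → B' s = X s := by
      intro s h; rw [hB']; simp only [if_pos h]
    have hLo : ∀ j, j₀ ≤ j → ∀ s ∈ fc j F,
        (Lo F pos s).biUnion (fun u => B' (insert u s)) =
          (Lo F pos s).biUnion (fun u => B (insert u s)) := by
      intro j hj s hs
      refine biUnion_congr rfl ?_
      intro u hu
      refine hBj _ ?_
      have hu1 := (mem_filter.1 hu).1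
      rw [Pool.TSph.mem_verts] at hu1
      obtain ⟨t, ht, hut⟩ := hu1
      rw [Pool.TSphD.mem_lk] at ht
      obtain ⟨a, ha, hsa, rfl⟩ := ht
      rw [mem_sdiff] at hut
      rw [card_insert_of_notMem hut.2, (Pool.TSphD.mem_fc.1 hs).1]
      omega
    refine ⟨B', ?_, ?_, ?_, ?_⟩
    · intro s hs
      rw [hBj s (by rw [(Pool.TSphD.mem_fc.1 hs).1]; omega)]
      exact hB1 s hs
    · intro j h1 h2 s hs
      rw [hLo j h1 s hs]
      rcases eq_or_lt_of_le h1 with h | h
      · subst h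
        rw [hBe s (Pool.TSphD.mem_fc.1 hs).1]
        exact (hX s hs).1
      · rw [hBj s (by rw [(Pool.TSphD.mem_fc.1 hs).1]; omega)]
        exact hB2 j h h2 s hs
    · intro j h1 h2 s hs
      rcases eq_or_lt_of_le h1 with h | h
      · subst h
        rw [hBe s (Pool.TSphD.mem_fc.1 hs).1]
        exact (hX s hs).2.1
      · rw [hBj s (by rw [(Pool.TSphD.mem_fc.1 hs).1]; omega)]
        exact hB3 j h h2 s hs
    · intro j h1 h2 s hs
      rcases eq_or_lt_of_le h1 with h | h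
      · subst h
        rw [hBe s (Pool.TSphD.mem_fc.1 hs).1]
        exact (hX s hs).2.2
      · rw [hBj s (by rw [(Pool.TSphD.mem_fc.1 hs).1]; omega)]
        exact hB4 j h h2 s hs

/-- Induction from level `k` down to level `0`: define `B s` for `s ∈ fc k F` by `last` (`conn_last`).
Given `B` on level `j + 1` define it for `s ∈ fc j F`: by `conn_step` the star of `s` is connected by
`Z ∪ Yr k F pos s`, `Z = (Lo F pos s).biUnion (fun u => B (insert u s))`; apply `connectZ` to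
`up F s`, `M := Yr k F pos s` and the representatives of `exists_reps`: `B s := X ⊆ Z`. (Every ridge
`a ∩ b` of the chain contains `s` as both facets do.) -/
theorem exists_nest {k : ℕ} {F : Finset (Finset ι)} (hk : 0 < k) (hF : IsNor (k + 3) F)
    {pos : ι → ℕ} (hpos : Function.Injective pos) {R G D Rt dist par}
    (hD : Data k F pos R G D Rt dist par) :
    ∃ B, Nest k F pos (Closings k F pos Rt par) B := by
  obtain ⟨B, h1, h2, h3, h4⟩ := NestEx_aux hk hF hpos hD k 0 (by omega)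
  exact ⟨B, ⟨h1, fun j hj => h2 j (Nat.zero_le _) hj, fun j hj => h3 j (Nat.zero_le _) hj,
    fun j hj => h4 j (Nat.zero_le _) hj⟩⟩

end Pool.TSphM
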