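import Pool.Agent.Lib.MP_3de3a3_co.M.Defs
import Pool.Agent.Lib.MP_3de3a3_co.M.Lev
import Pool.Agent.Lib.MP_3de3a3_co.DClosCard
import Pool.Agent.Lib.MP_3de3a3_co.M.Links

/-! # Ranks (module M/Rank) -/

set_option autoImplicit false

namespace Pool.TSphM

open Finset
open Pool.TSph (verts IsSphere2 adj comp Ep PhiK)
open Pool.TSphD (fc rdg lk Lo PM side IsLF mv Closings)
open Pool.TSphD (Data)

variable {ι : Type*} [DecidableEq ι]

/-! ### Sequences -/

/-- lexicographic comparison of sequences -/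
private def Rank_lt (f g : ℕ → ℕ) : Prop := ∃ i, (∀ i' < i, f i' = g i') ∧ f i < g i

private theorem Rank_lt_irrefl (f : ℕ → ℕ) : ¬ Rank_lt f f := fun ⟨_, _, h⟩ => lt_irrefl _ h

private theorem Rank_lt_trans {f g h : ℕ → ℕ} (h1 : Rank_lt f g) (h2 : Rank_lt g h) :
    Rank_lt f h := by
  obtain ⟨i, hi, hi'⟩ := h1
  obtain ⟨j, hj, hj'⟩ := h2
  rcases lt_trichotomy i j with hij | hij | hij
  · exact ⟨i, fun a ha => (hi a ha).trans (hj a (ha.trans hij)), by rw [← hj i hij]; exact hi'⟩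
  · subst hij
    exact ⟨i, fun a ha => (hi a ha).trans (hj a ha), hi'.trans hj'⟩
  · exact ⟨j, fun a ha => (hi a (ha.trans hij)).trans (hj a ha), by rw [hi j hij]; exact hj'⟩

/-- the elements of `S` in increasing order, followed by zeros -/
private noncomputable def Rank_nn (S : Finset ℕ) (i : ℕ) : ℕ := Nat.nth (fun n => n ∈ S) i

private theorem Rank_fin (S : Finset ℕ) : (Set.ofPred fun n => n ∈ S).Finite := S.finite_toSet

private theorem Rank_card (S : Finset ℕ) (hf : (Set.ofPred fun n => n ∈ S).Finite) :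
    hf.toFinset.card = S.card := by
  congr 1
  ext n
  simp

private theorem Rank_nn_zero {S : Finset ℕ} {i : ℕ} (h : S.card ≤ i) : Rank_nn S i = 0 :=
  Nat.nth_of_card_le (Rank_fin S) (by rw [Rank_card]; exact h)

private theorem Rank_nn_mem {S : Finset ℕ} {i : ℕ} (h : i < S.card) : Rank_nn S i ∈ S :=
  Nat.nth_mem (p := fun n => n ∈ S) i (fun hf => by rw [Rank_card]; exact h)

private theorem Rank_count_nn {S : Finset ℕ} {i : ℕ} (h : i < S.card) :
    Nat.count (fun n => n ∈ S) (Rank_nn S i) = i :=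
  Nat.count_nth (p := fun n => n ∈ S) (fun hf => by rw [Rank_card]; exact h)

private theorem Rank_nn_count {S : Finset ℕ} {n : ℕ} (h : n ∈ S) :
    Rank_nn S (Nat.count (fun n => n ∈ S) n) = n :=
  Nat.nth_count (p := fun n => n ∈ S) h

private theorem Rank_count_lt {S : Finset ℕ} {n : ℕ} (h : n ∈ S) :
    Nat.count (fun n => n ∈ S) n < S.card := by
  have := Nat.count_lt_card (p := fun n => n ∈ S) (Rank_fin S) h
  rwa [Rank_card] at this

private theorem Rank_count_congr {S T : Finset ℕ} {n : ℕ} (h : ∀ m < n, (m ∈ S ↔ m ∈ T)) :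
    Nat.count (fun n => n ∈ S) n = Nat.count (fun n => n ∈ T) n := by
  rw [Nat.count_eq_card_filter_range, Nat.count_eq_card_filter_range]
  congr 1
  exact Finset.filter_congr fun m hm => h m (Finset.mem_range.1 hm)

/-- initial parts -/
private theorem Rank_nn_low {C A : Finset ℕ} (hCA : C ⊆ A)
    (h : ∀ n ∈ C, ∀ m ∈ A, m ≤ n → m ∈ C) {i : ℕ} (hi : i < C.card) :
    Rank_nn C i = Rank_nn A i := by
  have h1 := Rank_nn_mem hi
  have h2 : Nat.count (fun n => n ∈ C) (Rank_nn C i) = Nat.count (fun n => n ∈ A) (Rank_nn C i) :=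
    Rank_count_congr fun m hm => ⟨fun h => hCA h, fun hA => h _ h1 m hA hm.le⟩
  have h3 := Rank_nn_count (hCA h1)
  rw [← h2, Rank_count_nn hi] at h3
  exact h3.symm

/-- the first difference -/
private theorem Rank_nn_diff {S T : Finset ℕ} (hST : S ⊆ T) {n m : ℕ} (hn : n ∈ T) (hn' : n ∉ S)
    (hm : m ∈ S) (hnm : n < m) :
    ∃ i < S.card, (∀ i' < i, Rank_nn T i' = Rank_nn S i') ∧ Rank_nn T i < Rank_nn S i := by
  classical
  have hex : ∃ n, n ∈ T ∧ n ∉ S := ⟨n, hn, hn'⟩
  obtain ⟨n₀, ⟨h1, h2⟩, hmin⟩ : ∃ n₀, (n₀ ∈ T ∧ n₀ ∉ S) ∧ ∀ a, a ∈ T → a ∉ S → n₀ ≤ a :=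
    ⟨Nat.find hex, Nat.find_spec hex, fun a ha ha' => Nat.find_min' hex ⟨ha, ha'⟩⟩
  have hle : n₀ ≤ n := hmin n hn hn'
  have hagree : ∀ a < n₀, (a ∈ S ↔ a ∈ T) := fun a ha => ⟨fun h => hST h, fun h => by
    by_contra hc
    exact absurd (hmin a h hc) (not_le.2 ha)⟩
  have hc : Nat.count (fun n => n ∈ S) n₀ = Nat.count (fun n => n ∈ T) n₀ :=
    Rank_count_congr hagree
  have hlt : Nat.count (fun n => n ∈ S) n₀ < S.card :=
    (Nat.count_monotone _ (by omega : n₀ ≤ m)).trans_lt (Rank_count_lt hm)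
  have hltT : Nat.count (fun n => n ∈ T) n₀ < T.card := Rank_count_lt h1
  refine ⟨Nat.count (fun n => n ∈ S) n₀, hlt, ?_, ?_⟩
  · intro i' hi'
    rw [hc] at hi'
    have h4 : Rank_nn T i' < n₀ := Nat.nth_lt_of_lt_count hi'
    have h5 : Rank_nn T i' ∈ T := Rank_nn_mem (hi'.trans hltT)
    have h6 : Rank_nn T i' ∈ S := (hagree _ h4).2 h5
    have h7 := Rank_nn_count h6
    rw [Rank_count_congr (fun a ha => hagree a (ha.trans h4)),
      Rank_count_nn (hi'.trans hltT)] at h7
    exact h7.symm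
  · have h8 : Rank_nn T (Nat.count (fun n => n ∈ S) n₀) = n₀ := by
      rw [hc]
      exact Rank_nn_count h1
    rw [h8]
    have h9 := Rank_nn_mem hlt
    have h10 := Rank_count_nn hlt
    by_contra hno
    have h11 : Rank_nn S (Nat.count (fun n => n ∈ S) n₀) ≠ n₀ := fun h => h2 (h ▸ h9)
    have h12 : Rank_nn S (Nat.count (fun n => n ∈ S) n₀) < n₀ := by omega
    have h13 := Nat.count_strict_mono (p := fun n => n ∈ S) h9 h12
    omega

/-! ### Sets of vertices -/

private structure Rank_V (pos v : ι → ℕ) (V : Finset ι) : Prop where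
  inj : Function.Injective pos
  lt : ∀ x ∈ V, ∀ y ∈ V, pos y < pos x → v x < v y
  vpos : ∀ x ∈ V, 0 < v x

private noncomputable def Rank_sq (v : ι → ℕ) (A : Finset ι) : ℕ → ℕ := Rank_nn (A.image v)

section

variable {pos v : ι → ℕ} {V : Finset ι}

private theorem Rank_V_inj (hV : Rank_V pos v V) {x y : ι} (hx : x ∈ V) (hy : y ∈ V)
    (h : v x = v y) : x = y := by
  rcases lt_trichotomy (pos x) (pos y) with h1 | h1 | h1
  · have := hV.lt y hy x hx h1
    omega
  · exact hV.inj h1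
  · have := hV.lt x hx y hy h1
    omega

private theorem Rank_V_card (hV : Rank_V pos v V) {A : Finset ι} (hA : A ⊆ V) :
    (A.image v).card = A.card :=
  card_image_of_injOn fun _ hx _ hy h => Rank_V_inj hV (hA (mem_coe.1 hx)) (hA (mem_coe.1 hy)) h

private theorem Rank_sq_zero (hV : Rank_V pos v V) {A : Finset ι} (hA : A ⊆ V) {i : ℕ}
    (hi : A.card ≤ i) : Rank_sq v A i = 0 :=
  Rank_nn_zero (by rw [Rank_V_card hV hA]; exact hi)

private theorem Rank_sq_pos (hV : Rank_V pos v V) {A : Finset ι} (hA : A ⊆ V) {i : ℕ}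
    (hi : i < A.card) : 0 < Rank_sq v A i := by
  have h : Rank_sq v A i ∈ A.image v := Rank_nn_mem (by rw [Rank_V_card hV hA]; exact hi)
  obtain ⟨x, hx, hxv⟩ := mem_image.1 h
  rw [← hxv]
  exact hV.vpos x (hA hx)

private theorem Rank_sq_low (hV : Rank_V pos v V) {C A : Finset ι} (hA : A ⊆ V)
    (hC : Top pos C A) {i : ℕ} (hi : i < C.card) : Rank_sq v C i = Rank_sq v A i := by
  refine Rank_nn_low (image_subset_image hC.1) ?_ (by rw [Rank_V_card hV (hC.1.trans hA)]; exact hi)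
  intro n hn m hm hmn
  obtain ⟨x, hx, rfl⟩ := mem_image.1 hn
  obtain ⟨y, hy, rfl⟩ := mem_image.1 hm
  refine mem_image_of_mem _ ?_
  by_contra hyC
  have h1 := hC.2 y (mem_sdiff.2 ⟨hy, hyC⟩) x hx
  have h2 := hV.lt x (hA (hC.1 hx)) y (hA hy) h1
  omega

private theorem Rank_sq_diff (hV : Rank_V pos v V) {S T : Finset ι} (hT : T ⊆ V) (hS : S ⊆ T)
    {x y : ι} (hy : y ∈ T) (hy' : y ∉ S) (hx : x ∈ S) (hxy : pos x < pos y) :
    ∃ i < S.card, (∀ i' < i, Rank_sq v T i' = Rank_sq v S i') ∧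
      Rank_sq v T i < Rank_sq v S i := by
  have h := Rank_nn_diff (image_subset_image (f := v) hS) (n := v y) (m := v x)
    (mem_image_of_mem _ hy) (fun h => by
      obtain ⟨z, hz, hzy⟩ := mem_image.1 h
      have := Rank_V_inj hV (hT (hS hz)) (hT hy) hzy
      exact hy' (this ▸ hz)) (mem_image_of_mem _ hx) (hV.lt y (hT hy) x (hT (hS hx)) hxy)
  rw [Rank_V_card hV (hS.trans hT)] at h
  exact h

/-- the sequence of a top part of `s` is smaller than a sequence which is longer than that of `s` -/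
private theorem Rank_main1 (hV : Rank_V pos v V) {C s : Finset ι} (hs : s ⊆ V)
    (hC : Top pos C s) {g : ℕ → ℕ} (hg : ∀ i < s.card, g i = Rank_sq v s i)
    (hg' : 0 < g s.card) : Rank_lt (Rank_sq v C) g := by
  have hCs : C.card ≤ s.card := card_le_card hC.1
  refine ⟨C.card, fun i hi => ?_, ?_⟩
  · rw [Rank_sq_low hV hs hC hi, hg i (by omega)]
  · rw [Rank_sq_zero hV (hC.1.trans hs) le_rfl]
    rcases Nat.lt_or_eq_of_le hCs with h | h
    · rw [hg _ h]
      exact Rank_sq_pos hV hs h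
    · rw [h]
      exact hg'

/-- the case in which `s` is not a top part of `T` -/
private theorem Rank_main2 (hV : Rank_V pos v V) {s T : Finset ι} (hT : T ⊆ V) (hs : s ⊆ T)
    {x y : ι} (hy : y ∈ T) (hy' : y ∉ s) (hx : x ∈ s) (hxy : pos x < pos y) {f g : ℕ → ℕ}
    (hg : ∀ i < s.card, g i = Rank_sq v s i) {m : ℕ} (hf : ∀ i < m, f i = Rank_sq v T i)
    (hm : s.card ≤ m ∨ f m = 0) : Rank_lt f g := by
  obtain ⟨i, hi, h1, h2⟩ := Rank_sq_diff hV hT hs hy hy' hx hxy
  by_cases him : i < m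
  · refine ⟨i, fun a ha => ?_, ?_⟩
    · rw [hf a (ha.trans him), h1 a ha, hg a (ha.trans hi)]
    · rw [hf i him, hg i hi]
      exact h2
  · have hmi : m ≤ i := not_lt.1 him
    have hfm : f m = 0 := hm.resolve_left (by omega)
    refine ⟨m, fun a ha => ?_, ?_⟩
    · rw [hf a ha, h1 a (by omega), hg a (by omega)]
    · rw [hfm, hg m (by omega)]
      exact Rank_sq_pos hV (hs.trans hT) (by omega)

private theorem Rank_top_sub {A s t : Finset ι} (hA : Top pos A t) (hs : Top pos s t)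
    (hc : A.card ≤ s.card) : A ⊆ s := by
  intro x hx
  by_contra hxs
  have h1 : ∃ y ∈ s, y ∉ A := by
    by_contra hno
    push Not at hno
    have h2 := Finset.eq_of_subset_of_card_le hno hc
    exact hxs (h2 ▸ hx)
  obtain ⟨y, hy, hyA⟩ := h1
  have h3 := hs.2 x (mem_sdiff.2 ⟨hA.1 hx, hxs⟩) y hy
  have h4 := hA.2 y (mem_sdiff.2 ⟨hs.1 hy, hyA⟩) x hx
  omega

end

private theorem Rank_insert {j : ℕ} {F : Finset (Finset ι)} {pos : ι → ℕ} {s : Finset ι}
    (hs : s ∈ fc j F) {u : ι} (hu : u ∈ Lo F pos s) :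
    insert u s ∈ fc (j + 1) F ∧ u ∉ s ∧ Top pos s (insert u s) := by
  obtain ⟨h1, h2⟩ := mem_filter.1 hu
  obtain ⟨h3, a, ha, hsa, hua⟩ := Pool.TSphD.mem_verts_lk.1 h1
  refine ⟨Pool.TSphD.mem_fc.2 ⟨?_, a, ha, insert_subset hua hsa⟩, h3, subset_insert _ _, ?_⟩
  · rw [card_insert_of_notMem h3, (Pool.TSphD.mem_fc.1 hs).1]
  · intro y hy x hx
    rw [mem_sdiff, mem_insert] at hy
    rcases hy.1 with h | h
    · rw [h]
      exact h2 x hx
    · exact absurd h hy.2

private theorem Rank_chain {k : ℕ} {F : Finset (Finset ι)} {pos : ι → ℕ} {Cl : Finset (Finset ι)}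
    {B : Finset ι → Finset (Finset ι)} (hN : Nest k F pos Cl B) {t : Finset ι} :
    ∀ n j : ℕ, ∀ s ∈ fc j F, t ∈ B s → j + n ≤ k → ∀ s' : Finset ι, s'.card = j + n →
      Top pos s' t → t ∈ B s' := by
  intro n
  induction n with
  | zero =>
    intro j s hs ht hjk s' hs' htop
    have h1 := nest_top hN (by omega) hs ht
    have hcs := (Pool.TSphD.mem_fc.1 hs).1
    have h2 : s ⊆ s' := Rank_top_sub h1.2.2 htop (by omega)
    have h3 : s = s' := Finset.eq_of_subset_of_card_le h2 (by omega)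
    rwa [← h3]
  | succ n ih =>
    intro j s hs ht hjk s' hs' htop
    obtain ⟨u, hu, htu⟩ := mem_biUnion.1 (hN.sub j (by omega) s hs ht)
    exact ih (j + 1) (insert u s) (Rank_insert hs hu).1 htu (by omega) s' (by omega) htop

private theorem Rank_fc_sub {j : ℕ} {F : Finset (Finset ι)} {s : Finset ι} (hs : s ∈ fc j F) :
    s ⊆ verts F := by
  obtain ⟨-, a, ha, hsa⟩ := Pool.TSphD.mem_fc.1 hs
  intro x hx
  exact mem_biUnion.2 ⟨a, ha, hsa hx⟩

/-- Put `M = rdg (k + 2) F \ Closings`, `N` larger than all `pos x` (`x` a vertex), and for a set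
`s` of vertices let `key s : List ℕ` be the increasing list of the numbers `N - pos x`, `x ∈ s`
(so the elements of `s` from high to low position). Keys of ridges: for `t ∈ M \ B ∅` with
`u ∈ Lo F pos (lev t)`, `t ∈ B (insert u (lev t))`: `key (insert u (lev t))`; for a closing
`t = σ ∪ {w, par σ w}`: `key σ ++ [K - dist σ w]`, `K` a bound for `dist`; for `t ∈ B ∅`: anything.
Keys are compared lexicographically (a proper prefix is smaller), and `rk t` is the number of ridges
with a smaller key. Closing face: `e t = insert w σ`.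
Pointers: let `s = lev t`, `|s| = j`, `t' ∈ B s ∪ Yr k F pos s`, `t' ∉ B ∅`. If `t' ∈ B s` then
`Top pos s t'` and `lev t'` is a proper part of `s`, `insert u' (lev t')` is a top part of `s`: its key is
a prefix of `key s`, a proper prefix of `key (insert u s)`. If `t' ∈ Yr k F pos s`: `t'` contains `s` and
`w ∉ s` with `pos w > pos x` for some `x ∈ s`. Compare the decreasing orders of `t'` and of `s`: at the first
place where they differ the element of `t'` is higher (it is the highest element of `t'` not among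
the previous ones, and the element of `s` is in `t'`), and this place is at most `j`. The key of `t'` is
the key of a top part of `t'` (with at least one element), possibly followed by one number after at
least `k ≥ j` entries: it is smaller than `key s` at the first difference, or a proper prefix of `key s`.
Closings: `t = σ ∪ {w, par σ w}`, `t' ⊇ insert w σ`, `t' ≠ t`, `t' = σ ∪ {w, y}`. If
`y ∈ Lo F pos σ` then `σ` is the top part of `t'`: if `t' ∈ M` its key is a prefix of `key σ`; if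
`t'` is a closing then `w = par σ y` (as in `exists_rank_closings`, file DRankCl.lean), so
`dist σ w < dist σ y`. Otherwise `pos y > pos x` for some `x ∈ σ`: as before. -/
theorem exists_rank {k : ℕ} {F : Finset (Finset ι)} (hk : 0 < k)
    {pos : ι → ℕ} (hpos : Function.Injective pos) {R G D Rt dist par}
    (hD : Data k F pos R G D Rt dist par) {B : Finset ι → Finset (Finset ι)}
    (hN : Nest k F pos (Closings k F pos Rt par) B) (hF : ∀ a ∈ F, a.card = k + 3)
    (lev : Finset ι → Finset ι)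
    (hlev : ∀ t ∈ (rdg (k + 2) F \ Closings k F pos Rt par) \ B ∅, ∃ j < k, lev t ∈ fc j F ∧
        (∃ u ∈ Lo F pos (lev t), t ∈ B (insert u (lev t))) ∧ t ∉ B (lev t)) :
    ∃ (rk : Finset ι → ℕ) (e : Finset ι → Finset ι),
      (∀ t ∈ Closings k F pos Rt par, e t ⊆ t ∧ (e t).card + 1 = k + 2) ∧
      (∀ t ∈ Closings k F pos Rt par, ∀ t' ∈ rdg (k + 2) F, e t ⊆ t' → t' ≠ t →
        t' ∈ B ∅ ∨ rk t' < rk t) ∧
      ∀ t ∈ (rdg (k + 2) F \ Closings k F pos Rt par) \ B ∅,
        ∀ t' ∈ B (lev t) ∪ Yr k F pos (lev t), t' ∈ B ∅ ∨ rk t' < rk t := by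
  classical
  obtain ⟨N, hNp⟩ : ∃ N, ∀ x ∈ verts F, pos x < N :=
    ⟨(verts F).sup pos + 1, fun x hx => Nat.lt_succ_of_le (Finset.le_sup hx)⟩
  obtain ⟨v, hv⟩ : ∃ v : ι → ℕ, ∀ x, v x = N - pos x := ⟨_, fun _ => rfl⟩
  have hV : Rank_V pos v (verts F) := by
    refine ⟨hpos, fun x hx y hy h => ?_, fun x hx => ?_⟩
    · have h1 := hNp x hx
      have h2 := hNp y hy
      rw [hv, hv]
      omega
    · have h1 := hNp x hx
      rw [hv]
      omega
  obtain ⟨K, hK⟩ : ∃ K, ∀ σ ∈ fc k F, ∀ w ∈ Lo F pos σ, dist σ w < K := by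
    refine ⟨(fc k F).sup (fun σ => (Lo F pos σ).sup (dist σ)) + 1, fun σ hσ w hw => ?_⟩
    refine Nat.lt_succ_of_le ((Finset.le_sup (f := dist σ) hw).trans ?_)
    exact Finset.le_sup (f := fun σ => (Lo F pos σ).sup (dist σ)) hσ
  have hkey : ∀ t : Finset ι, ∃ f : ℕ → ℕ, ∃ e : Finset ι,
      (t ∈ Closings k F pos Rt par → ∃ σ ∈ fc k F, ∃ w ∈ Lo F pos σ \ Rt σ,
        t = σ ∪ {w, par σ w} ∧ (∀ i, f i = Rank_sq v σ i + if i = k then K - dist σ w else 0) ∧
          e = insert w σ) ∧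
      (t ∈ (rdg (k + 2) F \ Closings k F pos Rt par) \ B ∅ → ∃ u ∈ Lo F pos (lev t),
        t ∈ B (insert u (lev t)) ∧ f = Rank_sq v (insert u (lev t))) := by
    intro t
    by_cases ht : t ∈ Closings k F pos Rt par
    · have ht2 := ht
      simp only [Closings, mem_biUnion, mem_image] at ht2
      obtain ⟨σ, hσ, w, hw, hw'⟩ := ht2
      exact ⟨fun i => Rank_sq v σ i + if i = k then K - dist σ w else 0, insert w σ,
        fun _ => ⟨σ, hσ, w, hw, hw'.symm, fun _ => rfl, rfl⟩,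
        fun h => absurd ht (mem_sdiff.1 (mem_sdiff.1 h).1).2⟩
    · by_cases ht' : t ∈ (rdg (k + 2) F \ Closings k F pos Rt par) \ B ∅
      · obtain ⟨j, hj, hs, ⟨u, hu, htu⟩, -⟩ := hlev t ht'
        exact ⟨_, ∅, fun h => absurd h ht, fun _ => ⟨u, hu, htu, rfl⟩⟩
      · exact ⟨fun _ => 0, ∅, fun h => absurd h ht, fun h => absurd h ht'⟩
  choose key e hkC hkP using hkey
  obtain ⟨rk, hrk⟩ : ∃ rk : Finset ι → ℕ, ∀ t t', t' ∈ rdg (k + 2) F →
      Rank_lt (key t') (key t) → rk t' < rk t := by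
    refine ⟨fun t => ((rdg (k + 2) F).filter (fun t' => Rank_lt (key t') (key t))).card, ?_⟩
    intro t t' ht' h
    refine card_lt_card ?_
    rw [ssubset_iff_of_subset]
    · exact ⟨t', mem_filter.2 ⟨ht', h⟩, fun h' => Rank_lt_irrefl _ (mem_filter.1 h').2⟩
    · intro a ha
      exact mem_filter.2 ⟨(mem_filter.1 ha).1, Rank_lt_trans (mem_filter.1 ha).2 h⟩
  -- the keys of the pointers
  have hP : ∀ t ∈ rdg (k + 2) F, t ∉ Closings k F pos Rt par → t ∉ B ∅ →
      ∃ j < k, ∃ A : Finset ι, A.card = j + 1 ∧ Top pos A t ∧ key t = Rank_sq v A ∧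
        A ⊆ verts F ∧ (lev t).card = j ∧ Top pos (lev t) t ∧ t ∉ B (lev t) := by
    intro t ht htC htB
    have htm : t ∈ (rdg (k + 2) F \ Closings k F pos Rt par) \ B ∅ :=
      mem_sdiff.2 ⟨mem_sdiff.2 ⟨ht, htC⟩, htB⟩
    obtain ⟨j, hj, hs, -, hnot⟩ := hlev t htm
    obtain ⟨u, hu, htu, hk⟩ := hkP t htm
    obtain ⟨h1, h2, h3⟩ := Rank_insert hs hu
    have h4 := (nest_top hN (by omega) h1 htu).2.2
    have hcs := (Pool.TSphD.mem_fc.1 hs).1
    refine ⟨j, hj, insert u (lev t), (Pool.TSphD.mem_fc.1 h1).1, h4, hk, Rank_fc_sub h1, hcs,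
      ⟨(subset_insert _ _).trans h4.1, ?_⟩, hnot⟩
    intro y hy x hx
    rw [mem_sdiff] at hy
    by_cases hyA : y ∈ insert u (lev t)
    · exact h3.2 y (mem_sdiff.2 ⟨hyA, hy.2⟩) x hx
    · exact h4.2 y (mem_sdiff.2 ⟨hy.1, hyA⟩) x (mem_insert_of_mem hx)
  -- the keys of the closings
  have hC : ∀ t ∈ Closings k F pos Rt par, ∃ σ ∈ fc k F, ∃ w ∈ Lo F pos σ \ Rt σ,
      t = σ ∪ {w, par σ w} ∧ (∀ i, key t i = Rank_sq v σ i + if i = k then K - dist σ w else 0) ∧
      e t = insert w σ ∧ Top pos σ t := by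
    intro t ht
    obtain ⟨σ, hσ, w, hw, h1, h2, h3⟩ := hkC t ht
    have hf := Pool.TSphD.clos_facts hD hσ hw
    refine ⟨σ, hσ, w, hw, h1, h2, h3, ?_, ?_⟩
    · rw [h1]
      exact subset_union_left
    · intro y hy x hx
      rw [h1, mem_sdiff, mem_union] at hy
      rcases hy.1 with h | h
      · exact absurd h hy.2
      · exact hf.1 y h x hx
  -- in general
  have hG : ∀ t ∈ rdg (k + 2) F, t ∉ B ∅ →
      ∃ m, (∀ i < m, key t i = Rank_sq v t i) ∧ (k ≤ m ∨ key t m = 0) := by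
    intro t ht htB
    have htV : t ⊆ verts F := Rank_fc_sub ht
    by_cases htC : t ∈ Closings k F pos Rt par
    · obtain ⟨σ, hσ, w, hw, h1, h2, h3, h4⟩ := hC t htC
      have hcs := (Pool.TSphD.mem_fc.1 hσ).1
      refine ⟨k, fun i hi => ?_, Or.inl le_rfl⟩
      rw [h2, if_neg hi.ne, add_zero]
      exact Rank_sq_low hV htV h4 (by omega)
    · obtain ⟨j, hj, A, hA, hAt, hk, hAV, -⟩ := hP t ht htC htB
      refine ⟨A.card, fun i hi => ?_, Or.inr ?_⟩
      · rw [hk]
        exact Rank_sq_low hV htV hAt hi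
      · rw [hk]
        exact Rank_sq_zero hV hAV le_rfl
  refine ⟨rk, e, ?_, ?_, ?_⟩
  · intro t ht
    obtain ⟨σ, hσ, w, hw, h1, h2, h3, h4⟩ := hC t ht
    have hf := Pool.TSphD.clos_facts hD hσ hw
    rw [h3]
    refine ⟨?_, ?_⟩
    · rw [h1]
      intro y hy
      simp only [mem_insert, mem_union, mem_singleton] at hy ⊢
      tauto
    · rw [card_insert_of_notMem hf.2.1, (Pool.TSphD.mem_fc.1 hσ).1]
  · intro t ht t' ht' het htt'
    by_cases htB : t' ∈ B ∅
    · exact Or.inl htB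
    refine Or.inr (hrk t t' ht' ?_)
    obtain ⟨σ, hσ, w, hw, h1, h2, h3, h4⟩ := hC t ht
    have hf := Pool.TSphD.clos_facts hD hσ hw
    have hcs := (Pool.TSphD.mem_fc.1 hσ).1
    have htV : t' ⊆ verts F := Rank_fc_sub ht'
    have hσV : σ ⊆ verts F := Rank_fc_sub hσ
    rw [h3] at het
    have hσt : σ ⊆ t' := (subset_insert _ _).trans het
    have hwt : w ∈ t' := het (mem_insert_self _ _)
    have hg : ∀ i < σ.card, key t i = Rank_sq v σ i := by
      intro i hi
      rw [h2, if_neg (by omega), add_zero]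
    have hw1 := (mem_sdiff.1 hw).1
    have hg' : 0 < key t σ.card := by
      have := hK σ hσ w hw1
      rw [h2, if_pos hcs]
      omega
    by_cases hy : ∃ y ∈ t', y ∉ σ ∧ ∃ x ∈ σ, pos x < pos y
    · obtain ⟨y, hy1, hy2, x, hx, hxy⟩ := hy
      obtain ⟨m, hm1, hm2⟩ := hG t' ht' htB
      exact Rank_main2 hV htV hσt hy1 hy2 hx hxy hg hm1 (hm2.imp_left fun h => by omega)
    · push Not at hy
      have htop : Top pos σ t' := by
        refine ⟨hσt, fun y hyt x hx => ?_⟩
        rw [mem_sdiff] at hyt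
        have h5 := hy y hyt.1 hyt.2 x hx
        rcases Nat.lt_or_eq_of_le h5 with h6 | h6
        · exact h6
        · exact absurd (hpos h6 ▸ hx) hyt.2
      by_cases htC : t' ∈ Closings k F pos Rt par
      · obtain ⟨σ', hσ', w', hw', h1', h2', h3', h4'⟩ := hC t' htC
        have hf' := Pool.TSphD.clos_facts hD hσ' hw'
        have hcs' := (Pool.TSphD.mem_fc.1 hσ').1
        have hss : σ = σ' :=
          Finset.eq_of_subset_of_card_le (Rank_top_sub htop h4' (by omega)) (by omega)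
        subst hss
        have h7 : w ∈ σ ∪ {w', par σ w'} := h1' ▸ hwt
        simp only [mem_union, mem_insert, mem_singleton] at h7
        have h8 : w = par σ w' := by
          rcases h7 with h | h | h
          · exact absurd h hf.2.1
          · subst h
            exact absurd (h1'.trans h1.symm) htt'
          · exact h
        have h9 := hf'.2.2.2.2.1
        rw [← h8] at h9
        have h10 := hK σ hσ w' (mem_sdiff.1 hw').1
        refine ⟨k, fun i hi => ?_, ?_⟩
        · rw [h2', h2, if_neg hi.ne, if_neg hi.ne]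
        · rw [h2', h2, if_pos rfl, if_pos rfl]
          omega
      · obtain ⟨j, hj, A, hA, hAt, hk', hAV, -⟩ := hP t' ht' htC htB
        rw [hk']
        have hAσ : A ⊆ σ := Rank_top_sub hAt htop (by omega)
        refine Rank_main1 hV hσV ⟨hAσ, fun y hy x hx => ?_⟩ hg hg'
        rw [mem_sdiff] at hy
        exact hAt.2 y (mem_sdiff.2 ⟨hσt hy.1, hy.2⟩) x hx
  · intro t ht t' ht'
    by_cases htB : t' ∈ B ∅
    · exact Or.inl htB
    right
    obtain ⟨j, hj, hs, -, -⟩ := hlev t ht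
    obtain ⟨u, hu, htu, hkt⟩ := hkP t ht
    obtain ⟨h1, h2, h3⟩ := Rank_insert hs hu
    have hcs := (Pool.TSphD.mem_fc.1 hs).1
    have hAV : insert u (lev t) ⊆ verts F := Rank_fc_sub h1
    have hsV : lev t ⊆ verts F := Rank_fc_sub hs
    have hg : ∀ i < (lev t).card, key t i = Rank_sq v (lev t) i := by
      intro i hi
      rw [hkt]
      exact (Rank_sq_low hV hAV h3 hi).symm
    have hg' : 0 < key t (lev t).card := by
      rw [hkt]
      refine Rank_sq_pos hV hAV ?_
      rw [card_insert_of_notMem h2]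
      omega
    rcases mem_union.1 ht' with hB | hY
    · obtain ⟨h4, h5, h6⟩ := nest_top hN hj.le hs hB
      refine hrk t t' h4 ?_
      obtain ⟨j', hj', A, hA, hAt, hk', hAV', hc', htop', hnot⟩ := hP t' h4 h5 htB
      have hjj : j' < j := by
        by_contra hno
        push Not at hno
        exact hnot (Rank_chain hN (j' - j) j (lev t) hs hB (by omega) (lev t') (by omega) htop')
      have hAs : A ⊆ lev t := Rank_top_sub hAt h6 (by omega)
      rw [hk']
      refine Rank_main1 hV hsV ⟨hAs, fun y hy x hx => ?_⟩ hg hg'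
      rw [mem_sdiff] at hy
      exact hAt.2 y (mem_sdiff.2 ⟨h6.1 hy.1, hy.2⟩) x hx
    · obtain ⟨h4, h5, h6⟩ := mem_filter.1 hY
      refine hrk t t' h4 ?_
      have htV : t' ⊆ verts F := Rank_fc_sub h4
      rw [disjoint_left] at h6
      push Not at h6
      obtain ⟨w, hw, hwW⟩ := h6
      obtain ⟨h7, h8⟩ := mem_sdiff.1 hwW
      have h9 : w ∉ lev t := (Pool.TSphD.mem_verts_lk.1 h7).1
      have h10 : ∃ x ∈ lev t, pos x < pos w := by
        by_contra hno
        push Not at hno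
        apply h8
        refine mem_filter.2 ⟨h7, fun x hx => ?_⟩
        rcases Nat.lt_or_eq_of_le (hno x hx) with h11 | h11
        · exact h11
        · exact absurd (hpos h11 ▸ hx) h9
      obtain ⟨x, hx, hxw⟩ := h10
      obtain ⟨m, hm1, hm2⟩ := hG t' h4 htB
      exact Rank_main2 hV htV h5 hw h9 hx hxw hg hm1 (hm2.imp_left fun h => by omega)

end Pool.TSphM
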