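import Pool.Agent.Lib.MP_3de3a3_co.M.Defs
import Pool.Agent.Lib.MP_3de3a3_co.M.NestEx
import Pool.Agent.Lib.MP_3de3a3_co.M.Lev
import Pool.Agent.Lib.MP_3de3a3_co.M.Rank

/-! # The local certificate of a vertex order (module M/CertEx) -/

set_option autoImplicit false

namespace Pool.TSphM

open Finset
open Pool.TSph (verts IsSphere2 adj comp Ep PhiK)
open Pool.TSphD (fc rdg lk Lo PM side IsLF mv Closings)
open Pool.TSphD (Data)

variable {ι : Type*} [DecidableEq ι]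

private theorem CertEx_Wo (F : Finset (Finset ι)) (pos : ι → ℕ) : Wo F pos ∅ = ∅ := by
  ext x
  simp [Wo, Lo]

private theorem CertEx_Yr (k : ℕ) (F : Finset (Finset ι)) (pos : ι → ℕ) : Yr k F pos ∅ = ∅ := by
  ext x
  simp [Yr, CertEx_Wo]

private theorem CertEx_insert {j : ℕ} {F : Finset (Finset ι)} {pos : ι → ℕ} {s : Finset ι} {u : ι}
    (hs : s ∈ fc j F) (hu : u ∈ Lo F pos s) : insert u s ∈ fc (j + 1) F := by
  have h1 := (Pool.TSphD.Lo_facts hu).1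
  have h2 := (mem_filter.1 hu).1
  obtain ⟨t, ht, hut⟩ := Pool.TSph.mem_verts.1 h2
  obtain ⟨a, ha, hsa, rfl⟩ := Pool.TSphD.mem_lk.1 ht
  refine Pool.TSphD.mem_fc.2 ⟨?_, a, ha, ?_⟩
  · rw [card_insert_of_notMem h1, (Pool.TSphD.mem_fc.1 hs).1]
  · exact insert_subset (mem_sdiff.1 hut).1 hsa

/-- Put together `exists_nest`, `exists_lev`, `exists_rank`: `M = rdg (k + 2) F \ Closings`,
`T0 = B ∅`, `T s = B s ∪ Yr k F pos s` (`Yr k F pos ∅ = ∅`, `comp _ ∅ = 0`). -/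
theorem exists_lcert {k : ℕ} {F : Finset (Finset ι)} (hk : 0 < k) (hF : IsNor (k + 3) F)
    (hne : F.Nonempty) {pos : ι → ℕ} (hpos : Function.Injective pos) {R G D Rt dist par}
    (hD : Data k F pos R G D Rt dist par) :
    ∃ (B : Finset ι → Finset (Finset ι)) (rk : Finset ι → ℕ) (e lev : Finset ι → Finset ι)
      (T : Finset ι → Finset (Finset ι)), Nest k F pos (Closings k F pos Rt par) B ∧
      LCert (k + 2) F (rdg (k + 2) F \ Closings k F pos Rt par) (B ∅) rk e lev T ∧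
      ∀ h : Finset ι → ℝ, ∑ t ∈ (rdg (k + 2) F \ Closings k F pos Rt par) \ B ∅, h (lev t) =
        ∑ j ∈ range k, ∑ s ∈ fc j F,
          ((∑ u ∈ Lo F pos s, ((B (insert u s)).card : ℝ)) - (B s).card) * h s := by
  obtain ⟨B, hN⟩ := exists_nest hk hF hpos hD
  obtain ⟨lev, hlev, hsum⟩ := exists_lev hpos hN hne hF.card
  obtain ⟨rk, e, h1, h2, h3⟩ := exists_rank hk hpos hD hN hF.card lev hlev
  have h0 : (∅ : Finset ι) ∈ fc 0 F := by
    obtain ⟨a, ha⟩ := hne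
    exact Pool.TSphD.mem_fc.2 ⟨card_empty, a, ha, empty_subset _⟩
  have hcl : ∀ t ∈ rdg (k + 2) F, t ∉ rdg (k + 2) F \ Closings k F pos Rt par →
      t ∈ Closings k F pos Rt par := by
    intro t ht ht'
    by_contra hc
    exact ht' (mem_sdiff.2 ⟨ht, hc⟩)
  refine ⟨B, rk, e, lev, fun s => B s ∪ Yr k F pos s, hN, ?_, hsum⟩
  refine ⟨sdiff_subset, ?_, ?_, ?_, ?_, ?_, ?_, ?_, ?_, ?_⟩
  · intro t ht
    obtain ⟨a1, a2, -⟩ := nest_top hN (Nat.zero_le k) h0 ht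
    exact mem_sdiff.2 ⟨a1, a2⟩
  · have hc := hN.card 0 hk ∅ h0
    have hcomp : comp (adj (lk F ∅)) (Wo F pos ∅) = 0 := by
      rw [CertEx_Wo]
      simp [comp]
    have hNn : Nn F pos ∅ ≤ F.card := card_filter_le _ _
    omega
  · intro a ha b hb
    have hc := hN.conn 0 (Nat.zero_le k) ∅ h0 a ha b hb (empty_subset _) (empty_subset _)
    refine Relation.ReflTransGen.mono (fun x y hxy => ?_) a b hc
    obtain ⟨hy, -, hxy⟩ := hxy
    rw [CertEx_Yr, union_empty] at hxy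
    exact ⟨hy, hxy⟩
  · exact fun t ht ht' => h1 t (hcl t ht ht')
  · exact fun t ht ht' t' ht1 ht2 ht3 => h2 t (hcl t ht ht') t' ht1 ht2 ht3
  · intro t ht ht'
    obtain ⟨j, hj, hs, ⟨u, hu, hut⟩, -⟩ := hlev t (mem_sdiff.2 ⟨ht, ht'⟩)
    obtain ⟨-, -, a1, -⟩ := nest_top hN (Nat.succ_le_of_lt hj) (CertEx_insert hs hu) hut
    exact (subset_insert _ _).trans a1
  · intro t ht ht' x hx
    obtain ⟨j, hj, hs, -, -⟩ := hlev t (mem_sdiff.2 ⟨ht, ht'⟩)
    rcases mem_union.1 hx with hx | hx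
    · exact (nest_top hN hj.le hs hx).1
    · exact (mem_filter.1 hx).1
  · exact fun t ht ht' t' ht1 => h3 t (mem_sdiff.2 ⟨ht, ht'⟩) t' ht1
  · intro t ht ht' a ha b hb hsa hsb
    obtain ⟨j, hj, hs, -, -⟩ := hlev t (mem_sdiff.2 ⟨ht, ht'⟩)
    exact hN.conn j hj.le _ hs a ha b hb hsa hsb

end Pool.TSphM
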