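import Pool.Agent.Lib.MP_3de3a3_co.M.Defs
import Pool.Agent.Lib.MP_3de3a3_co.M.Links
import Pool.Agent.Lib.MP_3de3a3_co.DClosCard

/-! # The numbers of the last level (module M/Last) -/

set_option autoImplicit false

namespace Pool.TSphM

open Finset
open Pool.TSph (verts IsSphere2 adj comp Ep PhiK)
open Pool.TSphD (fc rdg lk Lo PM side IsLF mv Closings)
open Pool.TSphD (Data)

variable {ι : Type*} [DecidableEq ι]

private theorem last_sub_lo {F : Finset (Finset ι)} {pos : ι → ℕ} {t s r : Finset ι}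
    (hs : s ∈ F) (hrs : r ⊆ s) (hT : Top pos t r) : r \ t ⊆ Lo F pos t := by
  intro y hy
  have hy' := mem_sdiff.1 hy
  exact mem_filter.2 ⟨Pool.TSphD.mem_verts_lk.2 ⟨hy'.2, s, hs, hT.1.trans hrs, hrs hy'.1⟩,
    hT.2 y hy⟩

private theorem last_inj {t a b : Finset ι} (ha : t ⊆ a) (hb : t ⊆ b) (h : a \ t = b \ t) :
    a = b := by
  rw [← union_sdiff_of_subset ha, h, union_sdiff_of_subset hb]

/-- The ridges with the top part `t` correspond to the edges of the link of `t` inside `Lo F pos t`;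
the closing ridges with the top part `t` are the `t ∪ {w, par t w}`, `w ∈ Lo F pos t \ Rt t`, they are
different (see `card_closings`), and `(Rt t).card ≤ comp`. -/
theorem card_last {k : ℕ} {F : Finset (Finset ι)} (hF : ∀ a ∈ F, a.card = k + 3)
    {pos : ι → ℕ} (hpos : Function.Injective pos) {R G D Rt dist par}
    (hD : Data k F pos R G D Rt dist par) {t : Finset ι} (ht : t ∈ fc k F) :
    ((rdg (k + 2) F \ Closings k F pos Rt par).filter (fun r => Top pos t r)).card +
      (Lo F pos t).card ≤ fin 2 (lk F t) (Lo F pos t) + comp (adj (lk F t)) (Lo F pos t) := by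
  have htc : t.card = k := (Pool.TSphD.mem_fc.1 ht).1
  have hA : ((rdg (k + 2) F).filter (fun r => Top pos t r)).card ≤
      fin 2 (lk F t) (Lo F pos t) := by
    unfold fin
    refine card_le_card_of_injOn (fun r => r \ t) ?_ ?_
    · intro r hr
      obtain ⟨hr1, hr2⟩ := mem_filter.1 (mem_coe.1 hr)
      obtain ⟨hrc, s, hs, hrs⟩ := Pool.TSphD.mem_rdg.1 hr1
      refine mem_coe.2 (mem_filter.2 ⟨Pool.TSphD.mem_fc.2 ⟨?_, s \ t, ?_, ?_⟩, ?_⟩)
      · rw [card_sdiff_of_subset hr2.1]
        omega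
      · exact Pool.TSphD.mem_lk.2 ⟨s, hs, hr2.1.trans hrs, rfl⟩
      · exact sdiff_subset_sdiff hrs (Subset.refl t)
      · exact last_sub_lo hs hrs hr2
    · intro r hr r' hr' h
      exact last_inj (mem_filter.1 (mem_coe.1 hr)).2.1 (mem_filter.1 (mem_coe.1 hr')).2.1 h
  set C : Finset (Finset ι) := (Lo F pos t \ Rt t).image (fun w => t ∪ {w, par t w}) with hC
  have hCcard : C.card = (Lo F pos t \ Rt t).card := by
    refine card_image_of_injOn ?_
    intro w hw v hv hwv
    have fw := Pool.TSphD.clos_facts hD ht (mem_coe.1 hw)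
    have fv := Pool.TSphD.clos_facts hD ht (mem_coe.1 hv)
    have hwv' : ({w, par t w} : Finset ι) = {v, par t v} :=
      (Pool.TSphD.top_unique (pos := pos)
        (show t ∪ {w, par t w} = t ∪ {v, par t v} from hwv) rfl fw.1 fv.1).2
    by_contra hne
    have h1 : w ∈ ({v, par t v} : Finset ι) := by rw [← hwv']; simp
    have h2 : v ∈ ({w, par t w} : Finset ι) := by rw [hwv']; simp
    simp only [mem_insert, mem_singleton] at h1 h2
    have e1 : w = par t v := by
      rcases h1 with h1 | h1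
      · exact absurd h1 hne
      · exact h1
    have e2 : v = par t w := by
      rcases h2 with h2 | h2
      · exact absurd h2.symm hne
      · exact h2
    have d1 := fw.2.2.2.2.1
    have d2 := fv.2.2.2.2.1
    rw [← e2] at d1
    rw [← e1] at d2
    omega
  have hCA : C ⊆ (rdg (k + 2) F).filter (fun r => Top pos t r) := by
    intro r hr
    obtain ⟨w, hw, rfl⟩ := mem_image.1 hr
    have fw := Pool.TSphD.clos_facts hD ht hw
    refine mem_filter.2 ⟨fw.2.2.2.2.2.2, subset_union_left, ?_⟩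
    intro y hy x hx
    rw [mem_sdiff, mem_union] at hy
    rcases hy.1 with h | h
    · exact absurd h hy.2
    · exact fw.1 y h x hx
  have hCC : C ⊆ Closings k F pos Rt par := by
    intro r hr
    exact mem_biUnion.2 ⟨t, ht, hr⟩
  have hsub : (rdg (k + 2) F \ Closings k F pos Rt par).filter (fun r => Top pos t r) ⊆
      (rdg (k + 2) F).filter (fun r => Top pos t r) \ C := by
    intro r hr
    obtain ⟨h1, h2⟩ := mem_filter.1 hr
    obtain ⟨h3, h4⟩ := mem_sdiff.1 h1
    exact mem_sdiff.2 ⟨mem_filter.2 ⟨h3, h2⟩, fun h => h4 (hCC h)⟩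
  have h1 := card_le_card hsub
  have h2 := card_sdiff_add_card_eq_card hCA
  have h3 := hD.Rtcard t ht
  have h4 := card_sdiff_add_card_eq_card (hD.Rtsub t ht)
  omega

theorem nn_last {k : ℕ} {F : Finset (Finset ι)} (hF : ∀ a ∈ F, a.card = k + 3)
    {pos : ι → ℕ} {t : Finset ι} (ht : t ∈ fc k F) :
    Nn F pos t = fin 3 (lk F t) (Lo F pos t) := by
  have htc : t.card = k := (Pool.TSphD.mem_fc.1 ht).1
  unfold Nn fin
  refine card_bij (fun a _ => a \ t) ?_ ?_ ?_
  · intro a ha
    obtain ⟨h1, h2⟩ := mem_filter.1 ha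
    refine mem_filter.2 ⟨Pool.TSphD.mem_fc.2 ⟨?_, a \ t, ?_, Subset.refl _⟩, ?_⟩
    · rw [card_sdiff_of_subset h2.1, hF a h1]
      omega
    · exact Pool.TSphD.mem_lk.2 ⟨a, h1, h2.1, rfl⟩
    · exact last_sub_lo h1 (Subset.refl a) h2
  · intro a ha b hb h
    exact last_inj (mem_filter.1 ha).2.1 (mem_filter.1 hb).2.1 h
  · intro b hb
    obtain ⟨h1, h2⟩ := mem_filter.1 hb
    obtain ⟨hbc, c, hc, hbc'⟩ := Pool.TSphD.mem_fc.1 h1
    obtain ⟨hd, hcF⟩ := Pool.TSphD.mem_lk'.1 hc
    have hcc : c.card = 3 := by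
      have h := hF _ hcF
      rw [card_union_of_disjoint hd] at h
      omega
    have hbe : b = c := eq_of_subset_of_card_le hbc' (by omega)
    subst hbe
    refine ⟨t ∪ b, mem_filter.2 ⟨hcF, subset_union_left, ?_⟩, ?_⟩
    · intro y hy x hx
      rw [mem_sdiff, mem_union] at hy
      rcases hy.1 with h | h
      · exact absurd h hy.2
      · exact (Pool.TSphD.Lo_facts (h2 h)).2 x hx
    · rw [union_sdiff_left, Finset.sdiff_eq_self_iff_disjoint.2 hd.symm]

end Pool.TSphM
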