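import Pool.Agent.Lib.MP_3de3a3_co.M.Defs
import Pool.Agent.Lib.MP_3de3a3_co.M.Links

/-! # Sums over the lowest vertices (module M/SumLo) -/

set_option autoImplicit false

namespace Pool.TSphM

open Finset
open Pool.TSph (verts IsSphere2 adj comp Ep PhiK)
open Pool.TSphD (fc rdg lk Lo PM side IsLF mv Closings)
open Pool.TSphD (mem_fc mem_verts_lk)

variable {ι : Type*} [DecidableEq ι]

private theorem sumlo_mem {F : Finset (Finset ι)} {pos : ι → ℕ} {s : Finset ι} {u : ι} :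
    u ∈ Lo F pos s ↔ (u ∉ s ∧ ∃ a ∈ F, s ⊆ a ∧ u ∈ a) ∧ ∀ x ∈ s, pos u < pos x := by
  unfold Lo
  rw [mem_filter, mem_verts_lk]

/-- The map `(s, u) ↦ (insert u s, u)` is a bijection from the pairs `s ∈ fc j F`, `u ∈ Lo F pos s`, to the
pairs `s' ∈ fc (j + 1) F` and `u` the lowest element of `s'`. See `sum_lower`, file DCount.lean. -/
theorem sum_lo {F : Finset (Finset ι)} {pos : ι → ℕ} (hpos : Function.Injective pos) (j : ℕ)
    (a c : Finset ι → ℝ) :
    ∑ s ∈ fc j F, (∑ u ∈ Lo F pos s, a (insert u s)) * c s =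
      ∑ s ∈ fc (j + 1) F, a s * mn pos s (fun x => c (s.erase x)) := by
  simp only [mn, sum_mul, mul_sum]
  rw [sum_sigma', sum_sigma']
  refine sum_bij' (fun p _ => (⟨insert p.2 p.1, p.2⟩ : (_ : Finset ι) × ι))
    (fun p _ => (⟨p.1.erase p.2, p.2⟩ : (_ : Finset ι) × ι)) ?_ ?_ ?_ ?_ ?_
  · rintro ⟨s, u⟩ hp
    rw [mem_sigma] at hp
    obtain ⟨hs, hu⟩ := hp
    simp only at hs hu
    rw [sumlo_mem] at hu
    rw [mem_fc] at hs
    obtain ⟨⟨hus, b, hb, hsb, hub⟩, hlow⟩ := hu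
    rw [mem_sigma, mem_fc, mem_filter]
    refine ⟨⟨by rw [card_insert_of_notMem hus, hs.1], b, hb, insert_subset hub hsb⟩,
      mem_insert_self _ _, ?_⟩
    intro y hy
    rcases mem_insert.1 hy with h | h
    · rw [h]
    · exact (hlow y h).le
  · rintro ⟨s, u⟩ hp
    rw [mem_sigma] at hp
    obtain ⟨hs, hu⟩ := hp
    simp only at hs hu
    rw [mem_filter] at hu
    rw [mem_fc] at hs
    obtain ⟨hsc, b, hb, hsb⟩ := hs
    rw [mem_sigma, mem_fc, sumlo_mem]
    refine ⟨⟨?_, b, hb, (erase_subset _ _).trans hsb⟩, ⟨notMem_erase _ _, b, hb,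
      (erase_subset _ _).trans hsb, hsb hu.1⟩, ?_⟩
    · simp only
      rw [card_erase_of_mem hu.1, hsc]
      rfl
    · intro x hx
      simp only at hx
      rw [mem_erase] at hx
      exact lt_of_le_of_ne (hu.2 x hx.2) (fun h => hx.1 (hpos h).symm)
  · rintro ⟨s, u⟩ hp
    rw [mem_sigma] at hp
    obtain ⟨hs, hu⟩ := hp
    simp only at hs hu
    rw [sumlo_mem] at hu
    simp only [erase_insert hu.1.1]
  · rintro ⟨s, u⟩ hp
    rw [mem_sigma] at hp
    obtain ⟨hs, hu⟩ := hp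
    simp only at hs hu
    rw [mem_filter] at hu
    simp only [insert_erase hu.1]
  · rintro ⟨s, u⟩ hp
    rw [mem_sigma] at hp
    obtain ⟨hs, hu⟩ := hp
    simp only at hs hu
    rw [sumlo_mem] at hu
    simp only [erase_insert hu.1.1]

private theorem sumlo_nn {F : Finset (Finset ι)} {d : ℕ} (hF : ∀ a ∈ F, a.card = d) {pos : ι → ℕ}
    (hpos : Function.Injective pos) {s : Finset ι} (hs : s.card < d) :
    Nn F pos s = ∑ u ∈ Lo F pos s, Nn F pos (insert u s) := by
  unfold Nn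
  rw [← card_biUnion]
  · apply congrArg card
    ext a
    rw [mem_filter, mem_biUnion]
    constructor
    · rintro ⟨ha, hsa, htop⟩
      have h1 : 0 < (a \ s).card := by
        rw [card_sdiff_of_subset hsa, hF a ha]
        omega
      obtain ⟨u, hu, hmax⟩ := exists_max_image (a \ s) pos (card_pos.1 h1)
      rw [mem_sdiff] at hu
      refine ⟨u, sumlo_mem.2 ⟨⟨hu.2, a, ha, hsa, hu.1⟩, fun x hx => htop u (mem_sdiff.2 hu) x hx⟩,
        mem_filter.2 ⟨ha, insert_subset hu.1 hsa, ?_⟩⟩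
      intro y hy x hx
      rw [mem_sdiff, mem_insert, not_or] at hy
      have hy' : y ∈ a \ s := mem_sdiff.2 ⟨hy.1, hy.2.2⟩
      rcases mem_insert.1 hx with h | h
      · rw [h]
        exact lt_of_le_of_ne (hmax y hy') (fun h2 => hy.2.1 (hpos h2))
      · exact htop y hy' x h
    · rintro ⟨u, hu, ha⟩
      rw [mem_filter] at ha
      rw [sumlo_mem] at hu
      obtain ⟨ha, hsa, htop⟩ := ha
      refine ⟨ha, (subset_insert _ _).trans hsa, ?_⟩
      intro y hy x hx
      rw [mem_sdiff] at hy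
      by_cases h : y = u
      · rw [h]
        exact hu.2 x hx
      · exact htop y (mem_sdiff.2 ⟨hy.1, fun h2 => (mem_insert.1 h2).elim h hy.2⟩) x
          (mem_insert_of_mem hx)
  · intro u hu v hv huv
    rw [Function.onFun, disjoint_left]
    intro a ha hb
    rw [mem_filter] at ha hb
    rw [mem_coe, sumlo_mem] at hu hv
    have h1 : pos v < pos u := ha.2.2 v (mem_sdiff.2 ⟨hb.2.1 (mem_insert_self _ _), fun h2 =>
      (mem_insert.1 h2).elim (fun h => huv h.symm) hv.1.1⟩) u (mem_insert_self _ _)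
    have h2 : pos u < pos v := hb.2.2 u (mem_sdiff.2 ⟨ha.2.1 (mem_insert_self _ _), fun h2 =>
      (mem_insert.1 h2).elim (fun h => huv h) hu.1.1⟩) v (mem_insert_self _ _)
    omega

/-- `Nn F pos s = ∑ u ∈ Lo F pos s, Nn F pos (insert u s)`: a facet with the top part `s` has
exactly one top part `insert u s`. Then `sum_lo`. -/
theorem sum_nn {F : Finset (Finset ι)} {d : ℕ} (hF : ∀ a ∈ F, a.card = d) {pos : ι → ℕ}
    (hpos : Function.Injective pos) {j : ℕ} (hj : j < d) (c : Finset ι → ℝ) :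
    ∑ s ∈ fc (j + 1) F, (Nn F pos s : ℝ) * mn pos s (fun x => c (s.erase x)) =
      ∑ s ∈ fc j F, (Nn F pos s : ℝ) * c s := by
  rw [← sum_lo hpos j (fun s => (Nn F pos s : ℝ)) c]
  refine sum_congr rfl fun s hs => ?_
  rw [sumlo_nn hF hpos (s := s) (by rw [(mem_fc.1 hs).1]; exact hj), Nat.cast_sum]

end Pool.TSphM
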