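import Pool.Agent.Lib.MP_3de3a3_co.M.Defs
import Pool.Agent.Lib.MP_3de3a3_co.DConn

/-! # Connecting sets have at least n - 1 ridges (module M/Tree) -/

set_option autoImplicit false

namespace Pool.TSphM

open Finset
open Pool.TSph (verts IsSphere2 adj comp Ep PhiK)
open Pool.TSphD (fc rdg lk Lo PM side IsLF mv Closings)

variable {ι : Type*} [DecidableEq ι]

/-- Every ridge is in exactly two facets. Use `SimpleGraph.Connected.card_vert_le_card_edgeSet_add_one`
for the graph on the facets in which `a ≠ b` are adjacent if `a ∩ b ∈ T0` (the map from the edges to `T0`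
is injective). -/
theorem tree_card {δ : ℕ} {F T0 : Finset (Finset ι)} (hF : PM δ F) (hT : T0 ⊆ rdg δ F)
    (h : ∀ s ∈ F, ∀ t ∈ F, Relation.ReflTransGen (fun a b => b ∈ F ∧ a ∩ b ∈ T0) s t) :
    F.card ≤ T0.card + 1 := by
  classical
  rcases F.eq_empty_or_nonempty with hF0 | hF0
  · rw [hF0, Finset.card_empty]
    omega
  let G : SimpleGraph F :=
    { Adj := fun a b => a ≠ b ∧ (a : Finset ι) ∩ b ∈ T0
      symm := ⟨by
        intro a b hab
        refine ⟨hab.1.symm, ?_⟩
        rw [Finset.inter_comm]
        exact hab.2⟩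
      loopless := ⟨fun a ha => ha.1 rfl⟩ }
  have hreach : ∀ s : F, ∀ t : Finset ι,
      Relation.ReflTransGen (fun a b => b ∈ F ∧ a ∩ b ∈ T0) (s : Finset ι) t →
      ∃ ht : t ∈ F, G.Reachable s ⟨t, ht⟩ := by
    intro s t hst
    induction hst with
    | refl => exact ⟨s.2, SimpleGraph.Reachable.refl _⟩
    | @tail b c _ hbc ih =>
      obtain ⟨hb, hr⟩ := ih
      refine ⟨hbc.1, hr.trans ?_⟩
      by_cases hne : (⟨b, hb⟩ : F) = ⟨c, hbc.1⟩
      · rw [hne]
      · exact SimpleGraph.Adj.reachable (show G.Adj _ _ from ⟨hne, hbc.2⟩)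
  have hconn : G.Connected := by
    have : Nonempty F := hF0.to_subtype
    refine SimpleGraph.Connected.mk ?_
    intro s t
    obtain ⟨_, hr⟩ := hreach s t (h s s.2 t t.2)
    exact hr
  have h1 := hconn.card_vert_le_card_edgeSet_add_one
  have h2 : Nat.card F = F.card := by simp
  -- the map from the edges to the ridges
  let f : Sym2 F → Finset ι := Sym2.lift ⟨fun a b => (a : Finset ι) ∩ b, fun a b =>
    Finset.inter_comm _ _⟩
  have hf : ∀ e ∈ G.edgeSet, f e ∈ T0 := by
    intro e
    induction e using Sym2.ind with
    | _ a b =>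
      intro he
      rw [SimpleGraph.mem_edgeSet] at he
      exact he.2
  have hset : ∀ a b : F, G.Adj a b →
      F.filter (fun s => (a : Finset ι) ∩ b ⊆ s) = {(a : Finset ι), (b : Finset ι)} := by
    intro a b hab
    have hne : (a : Finset ι) ≠ b := fun hc => hab.1 (Subtype.ext hc)
    symm
    apply Finset.eq_of_subset_of_card_le
    · intro s hs
      rw [Finset.mem_insert, Finset.mem_singleton] at hs
      rw [Finset.mem_filter]
      rcases hs with rfl | rfl
      · exact ⟨a.2, Finset.inter_subset_left⟩
      · exact ⟨b.2, Finset.inter_subset_right⟩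
    · rw [hF.two _ (hT hab.2), Finset.card_pair hne]
  have hinj : Set.InjOn f G.edgeSet := by
    intro e he e' he' hee
    induction e using Sym2.ind with
    | _ a b =>
      induction e' using Sym2.ind with
      | _ c d =>
        rw [SimpleGraph.mem_edgeSet] at he he'
        have hee' : (a : Finset ι) ∩ b = (c : Finset ι) ∩ d := hee
        have h3 := hset a b he
        have h4 := hset c d he'
        rw [hee', h4] at h3
        have hnab : (a : Finset ι) ≠ b := fun hc => he.1 (Subtype.ext hc)
        have ha : (a : Finset ι) ∈ ({(c : Finset ι), (d : Finset ι)} : Finset (Finset ι)) := by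
          rw [h3]; simp
        have hb : (b : Finset ι) ∈ ({(c : Finset ι), (d : Finset ι)} : Finset (Finset ι)) := by
          rw [h3]; simp
        rw [Finset.mem_insert, Finset.mem_singleton] at ha hb
        rcases ha with ha | ha <;> rcases hb with hb | hb
        · exact absurd (ha.trans hb.symm) hnab
        · rw [Subtype.ext ha, Subtype.ext hb]
        · rw [Subtype.ext ha, Subtype.ext hb]
          exact Sym2.eq_swap
        · exact absurd (ha.trans hb.symm) hnab
  have h5 : Nat.card G.edgeSet ≤ T0.card := by
    have h6 : Nat.card G.edgeSet ≤ Nat.card T0 := by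
      refine Nat.card_le_card_of_injective (fun e : G.edgeSet => (⟨f e, hf e e.2⟩ : T0)) ?_
      intro e e' hee
      simp only [Subtype.mk.injEq] at hee
      exact Subtype.ext (hinj e.2 e'.2 hee)
    simpa using h6
  omega

end Pool.TSphM
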