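import Pool.Agent.Lib.MP_3de3a3_co.M.Defs
import Pool.Agent.Lib.MP_3de3a3_co.M.CertEx
import Pool.Agent.Lib.MP_3de3a3_co.M.SumLo
import Pool.Agent.Lib.MP_3de3a3_co.M.Last
import Pool.Agent.Lib.MP_3de3a3_co.M.Tree

/-! # The cost of a vertex order (module M/Cost) -/

set_option autoImplicit false

namespace Pool.TSphM

open Finset
open Pool.TSph (verts IsSphere2 adj comp Ep PhiK)
open Pool.TSphD (fc rdg lk Lo PM side IsLF mv Closings)

variable {ι : Type*} [DecidableEq ι]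

/-- The bound for the cost of the order `pos`. -/
noncomputable def costB (k : ℕ) (F : Finset (Finset ι)) (pos : ι → ℕ) : ℝ :=
  (∑ j ∈ Ico 1 k, ∑ s ∈ fc j F, ((comp (adj (lk F s)) (Wo F pos s) : ℝ) - 1) *
      mn pos s (fun x => ls F (s.erase x) - ls F s)) +
    (∑ t ∈ fc k F, ((fin 2 (lk F t) (Lo F pos t) : ℝ) - (Lo F pos t).card +
      comp (adj (lk F t)) (Lo F pos t) - fin 3 (lk F t) (Lo F pos t)) *
        mn pos t (fun x => ls F (t.erase x))) + ls F ∅

omit [DecidableEq ι] in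
private theorem cost_mn {pos : ι → ℕ} (hpos : Function.Injective pos) {s : Finset ι}
    (hs : s.Nonempty) : ∃ x ∈ s, ∀ h : ι → ℝ, mn pos s h = h x := by
  obtain ⟨x, hx, hmin⟩ := exists_min_image s pos hs
  refine ⟨x, hx, fun h => ?_⟩
  have h1 : s.filter (fun x => ∀ y ∈ s, pos x ≤ pos y) = {x} := by
    ext y
    rw [mem_filter, mem_singleton]
    constructor
    · rintro ⟨hy, hy'⟩
      exact hpos (le_antisymm (hy' x hx) (hmin y hy))
    · rintro rfl
      exact ⟨hx, hmin⟩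
  unfold mn
  rw [h1, sum_singleton]

private theorem cost_ls_nonneg (F : Finset (Finset ι)) (s : Finset ι) : 0 ≤ ls F s :=
  Real.log_natCast_nonneg _

private theorem cost_ls_mono (F : Finset (Finset ι)) {s t : Finset ι} (h : t ⊆ s) :
    ls F s ≤ ls F t := by
  have h1 : dg F s ≤ dg F t := card_le_card (fun a ha => by
    obtain ⟨h2, h3⟩ := mem_filter.1 ha
    exact mem_filter.2 ⟨h2, h.trans h3⟩)
  rcases Nat.eq_zero_or_pos (dg F s) with h0 | h0
  · have : ls F s = 0 := by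
      unfold ls
      rw [h0, Nat.cast_zero, Real.log_zero]
    rw [this]
    exact cost_ls_nonneg F t
  · exact Real.log_le_log (by exact_mod_cast h0) (by exact_mod_cast h1)

private theorem cost_fc_zero {F : Finset (Finset ι)} (hne : F.Nonempty) : fc 0 F = {∅} := by
  ext s
  rw [TSphD.mem_fc, mem_singleton]
  constructor
  · rintro ⟨h, _⟩
    exact card_eq_zero.1 h
  · rintro rfl
    obtain ⟨a, ha⟩ := hne
    exact ⟨rfl, a, ha, empty_subset a⟩

private theorem cost_ne {F : Finset (Finset ι)} {j : ℕ} {s : Finset ι} (hs : s ∈ fc (j + 1) F) :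
    s.Nonempty := by
  rw [← card_pos, (TSphD.mem_fc.1 hs).1]
  omega

/-- With `b s = (B s).card`, `L s = ls F s`: by `exists_lcert` and `sum_lo` the sum of `L (lev t)` is
`∑_{j=1..k} ∑_{s ∈ fc j F} b s * mn pos s (L (s - x)) - ∑_{j=0..k-1} ∑_{s ∈ fc j F} b s * L s
= ∑_{j=1..k-1} ∑_s b s * mn pos s (L (s - x) - L s) + ∑_{t ∈ fc k F} b t * mn pos t (L (t - x))
- b ∅ * L ∅`. Use `b s ≤ comp (Wo) - 1 + Nn` (`Nest.card`), `card_last`, `b ∅ ≥ n - 1` (`tree_card`),
`L (s - x) ≥ L s ≥ 0`. The terms with `Nn`: by `sum_nn` with `G_j = ∑_{s ∈ fc j F} Nn s * L s` they are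
`∑_{j=1..k-1} (G_(j-1) - G_j) = G_0 - G_(k-1)`, `G_0 = n L ∅`, and
`G_(k-1) = ∑_{t ∈ fc k F} Nn t * mn pos t (L (t - x))`, `Nn t = fin 3 (lk F t) (Lo F pos t)`. -/
theorem cost_le {k : ℕ} {F : Finset (Finset ι)} (hk : 0 < k) (hF : IsNor (k + 3) F)
    (hne : F.Nonempty) {pos : ι → ℕ} (hpos : Function.Injective pos) :
    ∃ M T0 rk e lev T, LCert (k + 2) F M T0 rk e lev T ∧
      ∑ t ∈ M \ T0, ls F (lev t) ≤ costB k F pos := by
  obtain ⟨R, G, D, Rt, dist, par, hD⟩ := TSphD.exists_data (nor_mfd hk hF) pos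
  obtain ⟨B, rk, e, lev, T, hN, hC, hsum⟩ := exists_lcert hk hF hne hpos hD
  refine ⟨_, _, rk, e, lev, T, hC, ?_⟩
  rw [hsum (ls F)]
  -- the sums of the levels
  let A : ℕ → ℝ := fun j => ∑ s ∈ fc j F, ((B s).card : ℝ) * mn pos s (fun x => ls F (s.erase x))
  let E : ℕ → ℝ := fun j => ∑ s ∈ fc j F, ((B s).card : ℝ) * ls F s
  let Gs : ℕ → ℝ := fun j => ∑ s ∈ fc j F, (Nn F pos s : ℝ) * ls F s
  let P : ℕ → ℝ := fun j => ∑ s ∈ fc j F, ((comp (adj (lk F s)) (Wo F pos s) : ℝ) - 1) *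
      mn pos s (fun x => ls F (s.erase x) - ls F s)
  have hmn : ∀ j, ∀ s ∈ fc (j + 1) F, 0 ≤ mn pos s (fun x => ls F (s.erase x) - ls F s) ∧
      0 ≤ mn pos s (fun x => ls F (s.erase x)) ∧
      mn pos s (fun x => ls F (s.erase x) - ls F s) = mn pos s (fun x => ls F (s.erase x)) - ls F s := by
    intro j s hs
    obtain ⟨x, hx, h⟩ := cost_mn hpos (cost_ne hs)
    rw [h, h]
    exact ⟨sub_nonneg.2 (cost_ls_mono F (erase_subset x s)), cost_ls_nonneg F _, rfl⟩
  have h1 : ∀ j, ∑ s ∈ fc j F, ((∑ u ∈ Lo F pos s, ((B (insert u s)).card : ℝ)) - (B s).card) *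
      ls F s = A (j + 1) - E j := by
    intro j
    have h2 := sum_lo (F := F) hpos j (fun s => ((B s).card : ℝ)) (ls F)
    simp only [A, E]
    rw [← h2, ← sum_sub_distrib]
    exact sum_congr rfl fun s _ => by ring
  have h2 : ∀ j, 0 < j → j < k → A j - E j ≤ P j + (Gs (j - 1) - Gs j) := by
    intro j hj hjk
    obtain ⟨i, rfl⟩ : ∃ i, j = i + 1 := ⟨j - 1, by omega⟩
    have h3 := sum_nn hF.card hpos (by omega : i < k + 3) (ls F)
    have h4 : A (i + 1) - E (i + 1) =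
        ∑ s ∈ fc (i + 1) F, ((B s).card : ℝ) * mn pos s (fun x => ls F (s.erase x) - ls F s) := by
      simp only [A, E]
      rw [← sum_sub_distrib]
      refine sum_congr rfl fun s hs => ?_
      rw [(hmn i s hs).2.2]
      ring
    have h5 : Gs (i + 1 - 1) - Gs (i + 1) =
        ∑ s ∈ fc (i + 1) F, (Nn F pos s : ℝ) * mn pos s (fun x => ls F (s.erase x) - ls F s) := by
      simp only [Gs]
      rw [Nat.add_sub_cancel, ← h3, ← sum_sub_distrib]
      refine sum_congr rfl fun s hs => ?_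
      rw [(hmn i s hs).2.2]
      ring
    rw [h4, h5]
    simp only [P]
    rw [← sum_add_distrib]
    refine sum_le_sum fun s hs => ?_
    rw [← add_mul]
    refine mul_le_mul_of_nonneg_right ?_ (hmn i s hs).1
    have h6 : ((B s).card : ℝ) + 1 ≤ comp (adj (lk F s)) (Wo F pos s) + Nn F pos s := by
      exact_mod_cast hN.card (i + 1) hjk s hs
    linarith
  have h3 : A k ≤ (∑ t ∈ fc k F, ((fin 2 (lk F t) (Lo F pos t) : ℝ) - (Lo F pos t).card +
      comp (adj (lk F t)) (Lo F pos t) - fin 3 (lk F t) (Lo F pos t)) *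
        mn pos t (fun x => ls F (t.erase x))) + Gs (k - 1) := by
    obtain ⟨i, rfl⟩ : ∃ i, k = i + 1 := ⟨k - 1, by omega⟩
    have h3 := sum_nn hF.card hpos (by omega : i < i + 1 + 3) (ls F)
    simp only [A, Gs]
    rw [Nat.add_sub_cancel, ← h3, ← sum_add_distrib]
    refine sum_le_sum fun t ht => ?_
    rw [← add_mul]
    refine mul_le_mul_of_nonneg_right ?_ (hmn i t ht).2.1
    have h6 := card_last hF.card hpos hD ht
    rw [← hN.last t ht] at h6
    have h7 : ((B t).card : ℝ) + (Lo F pos t).card ≤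
        fin 2 (lk F t) (Lo F pos t) + comp (adj (lk F t)) (Lo F pos t) := by exact_mod_cast h6
    rw [nn_last hF.card ht]
    linarith
  have h4 : Gs 0 - E 0 ≤ ls F ∅ := by
    simp only [Gs, E]
    rw [cost_fc_zero hne, sum_singleton, sum_singleton, ← sub_mul]
    have h5 : Nn F pos ∅ = F.card := by
      unfold Nn
      rw [filter_true_of_mem]
      intro a _
      exact ⟨empty_subset a, fun y _ x hx => absurd hx (notMem_empty x)⟩
    have h6 : F.card ≤ (B ∅).card + 1 :=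
      tree_card (nor_pm hF hk) (hC.sub0.trans hC.sub) hC.conn
    have h7 : (F.card : ℝ) ≤ (B ∅).card + 1 := by exact_mod_cast h6
    rw [h5]
    nlinarith [cost_ls_nonneg F ∅]
  have h5 : ∑ j ∈ range k, (A (j + 1) - E j) = A k - E 0 + ∑ j ∈ Ico 1 k, (A j - E j) := by
    obtain ⟨i, rfl⟩ : ∃ i, k = i + 1 := ⟨k - 1, by omega⟩
    have h8 : ∀ n, ∑ j ∈ range (n + 1), (A (j + 1) - E j) =
        A (n + 1) - E 0 + ∑ j ∈ Ico 1 (n + 1), (A j - E j) := by
      intro n
      induction n with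
      | zero => simp
      | succ n ih =>
        rw [sum_range_succ, ih, sum_Ico_succ_top (by omega : 1 ≤ n + 1)]
        ring
    exact h8 i
  have h6 : ∑ j ∈ Ico 1 k, (A j - E j) ≤ ∑ j ∈ Ico 1 k, P j + (Gs 0 - Gs (k - 1)) := by
    have h7 : ∑ j ∈ Ico 1 k, (Gs (j - 1) - Gs j) = Gs 0 - Gs (k - 1) := by
      obtain ⟨i, rfl⟩ : ∃ i, k = i + 1 := ⟨k - 1, by omega⟩
      have h8 : ∀ n, ∑ j ∈ Ico 1 (n + 1), (Gs (j - 1) - Gs j) = Gs 0 - Gs n := by
        intro n
        induction n with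
        | zero => simp
        | succ n ih =>
          rw [sum_Ico_succ_top (by omega : 1 ≤ n + 1), ih, Nat.add_sub_cancel]
          ring
      rw [h8, Nat.add_sub_cancel]
    rw [← h7, ← sum_add_distrib]
    refine sum_le_sum fun j hj => ?_
    obtain ⟨h8, h9⟩ := mem_Ico.1 hj
    exact h2 j (by omega) h9
  rw [sum_congr rfl (fun j _ => h1 j), h5]
  unfold costB
  change _ ≤ ∑ j ∈ Ico 1 k, P j + _ + ls F ∅
  linarith

end Pool.TSphM
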