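import Pool.Agent.Lib.MP_3de3a3_co.M.Defs
import Pool.Agent.Lib.MP_3de3a3_co.M.Skew

/-! # Numbers of edges of rigid graphs (module M/Edge) -/

set_option autoImplicit false

namespace Pool.TSphM

open Finset
open Pool.TSph (verts IsSphere2 adj comp Ep PhiK)
open Pool.TSphD (fc rdg lk Lo PM side IsLF mv Closings)

variable {ι : Type*} [DecidableEq ι]

/-- Extension by zero. -/
def Edge_ext (D : ℕ) (V : Finset ι) :
    (V → Fin (D + 1) → ℝ) →ₗ[ℝ] (ι → Fin (D + 1) → ℝ) where
  toFun v := fun x => if h : x ∈ V then v ⟨x, h⟩ else 0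
  map_add' v w := by
    funext x
    by_cases h : x ∈ V <;> simp [h]
  map_smul' c v := by
    funext x
    by_cases h : x ∈ V <;> simp [h]

theorem Edge_ext_apply (D : ℕ) (V : Finset ι) (v : V → Fin (D + 1) → ℝ) (x : ι) (h : x ∈ V) :
    Edge_ext D V v x = v ⟨x, h⟩ := by
  simp [Edge_ext, h]

/-- The dot product with a vector. -/
def Edge_dot {D : ℕ} (a : Fin (D + 1) → ℝ) : (Fin (D + 1) → ℝ) →ₗ[ℝ] ℝ where
  toFun b := a ⬝ᵥ b
  map_add' b c := dotProduct_add a b c
  map_smul' c b := by simp [dotProduct_smul]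

/-- The equation of an edge. -/
def Edge_eq {D : ℕ} (θ : ι → Fin (D + 1) → ℝ) (e : Finset ι) :
    (ι → Fin (D + 1) → ℝ) →ₗ[ℝ] ℝ :=
  ∑ x ∈ e, ∑ y ∈ e.erase x, (Edge_dot (θ x)).comp (LinearMap.proj y)

theorem Edge_eq_apply {D : ℕ} (θ : ι → Fin (D + 1) → ℝ) (v : ι → Fin (D + 1) → ℝ) (x y : ι)
    (h : x ≠ y) : Edge_eq θ {x, y} v = θ x ⬝ᵥ v y + θ y ⬝ᵥ v x := by
  have h1 : ({x, y} : Finset ι).erase x = {y} := by
    ext z; simp only [mem_erase, mem_insert, mem_singleton]
    constructor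
    · rintro ⟨a, b | b⟩
      · exact absurd b a
      · exact b
    · rintro rfl; exact ⟨Ne.symm h, Or.inr rfl⟩
  have h2 : ({x, y} : Finset ι).erase y = {x} := by
    ext z; simp only [mem_erase, mem_insert, mem_singleton]
    constructor
    · rintro ⟨a, b | b⟩
      · exact b
      · exact absurd b a
    · rintro rfl; exact ⟨h, Or.inl rfl⟩
  unfold Edge_eq
  rw [Finset.sum_pair h, h1, h2]
  simp [Edge_dot]

theorem Edge_eq_congr {D : ℕ} (θ : ι → Fin (D + 1) → ℝ) (v w : ι → Fin (D + 1) → ℝ)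
    (e : Finset ι) (h : ∀ x ∈ e, v x = w x) : Edge_eq θ e v = Edge_eq θ e w := by
  unfold Edge_eq
  simp only [LinearMap.sum_apply]
  refine Finset.sum_congr rfl fun x hx => Finset.sum_congr rfl fun y hy => ?_
  change θ x ⬝ᵥ v y = θ x ⬝ᵥ w y
  rw [h y (Finset.mem_of_mem_erase hy)]

/-- All equations. -/
def Edge_map (D : ℕ) (V : Finset ι) (E : Finset (Finset ι)) (θ : ι → Fin (D + 1) → ℝ) :
    (V → Fin (D + 1) → ℝ) →ₗ[ℝ] (V → ℝ) × (E → ℝ) :=
  ((LinearMap.pi fun x : V => (Edge_dot (θ x)).comp (LinearMap.proj (x : ι))).prod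
    (LinearMap.pi fun e : E => Edge_eq θ (e : Finset ι))).comp (Edge_ext D V)

theorem Edge_ker (D : ℕ) (V : Finset ι) (E : Finset (Finset ι)) (hE : E ⊆ V.powersetCard 2)
    (θ : ι → Fin (D + 1) → ℝ) (h : Rig D V (fun x y => ({x, y} : Finset ι) ∈ E) θ) :
    Module.finrank ℝ (LinearMap.ker (Edge_map D V E θ)) ≤ Module.finrank ℝ (Sk D) := by
  -- the rigid motions
  let R : Sk D →ₗ[ℝ] (V → Fin (D + 1) → ℝ) :=
    { toFun := fun S x => (S : Matrix (Fin (D + 1)) (Fin (D + 1)) ℝ).mulVec (θ x)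
      map_add' := fun S T => by funext x; simp [Matrix.add_mulVec]
      map_smul' := fun c S => by funext x; simp [Matrix.smul_mulVec] }
  have hR : LinearMap.ker (Edge_map D V E θ) ≤ LinearMap.range R := by
    intro v hv
    rw [LinearMap.mem_ker] at hv
    have h1 : ∀ x : V, θ x ⬝ᵥ Edge_ext D V v x = 0 := fun x =>
      congrFun (congrArg Prod.fst hv) x
    have h2 : ∀ e : E, Edge_eq θ (e : Finset ι) (Edge_ext D V v) = 0 := fun e =>
      congrFun (congrArg Prod.snd hv) e
    obtain ⟨S, hS, hS'⟩ := h (Edge_ext D V v) (fun x hx => h1 ⟨x, hx⟩) (by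
      intro x hx y hy hxy
      have hne : x ≠ y := by
        rintro rfl
        have := (Finset.mem_powersetCard.1 (hE hxy)).2
        simp at this
      rw [← Edge_eq_apply θ _ x y hne]
      exact h2 ⟨_, hxy⟩)
    refine ⟨⟨S, hS⟩, ?_⟩
    funext x
    change S.mulVec (θ x) = v x
    rw [← hS' x x.2, Edge_ext_apply D V v x x.2]
  calc Module.finrank ℝ (LinearMap.ker (Edge_map D V E θ))
      ≤ Module.finrank ℝ (LinearMap.range R) := Submodule.finrank_mono hR
    _ ≤ Module.finrank ℝ (Sk D) := LinearMap.finrank_range_le R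

omit [DecidableEq ι] in
theorem Edge_dim (D : ℕ) (V : Finset ι) :
    Module.finrank ℝ (V → Fin (D + 1) → ℝ) = (D + 1) * V.card := by
  rw [Module.finrank_pi_fintype]
  simp [mul_comm]

omit [DecidableEq ι] in
theorem Edge_dim' (V : Finset ι) (E : Finset (Finset ι)) :
    Module.finrank ℝ ((V → ℝ) × (E → ℝ)) = V.card + E.card := by
  rw [Module.finrank_prod]
  simp

/-- The linear map from the unknowns (`V × Fin (D + 1)`) to the equations (`V` and `E`) has a kernel
of dimension at most `finrank (Sk D) ≤ D (D + 1) / 2`: rank-nullity. -/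
theorem edge_count (D : ℕ) (V : Finset ι) (E : Finset (Finset ι)) (hE : E ⊆ V.powersetCard 2)
    (θ : ι → Fin (D + 1) → ℝ) (h : Rig D V (fun x y => ({x, y} : Finset ι) ∈ E) θ) :
    2 * (D * V.card) ≤ 2 * E.card + D * (D + 1) := by
  have h1 := LinearMap.finrank_range_add_finrank_ker (Edge_map D V E θ)
  rw [Edge_dim] at h1
  have h2 := Submodule.finrank_le (LinearMap.range (Edge_map D V E θ))
  rw [Edge_dim'] at h2
  have h3 := Edge_ker D V E hE θ h
  have h4 := skew_finrank D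
  nlinarith

/-- If `|E| = 3 |V| - 6` the linear map of `edge_count` is surjective. Then for `U ⊆ V` its part
from `U × Fin 4` to `U` and the edges inside `U` is surjective, too. -/
theorem plan_count (V : Finset ι) (E : Finset (Finset ι)) (hE : E ⊆ V.powersetCard 2)
    (θ : ι → Fin (3 + 1) → ℝ) (h : Rig 3 V (fun x y => ({x, y} : Finset ι) ∈ E) θ)
    (hc : E.card + 6 = 3 * V.card) {U : Finset ι} (hU : U ⊆ V) :
    (E.filter (fun t => t ⊆ U)).card ≤ 3 * U.card := by
  have h1 := LinearMap.finrank_range_add_finrank_ker (Edge_map 3 V E θ)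
  rw [Edge_dim] at h1
  have h2 := Submodule.finrank_le (LinearMap.range (Edge_map 3 V E θ))
  have h3 := Edge_ker 3 V E hE θ h
  have h4 := skew_finrank 3
  have hfull : Module.finrank ℝ (LinearMap.range (Edge_map 3 V E θ)) =
      Module.finrank ℝ ((V → ℝ) × (E → ℝ)) := by
    refine le_antisymm h2 ?_
    rw [Edge_dim']
    omega
  have htop : LinearMap.range (Edge_map 3 V E θ) = ⊤ := Submodule.eq_top_of_finrank_eq hfull
  have hsurj : Function.Surjective (Edge_map 3 V E θ) := LinearMap.range_eq_top.1 htop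
  set E' := E.filter (fun t => t ⊆ U) with hE'
  have hsU : Function.Surjective (Edge_map 3 U E' θ) := by
    rintro ⟨a, b⟩
    obtain ⟨v, hv⟩ := hsurj (fun x => if hx : (x : ι) ∈ U then a ⟨x, hx⟩ else 0,
      fun e => if he : (e : Finset ι) ∈ E' then b ⟨e, he⟩ else 0)
    have hres : ∀ x ∈ U, Edge_ext 3 U (fun x : U => v ⟨x, hU x.2⟩) x = Edge_ext 3 V v x := by
      intro x hx
      rw [Edge_ext_apply 3 U _ x hx, Edge_ext_apply 3 V _ x (hU hx)]
    refine ⟨fun x => v ⟨x, hU x.2⟩, ?_⟩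
    refine Prod.ext ?_ ?_
    · funext x
      have := congrFun (congrArg Prod.fst hv) ⟨x, hU x.2⟩
      change θ x ⬝ᵥ Edge_ext 3 V v x = if hx : (x : ι) ∈ U then a ⟨x, hx⟩ else 0 at this
      rw [dif_pos x.2] at this
      change θ x ⬝ᵥ Edge_ext 3 U (fun x : U => v ⟨x, hU x.2⟩) x = a x
      rw [hres x x.2, this]
    · funext e
      have he := Finset.mem_filter.1 (show (e : Finset ι) ∈ E.filter (fun t => t ⊆ U) from e.2)
      have := congrFun (congrArg Prod.snd hv) ⟨e, he.1⟩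
      change Edge_eq θ e (Edge_ext 3 V v) = if he : (e : Finset ι) ∈ E' then b ⟨e, he⟩ else 0 at this
      rw [dif_pos e.2] at this
      change Edge_eq θ e (Edge_ext 3 U (fun x : U => v ⟨x, hU x.2⟩)) = b e
      rw [Edge_eq_congr θ _ (Edge_ext 3 V v) e fun x hx => hres x (he.2 hx), this]
  have h5 := LinearMap.finrank_le_finrank_of_surjective hsU
  rw [Edge_dim, Edge_dim'] at h5
  omega

end Pool.TSphM
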