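import Pool.Agent.Lib.MP_3de3a3_co.M.Defs
import Pool.Agent.Lib.MP_3de3a3_co.M.Edge
import Pool.Agent.Lib.MP_3de3a3_co.M.Base
import Pool.Agent.Lib.MP_3de3a3_co.M.Links

/-! # Subgraphs of 2-spheres have few edges (module M/Sparse) -/

set_option autoImplicit false

namespace Pool.TSphM

open Finset
open Pool.TSph (verts IsSphere2 adj comp Ep PhiK)
open Pool.TSphD (fc rdg lk Lo PM side IsLF mv Closings)

variable {ι : Type*} [DecidableEq ι]

/-- Double counting of the pairs of an edge and a triangle. -/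
private theorem sparse_double {L : Finset (Finset ι)} (hL : IsSphere2 L) :
    2 * (fc 2 L).card = 3 * L.card := by
  have h1 : ∑ e ∈ fc 2 L, (L.filter (fun t => e ⊆ t)).card =
      ∑ t ∈ L, ((fc 2 L).filter (fun e => e ⊆ t)).card := by
    simp only [card_filter]
    rw [sum_comm]
  have h2 : ∀ e ∈ fc 2 L, (L.filter (fun t => e ⊆ t)).card = 2 := by
    intro e he
    obtain ⟨hc, t, ht, hs⟩ := Pool.TSphD.mem_fc.1 he
    exact hL.edge t ht e hs hc
  have h3 : ∀ t ∈ L, ((fc 2 L).filter (fun e => e ⊆ t)).card = 3 := by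
    intro t ht
    have h : (fc 2 L).filter (fun e => e ⊆ t) = t.powersetCard 2 := by
      ext e
      rw [mem_filter, mem_powersetCard, Pool.TSphD.mem_fc]
      constructor
      · rintro ⟨⟨hc, _⟩, hs⟩
        exact ⟨hs, hc⟩
      · rintro ⟨hs, hc⟩
        exact ⟨⟨hc, t, ht, hs⟩, hs⟩
    rw [h, card_powersetCard, hL.card3 t ht]
    rfl
  rw [sum_congr rfl h2, sum_congr rfl h3, sum_const, sum_const, smul_eq_mul, smul_eq_mul] at h1
  omega

/-- The number of edges is `3 V - 6`. -/
theorem sphere_edges {L : Finset (Finset ι)} (hL : IsSphere2 L) :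
    (fc 2 L).card + 6 = 3 * (verts L).card := by
  have h1 := sparse_double hL
  have h2 := hL.euler
  omega

theorem sphere_sparse {L : Finset (Finset ι)} (hL : IsSphere2 L) {U : Finset ι}
    (hU : U ⊆ verts L) : fin 2 L U ≤ 3 * U.card := by
  obtain ⟨p, hp, h⟩ := grig_sphere hL
  have h1 : ∃ θ : ι × ℕ → ℝ, MvPolynomial.eval θ p ≠ 0 := by
    by_contra hcon
    push Not at hcon
    exact hp (MvPolynomial.funext (fun θ => by rw [hcon θ, map_zero]))
  obtain ⟨θ, hθ⟩ := h1
  have h2 := h θ hθ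
  have h3 : adj L = fun x y => ({x, y} : Finset ι) ∈ fc 2 L := by
    funext x y
    exact propext (adj_iff L x y)
  rw [h3] at h2
  have hE : fc 2 L ⊆ (verts L).powersetCard 2 := by
    intro e he
    obtain ⟨hc, t, ht, hs⟩ := Pool.TSphD.mem_fc.1 he
    rw [mem_powersetCard]
    exact ⟨fun x hx => Pool.TSph.mem_verts.2 ⟨t, ht, hs hx⟩, hc⟩
  exact plan_count (verts L) (fc 2 L) hE (pt 3 θ) h2 (sphere_edges hL) hU

end Pool.TSphM
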