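import Pool.Agent.Lib.MP_3de3a3_co.M.Defs
import Pool.Agent.Lib.MP_3de3a3_co.DInt
import Pool.Agent.Lib.MP_3de3a3_co.M.Sparse

/-! # The expected number of pointers of the last level (module M/IntB) -/

set_option autoImplicit false

namespace Pool.TSphM

open Finset
open Pool.TSph (verts IsSphere2 adj comp Ep PhiK)
open Pool.TSphD (fc rdg lk Lo PM side IsLF mv Closings)

variable {ι : Type*} [DecidableEq ι]

private theorem IntB_sub (p : ℝ) {W T : Finset ι} (hT : T ⊆ W) :
    Ep p W (fun U => if T ⊆ U then (1 : ℝ) else 0) = p ^ T.card := by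
  have h1 : Ep p W (fun U => if T ⊆ U then (1 : ℝ) else 0) =
      Ep p W (fun U => (fun S => if S = T then (1 : ℝ) else 0) (U ∩ T)) := by
    refine Pool.TSph.Ep_congr fun S _ => ?_
    show _ = if S ∩ T = T then (1 : ℝ) else 0
    simp only [Finset.inter_eq_right]
  rw [h1]
  have h2 := Pool.TSph.sum_marginal W T hT (fun S => if S = T then (1 : ℝ) else 0) p
  have h3 := Pool.TSph.Ep_top p T
  unfold Pool.TSph.Ep at h3 ⊢
  rw [h2, h3]

private theorem IntB_sum (p : ℝ) {W : Finset ι} {κ : Type*} (J : Finset κ)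
    (f : κ → Finset ι → ℝ) :
    Ep p W (fun U => ∑ j ∈ J, f j U) = ∑ j ∈ J, Ep p W (f j) := by
  unfold Pool.TSph.Ep
  rw [Finset.sum_comm]
  refine Finset.sum_congr rfl fun S _ => ?_
  rw [Finset.mul_sum]

private theorem IntB_fam (p : ℝ) {W : Finset ι} (C : Finset (Finset ι)) (j : ℕ)
    (hC : ∀ t ∈ C, t ⊆ W ∧ t.card = j) :
    Ep p W (fun U => ((C.filter (fun t => t ⊆ U)).card : ℝ)) = C.card * p ^ j := by
  have h1 : Ep p W (fun U => ((C.filter (fun t => t ⊆ U)).card : ℝ)) =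
      Ep p W (fun U => ∑ t ∈ C, if t ⊆ U then (1 : ℝ) else 0) := by
    refine Pool.TSph.Ep_congr fun S _ => ?_
    rw [Finset.sum_boole]
  rw [h1, IntB_sum]
  rw [Finset.sum_congr rfl (fun t ht => by rw [IntB_sub p (hC t ht).1, (hC t ht).2])]
  rw [Finset.sum_const, nsmul_eq_mul]

private theorem IntB_card (p : ℝ) (W : Finset ι) :
    Ep p W (fun U => (U.card : ℝ)) = W.card * p := by
  have h1 : Ep p W (fun U => (U.card : ℝ)) =
      Ep p W (fun U => ∑ x ∈ W, if {x} ⊆ U then (1 : ℝ) else 0) := by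
    refine Pool.TSph.Ep_congr fun S hS => ?_
    rw [Finset.sum_boole]
    congr 2
    ext x
    simp only [Finset.mem_filter, Finset.singleton_subset_iff]
    exact ⟨fun h => ⟨hS h, h⟩, fun h => h.2⟩
  rw [h1, IntB_sum]
  rw [Finset.sum_congr rfl (fun t ht => IntB_sub p (Finset.singleton_subset_iff.2 ht))]
  simp

private theorem IntB_neg (p : ℝ) (W : Finset ι) (f : Finset ι → ℝ) :
    Ep p W (fun U => - f U) = - Ep p W f := by
  unfold Pool.TSph.Ep
  rw [← Finset.sum_neg_distrib]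
  exact Finset.sum_congr rfl fun S _ => by ring

private theorem IntB_fc3 {L : Finset (Finset ι)} (hL : IsSphere2 L) : fc 3 L = L := by
  ext t
  rw [Pool.TSphD.mem_fc]
  constructor
  · rintro ⟨h1, s, hs, h2⟩
    rwa [Finset.eq_of_subset_of_card_le h2 (by rw [h1, hL.card3 s hs])]
  · intro h
    exact ⟨hL.card3 t h, t, h, subset_rfl⟩

private theorem IntB_fcW {L : Finset (Finset ι)} {j : ℕ} :
    ∀ t ∈ fc j L, t ⊆ verts L ∧ t.card = j := by
  intro t ht
  rw [Pool.TSphD.mem_fc] at ht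
  obtain ⟨h1, s, hs, h2⟩ := ht
  exact ⟨fun x hx => Pool.TSph.mem_verts.2 ⟨s, hs, h2 hx⟩, h1⟩

/-- For a 2-sphere the expected number of edges in a random subset is `3 (V - 2) p²`, of vertices
`V p`, of triangles `2 (V - 2) p³`, and `ep_le` bounds the number of components:
`3 (V-2) p² - V p + 1 - q³ + (V-3) p q³ - 2 (V-2) p³ = - p³ + (V - 3) q p³` (`q = 1 - p`).
Integrate against `k q^(k-1)` as in `int_w` (with `D = 3`). -/
theorem int_b {k : ℕ} (hk : 1 ≤ k) {L : Finset (Finset ι)} (hL : IsSphere2 L) :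
    PhiK k (verts L) (fun U => (fin 2 L U : ℝ) - U.card + comp (adj L) U - fin 3 L U) ≤
      bet (k + 3) k ((verts L).card : ℝ) := by
  obtain ⟨j, rfl⟩ : ∃ j, k = j + 1 := ⟨k - 1, by omega⟩
  set V : ℝ := ((verts L).card : ℝ) with hV
  have hE : ((fc 2 L).card : ℝ) = 3 * V - 6 := by
    have := sphere_edges hL
    have h2 : ((fc 2 L).card : ℝ) + 6 = 3 * ((verts L).card : ℝ) := by exact_mod_cast this
    rw [← hV] at h2
    linarith
  have hT : ((fc 3 L).card : ℝ) = 2 * V - 4 := by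
    rw [IntB_fc3 hL]
    have h2 : 2 * ((verts L).card : ℝ) = (L.card : ℝ) + 4 := by exact_mod_cast hL.euler
    rw [← hV] at h2
    linarith
  have hval : ∀ p : ℝ, 0 ≤ p → p ≤ 1 →
      Ep p (verts L) (fun U => (fin 2 L U : ℝ) - U.card + comp (adj L) U - fin 3 L U) ≤
        - p ^ 3 + (V - 3) * (p ^ 3 * (1 - p)) := by
    intro p hp0 hp1
    have e1 : Ep p (verts L) (fun U => (fin 2 L U : ℝ) - U.card + comp (adj L) U - fin 3 L U) =
        Ep p (verts L) (fun U => (((fc 2 L).filter (fun t => t ⊆ U)).card : ℝ)) +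
          - Ep p (verts L) (fun U => (U.card : ℝ)) +
          Ep p (verts L) (fun U => (comp (adj L) U : ℝ)) +
          - Ep p (verts L) (fun U => (((fc 3 L).filter (fun t => t ⊆ U)).card : ℝ)) := by
      rw [← IntB_neg, ← IntB_neg, ← Pool.TSph.Ep_add, ← Pool.TSph.Ep_add, ← Pool.TSph.Ep_add]
      refine Pool.TSph.Ep_congr fun S _ => ?_
      simp only [fin]
      ring
    have e2 := Pool.TSph.ep_le hp0 hp1 hL
    unfold Pool.TSph.ep at e2
    rw [e1, IntB_fam p _ 2 IntB_fcW, IntB_fam p _ 3 IntB_fcW, IntB_card, hE, hT]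
    rw [← hV] at e2 ⊢
    nlinarith [e2]
  unfold Pool.TSph.PhiK
  rw [Nat.add_sub_cancel]
  have hmono : ∫ p in (0:ℝ)..1, ((j + 1 : ℕ) : ℝ) * (1 - p) ^ j *
      Ep p (verts L) (fun U => (fin 2 L U : ℝ) - U.card + comp (adj L) U - fin 3 L U) ≤
      ∫ p in (0:ℝ)..1, ((V - 3) * ((j : ℝ) + 1) * (p ^ 3 * (1 - p) ^ (j + 1)) -
        ((j : ℝ) + 1) * (p ^ 3 * (1 - p) ^ j)) := by
    refine intervalIntegral.integral_mono_on (by norm_num) ?_ ?_ ?_
    · exact Continuous.intervalIntegrable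
        (by have := Pool.TSph.Ep_cont (verts L) (fun U => (fin 2 L U : ℝ) - U.card +
              comp (adj L) U - fin 3 L U)
            fun_prop) _ _
    · exact Continuous.intervalIntegrable (by fun_prop) _ _
    · intro p hp
      have h2 : (0 : ℝ) ≤ ((j + 1 : ℕ) : ℝ) * (1 - p) ^ j :=
        mul_nonneg (Nat.cast_nonneg _) (pow_nonneg (by linarith [hp.2]) _)
      refine le_trans (mul_le_mul_of_nonneg_left (hval p hp.1 hp.2) h2) (le_of_eq ?_)
      push_cast
      ring
  refine le_trans hmono (le_of_eq ?_)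
  rw [intervalIntegral.integral_sub, intervalIntegral.integral_const_mul,
    intervalIntegral.integral_const_mul, Pool.TSph.integral_beta, Pool.TSph.integral_beta]
  · unfold bet Ej
    have e0 : (j + 1 + 3 - (j + 1)) = 3 := by omega
    rw [e0]
    have e1 : 3 + (j + 1) + 1 = (j + 4) + 1 := by ring
    have e2 : 3 + j + 1 = j + 4 := by ring
    have e3 : j + 1 + 3 + 1 = (j + 4) + 1 := by ring
    rw [e1, e2, e3, Nat.factorial_succ (j + 4), Nat.factorial_succ j]
    have h1 : ((j + 4).factorial : ℝ) ≠ 0 := by exact_mod_cast (j + 4).factorial_ne_zero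
    have h2 : (j : ℝ) + 1 ≠ 0 := by positivity
    have h3 : (j : ℝ) + 4 + 1 ≠ 0 := by positivity
    push_cast
    field_simp
    ring
  · exact Continuous.intervalIntegrable (by fun_prop) _ _
  · exact Continuous.intervalIntegrable (by fun_prop) _ _

end Pool.TSphM
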