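import Pool.Agent.Lib.MP_3de3a3_co.M.Defs
import Pool.Agent.Lib.MP_3de3a3_co.M.Links

/-! # The smallest number of facets (module M/MinF) -/

set_option autoImplicit false

namespace Pool.TSphM

open Finset
open Pool.TSph (verts IsSphere2 adj comp Ep PhiK)
open Pool.TSphD (fc rdg lk Lo PM side IsLF mv Closings)
open Pool.TSphD (mem_fc mem_lk mem_lk')

variable {ι : Type*} [DecidableEq ι]

private theorem minF_two {d : ℕ} (hd : 3 ≤ d) {L : Finset (Finset ι)} (hL : IsNor d L)
    {a : Finset ι} (ha : a ∈ L) {x : ι} (hx : x ∈ a) :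
    (L.filter (fun s => a.erase x ⊆ s)).card = 2 := by
  have hac := hL.card a ha
  have hec : (a.erase x).card = d - 1 := by rw [card_erase_of_mem hx, hac]
  rcases Nat.eq_or_lt_of_le hd with h3 | h3
  · subst h3
    have h0 : (∅ : Finset ι) ∈ fc (3 - 3) L := mem_fc.2 ⟨rfl, a, ha, empty_subset _⟩
    have h1 := hL.sphere ∅ h0
    have h2 : lk L ∅ = L := by
      ext u
      rw [mem_lk']
      simp
    rw [h2] at h1
    exact h1.edge a ha _ (erase_subset _ _) hec
  · obtain ⟨k, rfl⟩ : ∃ k, d = k + 3 := ⟨d - 3, by omega⟩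
    have hpm := nor_pm hL (by omega)
    refine hpm.two _ ?_
    unfold rdg
    refine mem_fc.2 ⟨?_, a, ha, erase_subset _ _⟩
    rw [hec]
    omega

/-- A facet `a` and, for every `x ∈ a`, the other facet which contains `a.erase x`. -/
theorem card_nor {d : ℕ} (hd : 3 ≤ d) {L : Finset (Finset ι)} (hL : IsNor d L)
    (hne : L.Nonempty) : d + 1 ≤ L.card := by
  obtain ⟨a, ha⟩ := hne
  have hac := hL.card a ha
  have hoth : ∀ x ∈ a, ∃ b ∈ L, b ≠ a ∧ a.erase x ⊆ b := by
    intro x hx
    have h2 := minF_two hd hL ha hx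
    obtain ⟨b, hb, hne⟩ := Finset.exists_mem_ne (show 1 < (L.filter (fun s => a.erase x ⊆ s)).card by
      omega) a
    exact ⟨b, (mem_filter.1 hb).1, hne, (mem_filter.1 hb).2⟩
  choose! f hf hfa hfx using hoth
  have hinj : Set.InjOn f (a : Set ι) := by
    intro x hx y hy hxy
    by_contra hne
    have h1 : a ⊆ f x := by
      intro z hz
      by_cases hzx : z = x
      · rw [hxy]
        refine hfx y hy (mem_erase.2 ⟨?_, hz⟩)
        rintro rfl
        exact hne hzx.symm
      · exact hfx x hx (mem_erase.2 ⟨hzx, hz⟩)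
    have h2 := Finset.eq_of_subset_of_card_le h1 (by rw [hL.card _ (hf x hx), hac])
    exact hfa x hx h2.symm
  have h1 : insert a (a.image f) ⊆ L := by
    intro b hb
    rcases mem_insert.1 hb with rfl | hb
    · exact ha
    · obtain ⟨x, hx, rfl⟩ := mem_image.1 hb
      exact hf x hx
  have h2 : a ∉ a.image f := by
    intro h
    obtain ⟨x, hx, hxa⟩ := mem_image.1 h
    exact hfa x hx hxa
  have h3 := Finset.card_le_card h1
  rw [card_insert_of_notMem h2, Finset.card_image_of_injOn hinj, hac] at h3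
  exact h3

/-- Consequence for faces of `F` with `j ≤ d - 3` vertices. -/
theorem dg_ge {d j : ℕ} {F : Finset (Finset ι)} (hF : IsNor d F) {s : Finset ι}
    (hs : s ∈ fc j F) (hj : j + 3 ≤ d) : d - j + 1 ≤ dg F s := by
  rw [← card_lk]
  refine card_nor (by omega) (nor_link hF hs hj) ?_
  obtain ⟨-, a, ha, hsa⟩ := mem_fc.1 hs
  exact ⟨a \ s, mem_lk.2 ⟨a, ha, hsa, rfl⟩⟩

end Pool.TSphM
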