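import Pool.Agent.Lib.MP_3de3a3_co.M.Defs
import Pool.Agent.Lib.MP_3de3a3_co.M.Spec

/-! # The cone lemma (module M/Cone) -/

set_option autoImplicit false

namespace Pool.TSphM

open Finset
open Pool.TSph (verts IsSphere2 adj comp Ep PhiK)
open Pool.TSphD (fc rdg lk Lo PM side IsLF mv Closings)

variable {ι : Type*} [DecidableEq ι]

private theorem cone_skew {N : ℕ} {S : Matrix (Fin N) (Fin N) ℝ} (hS : S.transpose = -S)
    (a b : Fin N → ℝ) : a ⬝ᵥ S.mulVec b + b ⬝ᵥ S.mulVec a = 0 := by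
  have h1 : a ⬝ᵥ S.mulVec b = (S.transpose.mulVec a) ⬝ᵥ b := by
    rw [Matrix.mulVec_transpose, Matrix.dotProduct_mulVec]
  rw [h1, hS, Matrix.neg_mulVec, neg_dotProduct, dotProduct_comm (S.mulVec a) b]
  ring

private theorem cone_skew_self {N : ℕ} {S : Matrix (Fin N) (Fin N) ℝ} (hS : S.transpose = -S)
    (a : Fin N → ℝ) : a ⬝ᵥ S.mulVec a = 0 := by
  have := cone_skew hS a a
  linarith

private theorem cone_snoc_dot {N : ℕ} (a : Fin N → ℝ) (b : Fin (N + 1) → ℝ) :
    (Fin.snoc a (0 : ℝ) : Fin (N + 1) → ℝ) ⬝ᵥ b = a ⬝ᵥ (fun i => b i.castSucc) := by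
  simp only [dotProduct, Fin.sum_univ_castSucc, Fin.snoc_castSucc, Fin.snoc_last, zero_mul,
    add_zero]

/-- Choose `θ` with `p(θ) ≠ 0` for the polynomial of `h` (`exists_eval_ne`). Put
`θ' c = e_last` (the last unit vector of `ℝ ^ (D + 2)`) and `θ' x = (pt D θ x, 0)` for `x ∈ V`.
Claim `Rig (D + 1) (insert c V) A' θ'` (then `grig_of_rig`). Let `v` be a motion. `e_last ⬝ v c = 0`,
so `S₀ = v_c e_lastᵀ - e_last v_cᵀ` is skew with `S₀ e_last = v_c`. Subtract `S₀ θ'` from `v` (it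
satisfies all equations): so we may assume `v c = 0`. The equations for `c, x` say that the last
coordinate of `v x` is `0`, so the first `D + 1` coordinates satisfy the equations of `Rig D V A`
at `pt D θ`, they are `S̄ (pt D θ x)` with `S̄` skew; take `S = S̄ ⊕ 0`. -/
theorem grig_cone (D : ℕ) (V : Finset ι) (c : ι) (hc : c ∉ V) (A A' : ι → ι → Prop)
    (hA : ∀ x ∈ V, A' c x) (hA2 : ∀ x ∈ V, ∀ y ∈ V, A x y → A' x y) (hV : D ≤ V.card)
    (h : GRig D V A) : GRig (D + 1) (insert c V) A' := by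
  classical
  obtain ⟨p, hp, hrig⟩ := h
  obtain ⟨θ, hθ⟩ := exists_eval_ne hp
  have hR := hrig θ hθ
  set e : Fin (D + 1 + 1) → ℝ := Pi.single (Fin.last (D + 1)) 1 with he
  have hee : ∀ w : Fin (D + 1 + 1) → ℝ, e ⬝ᵥ w = w (Fin.last (D + 1)) := by
    intro w
    rw [he, single_dotProduct, one_mul]
  let θ' : ι → Fin (D + 1 + 1) → ℝ := fun x =>
    if x = c then e else Fin.snoc (pt D θ x) (0 : ℝ)
  have hθc : θ' c = e := if_pos rfl
  have hθx : ∀ x ∈ V, θ' x = Fin.snoc (pt D θ x) (0 : ℝ) := by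
    intro x hx
    refine if_neg ?_
    rintro rfl
    exact hc hx
  refine grig_of_rig (D + 1) (insert c V) A' θ' ?_ ?_
  · rw [Finset.card_insert_of_notMem hc]
    omega
  intro v h1 h2
  let S₀ : Matrix (Fin (D + 1 + 1)) (Fin (D + 1 + 1)) ℝ :=
    Matrix.vecMulVec (v c) e - Matrix.vecMulVec e (v c)
  have hS₀ : S₀.transpose = -S₀ := by
    simp only [S₀, Matrix.transpose_sub, Matrix.transpose_vecMulVec, neg_sub]
  have hevc : e ⬝ᵥ v c = 0 := by
    have := h1 c (Finset.mem_insert_self _ _)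
    rwa [hθc] at this
  have hS₀e : S₀.mulVec e = v c := by
    simp only [S₀, Matrix.sub_mulVec, Matrix.vecMulVec_mulVec]
    rw [dotProduct_comm (v c) e, hevc]
    simp [he]
  let w : ι → Fin (D + 1 + 1) → ℝ := fun x => v x - S₀.mulVec (θ' x)
  have hwc : w c = 0 := by
    simp only [w, hθc, hS₀e, sub_self]
  have hw1 : ∀ x ∈ insert c V, θ' x ⬝ᵥ w x = 0 := by
    intro x hx
    simp only [w, dotProduct_sub, h1 x hx, cone_skew_self hS₀, sub_zero]
  have hw2 : ∀ x ∈ insert c V, ∀ y ∈ insert c V, A' x y → θ' x ⬝ᵥ w y + θ' y ⬝ᵥ w x = 0 := by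
    intro x hx y hy hxy
    have e1 := h2 x hx y hy hxy
    have e2 := cone_skew hS₀ (θ' x) (θ' y)
    simp only [w, dotProduct_sub]
    linarith
  have hwl : ∀ x ∈ V, w x (Fin.last (D + 1)) = 0 := by
    intro x hx
    have e1 := hw2 c (Finset.mem_insert_self _ _) x (Finset.mem_insert_of_mem hx) (hA x hx)
    rw [hwc, dotProduct_zero, add_zero, hθc, hee] at e1
    exact e1
  obtain ⟨T, hT, hTu⟩ := hR (fun x i => w x i.castSucc)
    (by
      intro x hx
      have e1 := hw1 x (Finset.mem_insert_of_mem hx)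
      rwa [hθx x hx, cone_snoc_dot] at e1)
    (by
      intro x hx y hy hxy
      have e1 := hw2 x (Finset.mem_insert_of_mem hx) y (Finset.mem_insert_of_mem hy)
        (hA2 x hx y hy hxy)
      rwa [hθx x hx, hθx y hy, cone_snoc_dot, cone_snoc_dot] at e1)
  let S₁ : Matrix (Fin (D + 1 + 1)) (Fin (D + 1 + 1)) ℝ := fun i =>
    Fin.snoc (α := fun _ => ℝ) (fun j : Fin (D + 1) => Fin.snoc (α := fun _ => ℝ) (fun i' : Fin (D + 1) => T i' j) (0 : ℝ) i) (0 : ℝ)
  have hS₁cc : ∀ i j : Fin (D + 1), S₁ i.castSucc j.castSucc = T i j := by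
    intro i j
    simp only [S₁, Fin.snoc_castSucc]
  have hS₁l : ∀ i, S₁ i (Fin.last (D + 1)) = 0 := by
    intro i
    simp only [S₁, Fin.snoc_last]
  have hS₁r : ∀ j : Fin (D + 1), S₁ (Fin.last (D + 1)) j.castSucc = 0 := by
    intro j
    simp only [S₁, Fin.snoc_castSucc, Fin.snoc_last]
  have hS₁ : S₁.transpose = -S₁ := by
    ext i j
    rw [Matrix.transpose_apply, Matrix.neg_apply]
    have hT' : ∀ i j : Fin (D + 1), T j i = -T i j := by
      intro i j
      have := congrFun (congrFun hT i) j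
      simpa using this
    refine Fin.lastCases ?_ (fun i => ?_) i
    · refine Fin.lastCases ?_ (fun j => ?_) j
      · rw [hS₁l, neg_zero]
      · rw [hS₁l, hS₁r, neg_zero]
    · refine Fin.lastCases ?_ (fun j => ?_) j
      · rw [hS₁l, hS₁r, neg_zero]
      · rw [hS₁cc, hS₁cc, hT']
  refine ⟨S₀ + S₁, by rw [Matrix.transpose_add, hS₀, hS₁, neg_add], ?_⟩
  have hfin : ∀ x ∈ insert c V, w x = S₁.mulVec (θ' x) := by
    intro x hx
    rcases Finset.mem_insert.mp hx with rfl | hx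
    · rw [hwc, hθc]
      ext i
      rw [Matrix.mulVec, dotProduct_comm, hee]
      exact (hS₁l i).symm
    · rw [hθx x hx]
      ext i
      rw [Matrix.mulVec, dotProduct_comm, cone_snoc_dot]
      refine Fin.lastCases ?_ (fun i => ?_) i
      · rw [hwl x hx]
        simp only [hS₁r, dotProduct, mul_zero, Finset.sum_const_zero]
      · have e1 := congrFun (hTu x hx) i
        simp only [hS₁cc]
        rw [e1, Matrix.mulVec, dotProduct_comm]
  intro x hx
  rw [Matrix.add_mulVec, ← hfin x hx]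
  simp only [w]
  abel

end Pool.TSphM
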