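import Pool.Agent.Lib.MP_3de3a3_co.M.Defs
import Pool.Agent.Lib.MP_3de3a3_co.M.Base
import Pool.Agent.Lib.MP_3de3a3_co.M.Cone
import Pool.Agent.Lib.MP_3de3a3_co.M.Links

/-! # Normal pseudomanifolds are rigid (module M/NorRig) -/

set_option autoImplicit false

namespace Pool.TSphM

open Finset
open Pool.TSph (verts IsSphere2 adj comp Ep PhiK)
open Pool.TSphD (fc rdg lk Lo PM side IsLF mv Closings)

variable {ι : Type*} [DecidableEq ι]

private theorem norRig_prod {σ α : Type*} (s : Finset α) (p : α → MvPolynomial σ ℝ) (θ : σ → ℝ)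
    (h : MvPolynomial.eval θ (∏ x ∈ s, p x) ≠ 0) : ∀ x ∈ s, MvPolynomial.eval θ (p x) ≠ 0 := by
  rw [map_prod] at h
  exact Finset.prod_ne_zero_iff.1 h

/-- the star of a vertex is rigid -/
private theorem norRig_star {d : ℕ} (hd : 3 ≤ d) {L : Finset (Finset ι)} (hL : IsNor (d + 1) L)
    (ih : ∀ L' : Finset (Finset ι), IsNor d L' → L'.Nonempty → GRig d (verts L') (adj L'))
    {x : ι} (hx : x ∈ verts L) : GRig (d + 1) (insert x (verts (lk L {x}))) (adj L) := by
  obtain ⟨s, hs, hxs⟩ := Pool.TSph.mem_verts.1 hx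
  have hx1 : ({x} : Finset ι) ∈ fc 1 L :=
    Pool.TSphD.mem_fc.2 ⟨card_singleton x, s, hs, singleton_subset_iff.2 hxs⟩
  have h1 : IsNor d (lk L {x}) := nor_link hL hx1 (by omega)
  have hsl : s \ {x} ∈ lk L {x} :=
    Pool.TSphD.mem_lk.2 ⟨s, hs, singleton_subset_iff.2 hxs, rfl⟩
  refine grig_cone d (verts (lk L {x})) x ?_ (adj (lk L {x})) (adj L) ?_ ?_ ?_
    (ih _ h1 ⟨_, hsl⟩)
  · intro h
    exact (Pool.TSphD.mem_verts_lk.1 h).1 (mem_singleton_self x)
  · intro y hy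
    obtain ⟨h2, a, ha, hxa, hya⟩ := Pool.TSphD.mem_verts_lk.1 hy
    exact ⟨fun h => h2 (mem_singleton.2 h.symm), a, ha, singleton_subset_iff.1 hxa, hya⟩
  · intro y _ z _ h
    obtain ⟨h2, -, -, a, ha, -, hya, hza⟩ := (adj_lk L {x} y z).1 h
    exact ⟨h2, a, ha, hya, hza⟩
  · have h2 := h1.card _ hsl
    rw [← h2]
    refine card_le_card fun y hy => ?_
    exact Pool.TSph.mem_verts.2 ⟨_, hsl, hy⟩

private theorem norRig_step {d : ℕ} (hd : 3 ≤ d) {L : Finset (Finset ι)} (hL : IsNor (d + 1) L)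
    (hne : L.Nonempty)
    (ih : ∀ L' : Finset (Finset ι), IsNor d L' → L'.Nonempty → GRig d (verts L') (adj L')) :
    GRig (d + 1) (verts L) (adj L) := by
  classical
  have hstar := fun (x : ι) (hx : x ∈ verts L) => norRig_star hd hL ih hx
  unfold GRig at hstar
  choose! p hp0 hp using hstar
  have hfac : ∀ a ∈ L, ∃ q : MvPolynomial (ι × ℕ) ℝ, q ≠ 0 ∧ ∀ θ : ι × ℕ → ℝ,
      MvPolynomial.eval θ q ≠ 0 → LinearIndependent ℝ (fun x : a => pt (d + 1) θ (x : ι)) := by
    intro a ha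
    exact exists_ind (d + 1) a (by rw [hL.card a ha]; omega)
  choose! q hq0 hq using hfac
  refine ⟨(∏ x ∈ verts L, p x) * ∏ a ∈ L, q a, ?_, fun θ hθ => ?_⟩
  · refine mul_ne_zero (prod_ne_zero_iff.2 hp0) (prod_ne_zero_iff.2 hq0)
  rw [map_mul] at hθ
  have hθ1 := norRig_prod _ _ _ (left_ne_zero_of_mul hθ)
  have hθ2 := norRig_prod _ _ _ (right_ne_zero_of_mul hθ)
  intro v hv1 hv2
  -- the local skew matrices
  have hS : ∀ x ∈ verts L, ∃ S : Matrix (Fin (d + 1 + 1)) (Fin (d + 1 + 1)) ℝ,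
      S.transpose = -S ∧ ∀ y, (∃ a ∈ L, x ∈ a ∧ y ∈ a) → v y = S.mulVec (pt (d + 1) θ y) := by
    intro x hx
    have hsub : insert x (verts (lk L {x})) ⊆ verts L := by
      intro y hy
      rcases mem_insert.1 hy with rfl | hy
      · exact hx
      · obtain ⟨-, a, ha, -, hya⟩ := Pool.TSphD.mem_verts_lk.1 hy
        exact Pool.TSph.mem_verts.2 ⟨a, ha, hya⟩
    obtain ⟨S, h1, h2⟩ := hp x hx θ (hθ1 x hx) v (fun y hy => hv1 y (hsub hy))
      (fun y hy z hz => hv2 y (hsub hy) z (hsub hz))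
    refine ⟨S, h1, fun y hy => h2 y ?_⟩
    obtain ⟨a, ha, hxa, hya⟩ := hy
    rw [mem_insert]
    by_cases hyx : y = x
    · exact Or.inl hyx
    · exact Or.inr (Pool.TSphD.mem_verts_lk.2
        ⟨fun h => hyx (mem_singleton.1 h), a, ha, singleton_subset_iff.2 hxa, hya⟩)
  choose! S hS1 hS2 using hS
  have hvm : ∀ {a : Finset ι}, a ∈ L → ∀ {x : ι}, x ∈ a → x ∈ verts L := fun ha _ hx =>
    Pool.TSph.mem_verts.2 ⟨_, ha, hx⟩
  -- equal on a facet
  have heq : ∀ a ∈ L, ∀ x ∈ a, ∀ y ∈ a, S x = S y := by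
    intro a ha x hx y hy
    refine skew_eq (hS1 x (hvm ha hx)) (hS1 y (hvm ha hy)) (α := a) ?_
      (fun z : a => pt (d + 1) θ (z : ι)) (hq a ha θ (hθ2 a ha)) ?_
    · rw [Fintype.card_coe, hL.card a ha]
    · intro z
      rw [← hS2 x (hvm ha hx) z ⟨a, ha, hx, z.2⟩, ← hS2 y (hvm ha hy) z ⟨a, ha, hy, z.2⟩]
  -- equal along chains
  have hchain : ∀ a ∈ L, ∀ b, Relation.ReflTransGen
      (fun a b : Finset ι => b ∈ L ∧ (a ∩ b).card + 1 = d + 1 ∧ ∅ ⊆ a ∩ b) a b →
        ∀ x ∈ a, ∀ y ∈ b, b ∈ L ∧ S x = S y := by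
    intro a ha b hab
    induction hab with
    | refl => intro x hx y hy; exact ⟨ha, heq a ha x hx y hy⟩
    | tail h1 h2 ih2 =>
      rename_i b c
      intro x hx y hy
      obtain ⟨hc, hcard, -⟩ := h2
      have hne2 : (b ∩ c).Nonempty := by
        rw [← card_pos]
        omega
      obtain ⟨z, hz⟩ := hne2
      rw [mem_inter] at hz
      exact ⟨hc, (ih2 x hx z hz.1).2.trans (heq c hc z hz.2 y hy)⟩
  obtain ⟨a₀, ha₀⟩ := hne
  have ha₀ne : a₀.Nonempty := by
    rw [← card_pos, hL.card a₀ ha₀]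
    omega
  obtain ⟨x₀, hx₀⟩ := ha₀ne
  refine ⟨S x₀, hS1 x₀ (hvm ha₀ hx₀), fun y hy => ?_⟩
  obtain ⟨b, hb, hyb⟩ := Pool.TSph.mem_verts.1 hy
  have h1 := hL.star ∅ (by simp; omega) a₀ ha₀ b hb (empty_subset _) (empty_subset _)
  rw [(hchain a₀ ha₀ b h1 x₀ hx₀ y hyb).2]
  exact hS2 y hy y ⟨b, hb, hyb, hyb⟩

/-- Induction on `d`; `d = 3` is `grig_sphere` (`lk L ∅ = L`). For `d + 1`: for every vertex `x` the
link of `x` is `IsNor d` (`nor_link`), so by induction and the cone lemma the graph on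
`insert x (verts (lk L {x}))` with `adj L` is generically rigid in dimension `d + 1`, polynomial
`p_x`; let `q_a` be the polynomial of `exists_ind` for the facet `a ∈ L` (it has `d + 1` vertices).
Take the product of all of them. At such a point let `v` be a motion on `verts L`. For every vertex `x`
there is a skew `S_x` with `v = S_x θ` on the star of `x`. If `x, y` lie in a common facet `a` then
`S_x = S_y` by `skew_eq` (with the vertices of `a`). By strong connectivity of the facets all `S_x`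
are equal. -/
theorem grig_nor {d : ℕ} (hd : 3 ≤ d) {L : Finset (Finset ι)} (hL : IsNor d L)
    (hne : L.Nonempty) : GRig d (verts L) (adj L) := by
  induction d, hd using Nat.le_induction generalizing L with
  | base =>
    refine grig_sphere ?_
    obtain ⟨a, ha⟩ := hne
    have h1 : (∅ : Finset ι) ∈ fc (3 - 3) L :=
      Pool.TSphD.mem_fc.2 ⟨card_empty, a, ha, empty_subset _⟩
    have h2 := hL.sphere ∅ h1
    have h3 : lk L ∅ = L := by
      ext t
      rw [Pool.TSphD.mem_lk']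
      simp
    rwa [h3] at h2
  | succ d hd ih => exact norRig_step hd hL hne fun L' h1 h2 => ih h1 h2

end Pool.TSphM
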