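import Pool.Agent.Lib.MP_3de3a3_co.M.Defs

/-! # Symmetric forms (module M/Form) -/

set_option autoImplicit false

namespace Pool.TSphM

open Finset
open Pool.TSph (verts IsSphere2 adj comp Ep PhiK)
open Pool.TSphD (fc rdg lk Lo PM side IsLF mv Closings)

variable {ι : Type*} [DecidableEq ι]

/-- the bilinear form -/
noncomputable def form_B (V : Finset ι) (S : ι → ι → ℝ) : (ι → ℝ) →ₗ[ℝ] (ι → ℝ) →ₗ[ℝ] ℝ :=
  LinearMap.mk₂ ℝ (fun l m => ∑ x ∈ V, ∑ y ∈ V, l x * m y * S x y)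
    (by
      intro l l' m
      rw [← sum_add_distrib]
      refine sum_congr rfl fun x _ => ?_
      rw [← sum_add_distrib]
      refine sum_congr rfl fun y _ => ?_
      rw [Pi.add_apply]; ring)
    (by
      intro c l m
      rw [smul_eq_mul, mul_sum]
      refine sum_congr rfl fun x _ => ?_
      rw [mul_sum]
      refine sum_congr rfl fun y _ => ?_
      rw [Pi.smul_apply, smul_eq_mul]; ring)
    (by
      intro l m m'
      rw [← sum_add_distrib]
      refine sum_congr rfl fun x _ => ?_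
      rw [← sum_add_distrib]
      refine sum_congr rfl fun y _ => ?_
      rw [Pi.add_apply]; ring)
    (by
      intro c l m
      rw [smul_eq_mul, mul_sum]
      refine sum_congr rfl fun x _ => ?_
      rw [mul_sum]
      refine sum_congr rfl fun y _ => ?_
      rw [Pi.smul_apply, smul_eq_mul]; ring)

theorem form_B_apply (V : Finset ι) (S : ι → ι → ℝ) (l m : ι → ℝ) :
    form_B V S l m = ∑ x ∈ V, ∑ y ∈ V, l x * m y * S x y := rfl

theorem form_B_single {V : Finset ι} (S : ι → ι → ℝ) {x y : ι} (hx : x ∈ V) (hy : y ∈ V) :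
    form_B V S (Pi.single x 1) (Pi.single y 1) = S x y := by
  rw [form_B_apply, sum_eq_single x, sum_eq_single y]
  · simp
  · intro b _ hb
    rw [Pi.single_eq_of_ne hb]; ring
  · intro h; exact absurd hy h
  · intro b _ hb
    refine sum_eq_zero fun c _ => ?_
    rw [Pi.single_eq_of_ne hb]; ring
  · intro h; exact absurd hx h

theorem form_B_comm {V : Finset ι} {S : ι → ι → ℝ} (hS : ∀ x ∈ V, ∀ y ∈ V, S x y = S y x)
    (l m : ι → ℝ) : form_B V S l m = form_B V S m l := by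
  rw [form_B_apply, form_B_apply, sum_comm]
  refine sum_congr rfl fun x hx => sum_congr rfl fun y hy => ?_
  rw [hS y hy x hx]; ring

/-- Let `P` be the projection of `ℝ ^ V` to `K = {l | ∑ l x • θ x = 0}` given by a linear right inverse
`τ` of `Θ l = ∑ x ∈ V, l x • θ x` (it is surjective by `hsp`): `P = 1 - τ Θ`. For the bilinear form `S` put
`⟨z, v(m)⟩ = S (τ z, P m) + (1/2) S (τ z, τ Θ m)`; then `S (l, m) = ⟨Θ m, v(l)⟩ + ⟨Θ l, v(m)⟩`
because `S` vanishes on `K × K`. With `v_x = v(e_x)`: `S x y = θ y ⬝ v_x + θ x ⬝ v_y`. So `v` is a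
motion (`S x x = 0`), `v_x = T θ_x` with `T` skew, and `S x y = 0`. -/
theorem form_zero (D : ℕ) (V : Finset ι) (A : ι → ι → Prop) (θ : ι → Fin (D + 1) → ℝ)
    (h : Rig D V A θ) (hsp : Submodule.span ℝ (θ '' (V : Set ι)) = ⊤) (S : ι → ι → ℝ)
    (hS : ∀ x ∈ V, ∀ y ∈ V, S x y = S y x) (h0 : ∀ x ∈ V, S x x = 0)
    (hA : ∀ x ∈ V, ∀ y ∈ V, A x y → S x y = 0)
    (hK : ∀ l m : ι → ℝ, ∑ x ∈ V, l x • θ x = 0 → ∑ x ∈ V, m x • θ x = 0 →
      ∑ x ∈ V, ∑ y ∈ V, l x * m y * S x y = 0) :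
    ∀ x ∈ V, ∀ y ∈ V, S x y = 0 := by
  have hT : ∀ i : Fin (D + 1), ∃ t : ι → ℝ, ∑ x ∈ V, t x • θ x = Pi.single i 1 := by
    intro i
    have : (Pi.single i 1 : Fin (D + 1) → ℝ) ∈ Submodule.span ℝ (θ '' (V : Set ι)) := by
      rw [hsp]; exact Submodule.mem_top
    exact (Submodule.mem_span_image_finset_iff_exists_fun' ℝ).1 this
  choose t ht using hT
  set τ : (Fin (D + 1) → ℝ) → (ι → ℝ) := fun z => ∑ i, z i • t i with hτ
  have hΘ : ∀ z, ∑ x ∈ V, (τ z) x • θ x = z := by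
    intro z
    have e1 : ∀ x, (τ z) x • θ x = ∑ i, z i • (t i x • θ x) := by
      intro x
      rw [hτ]
      simp only [Finset.sum_apply, Pi.smul_apply, smul_eq_mul]
      rw [Finset.sum_smul]
      refine sum_congr rfl fun i _ => ?_
      rw [mul_smul]
    simp_rw [e1]
    rw [sum_comm]
    simp_rw [← Finset.smul_sum, ht]
    funext j
    simp [Finset.sum_apply, Pi.single_apply]
  have hsing : ∀ x ∈ V, ∑ y ∈ V, (Pi.single x (1 : ℝ) : ι → ℝ) y • θ y = θ x := by
    intro x hx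
    rw [sum_eq_single x]
    · rw [Pi.single_eq_same, one_smul]
    · intro b _ hb
      rw [Pi.single_eq_of_ne hb, zero_smul]
    · intro h; exact absurd hx h
  have hker : ∀ x ∈ V, ∑ y ∈ V, (Pi.single x (1 : ℝ) - τ (θ x) : ι → ℝ) y • θ y = 0 := by
    intro x hx
    simp only [Pi.sub_apply, sub_smul, sum_sub_distrib]
    rw [hsing x hx, hΘ, sub_self]
  set v : ι → Fin (D + 1) → ℝ := fun y i =>
    form_B V S (t i) (Pi.single y 1) - 1 / 2 * form_B V S (t i) (τ (θ y)) with hv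
  have hdot : ∀ x y, θ x ⬝ᵥ v y =
      form_B V S (τ (θ x)) (Pi.single y 1) - 1 / 2 * form_B V S (τ (θ x)) (τ (θ y)) := by
    intro x y
    have e1 : ∀ m, form_B V S (τ (θ x)) m = ∑ i, θ x i * form_B V S (t i) m := by
      intro m
      rw [hτ]
      simp only [map_sum, map_smul, LinearMap.sum_apply, LinearMap.smul_apply, smul_eq_mul]
    rw [e1, e1, dotProduct, hv, mul_sum, ← sum_sub_distrib]
    refine sum_congr rfl fun i _ => ?_
    ring
  have hform : ∀ x ∈ V, ∀ y ∈ V, S x y = θ x ⬝ᵥ v y + θ y ⬝ᵥ v x := by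
    intro x hx y hy
    have e1 := hK _ _ (hker x hx) (hker y hy)
    rw [← form_B_apply] at e1
    simp only [map_sub, LinearMap.sub_apply] at e1
    rw [form_B_single S hx hy, form_B_comm hS (Pi.single x 1) (τ (θ y))] at e1
    rw [hdot, hdot, form_B_comm hS (τ (θ y)) (τ (θ x))]
    linarith
  obtain ⟨Sk, hSk, hvS⟩ := h v (by
      intro x hx
      have e1 := hform x hx x hx
      rw [h0 x hx] at e1
      linarith) (by
      intro x hx y hy hxy
      rw [← hform x hx y hy]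
      exact hA x hx y hy hxy)
  intro x hx y hy
  rw [hform x hx y hy, hvS x hx, hvS y hy]
  have e1 : θ y ⬝ᵥ Sk.mulVec (θ x) = -(θ x ⬝ᵥ Sk.mulVec (θ y)) := by
    rw [Matrix.dotProduct_mulVec, ← Matrix.mulVec_transpose, hSk, Matrix.neg_mulVec,
      neg_dotProduct, dotProduct_comm]
  rw [e1, add_neg_cancel]

end Pool.TSphM
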