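import Pool.Agent.Lib.MP_3de3a3_co.M.Defs

/-! # The induction for the linear strand (module M/Strand) -/

set_option autoImplicit false

namespace Pool.TSphM

open Finset

/-- Strong induction on the number of `i` with `l i ∉ K`. If it is `0` use `h0` and `h2`. Otherwise
choose `i` with `l i ∉ K`; by `h2` we have to show `y l a b + y l b a = 0` for `a, b ∈ K`. By `h1`
`y l a b = - y (update l i a) (l i) b`, and by induction (for `update l i a`) this is
`y (update l i a) b (l i)`; in the same way `y l b a = y (update l i b) a (l i)`; and by `h1` (for
`update l i a`, with the same `i`) `y (update l i a) b (l i) = - y (update l i b) a (l i)`. -/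
theorem strand {E : Type*} {b : ℕ} (K : Set E) (y : (Fin b → E) → E → E → ℝ)
    (h1 : ∀ (l : Fin b → E) (i : Fin b) (u v : E),
      y l u v = - y (Function.update l i u) (l i) v)
    (h0 : ∀ l : Fin b → E, (∀ i, l i ∈ K) → ∀ u ∈ K, ∀ v ∈ K, y l u v + y l v u = 0)
    (h2 : ∀ l : Fin b → E, (∀ u ∈ K, ∀ v ∈ K, y l u v + y l v u = 0) →
      ∀ u v : E, y l u v + y l v u = 0) :
    ∀ (l : Fin b → E) (u v : E), y l u v + y l v u = 0 := by
  classical
  have key : ∀ (N : ℕ) (l : Fin b → E), (univ.filter (fun i => l i ∉ K)).card = N →
      ∀ u v : E, y l u v + y l v u = 0 := by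
    intro N
    induction N with
    | zero =>
      intro l hl
      have hall : ∀ i, l i ∈ K := by
        intro i
        by_contra hi
        have : i ∈ univ.filter (fun i => l i ∉ K) := mem_filter.2 ⟨mem_univ _, hi⟩
        rw [card_eq_zero] at hl
        rw [hl] at this
        exact notMem_empty _ this
      exact h2 l (h0 l hall)
    | succ N ih =>
      intro l hl
      have hne : (univ.filter (fun i => l i ∉ K)).Nonempty := by
        rw [← card_pos, hl]; exact Nat.succ_pos _
      obtain ⟨i, hi⟩ := hne
      have hi' := (mem_filter.1 hi).2
      have hcard : ∀ a ∈ K,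
          (univ.filter (fun j => Function.update l i a j ∉ K)).card = N := by
        intro a ha
        have heq : univ.filter (fun j => Function.update l i a j ∉ K) =
            (univ.filter (fun j => l j ∉ K)).erase i := by
          ext j
          simp only [mem_filter, mem_univ, true_and, mem_erase, ne_eq]
          by_cases hj : j = i
          · subst hj
            simp [ha]
          · rw [Function.update_of_ne hj]
            simp [hj]
        rw [heq, card_erase_of_mem hi, hl, Nat.add_sub_cancel]
      refine h2 l ?_
      intro u hu v hv
      have e1 := h1 l i u v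
      have e2 := h1 l i v u
      have e3 := ih _ (hcard u hu) (l i) v
      have e4 := ih _ (hcard v hv) (l i) u
      have e5 := h1 (Function.update l i u) i v (l i)
      rw [Function.update_self, Function.update_idem] at e5
      linarith
  intro l u v
  exact key _ l rfl u v

end Pool.TSphM
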