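import Pool.Agent.Lib.MP_3de3a3_co.M.Defs
import Pool.Agent.Lib.MP_3de3a3_co.M.Form
import Pool.Agent.Lib.MP_3de3a3_co.M.Strand

/-! # Locally constant functions and the strand (module M/StrConst) -/

set_option autoImplicit false

namespace Pool.TSphM

open Finset
open Pool.TSph (verts IsSphere2 adj comp Ep PhiK)
open Pool.TSphD (fc rdg lk Lo PM side IsLF mv Closings)

variable {ι : Type*} [DecidableEq ι]

/-- The determinant of the rows `l 0, …, l b, f * m` restricted to the columns `o 0, …, o (b+1)`. -/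
noncomputable def dW {b : ℕ} (o : Fin (b + 2) → ι) (l : Fin (b + 1) → ι → ℝ) (m : ι → ℝ) : ℝ :=
  Matrix.det (Matrix.of fun (i j : Fin (b + 2)) =>
    (Fin.snoc (α := fun _ => ι → ℝ) l m : Fin (b + 2) → ι → ℝ) i (o j))

/-- The form of the family `f`. -/
noncomputable def yf {b : ℕ} (V : Finset ι) (o : Finset ι → Fin (b + 2) → ι)
    (f : Finset ι → ι → ℝ) (l : Fin (b + 1) → ι → ℝ) (m : ι → ℝ) : ℝ :=
  ∑ W ∈ V.powersetCard (b + 2), dW (o W) l (fun x => f W x * m x)

/-- The determinant of the values at the columns `o`, as a multilinear map. -/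
private noncomputable def strc_D {b : ℕ} (o : Fin (b + 2) → ι) :
    MultilinearMap ℝ (fun _ : Fin (b + 2) => ι → ℝ) ℝ :=
  (Matrix.detRowAlternating (n := Fin (b + 2)) (R := ℝ)).toMultilinearMap.compLinearMap
    (fun _ => LinearMap.funLeft ℝ ℝ o)

private theorem strc_dW {b : ℕ} (o : Fin (b + 2) → ι) (l : Fin (b + 1) → ι → ℝ) (m : ι → ℝ) :
    dW o l m = strc_D o (Fin.snoc (α := fun _ => ι → ℝ) l m) := rfl

private theorem strc_zero {b : ℕ} (o : Fin (b + 2) → ι) (w : Fin (b + 2) → ι → ℝ)
    (i : Fin (b + 2)) (h : ∀ j, w i (o j) = 0) : strc_D o w = 0 := by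
  change Matrix.det (Matrix.of fun i j => w i (o j)) = 0
  exact Matrix.det_eq_zero_of_row_eq_zero i h

private theorem strc_congr {b : ℕ} (o : Fin (b + 2) → ι) (w w' : Fin (b + 2) → ι → ℝ)
    (h : ∀ i j, w i (o j) = w' i (o j)) : strc_D o w = strc_D o w' := by
  change Matrix.det (Matrix.of fun i j => w i (o j)) = Matrix.det (Matrix.of fun i j => w' i (o j))
  congr 1
  ext i j
  exact h i j

private theorem strc_swap {b : ℕ} (o : Fin (b + 2) → ι) (w : Fin (b + 2) → ι → ℝ)
    {i j : Fin (b + 2)} (hij : i ≠ j) : strc_D o (w ∘ Equiv.swap i j) = - strc_D o w :=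
  (Matrix.detRowAlternating (n := Fin (b + 2)) (R := ℝ)).map_swap
    (fun i => LinearMap.funLeft ℝ ℝ o (w i)) hij

private theorem strc_perm {b : ℕ} (o : Fin (b + 2) → ι) (w : Fin (b + 2) → ι → ℝ)
    (σ : Equiv.Perm (Fin (b + 2))) :
    strc_D o (w ∘ σ) = Equiv.Perm.sign σ • strc_D o w :=
  (Matrix.detRowAlternating (n := Fin (b + 2)) (R := ℝ)).map_perm
    (fun i => LinearMap.funLeft ℝ ℝ o (w i)) σ

/-- the last two rows are exchanged -/
private theorem strc_snoc_swap {b : ℕ} (l : Fin b → ι → ℝ) (u v : ι → ℝ) :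
    (Fin.snoc (α := fun _ => ι → ℝ) (Fin.snoc (α := fun _ => ι → ℝ) l v : Fin (b + 1) → ι → ℝ) u :
        Fin (b + 2) → ι → ℝ) =
      (Fin.snoc (α := fun _ => ι → ℝ) (Fin.snoc (α := fun _ => ι → ℝ) l u : Fin (b + 1) → ι → ℝ) v :
        Fin (b + 2) → ι → ℝ) ∘ Equiv.swap (Fin.castSucc (Fin.last b)) (Fin.last (b + 1)) := by
  funext i
  refine Fin.lastCases ?_ (fun j => ?_) i
  · rw [Function.comp_apply, Equiv.swap_apply_right, Fin.snoc_last, Fin.snoc_castSucc,
      Fin.snoc_last]
  · refine Fin.lastCases ?_ (fun j' => ?_) j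
    · rw [Function.comp_apply, Equiv.swap_apply_left, Fin.snoc_last, Fin.snoc_castSucc,
        Fin.snoc_last]
    · have h1 : Equiv.swap (Fin.castSucc (Fin.last b)) (Fin.last (b + 1))
          (Fin.castSucc (Fin.castSucc j')) = Fin.castSucc (Fin.castSucc j') := by
        refine Equiv.swap_apply_of_ne_of_ne ?_ (Fin.castSucc_lt_last _).ne
        intro h2
        exact (Fin.castSucc_lt_last j').ne (Fin.castSucc_injective _ h2)
      rw [Function.comp_apply, h1, Fin.snoc_castSucc, Fin.snoc_castSucc, Fin.snoc_castSucc,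
        Fin.snoc_castSucc]

private theorem strc_last {b : ℕ} (l : Fin (b + 1) → ι → ℝ) (m m' : ι → ℝ) :
    (Fin.snoc (α := fun _ => ι → ℝ) l m : Fin (b + 2) → ι → ℝ) =
      Function.update (Fin.snoc (α := fun _ => ι → ℝ) l m' : Fin (b + 2) → ι → ℝ)
        (Fin.last (b + 1)) m := by
  rw [Fin.update_snoc_last]

private theorem strc_last' {b : ℕ} (l : Fin b → ι → ℝ) (u u' m : ι → ℝ) :
    (Fin.snoc (α := fun _ => ι → ℝ) (Fin.snoc (α := fun _ => ι → ℝ) l u : Fin (b + 1) → ι → ℝ) m :
        Fin (b + 2) → ι → ℝ) =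
      Function.update (Fin.snoc (α := fun _ => ι → ℝ)
        (Fin.snoc (α := fun _ => ι → ℝ) l u' : Fin (b + 1) → ι → ℝ) m : Fin (b + 2) → ι → ℝ)
        (Fin.castSucc (Fin.last b)) u := by
  rw [← Fin.snoc_update, Fin.update_snoc_last]

private theorem strc_add_right {b : ℕ} (o : Fin (b + 2) → ι) (l : Fin (b + 1) → ι → ℝ)
    (m m' : ι → ℝ) : strc_D o (Fin.snoc (α := fun _ => ι → ℝ) l (m + m')) =
      strc_D o (Fin.snoc (α := fun _ => ι → ℝ) l m) +
        strc_D o (Fin.snoc (α := fun _ => ι → ℝ) l m') := by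
  rw [strc_last l (m + m') 0, strc_last l m 0, strc_last l m' 0, MultilinearMap.map_update_add]

private theorem strc_smul_right {b : ℕ} (o : Fin (b + 2) → ι) (l : Fin (b + 1) → ι → ℝ)
    (c : ℝ) (m : ι → ℝ) : strc_D o (Fin.snoc (α := fun _ => ι → ℝ) l (c • m)) =
      c * strc_D o (Fin.snoc (α := fun _ => ι → ℝ) l m) := by
  rw [strc_last l (c • m) 0, strc_last l m 0, MultilinearMap.map_update_smul, smul_eq_mul]

private theorem strc_add_left {b : ℕ} (o : Fin (b + 2) → ι) (l : Fin b → ι → ℝ)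
    (u u' m : ι → ℝ) : strc_D o (Fin.snoc (α := fun _ => ι → ℝ)
        (Fin.snoc (α := fun _ => ι → ℝ) l (u + u') : Fin (b + 1) → ι → ℝ) m) =
      strc_D o (Fin.snoc (α := fun _ => ι → ℝ)
        (Fin.snoc (α := fun _ => ι → ℝ) l u : Fin (b + 1) → ι → ℝ) m) +
        strc_D o (Fin.snoc (α := fun _ => ι → ℝ)
          (Fin.snoc (α := fun _ => ι → ℝ) l u' : Fin (b + 1) → ι → ℝ) m) := by
  rw [strc_last' l (u + u') 0 m, strc_last' l u 0 m, strc_last' l u' 0 m,
    MultilinearMap.map_update_add]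

private theorem strc_smul_left {b : ℕ} (o : Fin (b + 2) → ι) (l : Fin b → ι → ℝ)
    (c : ℝ) (u m : ι → ℝ) : strc_D o (Fin.snoc (α := fun _ => ι → ℝ)
        (Fin.snoc (α := fun _ => ι → ℝ) l (c • u) : Fin (b + 1) → ι → ℝ) m) =
      c * strc_D o (Fin.snoc (α := fun _ => ι → ℝ)
        (Fin.snoc (α := fun _ => ι → ℝ) l u : Fin (b + 1) → ι → ℝ) m) := by
  rw [strc_last' l (c • u) 0 m, strc_last' l u 0 m, MultilinearMap.map_update_smul, smul_eq_mul]

/-- The form as a bilinear map in the last two arguments. -/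
private noncomputable def strc_B {b : ℕ} (V : Finset ι) (o : Finset ι → Fin (b + 2) → ι)
    (f : Finset ι → ι → ℝ) (l : Fin b → ι → ℝ) : (ι → ℝ) →ₗ[ℝ] (ι → ℝ) →ₗ[ℝ] ℝ :=
  LinearMap.mk₂ ℝ (fun u v => yf V o f (Fin.snoc (α := fun _ => ι → ℝ) l u) v)
    (fun u u' v => by
      simp only [yf, strc_dW, strc_add_left, Finset.sum_add_distrib])
    (fun c u v => by
      simp only [yf, strc_dW, strc_smul_left, Finset.mul_sum, smul_eq_mul])
    (fun u v v' => by
      have h : ∀ W : Finset ι, (fun x => f W x * (v + v') x) =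
          (fun x => f W x * v x) + (fun x => f W x * v' x) := by
        intro W; funext x; simp only [Pi.add_apply, mul_add]
      simp only [yf, strc_dW, h, strc_add_right, Finset.sum_add_distrib])
    (fun c u v => by
      have h : ∀ W : Finset ι, (fun x => f W x * (c • v) x) = c • (fun x => f W x * v x) := by
        intro W; funext x; simp only [Pi.smul_apply, smul_eq_mul]; ring
      simp only [yf, strc_dW, h, strc_smul_right, Finset.mul_sum, smul_eq_mul])

private theorem strc_expand {b : ℕ} (V : Finset ι) (o : Finset ι → Fin (b + 2) → ι)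
    (ho : ∀ W ∈ V.powersetCard (b + 2), Function.Injective (o W) ∧ univ.image (o W) = W)
    (f : Finset ι → ι → ℝ) (l : Fin b → ι → ℝ) (u v : ι → ℝ) :
    yf V o f (Fin.snoc (α := fun _ => ι → ℝ) l u) v =
      ∑ x ∈ V, ∑ y ∈ V, u x * v y *
        yf V o f (Fin.snoc (α := fun _ => ι → ℝ) l (Pi.single x 1)) (Pi.single y 1) := by
  have hval : ∀ (w : ι → ℝ), ∀ z ∈ V, w z = (∑ x ∈ V, w x • (Pi.single x 1 : ι → ℝ)) z := by
    intro w z hz
    rw [Finset.sum_apply, Finset.sum_eq_single z]
    · rw [Pi.smul_apply, Pi.single_eq_same, smul_eq_mul, mul_one]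
    · intro x _ hxz
      rw [Pi.smul_apply, Pi.single_eq_of_ne (Ne.symm hxz), smul_zero]
    · intro h; exact absurd hz h
  have hoV : ∀ W ∈ V.powersetCard (b + 2), ∀ j, o W j ∈ V := by
    intro W hW j
    have h2 : o W j ∈ univ.image (o W) := Finset.mem_image_of_mem _ (Finset.mem_univ j)
    rw [(ho W hW).2] at h2
    exact (Finset.mem_powersetCard.1 hW).1 h2
  have h1 : yf V o f (Fin.snoc (α := fun _ => ι → ℝ) l u) v =
      yf V o f (Fin.snoc (α := fun _ => ι → ℝ) l (∑ x ∈ V, u x • (Pi.single x 1 : ι → ℝ)))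
        (∑ y ∈ V, v y • (Pi.single y 1 : ι → ℝ)) := by
    refine Finset.sum_congr rfl fun W hW => ?_
    rw [strc_dW, strc_dW]
    refine strc_congr _ _ _ fun i j => ?_
    refine Fin.lastCases ?_ (fun i' => ?_) i
    · rw [Fin.snoc_last, Fin.snoc_last]
      change f W (o W j) * v (o W j) = f W (o W j) * _
      rw [← hval v _ (hoV W hW j)]
    · refine Fin.lastCases ?_ (fun i'' => ?_) i'
      · rw [Fin.snoc_castSucc, Fin.snoc_castSucc, Fin.snoc_last, Fin.snoc_last]
        exact hval u _ (hoV W hW j)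
      · rw [Fin.snoc_castSucc, Fin.snoc_castSucc, Fin.snoc_castSucc, Fin.snoc_castSucc]
  rw [h1]
  change strc_B V o f l (∑ x ∈ V, u x • (Pi.single x 1 : ι → ℝ))
    (∑ y ∈ V, v y • (Pi.single y 1 : ι → ℝ)) = _
  rw [map_sum (strc_B V o f l), LinearMap.sum_apply]
  refine Finset.sum_congr rfl fun x _ => ?_
  rw [map_sum]
  refine Finset.sum_congr rfl fun y _ => ?_
  rw [map_smul, map_smul, LinearMap.smul_apply, smul_eq_mul, smul_eq_mul, ← mul_assoc,
    mul_comm (v y)]
  rfl

private theorem strc_unit {b : ℕ} (V : Finset ι) (o : Finset ι → Fin (b + 2) → ι)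
    (f : Finset ι → ι → ℝ) (l : Fin b → ι → ℝ) (x y : ι) :
    yf V o f (Fin.snoc (α := fun _ => ι → ℝ) l (Pi.single x 1)) (Pi.single y 1) +
      yf V o f (Fin.snoc (α := fun _ => ι → ℝ) l (Pi.single y 1)) (Pi.single x 1) =
      ∑ W ∈ V.powersetCard (b + 2), (f W y - f W x) *
        strc_D (o W) (Fin.snoc (α := fun _ => ι → ℝ)
          (Fin.snoc (α := fun _ => ι → ℝ) l (Pi.single x 1) : Fin (b + 1) → ι → ℝ)
            (Pi.single y 1)) := by
  have h : ∀ (W : Finset ι) (z : ι), (fun t => f W t * (Pi.single z 1 : ι → ℝ) t) =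
      f W z • (Pi.single z 1 : ι → ℝ) := by
    intro W z
    funext t
    by_cases ht : t = z
    · rw [ht, Pi.smul_apply, smul_eq_mul]
    · rw [Pi.smul_apply, Pi.single_eq_of_ne ht, mul_zero, smul_zero]
  rw [yf, yf, ← Finset.sum_add_distrib]
  refine Finset.sum_congr rfl fun W _ => ?_
  rw [strc_dW, strc_dW, h, h, strc_smul_right, strc_smul_right,
    strc_snoc_swap l (Pi.single x 1) (Pi.single y 1),
    strc_swap (o W) _ (Fin.castSucc_lt_last (Fin.last b)).ne]
  ring

private theorem strc_out {b : ℕ} (V : Finset ι) (o : Finset ι → Fin (b + 2) → ι)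
    (ho : ∀ W ∈ V.powersetCard (b + 2), Function.Injective (o W) ∧ univ.image (o W) = W)
    (W : Finset ι) (hW : W ∈ V.powersetCard (b + 2)) (w : Fin (b + 2) → ι → ℝ)
    (i : Fin (b + 2)) (z : ι) (hz : z ∉ W) (hw : w i = Pi.single z 1) :
    strc_D (o W) w = 0 := by
  refine strc_zero (o W) w i fun j => ?_
  have h2 : o W j ∈ univ.image (o W) := Finset.mem_image_of_mem _ (Finset.mem_univ j)
  rw [(ho W hW).2] at h2
  rw [hw, Pi.single_eq_of_ne]
  rintro rfl
  exact hz h2

/-- Apply `strand` with `E = ι → ℝ` (or the vectors supported on `V`),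
`K = {l | ∑ x ∈ V, l x • θ x = 0}` and `y l u v = yf V o f (Fin.snoc l u) v`. `h1` is the
alternation of the determinant, `h0` the hypothesis, `h2` is `form_zero` for
`S x y = y l e_x e_y + y l e_y e_x` (bilinearity; for `A x y` and for `x = y` it vanishes: the term of
`W` is `(f W y - f W x) * dW (o W) (snoc l e_x) e_y` if `x, y ∈ W`, and `0` otherwise, as then a row
of the determinant vanishes on `W`). The conclusion: for `x ≠ y ∈ W` take for `l` the unit vectors of
the other elements of `W`; only the term of `W` is nonzero, it is `± (f W y - f W x)`. -/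
theorem strand_const {b : ℕ} (D : ℕ) (V : Finset ι) (A : ι → ι → Prop)
    (θ : ι → Fin (D + 1) → ℝ) (h : Rig D V A θ)
    (hsp : Submodule.span ℝ (θ '' (V : Set ι)) = ⊤) (o : Finset ι → Fin (b + 2) → ι)
    (ho : ∀ W ∈ V.powersetCard (b + 2), Function.Injective (o W) ∧ univ.image (o W) = W)
    (f : Finset ι → ι → ℝ)
    (hf : ∀ W ∈ V.powersetCard (b + 2), ∀ x ∈ W, ∀ y ∈ W, A x y → f W x = f W y)
    (h0 : ∀ (l : Fin b → ι → ℝ) (u v : ι → ℝ), (∀ i, ∑ x ∈ V, l i x • θ x = 0) →
      ∑ x ∈ V, u x • θ x = 0 → ∑ x ∈ V, v x • θ x = 0 →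
      yf V o f (Fin.snoc (α := fun _ => ι → ℝ) l u) v +
        yf V o f (Fin.snoc (α := fun _ => ι → ℝ) l v) u = 0) :
    ∀ W ∈ V.powersetCard (b + 2), ∀ x ∈ W, ∀ y ∈ W, f W x = f W y := by
  classical
  -- the strand
  have hall : ∀ (l : Fin b → ι → ℝ) (u v : ι → ℝ),
      yf V o f (Fin.snoc (α := fun _ => ι → ℝ) l u) v +
        yf V o f (Fin.snoc (α := fun _ => ι → ℝ) l v) u = 0 := by
    refine strand (E := ι → ℝ) {l | ∑ x ∈ V, l x • θ x = 0}
      (fun l u v => yf V o f (Fin.snoc (α := fun _ => ι → ℝ) l u) v) ?_ ?_ ?_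
    · intro l i u v
      change yf V o f (Fin.snoc (α := fun _ => ι → ℝ) l u) v =
        - yf V o f (Fin.snoc (α := fun _ => ι → ℝ) (Function.update l i u) (l i)) v
      rw [yf, yf, ← Finset.sum_neg_distrib]
      refine Finset.sum_congr rfl fun W _ => ?_
      rw [strc_dW, strc_dW]
      have hne : (Fin.castSucc (Fin.castSucc i) : Fin (b + 2)) ≠ Fin.castSucc (Fin.last b) := by
        intro h2
        exact (Fin.castSucc_lt_last i).ne (Fin.castSucc_injective _ h2)
      have hsw : (Fin.snoc (α := fun _ => ι → ℝ)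
          (Fin.snoc (α := fun _ => ι → ℝ) (Function.update l i u) (l i) : Fin (b + 1) → ι → ℝ)
          (fun x => f W x * v x) : Fin (b + 2) → ι → ℝ) =
          (Fin.snoc (α := fun _ => ι → ℝ)
          (Fin.snoc (α := fun _ => ι → ℝ) l u : Fin (b + 1) → ι → ℝ)
          (fun x => f W x * v x) : Fin (b + 2) → ι → ℝ) ∘
            Equiv.swap (Fin.castSucc (Fin.castSucc i)) (Fin.castSucc (Fin.last b)) := by
        funext k
        rw [Function.comp_apply]
        refine Fin.lastCases ?_ (fun k' => ?_) k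
        · rw [Equiv.swap_apply_of_ne_of_ne (Fin.castSucc_lt_last _).ne'
            (Fin.castSucc_lt_last _).ne', Fin.snoc_last, Fin.snoc_last]
        · refine Fin.lastCases ?_ (fun k'' => ?_) k'
          · rw [Equiv.swap_apply_right, Fin.snoc_castSucc, Fin.snoc_last, Fin.snoc_castSucc,
              Fin.snoc_castSucc]
          · by_cases hk : k'' = i
            · subst hk
              rw [Equiv.swap_apply_left, Fin.snoc_castSucc, Fin.snoc_castSucc, Fin.snoc_castSucc,
                Fin.snoc_last, Function.update_self]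
            · have h1 : (Fin.castSucc (Fin.castSucc k'') : Fin (b + 2)) ≠
                  Fin.castSucc (Fin.castSucc i) := fun h2 =>
                hk (Fin.castSucc_injective _ (Fin.castSucc_injective _ h2))
              have h3 : (Fin.castSucc (Fin.castSucc k'') : Fin (b + 2)) ≠
                  Fin.castSucc (Fin.last b) := by
                intro h2
                exact (Fin.castSucc_lt_last k'').ne (Fin.castSucc_injective _ h2)
              rw [Equiv.swap_apply_of_ne_of_ne h1 h3, Fin.snoc_castSucc, Fin.snoc_castSucc,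
                Fin.snoc_castSucc, Fin.snoc_castSucc, Function.update_of_ne hk]
      rw [hsw, strc_swap (o W) _ hne, neg_neg]
    · intro l hl u hu v hv
      exact h0 l u v hl hu hv
    · intro l hK u v
      have hS := form_zero D V A θ h hsp (fun x y =>
        yf V o f (Fin.snoc (α := fun _ => ι → ℝ) l (Pi.single x 1)) (Pi.single y 1) +
          yf V o f (Fin.snoc (α := fun _ => ι → ℝ) l (Pi.single y 1)) (Pi.single x 1))
        (fun x _ y _ => add_comm _ _)
        (fun x _ => by
          change _ + _ = (0 : ℝ)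
          rw [strc_unit]
          exact Finset.sum_eq_zero fun W _ => by rw [sub_self, zero_mul])
        (fun x _ y _ hxy => by
          change _ + _ = (0 : ℝ)
          rw [strc_unit]
          refine Finset.sum_eq_zero fun W hW => ?_
          by_cases hx : x ∈ W
          · by_cases hy : y ∈ W
            · rw [hf W hW x hx y hy hxy, sub_self, zero_mul]
            · rw [strc_out V o ho W hW _ (Fin.last (b + 1)) y hy (Fin.snoc_last _ _), mul_zero]
          · rw [strc_out V o ho W hW _ (Fin.castSucc (Fin.last b)) x hx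
              (by rw [Fin.snoc_castSucc, Fin.snoc_last]), mul_zero])
        (fun l' m' hl' hm' => by
          have e := hK l' hl' m' hm'
          change yf V o f (Fin.snoc (α := fun _ => ι → ℝ) l l') m' +
            yf V o f (Fin.snoc (α := fun _ => ι → ℝ) l m') l' = 0 at e
          rw [strc_expand V o ho f l l' m', strc_expand V o ho f l m' l',
            Finset.sum_comm (s := V) (t := V) (f := fun x y => m' x * l' y *
              yf V o f (Fin.snoc (α := fun _ => ι → ℝ) l (Pi.single x 1)) (Pi.single y 1)),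
            ← Finset.sum_add_distrib] at e
          rw [← e]
          refine Finset.sum_congr rfl fun x _ => ?_
          rw [← Finset.sum_add_distrib]
          refine Finset.sum_congr rfl fun y _ => ?_
          ring)
      change yf V o f (Fin.snoc (α := fun _ => ι → ℝ) l u) v +
        yf V o f (Fin.snoc (α := fun _ => ι → ℝ) l v) u = 0
      rw [strc_expand V o ho f l u v, strc_expand V o ho f l v u,
        Finset.sum_comm (s := V) (t := V) (f := fun x y => v x * u y *
          yf V o f (Fin.snoc (α := fun _ => ι → ℝ) l (Pi.single x 1)) (Pi.single y 1)),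
        ← Finset.sum_add_distrib]
      refine Finset.sum_eq_zero fun x hx => ?_
      rw [← Finset.sum_add_distrib]
      refine Finset.sum_eq_zero fun y hy => ?_
      have e := hS x hx y hy
      linear_combination (u x * v y) * e
  -- the conclusion
  intro W hW x hx y hy
  by_cases hxy : x = y
  · rw [hxy]
  obtain ⟨hinj, himg⟩ := ho W hW
  obtain ⟨i0, -, hi0⟩ := Finset.mem_image.1 (show x ∈ univ.image (o W) by rw [himg]; exact hx)
  obtain ⟨j0, -, hj0⟩ := Finset.mem_image.1 (show y ∈ univ.image (o W) by rw [himg]; exact hy)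
  have hij : i0 ≠ j0 := by
    rintro rfl
    exact hxy (hi0.symm.trans hj0)
  have hpq : (Fin.castSucc (Fin.last b) : Fin (b + 2)) ≠ Fin.last (b + 1) :=
    (Fin.castSucc_lt_last _).ne
  obtain ⟨σ, hσp, hσq⟩ : ∃ σ : Equiv.Perm (Fin (b + 2)),
      σ (Fin.castSucc (Fin.last b)) = i0 ∧ σ (Fin.last (b + 1)) = j0 := by
    set σ1 := Equiv.swap (Fin.castSucc (Fin.last b)) i0 with hσ1
    have h1 : σ1 (Fin.castSucc (Fin.last b)) = i0 := Equiv.swap_apply_left _ _
    have h2 : (Fin.castSucc (Fin.last b) : Fin (b + 2)) ≠ σ1.symm j0 := by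
      intro h3
      apply hij
      rw [← h1, h3, Equiv.apply_symm_apply]
    refine ⟨σ1 * Equiv.swap (Fin.last (b + 1)) (σ1.symm j0), ?_, ?_⟩
    · rw [Equiv.Perm.mul_apply, Equiv.swap_apply_of_ne_of_ne hpq h2, h1]
    · rw [Equiv.Perm.mul_apply, Equiv.swap_apply_left, Equiv.apply_symm_apply]
  have hrow : (Fin.snoc (α := fun _ => ι → ℝ) (Fin.snoc (α := fun _ => ι → ℝ)
      (fun i : Fin b => (Pi.single (o W (σ (Fin.castSucc (Fin.castSucc i)))) 1 : ι → ℝ))
      (Pi.single x 1) : Fin (b + 1) → ι → ℝ) (Pi.single y 1) : Fin (b + 2) → ι → ℝ) =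
      (fun r => (Pi.single (o W r) 1 : ι → ℝ)) ∘ σ := by
    funext r
    rw [Function.comp_apply]
    refine Fin.lastCases ?_ (fun r' => ?_) r
    · rw [Fin.snoc_last, hσq, hj0]
    · refine Fin.lastCases ?_ (fun r'' => ?_) r'
      · rw [Fin.snoc_castSucc, Fin.snoc_last, hσp, hi0]
      · rw [Fin.snoc_castSucc, Fin.snoc_castSucc]
  have e := hall (fun i : Fin b => (Pi.single (o W (σ (Fin.castSucc (Fin.castSucc i)))) 1 : ι → ℝ))
    (Pi.single x 1) (Pi.single y 1)
  rw [strc_unit, Finset.sum_eq_single W] at e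
  · rw [hrow, strc_perm] at e
    have hone : strc_D (o W) (fun r => (Pi.single (o W r) 1 : ι → ℝ)) = 1 := by
      change Matrix.det (Matrix.of fun i j => (Pi.single (o W i) 1 : ι → ℝ) (o W j)) = 1
      have : (Matrix.of fun i j => (Pi.single (o W i) 1 : ι → ℝ) (o W j)) =
          (1 : Matrix (Fin (b + 2)) (Fin (b + 2)) ℝ) := by
        ext i j
        rw [Matrix.of_apply, Matrix.one_apply]
        by_cases hh : i = j
        · rw [if_pos hh, hh, Pi.single_eq_same]
        · rw [if_neg hh, Pi.single_eq_of_ne]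
          intro h5
          exact hh (hinj h5).symm
      rw [this, Matrix.det_one]
    rw [hone] at e
    rcases Int.units_eq_one_or (Equiv.Perm.sign σ) with hs | hs
    · rw [hs, one_smul, mul_one] at e
      linarith
    · rw [hs] at e
      have : ((-1 : ℤˣ) • (1 : ℝ)) = -1 := by
        rw [Units.smul_def]; simp
      rw [this] at e
      linarith
  · intro W' hW' hne
    have hsub : ¬ W ⊆ W' := by
      intro hss
      apply hne
      refine (Finset.eq_of_subset_of_card_le hss ?_).symm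
      rw [(Finset.mem_powersetCard.1 hW).2, (Finset.mem_powersetCard.1 hW').2]
    obtain ⟨z, hz, hz'⟩ := Finset.not_subset.1 hsub
    obtain ⟨r0, -, hr0⟩ := Finset.mem_image.1 (show z ∈ univ.image (o W) by rw [himg]; exact hz)
    rw [strc_out V o ho W' hW' _ (σ.symm r0) z hz' ?_, mul_zero]
    rw [hrow, Function.comp_apply, Equiv.apply_symm_apply, hr0]
  · intro h; exact absurd hW h

end Pool.TSphM
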