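import Pool.Agent.Lib.MP_3de3a3_co.M.Defs
import Pool.Agent.Lib.MP_3de3a3_co.M.StrConst
import Pool.Agent.Lib.MP_3de3a3_co.M.AltCodim
import Pool.Agent.Lib.MP_3de3a3_co.M.Ind

/-! # The sum of the numbers of components (module M/StrSum) -/

set_option autoImplicit false

namespace Pool.TSphM

open Finset
open Pool.TSph (verts IsSphere2 adj comp Ep PhiK)
open Pool.TSphD (fc rdg lk Lo PM side IsLF mv Closings)

variable {ι : Type*} [DecidableEq ι]

/-! ### The determinants as multilinear maps -/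

/-- The determinant of the values at the columns `o`, as a multilinear map. -/
private noncomputable def strsum_M {b : ℕ} (o : Fin (b + 2) → ι) :
    MultilinearMap ℝ (fun _ : Fin (b + 2) => ι → ℝ) ℝ :=
  (Matrix.detRowAlternating (n := Fin (b + 2)) (R := ℝ)).toMultilinearMap.compLinearMap
    (fun _ => LinearMap.funLeft ℝ ℝ o)

private theorem strsum_dW {b : ℕ} (o : Fin (b + 2) → ι) (l : Fin (b + 1) → ι → ℝ) (m : ι → ℝ) :
    dW o l m = strsum_M o (Fin.snoc (α := fun _ => ι → ℝ) l m) := rfl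

/-- Multiplication by `f` in the last argument. -/
private noncomputable def strsum_mul {b : ℕ} (f : ι → ℝ) (i : Fin (b + 2)) :
    (ι → ℝ) →ₗ[ℝ] (ι → ℝ) :=
  if i = Fin.last (b + 1) then LinearMap.mulLeft ℝ f else LinearMap.id

private theorem strsum_mul_snoc {b : ℕ} (f : ι → ℝ) (l : Fin (b + 1) → ι → ℝ) (m : ι → ℝ) :
    (fun i => strsum_mul f i ((Fin.snoc (α := fun _ => ι → ℝ) l m : Fin (b + 2) → ι → ℝ) i)) =
      (Fin.snoc (α := fun _ => ι → ℝ) l (fun x => f x * m x) : Fin (b + 2) → ι → ℝ) := by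
  funext i
  refine Fin.lastCases ?_ (fun j => ?_) i
  · rw [Fin.snoc_last, Fin.snoc_last, strsum_mul, if_pos rfl]
    rfl
  · rw [Fin.snoc_castSucc, Fin.snoc_castSucc, strsum_mul, if_neg (Fin.castSucc_lt_last j).ne]
    rfl

/-- The form as a multilinear map. -/
private noncomputable def strsum_Y {b : ℕ} (V : Finset ι) (o : Finset ι → Fin (b + 2) → ι)
    (f : Finset ι → ι → ℝ) : MultilinearMap ℝ (fun _ : Fin (b + 2) => ι → ℝ) ℝ :=
  ∑ W ∈ V.powersetCard (b + 2), (strsum_M (o W)).compLinearMap (strsum_mul (f W))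

private theorem strsum_yf {b : ℕ} (V : Finset ι) (o : Finset ι → Fin (b + 2) → ι)
    (f : Finset ι → ι → ℝ) (l : Fin (b + 1) → ι → ℝ) (m : ι → ℝ) :
    yf V o f l m = strsum_Y V o f (Fin.snoc (α := fun _ => ι → ℝ) l m) := by
  rw [yf, strsum_Y, MultilinearMap.sum_apply]
  refine Finset.sum_congr rfl fun W _ => ?_
  rw [MultilinearMap.compLinearMap_apply, strsum_mul_snoc, strsum_dW]

/-- Only the values on `V` matter. -/
private theorem strsum_Y_congr {b : ℕ} (V : Finset ι) (o : Finset ι → Fin (b + 2) → ι)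
    (ho : ∀ W ∈ V.powersetCard (b + 2), Function.Injective (o W) ∧ univ.image (o W) = W)
    (f : Finset ι → ι → ℝ) (w w' : Fin (b + 2) → ι → ℝ) (h : ∀ i, ∀ x ∈ V, w i x = w' i x) :
    strsum_Y V o f w = strsum_Y V o f w' := by
  rw [strsum_Y, MultilinearMap.sum_apply, MultilinearMap.sum_apply]
  refine Finset.sum_congr rfl fun W hW => ?_
  have hoV : ∀ j, o W j ∈ V := by
    intro j
    have h1 := (ho W hW).2
    refine (Finset.mem_powersetCard.1 hW).1 ?_
    have h2 : o W j ∈ univ.image (o W) := Finset.mem_image_of_mem _ (Finset.mem_univ j)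
    rwa [h1] at h2
  have key : ∀ i, (fun j => (strsum_mul (f W) i (w i)) (o W j)) =
      (fun j => (strsum_mul (f W) i (w' i)) (o W j)) := by
    intro i
    funext j
    rw [strsum_mul]
    split_ifs
    · show f W (o W j) * w i (o W j) = f W (o W j) * w' i (o W j)
      rw [h i _ (hoV j)]
    · exact h i _ (hoV j)
  show Matrix.det (Matrix.of fun i j => (strsum_mul (f W) i (w i)) (o W j)) =
    Matrix.det (Matrix.of fun i j => (strsum_mul (f W) i (w' i)) (o W j))
  congr 1
  ext i j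
  exact congrFun (key i) j

/-! ### Multilinear expansion -/

/-- The expansion of the symmetrized form. -/
private theorem strsum_h0 {b n : ℕ} (V : Finset ι) (o : Finset ι → Fin (b + 2) → ι)
    (ho : ∀ W ∈ V.powersetCard (b + 2), Function.Injective (o W) ∧ univ.image (o W) = W)
    (f : Finset ι → ι → ℝ) (β : Fin n → ι → ℝ) (nx : Fin n → ι)
    (hz : ∀ (l : Fin b → Fin n) (κ μ : Fin n),
      yf V o f (fun i => β ((Fin.snoc (α := fun _ => Fin n) l κ : Fin (b + 1) → Fin n) i)) (β μ) +
      yf V o f (fun i => β ((Fin.snoc (α := fun _ => Fin n) l μ : Fin (b + 1) → Fin n) i)) (β κ)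
        = 0)
    (l : Fin b → ι → ℝ) (u v : ι → ℝ)
    (hl : ∀ i, ∀ x ∈ V, l i x = ∑ j, l i (nx j) * β j x)
    (hu : ∀ x ∈ V, u x = ∑ j, u (nx j) * β j x)
    (hv : ∀ x ∈ V, v x = ∑ j, v (nx j) * β j x) :
    yf V o f (Fin.snoc (α := fun _ => ι → ℝ) l u) v +
      yf V o f (Fin.snoc (α := fun _ => ι → ℝ) l v) u = 0 := by
  classical
  -- the symmetrized form
  set τ : Equiv.Perm (Fin (b + 2)) := Equiv.swap (Fin.last (b + 1)) (Fin.castSucc (Fin.last b))
    with hτ
  set S : MultilinearMap ℝ (fun _ : Fin (b + 2) => ι → ℝ) ℝ :=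
    strsum_Y V o f + (strsum_Y V o f).domDomCongr τ with hS
  have hsw : ∀ {E : Type _} (k : Fin b → E) (p q : E),
      (fun i => (Fin.snoc (α := fun _ => E) (Fin.snoc (α := fun _ => E) k p : Fin (b + 1) → E) q :
        Fin (b + 2) → E) (τ i)) =
      (Fin.snoc (α := fun _ => E) (Fin.snoc (α := fun _ => E) k q : Fin (b + 1) → E) p :
        Fin (b + 2) → E) := by
    intro E k p q
    funext i
    refine Fin.lastCases ?_ (fun j => ?_) i
    · rw [hτ, Equiv.swap_apply_left, Fin.snoc_castSucc, Fin.snoc_last, Fin.snoc_last]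
    · refine Fin.lastCases ?_ (fun j' => ?_) j
      · rw [hτ, Equiv.swap_apply_right, Fin.snoc_castSucc, Fin.snoc_last, Fin.snoc_last]
      · have h1 : τ (Fin.castSucc (Fin.castSucc j')) = Fin.castSucc (Fin.castSucc j') := by
          rw [hτ]
          refine Equiv.swap_apply_of_ne_of_ne (Fin.castSucc_lt_last _).ne ?_
          intro h2
          exact (Fin.castSucc_lt_last j').ne (Fin.castSucc_injective _ h2)
        rw [h1, Fin.snoc_castSucc, Fin.snoc_castSucc, Fin.snoc_castSucc, Fin.snoc_castSucc]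
  have hSv : ∀ (k : Fin b → ι → ℝ) (p q : ι → ℝ),
      S (Fin.snoc (α := fun _ => ι → ℝ) (Fin.snoc (α := fun _ => ι → ℝ) k p :
        Fin (b + 1) → ι → ℝ) q) =
      yf V o f (Fin.snoc (α := fun _ => ι → ℝ) k p) q +
        yf V o f (Fin.snoc (α := fun _ => ι → ℝ) k q) p := by
    intro k p q
    rw [hS, MultilinearMap.add_apply, MultilinearMap.domDomCongr_apply, hsw, strsum_yf, strsum_yf]
  rw [← hSv]
  set w : Fin (b + 2) → ι → ℝ := Fin.snoc (α := fun _ => ι → ℝ)
    (Fin.snoc (α := fun _ => ι → ℝ) l u : Fin (b + 1) → ι → ℝ) v with hw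
  have hexp : ∀ i, ∀ x ∈ V, w i x = ∑ j, w i (nx j) * β j x := by
    intro i
    refine Fin.lastCases ?_ (fun j => ?_) i
    · rw [hw, Fin.snoc_last]; exact hv
    · refine Fin.lastCases ?_ (fun j' => ?_) j
      · rw [hw, Fin.snoc_castSucc, Fin.snoc_last]; exact hu
      · rw [hw, Fin.snoc_castSucc, Fin.snoc_castSucc]; exact hl j'
  have hexp2 : ∀ i, ∀ x ∈ V, w i x = (∑ j, w i (nx j) • β j) x := by
    intro i x hx
    rw [Finset.sum_apply, hexp i x hx]
    rfl
  have h1 : S w = S (fun i => ∑ j, w i (nx j) • β j) := by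
    rw [hS, MultilinearMap.add_apply, MultilinearMap.add_apply, MultilinearMap.domDomCongr_apply,
      MultilinearMap.domDomCongr_apply, strsum_Y_congr V o ho f w _ hexp2,
      strsum_Y_congr V o ho f (fun i => w (τ i)) (fun i => ∑ j, w (τ i) (nx j) • β j)
        (fun i x hx => hexp2 (τ i) x hx)]
  rw [h1, MultilinearMap.map_sum]
  refine Finset.sum_eq_zero fun k _ => ?_
  rw [MultilinearMap.map_smul_univ]
  have h2 : (fun i => β (k i)) = (Fin.snoc (α := fun _ => ι → ℝ)
      (Fin.snoc (α := fun _ => ι → ℝ) (fun i => β (k (Fin.castSucc (Fin.castSucc i))))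
        (β (k (Fin.castSucc (Fin.last b)))) : Fin (b + 1) → ι → ℝ) (β (k (Fin.last (b + 1)))) :
        Fin (b + 2) → ι → ℝ) := by
    funext i
    refine Fin.lastCases ?_ (fun j => ?_) i
    · rw [Fin.snoc_last]
    · refine Fin.lastCases ?_ (fun j' => ?_) j
      · rw [Fin.snoc_castSucc, Fin.snoc_last]
      · rw [Fin.snoc_castSucc, Fin.snoc_castSucc]
  have h3 : ∀ (k' : Fin b → Fin n) (p : Fin n),
      (fun i => β ((Fin.snoc (α := fun _ => Fin n) k' p : Fin (b + 1) → Fin n) i)) =
      (Fin.snoc (α := fun _ => ι → ℝ) (fun i => β (k' i)) (β p) : Fin (b + 1) → ι → ℝ) := by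
    intro k' p
    funext i
    refine Fin.lastCases ?_ (fun j => ?_) i
    · rw [Fin.snoc_last, Fin.snoc_last]
    · rw [Fin.snoc_castSucc, Fin.snoc_castSucc]
  have h4 := hz (fun i => k (Fin.castSucc (Fin.castSucc i))) (k (Fin.castSucc (Fin.last b)))
    (k (Fin.last (b + 1)))
  rw [h3, h3] at h4
  rw [h2, hSv, h4, smul_zero]

/-! ### The expansion of relations -/

private theorem strsum_exp {D n : ℕ} (V R : Finset ι) (hR : R ⊆ V)
    (θ : ι → Fin (D + 1) → ℝ) (hind : ∀ g : ι → ℝ, ∑ r ∈ R, g r • θ r = 0 → ∀ r ∈ R, g r = 0)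
    (c : ι → ι → ℝ) (hc : ∀ x, θ x = ∑ r ∈ R, c x r • θ r)
    (nx : Fin n → ι) (hnx : Function.Injective nx) (hnR : univ.image nx = V \ R)
    (l : ι → ℝ) (hl : ∑ x ∈ V, l x • θ x = 0) :
    ∀ x ∈ V, l x = ∑ i, l (nx i) * ((if x = nx i then 1 else 0) -
      (if x ∈ R then c (nx i) x else 0)) := by
  have hmem : ∀ i, nx i ∈ V \ R := fun i => by
    rw [← hnR]; exact Finset.mem_image_of_mem _ (Finset.mem_univ i)
  have hsumN : ∀ F : ι → Fin (D + 1) → ℝ, ∑ x ∈ V \ R, F x = ∑ i, F (nx i) := by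
    intro F
    rw [← hnR, Finset.sum_image fun a _ b _ h => hnx h]
  have hg : ∀ r ∈ R, l r + ∑ i, l (nx i) * c (nx i) r = 0 := by
    refine hind (fun r => l r + ∑ i, l (nx i) * c (nx i) r) ?_
    have h1 : ∑ r ∈ R, (l r + ∑ i, l (nx i) * c (nx i) r) • θ r =
        ∑ r ∈ R, l r • θ r + ∑ i, l (nx i) • θ (nx i) := by
      have h2 : ∀ i, l (nx i) • θ (nx i) = ∑ r ∈ R, (l (nx i) * c (nx i) r) • θ r := by
        intro i
        conv_lhs => rw [hc (nx i)]
        rw [Finset.smul_sum]
        exact Finset.sum_congr rfl fun r _ => by rw [smul_smul]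
      rw [Finset.sum_congr rfl fun i _ => h2 i, Finset.sum_comm, ← Finset.sum_add_distrib]
      exact Finset.sum_congr rfl fun r _ => by rw [add_smul, Finset.sum_smul]
    rw [h1, ← hsumN (fun x => l x • θ x), add_comm (∑ r ∈ R, l r • θ r)]
    exact (Finset.sum_sdiff hR).trans hl
  intro x hx
  by_cases hxR : x ∈ R
  · have h1 : ∀ i, x ≠ nx i := fun i h => (Finset.mem_sdiff.1 (hmem i)).2 (h ▸ hxR)
    have h2 : ∑ i, l (nx i) * ((if x = nx i then 1 else 0) - (if x ∈ R then c (nx i) x else 0)) =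
        - ∑ i, l (nx i) * c (nx i) x := by
      rw [← Finset.sum_neg_distrib]
      exact Finset.sum_congr rfl fun i _ => by rw [if_neg (h1 i), if_pos hxR]; ring
    rw [h2]
    linarith [hg x hxR]
  · have hxN : x ∈ univ.image nx := by rw [hnR]; exact Finset.mem_sdiff.2 ⟨hx, hxR⟩
    obtain ⟨j, -, hj⟩ := Finset.mem_image.1 hxN
    rw [Finset.sum_eq_single j]
    · rw [if_pos hj.symm, if_neg hxR, hj]; ring
    · intro i _ hij
      rw [if_neg, if_neg hxR]
      · ring
      · intro h
        exact hij (hnx (h.symm.trans hj.symm))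
    · intro h
      exact absurd (Finset.mem_univ j) h

/-! ### Families which are constant on components -/

/-- The pairs (set, component). -/
private noncomputable def strsum_Om (A : ι → ι → Prop) (V : Finset ι) (a : ℕ) :
    Finset (Σ _ : Finset ι, Finset ι) :=
  (V.powersetCard a).sigma (fun W => W.image (Pool.TSph.CompA_cl A W))

open Classical in
/-- The family with the given values on the components. -/
private noncomputable def strsum_F (A : ι → ι → Prop) (V : Finset ι) (a : ℕ)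
    (g : strsum_Om A V a → ℝ) (W : Finset ι) (x : ι) : ℝ :=
  if h : (⟨W, Pool.TSph.CompA_cl A W x⟩ : Σ _ : Finset ι, Finset ι) ∈ strsum_Om A V a then
    g ⟨_, h⟩ else 0

private theorem strsum_F_add (A : ι → ι → Prop) (V : Finset ι) (a : ℕ)
    (g g' : strsum_Om A V a → ℝ) (W : Finset ι) (x : ι) :
    strsum_F A V a (g + g') W x = strsum_F A V a g W x + strsum_F A V a g' W x := by
  unfold strsum_F
  split_ifs
  · rfl
  · rw [add_zero]

private theorem strsum_F_smul (A : ι → ι → Prop) (V : Finset ι) (a : ℕ) (c : ℝ)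
    (g : strsum_Om A V a → ℝ) (W : Finset ι) (x : ι) :
    strsum_F A V a (c • g) W x = c * strsum_F A V a g W x := by
  unfold strsum_F
  split_ifs
  · rfl
  · rw [mul_zero]

private theorem strsum_card (A : ι → ι → Prop) (V : Finset ι) (a : ℕ) :
    (strsum_Om A V a).card = ∑ W ∈ V.powersetCard a, comp A W := by
  classical
  rw [strsum_Om, Finset.card_sigma]
  refine Finset.sum_congr rfl fun W _ => ?_
  rw [Pool.TSph.CompA_comp]

/-- If all values vanish then the family vanishes. -/
private theorem strsum_zero (A : ι → ι → Prop) (V : Finset ι) (a : ℕ)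
    (g : strsum_Om A V a → ℝ)
    (h : ∀ W ∈ V.powersetCard a, ∀ x ∈ W, strsum_F A V a g W x = 0) : g = 0 := by
  classical
  funext ω
  obtain ⟨⟨W, C⟩, hω⟩ := ω
  have h1 := Finset.mem_sigma.1 hω
  obtain ⟨x, hx, hxC⟩ := Finset.mem_image.1 h1.2
  have h2 := h W h1.1 x hx
  have h3 : (⟨W, Pool.TSph.CompA_cl A W x⟩ : Σ _ : Finset ι, Finset ι) = ⟨W, C⟩ := by
    rw [hxC]
  unfold strsum_F at h2
  rw [dif_pos (by rw [h3]; exact hω)] at h2
  rw [Pi.zero_apply, ← h2]
  congr 1
  exact Subtype.ext h3.symm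

/-! ### The map `Φ` -/

private theorem strsum_dW_add {b : ℕ} (o : Fin (b + 2) → ι) (l : Fin (b + 1) → ι → ℝ)
    (m m' : ι → ℝ) : dW o l (m + m') = dW o l m + dW o l m' := by
  rw [strsum_dW, strsum_dW, strsum_dW]
  have h := (strsum_M o).map_update_add (Fin.snoc (α := fun _ => ι → ℝ) l m) (Fin.last (b + 1)) m m'
  rwa [Fin.update_snoc_last, Fin.update_snoc_last, Fin.update_snoc_last] at h

private theorem strsum_dW_smul {b : ℕ} (o : Fin (b + 2) → ι) (l : Fin (b + 1) → ι → ℝ)
    (c : ℝ) (m : ι → ℝ) : dW o l (c • m) = c * dW o l m := by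
  rw [strsum_dW, strsum_dW]
  have h := (strsum_M o).map_update_smul (Fin.snoc (α := fun _ => ι → ℝ) l m) (Fin.last (b + 1)) c m
  rwa [Fin.update_snoc_last, Fin.update_snoc_last] at h

private theorem strsum_dW_perm {b : ℕ} (o : Fin (b + 2) → ι) (l : Fin (b + 1) → ι → ℝ)
    (m : ι → ℝ) (σ : Equiv.Perm (Fin (b + 1))) :
    dW o (fun i => l (σ i)) m = ((Equiv.Perm.sign σ : ℤ) : ℝ) * dW o l m := by
  classical
  set σ' : Equiv.Perm (Fin (b + 2)) := σ.viaFintypeEmbedding Fin.castSuccEmb with hσ'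
  have hs : Equiv.Perm.sign σ' = Equiv.Perm.sign σ := Equiv.Perm.viaFintypeEmbedding_sign _ _
  have hrow : (fun i => (Fin.snoc (α := fun _ => ι → ℝ) l m : Fin (b + 2) → ι → ℝ) (σ' i)) =
      (Fin.snoc (α := fun _ => ι → ℝ) (fun i => l (σ i)) m : Fin (b + 2) → ι → ℝ) := by
    funext i
    refine Fin.lastCases ?_ (fun j => ?_) i
    · have h1 : σ' (Fin.last (b + 1)) = Fin.last (b + 1) := by
        rw [hσ']
        refine Equiv.Perm.viaFintypeEmbedding_apply_notMem_range _ _ ?_
        rintro ⟨j, hj⟩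
        exact (Fin.castSucc_lt_last j).ne hj
      rw [h1, Fin.snoc_last, Fin.snoc_last]
    · have h1 : σ' (Fin.castSucc j) = Fin.castSucc (σ j) := by
        rw [hσ']
        exact Equiv.Perm.viaFintypeEmbedding_apply_image _ _ _
      rw [h1, Fin.snoc_castSucc, Fin.snoc_castSucc]
  rw [strsum_dW, strsum_dW, ← hrow]
  show Matrix.det (Matrix.of fun i j =>
      (Fin.snoc (α := fun _ => ι → ℝ) l m : Fin (b + 2) → ι → ℝ) (σ' i) (o j)) =
    ((Equiv.Perm.sign σ : ℤ) : ℝ) * Matrix.det (Matrix.of fun i j =>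
      (Fin.snoc (α := fun _ => ι → ℝ) l m : Fin (b + 2) → ι → ℝ) i (o j))
  rw [← hs]
  exact Matrix.det_permute σ' (Matrix.of fun i j =>
      (Fin.snoc (α := fun _ => ι → ℝ) l m : Fin (b + 2) → ι → ℝ) i (o j))

private noncomputable def strsum_Phi {b n : ℕ} (A : ι → ι → Prop) (V : Finset ι)
    (o : Finset ι → Fin (b + 2) → ι) (β : Fin n → ι → ℝ) :
    (strsum_Om A V (b + 2) → ℝ) →ₗ[ℝ] ((Fin (b + 1) → Fin n) → Fin n → ℝ) where
  toFun g l μ := yf V o (strsum_F A V (b + 2) g) (fun i => β (l i)) (β μ)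
  map_add' g g' := by
    funext l μ
    show yf V o (strsum_F A V (b + 2) (g + g')) (fun i => β (l i)) (β μ) =
      yf V o (strsum_F A V (b + 2) g) (fun i => β (l i)) (β μ) +
        yf V o (strsum_F A V (b + 2) g') (fun i => β (l i)) (β μ)
    unfold yf
    rw [← Finset.sum_add_distrib]
    refine Finset.sum_congr rfl fun W _ => ?_
    rw [← strsum_dW_add]
    congr 1
    funext x
    rw [strsum_F_add, Pi.add_apply]
    ring
  map_smul' c g := by
    funext l μ
    show yf V o (strsum_F A V (b + 2) (c • g)) (fun i => β (l i)) (β μ) =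
      c * yf V o (strsum_F A V (b + 2) g) (fun i => β (l i)) (β μ)
    unfold yf
    rw [Finset.mul_sum]
    refine Finset.sum_congr rfl fun W _ => ?_
    rw [← strsum_dW_smul]
    congr 1
    funext x
    rw [strsum_F_smul, Pi.smul_apply, smul_eq_mul]
    ring

/-- The inequality for the dimensions. -/
private theorem strsum_main {b : ℕ} (D : ℕ) (V : Finset ι) (A : ι → ι → Prop)
    (hA : ∀ x y, A x y → A y x) (hV : D + 1 ≤ V.card) (h : GRig D V A) :
    ∑ W ∈ V.powersetCard (b + 2), comp A W ≤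
      (V.powersetCard (b + 2)).card + (b + 1) * (V.card - D).choose (b + 2) := by
  classical
  obtain ⟨p, hp, hpR⟩ := h
  obtain ⟨R, hRV, hRc⟩ := Finset.exists_subset_card_eq hV
  obtain ⟨q, hq, hqi⟩ := exists_ind D R hRc.le
  obtain ⟨θ', hθ'⟩ := exists_eval_ne (mul_ne_zero hp hq)
  rw [map_mul] at hθ'
  have hrig := hpR θ' (left_ne_zero_of_mul hθ')
  have hli := hqi θ' (right_ne_zero_of_mul hθ')
  set θ := pt D θ' with hθ
  -- independence
  have hind : ∀ g : ι → ℝ, ∑ r ∈ R, g r • θ r = 0 → ∀ r ∈ R, g r = 0 := by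
    intro g hg r hr
    have h1 := Fintype.linearIndependent_iff.1 hli (fun r => g r) (by
      rw [← hg]
      exact (Finset.sum_coe_sort R fun r => g r • θ r)) ⟨r, hr⟩
    exact h1
  -- span
  have hspR : Submodule.span ℝ (Set.range fun x : R => θ (x : ι)) = ⊤ := by
    refine hli.span_eq_top_of_card_eq_finrank' ?_
    rw [Fintype.card_coe, hRc, Module.finrank_fin_fun]
  have hsp : Submodule.span ℝ (θ '' (V : Set ι)) = ⊤ := by
    rw [eq_top_iff, ← hspR]
    refine Submodule.span_mono ?_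
    rintro _ ⟨x, rfl⟩
    exact ⟨x, hRV x.2, rfl⟩
  have hc : ∀ x, ∃ c : ι → ℝ, θ x = ∑ r ∈ R, c r • θ r := by
    intro x
    have h1 : θ x ∈ Submodule.span ℝ (Set.range fun x : R => θ (x : ι)) := by
      rw [hspR]; trivial
    obtain ⟨c, hc⟩ := (Submodule.mem_span_range_iff_exists_fun ℝ).1 h1
    refine ⟨fun r => if hr : r ∈ R then c ⟨r, hr⟩ else 0, ?_⟩
    rw [← hc, ← Finset.sum_coe_sort R]
    refine Finset.sum_congr rfl fun r _ => ?_
    show c r • θ (r : ι) = (if hr : (r : ι) ∈ R then c ⟨r, hr⟩ else 0) • θ (r : ι)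
    rw [dif_pos r.2]
  choose c hc using hc
  -- numbering
  set n := (V \ R).card with hn
  set nx : Fin n → ι := fun i => ((V \ R).equivFin.symm i : ι) with hnxd
  have hnx : Function.Injective nx := fun i j hij =>
    (V \ R).equivFin.symm.injective (Subtype.ext hij)
  have hnR : univ.image nx = V \ R := by
    ext x
    rw [Finset.mem_image]
    constructor
    · rintro ⟨i, -, rfl⟩
      exact ((V \ R).equivFin.symm i).2
    · intro hx
      exact ⟨(V \ R).equivFin ⟨x, hx⟩, Finset.mem_univ _, by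
        rw [hnxd]; simp only [Equiv.symm_apply_apply]⟩
  have hn1 : n + 1 = V.card - D := by
    rw [hn, Finset.card_sdiff_of_subset hRV, hRc]
    omega
  set β : Fin n → ι → ℝ := fun i x => (if x = nx i then 1 else 0) -
      (if x ∈ R then c (nx i) x else 0) with hβ
  have hexp : ∀ l : ι → ℝ, ∑ x ∈ V, l x • θ x = 0 → ∀ x ∈ V, l x = ∑ i, l (nx i) * β i x :=
    fun l hl => strsum_exp V R hRV θ hind c hc nx hnx hnR l hl
  -- the numbering of the sets
  have hoE : ∀ W : Finset ι, ∃ o : Fin (b + 2) → ι, W ∈ V.powersetCard (b + 2) →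
      Function.Injective o ∧ univ.image o = W := by
    intro W
    by_cases hW : W ∈ V.powersetCard (b + 2)
    · have hWc := (Finset.mem_powersetCard.1 hW).2
      refine ⟨fun i => ((Finset.equivFinOfCardEq hWc).symm i : ι), fun _ => ⟨fun i j hij =>
        (Finset.equivFinOfCardEq hWc).symm.injective (Subtype.ext hij), ?_⟩⟩
      ext x
      rw [Finset.mem_image]
      constructor
      · rintro ⟨i, -, rfl⟩
        exact ((Finset.equivFinOfCardEq hWc).symm i).2
      · intro hx
        exact ⟨(Finset.equivFinOfCardEq hWc) ⟨x, hx⟩, Finset.mem_univ _, by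
          simp only [Equiv.symm_apply_apply]⟩
    · obtain ⟨r, hr⟩ : R.Nonempty := by
        rw [← Finset.card_pos, hRc]; omega
      exact ⟨fun _ => r, fun hW' => absurd hW' hW⟩
  choose o ho using hoE
  -- the dimension
  obtain ⟨Z, hZ1, hZ2⟩ := alt_codim n b (strsum_Phi A V o β) (by
    intro g l σ μ
    show yf V o (strsum_F A V (b + 2) g) (fun i => β ((l ∘ σ) i)) (β μ) =
      ((Equiv.Perm.sign σ : ℤ) : ℝ) * yf V o (strsum_F A V (b + 2) g) (fun i => β (l i)) (β μ)
    unfold yf
    rw [Finset.mul_sum]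
    refine Finset.sum_congr rfl fun W _ => ?_
    exact strsum_dW_perm (o W) (fun i => β (l i)) _ σ)
  -- the families in `Z` are constant
  have hconst : ∀ g ∈ Z, ∀ W ∈ V.powersetCard (b + 2), ∀ x ∈ W, ∀ y ∈ W,
      strsum_F A V (b + 2) g W x = strsum_F A V (b + 2) g W y := by
    intro g hg
    refine strand_const D V A θ hrig hsp o ho (strsum_F A V (b + 2) g) ?_ ?_
    · intro W _ x hx y hy hxy
      unfold strsum_F
      rw [Pool.TSph.CompA_cl_eq hA hx (Relation.ReflTransGen.single ⟨hy, hxy⟩)]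
    · intro l u v hl hu hv
      exact strsum_h0 V o ho _ β nx (fun l κ μ => hZ2 g hg l κ μ) l u v
        (fun i => hexp _ (hl i)) (hexp _ hu) (hexp _ hv)
  -- the values
  have hle : Module.finrank ℝ Z ≤ (V.powersetCard (b + 2)).card := by
    let T : Z →ₗ[ℝ] (V.powersetCard (b + 2) → ℝ) :=
      { toFun := fun g W => strsum_F A V (b + 2) (g : strsum_Om A V (b + 2) → ℝ) W (o W 0)
        map_add' := fun g g' => by
          funext W
          exact strsum_F_add _ _ _ _ _ _ _
        map_smul' := fun c g => by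
          funext W
          exact strsum_F_smul _ _ _ _ _ _ _ }
    have hT : Function.Injective T := by
      rw [← LinearMap.ker_eq_bot, LinearMap.ker_eq_bot']
      intro g hg
      refine Subtype.ext (strsum_zero A V (b + 2) _ fun W hW x hx => ?_)
      have h1 : strsum_F A V (b + 2) (g : strsum_Om A V (b + 2) → ℝ) W (o W 0) = 0 :=
        congrFun hg ⟨W, hW⟩
      have h2 : o W 0 ∈ W := by
        have h3 : o W 0 ∈ univ.image (o W) := Finset.mem_image_of_mem _ (Finset.mem_univ _)
        rwa [(ho W hW).2] at h3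
      rw [← h1]
      exact hconst _ g.2 W hW x hx _ h2
    have h3 := LinearMap.finrank_le_finrank_of_injective hT
    rwa [Module.finrank_fintype_fun_eq_card, Fintype.card_coe] at h3
  rw [Module.finrank_fintype_fun_eq_card, Fintype.card_coe, strsum_card, hn1] at hZ1
  exact hZ1.trans (Nat.add_le_add_right hle _)

/-- For `a = 1` both sides are `0` (`comp A {x} = 1`). Let `a = b + 2`. Take `θ` with `Rig` and such that
`D + 1` vertices `R₀ ⊆ V` are independent (`exists_ind`, product of polynomials, `exists_eval_ne`), so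
`span = ⊤`. The vectors `β_x = e_x - ∑ r ∈ R₀, c x r • e_r` (`x ∈ V \ R₀`, with
`θ x = ∑ r, c x r • θ r`) are a basis of `K = {l supported on V | ∑ l x • θ x = 0}`,
`n = |V \ R₀| = |V| - D - 1`. Let `X` be the space of the families `f W` (`W` in
`V.powersetCard (b + 2)`) which are constant on the components of `A` on `W` (coordinates: one number
for every component): `finrank X = ∑ W, comp A W`. Let
`Φ f l μ = yf V o f (β ∘ l) (β μ)` (numbering of `V \ R₀` by `Fin n`), it is linear in `f` and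
alternating in `l`. By `alt_codim` there is `Z` with
`finrank X ≤ finrank Z + (b + 1) ((n + 1) choose (b + 2))`, and for `f ∈ Z` the hypothesis `h0` of
`strand_const` holds (multilinear expansion in the basis `β` of `K`), so `f W` is constant for every
`W`, hence `finrank Z ≤ (V.powersetCard (b + 2)).card`. -/
theorem strand_sum (D : ℕ) (V : Finset ι) (A : ι → ι → Prop) (hA : ∀ x y, A x y → A y x)
    (hV : D + 1 ≤ V.card) (h : GRig D V A) (a : ℕ) (ha : 1 ≤ a) :
    ∑ W ∈ V.powersetCard a, ((comp A W : ℝ) - 1) ≤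
      ((a : ℝ) - 1) * ((V.card - D).choose a : ℝ) := by
  rcases Nat.lt_or_ge 1 a with ha2 | ha1
  · obtain ⟨b, rfl⟩ : ∃ b, a = b + 2 := ⟨a - 2, by omega⟩
    have h1 := strsum_main (b := b) D V A hA hV h
    have h2 : ((∑ W ∈ V.powersetCard (b + 2), comp A W : ℕ) : ℝ) ≤
        (((V.powersetCard (b + 2)).card + (b + 1) * (V.card - D).choose (b + 2) : ℕ) : ℝ) := by
      exact_mod_cast h1
    rw [Finset.sum_sub_distrib, Finset.sum_const, nsmul_eq_mul, mul_one]
    push_cast at h2 ⊢
    linarith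
  · obtain rfl : a = 1 := le_antisymm ha1 ha
    have h1 : ∀ W ∈ V.powersetCard 1, ((comp A W : ℝ) - 1) = 0 := by
      intro W hW
      obtain ⟨x, rfl⟩ := Finset.card_eq_one.1 (Finset.mem_powersetCard.1 hW).2
      rw [Pool.TSph.comp_clique (Finset.singleton_nonempty x) (fun u hu v hv huv => absurd
        ((Finset.mem_singleton.1 hu).trans (Finset.mem_singleton.1 hv).symm) huv)]
      simp
    rw [Finset.sum_eq_zero h1]
    simp

end Pool.TSphM
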