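import Pool.Agent.Lib.MP_3de3a3_co.M.Defs
import Pool.Agent.Lib.MP_3de3a3_co.M.StrSum
import Pool.Agent.Lib.MP_3de3a3_co.M.NorRig
import Pool.Agent.Lib.MP_3de3a3_co.M.MinF

/-! # The component inequality in all dimensions (module M/CiEp) -/

set_option autoImplicit false

namespace Pool.TSphM

open Finset
open Pool.TSph (verts IsSphere2 adj comp Ep PhiK)
open Pool.TSphD (fc rdg lk Lo PM side IsLF mv Closings)

variable {ι : Type*} [DecidableEq ι]

private theorem CiEp_verts {d : ℕ} (hd : 3 ≤ d) {L : Finset (Finset ι)} (hL : IsNor d L)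
    (hne : L.Nonempty) : d + 1 ≤ (verts L).card := by
  by_contra hcon
  have h1 := card_nor hd hL hne
  have h2 : L ⊆ {verts L} := by
    intro a ha
    rw [Finset.mem_singleton]
    refine Finset.eq_of_subset_of_card_le
      (fun x hx => Pool.TSph.mem_verts.2 ⟨a, ha, hx⟩) ?_
    rw [hL.card a ha]
    omega
  have h3 := Finset.card_le_card h2
  rw [Finset.card_singleton] at h3
  omega

private theorem CiEp_bin (N : ℕ) (p : ℝ) :
    ∑ j ∈ range (N + 1), ((j : ℝ) - 1) * (N.choose j : ℝ) * (p ^ j * (1 - p) ^ (N - j)) =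
      N * p - 1 := by
  have h1 := congrArg (Polynomial.eval p) (bernsteinPolynomial.sum ℝ N)
  have h2 := congrArg (Polynomial.eval p) (bernsteinPolynomial.sum_smul ℝ N)
  simp only [bernsteinPolynomial, Polynomial.eval_finsetSum, Polynomial.eval_mul,
    Polynomial.eval_natCast, Polynomial.eval_pow, Polynomial.eval_X, Polynomial.eval_sub,
    Polynomial.eval_one, nsmul_eq_mul, Polynomial.eval_natCast_mul] at h1 h2
  have h3 : ∑ j ∈ range (N + 1), ((j : ℝ) - 1) * (N.choose j : ℝ) * (p ^ j * (1 - p) ^ (N - j)) =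
      ∑ x ∈ range (N + 1), (x : ℝ) * ((N.choose x : ℝ) * p ^ x * (1 - p) ^ (N - x)) -
        ∑ x ∈ range (N + 1), (N.choose x : ℝ) * p ^ x * (1 - p) ^ (N - x) := by
    rw [← Finset.sum_sub_distrib]
    refine Finset.sum_congr rfl fun j _ => ?_
    ring
  rw [h3, h1, h2]

private theorem CiEp_bin' (N d : ℕ) (p : ℝ) :
    ∑ j ∈ range (N + d + 1), ((j : ℝ) - 1) * (N.choose j : ℝ) * (p ^ j * (1 - p) ^ (N + d - j)) =
      (1 - p) ^ d * (N * p - 1) := by
  rw [← CiEp_bin N p, Finset.mul_sum]
  symm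
  have hsub : range (N + 1) ⊆ range (N + d + 1) := Finset.range_subset_range.2 (by omega)
  rw [← Finset.sum_subset hsub]
  · refine Finset.sum_congr rfl fun j hj => ?_
    have hj' : j ≤ N := by
      have := Finset.mem_range.1 hj
      omega
    have e : N + d - j = (N - j) + d := by omega
    rw [e, pow_add]
    ring
  · intro j _ hj
    have : N < j := by
      rw [Finset.mem_range] at hj
      omega
    rw [Nat.choose_eq_zero_of_lt this]
    simp

/-- `E comp = ∑_{a ≥ 1} p^a q^(m-a) (∑_{|W| = a} (comp W - 1) + C(m, a))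
≤ 1 - q^m + ∑_{a ≥ 1} p^a q^(m-a) (a - 1) C(m - d, a)` (`strand_sum`, `grig_nor`; `comp ∅ = 0`), and
`∑_{a ≥ 0} p^a q^(m-d-a) (a - 1) C(m - d, a) = (m - d) p - 1`. -/
theorem ci_ep {d : ℕ} (hd : 3 ≤ d) {L : Finset (Finset ι)} (hL : IsNor d L) (hne : L.Nonempty)
    {p : ℝ} (hp0 : 0 ≤ p) (hp1 : p ≤ 1) :
    Ep p (verts L) (fun S => (comp (adj L) S : ℝ)) ≤
      1 - (1 - p) ^ d + ((verts L).card - d) * (p * (1 - p) ^ d) := by
  have hV := CiEp_verts hd hL hne
  have hq : 0 ≤ 1 - p := by linarith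
  have hrig := grig_nor hd hL hne
  have hc : ∀ j, ∑ S ∈ (verts L).powersetCard j, (comp (adj L) S : ℝ) ≤
      ((j : ℝ) - 1) * (((verts L).card - d).choose j : ℝ) + (((verts L).card).choose j : ℝ) := by
    intro j
    rcases Nat.eq_zero_or_pos j with rfl | hj
    · rw [Finset.powersetCard_zero, Finset.sum_singleton, Pool.TSph.comp_empty]
      simp
    · have h1 := strand_sum d (verts L) (adj L) (fun x y h => Pool.TSph.adj_symm h) hV hrig j hj
      rw [Finset.sum_sub_distrib, Finset.sum_const, Finset.card_powersetCard, nsmul_eq_mul,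
        mul_one] at h1
      linarith
  unfold Pool.TSph.Ep
  rw [Finset.sum_powerset]
  have h1 : ∀ j ∈ range ((verts L).card + 1),
      ∑ S ∈ (verts L).powersetCard j,
        p ^ S.card * (1 - p) ^ ((verts L).card - S.card) * (comp (adj L) S : ℝ) ≤
      ((j : ℝ) - 1) * (((verts L).card - d).choose j : ℝ) *
          (p ^ j * (1 - p) ^ ((verts L).card - j)) +
        p ^ j * (1 - p) ^ ((verts L).card - j) * (((verts L).card).choose j : ℝ) := by
    intro j _
    have e1 : ∑ S ∈ (verts L).powersetCard j,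
        p ^ S.card * (1 - p) ^ ((verts L).card - S.card) * (comp (adj L) S : ℝ) =
        p ^ j * (1 - p) ^ ((verts L).card - j) *
          ∑ S ∈ (verts L).powersetCard j, (comp (adj L) S : ℝ) := by
      rw [Finset.mul_sum]
      refine Finset.sum_congr rfl fun S hS => ?_
      rw [(Finset.mem_powersetCard.1 hS).2]
    rw [e1]
    have h2 : 0 ≤ p ^ j * (1 - p) ^ ((verts L).card - j) :=
      mul_nonneg (pow_nonneg hp0 _) (pow_nonneg hq _)
    nlinarith [mul_le_mul_of_nonneg_left (hc j) h2]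
  refine le_trans (Finset.sum_le_sum h1) ?_
  rw [Finset.sum_add_distrib]
  have h2 : ∑ j ∈ range ((verts L).card + 1),
      p ^ j * (1 - p) ^ ((verts L).card - j) * (((verts L).card).choose j : ℝ) = 1 := by
    rw [← add_pow]
    rw [show p + (1 - p) = 1 by ring, one_pow]
  have h3 := CiEp_bin' ((verts L).card - d) d p
  rw [show (verts L).card - d + d = (verts L).card by omega] at h3
  rw [h2, h3]
  have h4 : (((verts L).card - d : ℕ) : ℝ) = ((verts L).card : ℝ) - d := by
    rw [Nat.cast_sub (by omega)]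
  rw [h4]
  apply le_of_eq
  ring

end Pool.TSphM
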