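import Pool.Agent.Lib.MP_3de3a3_co.M.Defs
import Pool.Agent.Lib.MP_3de3a3_co.M.CiEp
import Pool.Agent.Lib.MP_3de3a3_co.BetaInt
import Pool.Agent.Lib.MP_3de3a3_co.DInt

/-! # The expected number of components above (module M/IntW) -/

set_option autoImplicit false

namespace Pool.TSphM

open Finset
open Pool.TSph (verts IsSphere2 adj comp Ep PhiK)
open Pool.TSphD (fc rdg lk Lo PM side IsLF mv Closings)

variable {ι : Type*} [DecidableEq ι]

/-- Passing to the complement replaces `p` by `1 - p`. -/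
private theorem intw_compl (p : ℝ) (W : Finset ι) (f : Finset ι → ℝ) :
    Ep p W (fun U => f (W \ U)) = Ep (1 - p) W f := by
  unfold Pool.TSph.Ep
  refine Finset.sum_bij' (fun S _ => W \ S) (fun S _ => W \ S) ?_ ?_ ?_ ?_ ?_
  · intro S _
    exact Finset.mem_powerset.2 Finset.sdiff_subset
  · intro S _
    exact Finset.mem_powerset.2 Finset.sdiff_subset
  · intro S hS
    exact Finset.sdiff_sdiff_eq_self (Finset.mem_powerset.1 hS)
  · intro S hS
    exact Finset.sdiff_sdiff_eq_self (Finset.mem_powerset.1 hS)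
  · intro S hS
    have h1 : (W \ S).card = W.card - S.card := Finset.card_sdiff_of_subset (Finset.mem_powerset.1 hS)
    have h2 : S.card ≤ W.card := Finset.card_le_card (Finset.mem_powerset.1 hS)
    show p ^ S.card * (1 - p) ^ (W.card - S.card) * f (W \ S) =
      (1 - p) ^ (W \ S).card * (1 - (1 - p)) ^ (W.card - (W \ S).card) * f (W \ S)
    rw [h1, show W.card - (W.card - S.card) = S.card by omega, show 1 - (1 - p) = p by ring]
    ring

omit [DecidableEq ι] in
private theorem intw_sub (p : ℝ) (W : Finset ι) (f : Finset ι → ℝ) :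
    Ep p W (fun U => f U - 1) = Ep p W f - 1 := by
  have h1 : ∑ S ∈ W.powerset, p ^ S.card * (1 - p) ^ (W.card - S.card) = 1 := by
    rw [Finset.sum_pow_mul_eq_add_pow]
    rw [show p + (1 - p) = 1 by ring, one_pow]
  unfold Pool.TSph.Ep
  have h2 : ∀ S ∈ W.powerset, p ^ S.card * (1 - p) ^ (W.card - S.card) * (f S - 1) =
      p ^ S.card * (1 - p) ^ (W.card - S.card) * f S - p ^ S.card * (1 - p) ^ (W.card - S.card) :=
    fun S _ => by ring
  rw [Finset.sum_congr rfl h2, Finset.sum_sub_distrib, h1]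

/-- `Ep p W (fun U => f (W \ U)) = Ep (1 - p) W f`; by `ci_ep` (at `1 - p`) the integrand is at most
`j (1 - p)^(j-1) (- p^D + (V - D) (1 - p) p^D)`, and by `integral_beta`
`∫ j (1-p)^(j-1) p^D = 1 / C(D + j, j) = Ej (D + j) j * (D + j + 1) / j`,
`∫ j (1-p)^j p^D = j j! D! / (D + j + 1)! = Ej (D + j) j`. -/
theorem int_w {D j : ℕ} (hD : 3 ≤ D) (hj : 1 ≤ j) {L : Finset (Finset ι)} (hL : IsNor D L)
    (hne : L.Nonempty) :
    PhiK j (verts L) (fun U => (comp (adj L) (verts L \ U) : ℝ) - 1) ≤
      bet (D + j) j ((verts L).card : ℝ) := by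
  obtain ⟨i, rfl⟩ : ∃ i, j = i + 1 := ⟨j - 1, by omega⟩
  unfold Pool.TSph.PhiK
  rw [Nat.add_sub_cancel]
  set V : ℝ := ((verts L).card : ℝ) with hV
  have hmono : ∫ p in (0:ℝ)..1, ((i + 1 : ℕ) : ℝ) * (1 - p) ^ i *
      Ep p (verts L) (fun U => (comp (adj L) (verts L \ U) : ℝ) - 1) ≤
      ∫ p in (0:ℝ)..1, ((V - D) * ((i : ℝ) + 1) * (p ^ D * (1 - p) ^ (i + 1)) -
        ((i : ℝ) + 1) * (p ^ D * (1 - p) ^ i)) := by
    refine intervalIntegral.integral_mono_on (by norm_num) ?_ ?_ ?_
    · exact Continuous.intervalIntegrable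
        (by
          have := Pool.TSph.Ep_cont (verts L)
            (fun U => (comp (adj L) (verts L \ U) : ℝ) - 1)
          fun_prop) _ _
    · exact Continuous.intervalIntegrable (by fun_prop) _ _
    · intro p hp
      have h0 : Ep p (verts L) (fun U => (comp (adj L) (verts L \ U) : ℝ) - 1) =
          Ep (1 - p) (verts L) (fun S => (comp (adj L) S : ℝ)) - 1 := by
        rw [intw_sub p (verts L) (fun U => (comp (adj L) (verts L \ U) : ℝ)),
          intw_compl p (verts L) (fun S => (comp (adj L) S : ℝ))]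
      have h1 := ci_ep hD hL hne (p := 1 - p) (by linarith [hp.2]) (by linarith [hp.1])
      rw [show 1 - (1 - p) = p by ring] at h1
      rw [h0]
      have h2 : (0 : ℝ) ≤ ((i + 1 : ℕ) : ℝ) * (1 - p) ^ i :=
        mul_nonneg (Nat.cast_nonneg _) (pow_nonneg (by linarith [hp.2]) _)
      refine le_trans (mul_le_mul_of_nonneg_left (sub_le_sub_right h1 1) h2) (le_of_eq ?_)
      rw [← hV]
      push_cast
      ring
  refine le_trans hmono (le_of_eq ?_)
  rw [intervalIntegral.integral_sub, intervalIntegral.integral_const_mul,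
    intervalIntegral.integral_const_mul, Pool.TSph.integral_beta, Pool.TSph.integral_beta]
  · unfold bet Ej
    rw [show D + (i + 1) - (i + 1) = D by omega, show D + (i + 1) + 1 = D + i + 1 + 1 by ring,
      Nat.factorial_succ (D + i + 1), Nat.factorial_succ i]
    have a1 : ((D + i + 1).factorial : ℝ) ≠ 0 := by exact_mod_cast (D + i + 1).factorial_ne_zero
    have a2 : ((i : ℝ) + 1) ≠ 0 := by positivity
    have a3 : ((D : ℝ) + i + 1 + 1) ≠ 0 := by positivity
    push_cast
    have e1 : ((D : ℝ) + (i + 1) + 1) = D + i + 1 + 1 := by ring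
    rw [e1]
    field_simp
    ring
  · exact Continuous.intervalIntegrable (by fun_prop) _ _
  · exact Continuous.intervalIntegrable (by fun_prop) _ _

end Pool.TSphM
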