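import Pool.Agent.Lib.MP_3de3a3_co.M.Defs
import Pool.Agent.Lib.MP_3de3a3_co.M.AvgMn
import Pool.Agent.Lib.MP_3de3a3_co.M.IntW
import Pool.Agent.Lib.MP_3de3a3_co.M.IntB
import Pool.Agent.Lib.MP_3de3a3_co.M.Cost
import Pool.Agent.Lib.MP_3de3a3_co.M.Links
import Pool.Agent.Lib.MP_3de3a3_co.DOrder

/-! # There is a cheap vertex order (module M/ExPos) -/

set_option autoImplicit false

namespace Pool.TSphM

open Finset
open Pool.TSph (verts IsSphere2 adj comp Ep PhiK)
open Pool.TSphD (fc rdg lk Lo PM side IsLF mv Closings)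

variable {ι : Type*} [DecidableEq ι]

private theorem ExPos_disj (F : Finset (Finset ι)) (s : Finset ι) :
    Disjoint s (verts (lk F s)) := by
  rw [Finset.disjoint_left]
  intro x hx hv
  obtain ⟨t, ht, hxt⟩ := Pool.TSph.mem_verts.1 hv
  obtain ⟨h1, -⟩ := Pool.TSphD.mem_lk'.1 ht
  exact Finset.disjoint_left.1 h1 hx hxt

private theorem ExPos_pos {F : Finset (Finset ι)} {j : ℕ} {s : Finset ι} (hs : s ∈ fc j F) :
    0 < dg F s := by
  obtain ⟨-, a, ha, hsa⟩ := Pool.TSphD.mem_fc.1 hs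
  exact Finset.card_pos.2 ⟨a, Finset.mem_filter.2 ⟨ha, hsa⟩⟩

private theorem ExPos_ls {F : Finset (Finset ι)} {s t : Finset ι} (hst : t ⊆ s)
    (h : 0 < dg F s) : ls F s ≤ ls F t := by
  unfold ls
  refine Real.log_le_log (by exact_mod_cast h) ?_
  have : dg F s ≤ dg F t := by
    unfold dg up
    refine Finset.card_le_card fun a ha => ?_
    obtain ⟨h1, h2⟩ := Finset.mem_filter.1 ha
    exact Finset.mem_filter.2 ⟨h1, hst.trans h2⟩
  exact_mod_cast this

private theorem ExPos_ls0 {F : Finset (Finset ι)} {s : Finset ι} : 0 ≤ ls F s := by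
  unfold ls
  exact Real.log_natCast_nonneg _

private theorem ExPos_av {s : Finset ι} {h : ι → ℝ} (hh : ∀ x ∈ s, 0 ≤ h x) : 0 ≤ av s h := by
  unfold av
  exact div_nonneg (Finset.sum_nonneg hh) (Nat.cast_nonneg _)

private theorem ExPos_lo [Fintype ι] (F : Finset (Finset ι)) (s : Finset ι)
    (φ : Numbering ι) : ((verts (lk F s)).filter (fun y => ∀ x ∈ s, (φ y : ℕ) < φ x)) =
      Lo F (fun y => (φ y : ℕ)) s := by
  ext y
  simp only [Pool.TSphD.Lo, Finset.mem_filter]

private theorem ExPos_term1 [Fintype ι] {k j : ℕ} {F : Finset (Finset ι)} (hj1 : 1 ≤ j)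
    (hjk : j ≤ k) (hF : IsNor (k + 3) F) {s : Finset ι} (hs : s ∈ fc j F) :
    ∑ φ : Numbering ι, ((comp (adj (lk F s)) (Wo F (fun y => (φ y : ℕ)) s) : ℝ) - 1) *
        mn (fun y => (φ y : ℕ)) s (fun x => ls F (s.erase x) - ls F s) ≤
      (Fintype.card ι).factorial * (bet (k + 3) j (vl F s) * dl F s) := by
  have hcard : s.card = j := (Pool.TSphD.mem_fc.1 hs).1
  have hne : s.Nonempty := Finset.card_pos.1 (by omega)
  have h1 := average_mn s hne (verts (lk F s)) (ExPos_disj F s)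
    (fun U => (comp (adj (lk F s)) (verts (lk F s) \ U) : ℝ) - 1)
    (fun x => ls F (s.erase x) - ls F s)
  simp only [ExPos_lo] at h1
  refine le_trans (le_of_eq h1) ?_
  refine mul_le_mul_of_nonneg_left ?_ (Nat.cast_nonneg _)
  refine mul_le_mul_of_nonneg_right ?_ (ExPos_av fun x _ => ?_)
  · rw [hcard]
    have hnor : IsNor (k + 3 - j) (lk F s) := nor_link hF hs (by omega)
    have hlne : (lk F s).Nonempty := by
      obtain ⟨-, a, ha, hsa⟩ := Pool.TSphD.mem_fc.1 hs
      exact ⟨a \ s, Pool.TSphD.mem_lk.2 ⟨a, ha, hsa, rfl⟩⟩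
    have h2 := int_w (D := k + 3 - j) (j := j) (by omega) hj1 hnor hlne
    rw [show k + 3 - j + j = k + 3 by omega] at h2
    exact h2
  · exact sub_nonneg.2 (ExPos_ls (Finset.erase_subset _ _) (ExPos_pos hs))

private theorem ExPos_term2 [Fintype ι] {k : ℕ} {F : Finset (Finset ι)} (hk : 1 ≤ k)
    (hF : IsNor (k + 3) F) {t : Finset ι} (ht : t ∈ fc k F) :
    ∑ φ : Numbering ι, ((fin 2 (lk F t) (Lo F (fun y => (φ y : ℕ)) t) : ℝ) -
      (Lo F (fun y => (φ y : ℕ)) t).card +
      comp (adj (lk F t)) (Lo F (fun y => (φ y : ℕ)) t) -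
        fin 3 (lk F t) (Lo F (fun y => (φ y : ℕ)) t)) *
        mn (fun y => (φ y : ℕ)) t (fun x => ls F (t.erase x)) ≤
      (Fintype.card ι).factorial * (bet (k + 3) k (vl F t) * (dl F t + ls F t)) := by
  have hcard : t.card = k := (Pool.TSphD.mem_fc.1 ht).1
  have hne : t.Nonempty := Finset.card_pos.1 (by omega)
  have h1 := average_mn t hne (verts (lk F t)) (ExPos_disj F t)
    (fun U => (fin 2 (lk F t) U : ℝ) - U.card + comp (adj (lk F t)) U - fin 3 (lk F t) U)
    (fun x => ls F (t.erase x))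
  simp only [ExPos_lo] at h1
  refine le_trans (le_of_eq h1) ?_
  have hav : av t (fun x => ls F (t.erase x)) = dl F t + ls F t := by
    unfold dl av
    rw [Finset.sum_sub_distrib, Finset.sum_const, nsmul_eq_mul]
    have : (t.card : ℝ) ≠ 0 := by
      rw [hcard]
      exact_mod_cast (by omega : k ≠ 0)
    field_simp
    ring
  rw [← hav]
  refine mul_le_mul_of_nonneg_left ?_ (Nat.cast_nonneg _)
  refine mul_le_mul_of_nonneg_right ?_ (ExPos_av fun x _ => ExPos_ls0)
  rw [hcard]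
  have hsp : IsSphere2 (lk F t) := hF.sphere t (by simpa using ht)
  exact int_b hk hsp

/-- As `exists_order_lower` (file DOrder.lean). By `average_mn` (`N = verts (lk F s)`, note
`(verts (lk F s)).filter (fun y => ∀ x ∈ s, φ y < φ x) = Lo F pos s`, `Wo = verts \ Lo`) the average
of `costB` over all numberings is
`∑_{j=1..k-1} ∑_s PhiK j _ (comp (verts \ U) - 1) * dl F s
+ ∑_{t ∈ fc k F} PhiK k _ (fin 2 - card + comp - fin 3) * av t (ls F (t - x)) + ls F ∅`.
Use `int_w` for the link of `s` (`nor_link`, dimension `k + 3 - j`), `int_b`, and that the weights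
`dl F s` and `av t (ls F (t - x))` are nonnegative; `av t (ls F (t - x)) = dl F t + ls F t`. -/
theorem exists_pos {k : ℕ} [Fintype ι] {F : Finset (Finset ι)} (hk : 0 < k)
    (hF : IsNor (k + 3) F) (hne : F.Nonempty) :
    ∃ pos : ι → ℕ, Function.Injective pos ∧ costB k F pos ≤
      (F.card : ℝ) * ∑ j ∈ Icc 1 k, bb (k + 3) F j +
        (∑ t ∈ fc k F, bet (k + 3) k (vl F t) * ls F t) + ls F ∅ := by
  have hcard : Fintype.card (Numbering ι) = (Fintype.card ι).factorial :=
    Fintype.card_numbering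
  have hneφ : (univ : Finset (Numbering ι)).Nonempty := by
    rw [← card_pos, card_univ, hcard]
    exact Nat.factorial_pos _
  have hF0 : (F.card : ℝ) ≠ 0 := by
    exact_mod_cast (Finset.card_pos.2 hne).ne'
  set B : ℝ := (F.card : ℝ) * ∑ j ∈ Icc 1 k, bb (k + 3) F j +
        (∑ t ∈ fc k F, bet (k + 3) k (vl F t) * ls F t) + ls F ∅ with hB
  have hBeq : B = (∑ j ∈ Ico 1 k, ∑ s ∈ fc j F, bet (k + 3) j (vl F s) * dl F s) +
      (∑ t ∈ fc k F, bet (k + 3) k (vl F t) * (dl F t + ls F t)) + ls F ∅ := by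
    have e1 : (F.card : ℝ) * ∑ j ∈ Icc 1 k, bb (k + 3) F j =
        ∑ j ∈ Icc 1 k, ∑ s ∈ fc j F, bet (k + 3) j (vl F s) * dl F s := by
      rw [Finset.mul_sum]
      refine Finset.sum_congr rfl fun j _ => ?_
      unfold bb
      field_simp
    have e2 : ∑ j ∈ Icc 1 k, ∑ s ∈ fc j F, bet (k + 3) j (vl F s) * dl F s =
        (∑ j ∈ Ico 1 k, ∑ s ∈ fc j F, bet (k + 3) j (vl F s) * dl F s) +
          ∑ s ∈ fc k F, bet (k + 3) k (vl F s) * dl F s := by
      rw [← Finset.Ico_insert_right (by omega : 1 ≤ k), Finset.sum_insert (by simp), add_comm]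
    rw [hB, e1, e2]
    have e3 : ∑ t ∈ fc k F, bet (k + 3) k (vl F t) * (dl F t + ls F t) =
        ∑ t ∈ fc k F, bet (k + 3) k (vl F t) * dl F t +
          ∑ t ∈ fc k F, bet (k + 3) k (vl F t) * ls F t := by
      rw [← Finset.sum_add_distrib]
      exact Finset.sum_congr rfl fun t _ => by ring
    rw [e3]
    ring
  have htot : ∑ φ : Numbering ι, costB k F (fun y => (φ y : ℕ)) ≤
      ∑ _φ : Numbering ι, B := by
    rw [sum_const, card_univ, hcard, nsmul_eq_mul, hBeq]
    unfold costB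
    rw [Finset.sum_add_distrib, Finset.sum_add_distrib, mul_add, mul_add]
    refine add_le_add (add_le_add ?_ ?_) (le_of_eq ?_)
    · rw [Finset.sum_comm, Finset.mul_sum]
      refine Finset.sum_le_sum fun j hj => ?_
      rw [Finset.sum_comm, Finset.mul_sum]
      obtain ⟨h1, h2⟩ := Finset.mem_Ico.1 hj
      exact Finset.sum_le_sum fun s hs => ExPos_term1 h1 h2.le hF hs
    · rw [Finset.sum_comm, Finset.mul_sum]
      exact Finset.sum_le_sum fun t ht => ExPos_term2 hk hF ht
    · rw [sum_const, card_univ, hcard, nsmul_eq_mul]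
  obtain ⟨φ, -, hφ⟩ := exists_le_of_sum_le hneφ htot
  refine ⟨fun y => (φ y : ℕ), ?_, hφ⟩
  intro a b hab
  exact φ.injective (Fin.ext hab)

end Pool.TSphM
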