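import Pool.Agent.Lib.MP_3de3a3_co.M.Defs
import Pool.Agent.Lib.MP_3de3a3_co.M.Links
import Pool.Agent.Lib.MP_3de3a3_co.M.MinF

/-! # Size biased sums (module M/SumDg) -/

set_option autoImplicit false

namespace Pool.TSphM

open Finset
open Pool.TSph (verts IsSphere2 adj comp Ep PhiK)
open Pool.TSphD (fc rdg lk Lo PM side IsLF mv Closings)

variable {ι : Type*} [DecidableEq ι]

private theorem sumdg_dc (F : Finset (Finset ι)) (j : ℕ) {R : Type*} [CommSemiring R] (φ : Finset ι → R) :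
    ∑ s ∈ fc j F, (dg F s : R) * φ s = ∑ a ∈ F, ∑ s ∈ a.powersetCard j, φ s := by
  have h1 : ∀ s, (dg F s : R) * φ s = ∑ a ∈ F, if s ⊆ a then φ s else 0 := by
    intro s
    rw [← sum_filter, sum_const, nsmul_eq_mul]
    rfl
  simp only [h1]
  rw [sum_comm]
  refine sum_congr rfl fun a ha => ?_
  rw [← sum_filter]
  refine sum_congr ?_ fun _ _ => rfl
  ext s
  simp only [mem_filter, fc, mem_biUnion, mem_powersetCard]
  constructor
  · rintro ⟨⟨b, _, _, hc⟩, h⟩
    exact ⟨h, hc⟩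
  · rintro ⟨h, hc⟩
    exact ⟨⟨a, ha, h, hc⟩, h⟩

/-- Double counting of the pairs `s ⊆ a`, `a ∈ F`, `|s| = j`. -/
theorem sum_dg {d : ℕ} {F : Finset (Finset ι)} (hF : ∀ a ∈ F, a.card = d) (j : ℕ) :
    ∑ s ∈ fc j F, dg F s = F.card * d.choose j := by
  have h := sumdg_dc F j (R := ℕ) (fun _ => 1)
  simp only [mul_one, Nat.cast_id] at h
  rw [h]
  have : ∀ a ∈ F, ∑ s ∈ a.powersetCard j, 1 = d.choose j := by
    intro a ha
    rw [sum_const, card_powersetCard, hF a ha, smul_eq_mul, mul_one]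
  rw [sum_congr rfl this, sum_const, smul_eq_mul]

private theorem sumdg_erase (a : Finset ι) (j : ℕ) (hj : j ≤ a.card) (h : Finset ι → ℝ) :
    ∑ s ∈ a.powersetCard (j + 1), ∑ x ∈ s, h (s.erase x) =
      ((a.card : ℝ) - j) * ∑ s ∈ a.powersetCard j, h s := by
  have h1 : ((a.card : ℝ) - j) * ∑ s ∈ a.powersetCard j, h s =
      ∑ s ∈ a.powersetCard j, ∑ x ∈ a \ s, h s := by
    rw [mul_sum]
    refine sum_congr rfl fun s hs => ?_
    rw [mem_powersetCard] at hs
    rw [sum_const, nsmul_eq_mul, card_sdiff_of_subset hs.1, hs.2, Nat.cast_sub hj]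
  rw [h1, sum_sigma', sum_sigma']
  refine sum_bij' (fun z _ => ⟨z.1.erase z.2, z.2⟩) (fun z _ => ⟨insert z.2 z.1, z.2⟩) ?_ ?_ ?_ ?_ ?_
  · rintro ⟨s, x⟩ hz
    simp only [mem_sigma, mem_powersetCard, mem_sdiff] at hz ⊢
    obtain ⟨⟨h2, h3⟩, h4⟩ := hz
    refine ⟨⟨(erase_subset _ _).trans h2, ?_⟩, h2 h4, notMem_erase _ _⟩
    rw [card_erase_of_mem h4, h3]
    rfl
  · rintro ⟨s, x⟩ hz
    simp only [mem_sigma, mem_powersetCard, mem_sdiff] at hz ⊢
    obtain ⟨⟨h2, h3⟩, h4, h5⟩ := hz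
    refine ⟨⟨insert_subset h4 h2, ?_⟩, mem_insert_self _ _⟩
    rw [card_insert_of_notMem h5, h3]
  · rintro ⟨s, x⟩ hz
    simp only [mem_sigma, mem_powersetCard] at hz
    simp only [insert_erase hz.2]
  · rintro ⟨s, x⟩ hz
    simp only [mem_sigma, mem_powersetCard, mem_sdiff] at hz
    simp only [erase_insert hz.2.2]
  · rintro ⟨s, x⟩ hz
    rfl

/-- Double counting: both sides are sums over `a ∈ F`, `s ⊆ a` with `j` elements, and the `d - j`
elements of `a \ s`. -/
theorem sum_dg_erase {d : ℕ} {F : Finset (Finset ι)} (hF : ∀ a ∈ F, a.card = d) {j : ℕ}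
    (hj : j ≤ d) (h : Finset ι → ℝ) :
    ∑ s ∈ fc (j + 1) F, (dg F s : ℝ) * ∑ x ∈ s, h (s.erase x) =
      ((d : ℝ) - j) * ∑ s ∈ fc j F, (dg F s : ℝ) * h s := by
  rw [sumdg_dc F (j + 1) (fun s => ∑ x ∈ s, h (s.erase x)), sumdg_dc F j h, mul_sum]
  refine sum_congr rfl fun a ha => ?_
  rw [sumdg_erase a j (by rw [hF a ha]; exact hj) h, hF a ha]

/-- From `sum_dg_erase` for `j - 1` and `h = ls F`, and
`C(d, j) j = C(d, j - 1) (d - j + 1)`. -/
theorem sum_dg_dl {d : ℕ} {F : Finset (Finset ι)} (hF : ∀ a ∈ F, a.card = d)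
    (hne : F.Nonempty) {j : ℕ} (hj : 1 ≤ j) (hjd : j ≤ d) :
    ∑ s ∈ fc j F, (dg F s : ℝ) * dl F s = F.card * d.choose j * Dl d F j := by
  obtain ⟨i, rfl⟩ : ∃ i, j = i + 1 := ⟨j - 1, by omega⟩
  have hn : (0 : ℝ) < F.card := by exact_mod_cast hne.card_pos
  have hi0 : (0 : ℝ) < (i : ℝ) + 1 := by positivity
  have h1 : ∀ s ∈ fc (i + 1) F, (dg F s : ℝ) * dl F s =
      (1 / ((i : ℝ) + 1)) * ((dg F s : ℝ) * ∑ x ∈ s, ls F (s.erase x)) - (dg F s : ℝ) * ls F s := by
    intro s hs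
    have hc : s.card = i + 1 := by
      simp only [fc, mem_biUnion, mem_powersetCard] at hs
      obtain ⟨_, _, _, hc⟩ := hs
      exact hc
    unfold dl av
    rw [sum_sub_distrib, sum_const, hc, nsmul_eq_mul]
    push_cast
    field_simp
  rw [sum_congr rfl h1, sum_sub_distrib, ← mul_sum, sum_dg_erase hF (by omega : i ≤ d) (ls F)]
  have hc1 : (0 : ℝ) < d.choose (i + 1) := by exact_mod_cast Nat.choose_pos hjd
  have hc2 : (0 : ℝ) < d.choose i := by exact_mod_cast Nat.choose_pos (by omega : i ≤ d)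
  have hch : (d.choose (i + 1) : ℝ) * (i + 1) = d.choose i * (d - i) := by
    have := Nat.choose_succ_right_eq d i
    have h2 : ((d.choose (i + 1) * (i + 1) : ℕ) : ℝ) = ((d.choose i * (d - i) : ℕ) : ℝ) := by
      exact_mod_cast this
    rw [Nat.cast_mul, Nat.cast_mul, Nat.cast_sub (by omega)] at h2
    push_cast at h2
    exact h2
  unfold Dl Lam
  rw [Nat.add_sub_cancel]
  set A := ∑ s ∈ fc i F, (dg F s : ℝ) * ls F s with hA
  set B := ∑ s ∈ fc (i + 1) F, (dg F s : ℝ) * ls F s with hB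
  have e1 : (1 / ((i : ℝ) + 1)) * (((d : ℝ) - i) * A) = (F.card : ℝ) * d.choose (i + 1) * (A / (F.card * d.choose i)) := by
    rw [one_div, ← div_eq_inv_mul, div_eq_iff hi0.ne']
    have : (F.card : ℝ) * d.choose (i + 1) * (A / (F.card * d.choose i)) * ((i : ℝ) + 1) =
        (d.choose (i + 1) * (i + 1)) * A / d.choose i := by
      field_simp
    rw [this, hch]
    field_simp
  rw [e1]
  field_simp

private theorem sumdg_mono (F : Finset (Finset ι)) (s : Finset ι) (x : ι) : dg F s ≤ dg F (s.erase x) := by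
  unfold dg up
  refine card_le_card fun a ha => ?_
  rw [mem_filter] at ha ⊢
  exact ⟨ha.1, (erase_subset _ _).trans ha.2⟩

/-- Every face has at least as many facets as its subsets have less. -/
theorem dl_nonneg (F : Finset (Finset ι)) {s : Finset ι} (hs : 0 < dg F s) : 0 ≤ dl F s := by
  unfold dl av
  refine div_nonneg (sum_nonneg fun x _ => ?_) (Nat.cast_nonneg _)
  unfold ls
  rw [sub_nonneg]
  refine Real.log_le_log (by exact_mod_cast hs) (by exact_mod_cast sumdg_mono F s x)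

theorem ls_nonneg (F : Finset (Finset ι)) (s : Finset ι) : 0 ≤ ls F s := Real.log_natCast_nonneg _

/-- `Lam d F 0 = log n`. -/
theorem Lam_zero {d : ℕ} {F : Finset (Finset ι)} (hne : F.Nonempty) :
    Lam d F 0 = Real.log F.card := by
  have hn : (0 : ℝ) < F.card := by exact_mod_cast hne.card_pos
  have h1 : fc 0 F = {∅} := by
    ext s
    simp only [fc, mem_biUnion, mem_powersetCard, mem_singleton]
    constructor
    · rintro ⟨_, _, _, hc⟩
      exact card_eq_zero.1 hc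
    · rintro rfl
      obtain ⟨a, ha⟩ := hne
      exact ⟨a, ha, empty_subset _, rfl⟩
  have h2 : dg F ∅ = F.card := by
    unfold dg up
    congr 1
    exact filter_true_of_mem fun a _ => empty_subset a
  unfold Lam
  rw [h1, sum_singleton]
  unfold ls
  rw [h2, Nat.choose_zero_right, Nat.cast_one, mul_one, mul_div_cancel_left₀ _ hn.ne']

end Pool.TSphM
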