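import Pool.Agent.Lib.MP_3de3a3_co.M.Defs
import Pool.Agent.Lib.MP_3de3a3_co.M.Sparse

/-! # Minima of degrees in 2-spheres (module M/MinDeg) -/

set_option autoImplicit false

namespace Pool.TSphM

open Finset
open Pool.TSph (verts IsSphere2 adj comp Ep PhiK)
open Pool.TSphD (fc rdg lk Lo PM side IsLF mv Closings)

variable {ι : Type*} [DecidableEq ι]

private theorem mindeg_card_lt {N a : ℕ} (h : a ≤ N) : ((range N).filter (fun s => s < a)).card = a := by
  have : (range N).filter (fun s => s < a) = range a := by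
    ext s
    simp only [mem_filter, mem_range]
    omega
  rw [this, card_range]

private theorem mindeg_dg_le (L : Finset (Finset ι)) (s : Finset ι) : dg L s ≤ L.card :=
  card_filter_le _ _

private theorem mindeg_sum_dg {L : Finset (Finset ι)} (h3 : ∀ t ∈ L, t.card = 3) :
    ∑ x ∈ verts L, dg L {x} = 3 * L.card := by
  have e : ∀ x, dg L {x} = ∑ t ∈ L, if x ∈ t then 1 else 0 := by
    intro x
    unfold dg up
    rw [card_filter]
    exact sum_congr rfl fun t _ => by simp [singleton_subset_iff]
  simp_rw [e]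
  rw [sum_comm]
  have e2 : ∀ t ∈ L, (∑ x ∈ verts L, if x ∈ t then 1 else 0) = 3 := by
    intro t ht
    rw [← card_filter]
    have : (verts L).filter (fun x => x ∈ t) = t := by
      ext x
      simp only [mem_filter, Pool.TSph.mem_verts]
      exact ⟨fun h => h.2, fun h => ⟨⟨t, ht, h⟩, h⟩⟩
    rw [this, h3 t ht]
  rw [sum_congr rfl e2, sum_const, smul_eq_mul, mul_comm]

/-- `∑_{e} min (deg x) (deg y) = ∑_{s ≥ 1} (number of edges with both degrees ≥ s)
≤ ∑_{s ≥ 1} 3 (number of vertices with degree ≥ s) = 3 ∑ deg = 9 |L|` (`sphere_sparse`), and every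
edge is in two triangles. The degree of `x` is `dg L {x}`, the number of triangles which contain
`x`; `m e` is any number which is at most the degrees of the two vertices of `e`. -/
theorem min_deg {L : Finset (Finset ι)} (hL : IsSphere2 L) (m : Finset ι → ℕ)
    (hm : ∀ e ∈ fc 2 L, ∀ x ∈ e, m e ≤ dg L {x}) :
    ∑ t ∈ L, ∑ e ∈ t.powersetCard 2, m e ≤ 18 * L.card := by
  have hmN : ∀ e ∈ fc 2 L, m e ≤ L.card := by
    intro e he
    obtain ⟨hc, t, ht, het⟩ := Pool.TSphD.mem_fc.1 he
    have hne : e.Nonempty := card_pos.1 (by omega)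
    obtain ⟨x, hx⟩ := hne
    exact (hm e he x hx).trans (mindeg_dg_le _ _)
  -- every edge is in two triangles
  have h1 : ∑ t ∈ L, ∑ e ∈ t.powersetCard 2, m e = ∑ e ∈ fc 2 L, 2 * m e := by
    have e1 : ∀ t ∈ L, ∑ e ∈ t.powersetCard 2, m e = ∑ e ∈ fc 2 L, if e ⊆ t then m e else 0 := by
      intro t ht
      rw [← sum_filter]
      refine sum_congr ?_ fun _ _ => rfl
      ext e
      simp only [mem_powersetCard, mem_filter, Pool.TSphD.mem_fc]
      exact ⟨fun h => ⟨⟨h.2, t, ht, h.1⟩, h.1⟩, fun h => ⟨h.2, h.1.1⟩⟩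
    rw [sum_congr rfl e1, sum_comm]
    refine sum_congr rfl fun e he => ?_
    rw [← sum_filter, sum_const, smul_eq_mul]
    obtain ⟨hc, t, ht, het⟩ := Pool.TSphD.mem_fc.1 he
    rw [hL.edge t ht e het hc]
  have h2 : ∑ e ∈ fc 2 L, m e ≤ 9 * L.card := by
    calc ∑ e ∈ fc 2 L, m e
        = ∑ e ∈ fc 2 L, ∑ s ∈ range L.card, if s < m e then 1 else 0 := by
          refine sum_congr rfl fun e he => ?_
          rw [← card_filter, mindeg_card_lt (hmN e he)]
      _ = ∑ s ∈ range L.card, ((fc 2 L).filter (fun e => s < m e)).card := by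
          rw [sum_comm]
          exact sum_congr rfl fun s _ => (card_filter _ _).symm
      _ ≤ ∑ s ∈ range L.card, 3 * ((verts L).filter (fun x => s < dg L {x})).card := by
          refine sum_le_sum fun s _ => ?_
          refine le_trans ?_ (sphere_sparse hL (filter_subset _ _))
          unfold fin
          refine card_le_card fun e he => ?_
          rw [mem_filter] at he ⊢
          refine ⟨he.1, fun x hx => ?_⟩
          obtain ⟨hc, t, ht, het⟩ := Pool.TSphD.mem_fc.1 he.1
          rw [mem_filter, Pool.TSph.mem_verts]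
          exact ⟨⟨t, ht, het hx⟩, he.2.trans_le (hm e he.1 x hx)⟩
      _ = 3 * ∑ x ∈ verts L, dg L {x} := by
          rw [← mul_sum]
          congr 1
          simp_rw [card_filter]
          rw [sum_comm]
          refine sum_congr rfl fun x _ => ?_
          rw [← card_filter, mindeg_card_lt (mindeg_dg_le _ _)]
      _ = 9 * L.card := by
          rw [mindeg_sum_dg hL.card3]
          ring
  rw [h1, ← mul_sum]
  omega

end Pool.TSphM
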