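import Pool.Agent.Lib.MP_3de3a3_co.M.Defs
import Pool.Agent.Lib.MP_3de3a3_co.M.MinDeg
import Pool.Agent.Lib.MP_3de3a3_co.M.Links
import Pool.Agent.Lib.MP_3de3a3_co.M.SumDg

/-! # Closed 3-manifolds (module M/Three) -/

set_option autoImplicit false

namespace Pool.TSphM

open Finset
open Pool.TSph (verts IsSphere2 adj comp Ep PhiK)
open Pool.TSphD (fc rdg lk Lo PM side IsLF mv Closings)

variable {ι : Type*} [DecidableEq ι]

private theorem three_sum_lk (L : Finset (Finset ι)) (h : ι → Finset ι → ℕ) :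
    ∑ F ∈ L, ∑ a ∈ F, h a (F \ {a}) = ∑ a ∈ verts L, ∑ t ∈ lk L {a}, h a t := by
  have e : ∀ a, ∑ t ∈ lk L {a}, h a t = ∑ F ∈ L, if a ∈ F then h a (F \ {a}) else 0 := by
    intro a
    unfold lk
    rw [sum_image, sum_filter]
    · exact sum_congr rfl fun F _ => by simp [singleton_subset_iff]
    · intro s hs t ht hst
      simp only [coe_filter, Set.mem_ofPred_eq, singleton_subset_iff] at hs ht
      have e1 : s = (s \ {a}) ∪ {a} := by
        ext x
        simp only [mem_union, mem_sdiff, mem_singleton]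
        by_cases hx : x = a
        · subst hx; simp [hs.2]
        · simp [hx]
      have e2 : t = (t \ {a}) ∪ {a} := by
        ext x
        simp only [mem_union, mem_sdiff, mem_singleton]
        by_cases hx : x = a
        · subst hx; simp [ht.2]
        · simp [hx]
      rw [e1, e2]
      exact congrArg (fun z => z ∪ {a}) hst
  simp_rw [e]
  rw [sum_comm]
  refine sum_congr rfl fun F hF => ?_
  rw [← sum_filter]
  refine sum_congr ?_ fun _ _ => rfl
  ext a
  simp only [mem_filter, Pool.TSph.mem_verts]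
  exact ⟨fun h => ⟨⟨F, hF, h⟩, h⟩, fun h => h.2⟩

private theorem three_sum_vert (L : Finset (Finset ι)) (g : ι → ℝ) :
    ∑ v ∈ verts L, (dg L {v} : ℝ) * g v = ∑ F ∈ L, ∑ v ∈ F, g v := by
  have e : ∀ v, (dg L {v} : ℝ) * g v = ∑ F ∈ L, if v ∈ F then g v else 0 := by
    intro v
    rw [← sum_filter, sum_const, nsmul_eq_mul]
    unfold dg up
    simp [singleton_subset_iff]
  simp_rw [e]
  rw [sum_comm]
  refine sum_congr rfl fun F hF => ?_
  rw [← sum_filter]
  refine sum_congr ?_ fun _ _ => rfl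
  ext a
  simp only [mem_filter, Pool.TSph.mem_verts]
  exact ⟨fun h => h.2, fun h => ⟨⟨F, hF, h⟩, h⟩⟩

private theorem three_sum_edge (L : Finset (Finset ι)) (g : Finset ι → ℝ) :
    ∑ F ∈ L, ∑ e ∈ F.powersetCard 2, g e = ∑ e ∈ fc 2 L, (dg L e : ℝ) * g e := by
  have e : ∀ e, (dg L e : ℝ) * g e = ∑ F ∈ L, if e ⊆ F then g e else 0 := by
    intro e
    rw [← sum_filter, sum_const, nsmul_eq_mul]
    rfl
  simp_rw [e]
  rw [sum_comm]
  refine sum_congr rfl fun F hF => ?_
  rw [← sum_filter]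
  refine sum_congr ?_ fun _ _ => rfl
  ext s
  simp only [mem_filter, mem_powersetCard, Pool.TSphD.mem_fc]
  exact ⟨fun h => ⟨⟨h.2, F, hF, h.1⟩, h.1⟩, fun h => ⟨h.2, h.1.1⟩⟩

private theorem three_pair {Nx Ny E n s : ℝ} (hx : 0 < Nx) (hy : 0 < Ny) (hE : 0 < E)
    (hn : 0 < n) (hs : E ≤ s) :
    Real.log Nx + Real.log Ny ≤ Real.log n + Nx * Ny / E / n + s := by
  have h1 : Real.log Nx + Real.log Ny =
      Real.log n + Real.log (Nx * Ny / E / n) + Real.log E := by
    rw [Real.log_div (by positivity) hn.ne', Real.log_div (by positivity) hE.ne',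
      Real.log_mul hx.ne' hy.ne']
    ring
  have h2 := Real.log_le_sub_one_of_pos (show 0 < Nx * Ny / E / n by positivity)
  have h3 := Real.log_le_sub_one_of_pos hE
  linarith

/-- The minimum of the degrees of the edges from `a` to the elements of `p`. -/
private noncomputable def three_m (L : Finset (Finset ι)) (a : ι) (p : Finset ι) : ℕ :=
  sInf ((fun x => dg L {a, x}) '' (p : Set ι))

private noncomputable def three_s (L : Finset (Finset ι)) (F : Finset ι) : ℕ :=
  ∑ a ∈ F, ∑ p ∈ (F \ {a}).powersetCard 2, three_m L a p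

private theorem three_m_le (L : Finset (Finset ι)) (a : ι) {p : Finset ι} {x : ι} (hx : x ∈ p) :
    three_m L a p ≤ dg L {a, x} :=
  Nat.sInf_le ⟨x, by exact_mod_cast hx, rfl⟩

private theorem three_or (L : Finset (Finset ι)) {F : Finset ι} {a x y : ι} (ha : a ∈ F)
    (hx : x ∈ F) (hy : y ∈ F) (hxa : x ≠ a) (hya : y ≠ a) (hxy : x ≠ y) :
    dg L {a, x} ≤ three_s L F ∨ dg L {a, y} ≤ three_s L F := by
  have h1 : three_m L a {x, y} ≤ three_s L F := by
    unfold three_s
    refine le_trans ?_ (single_le_sum (f := fun a => ∑ p ∈ (F \ {a}).powersetCard 2,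
      three_m L a p) (fun _ _ => Nat.zero_le _) ha)
    refine single_le_sum (f := fun p => three_m L a p) (fun _ _ => Nat.zero_le _) ?_
    rw [mem_powersetCard]
    refine ⟨?_, card_pair hxy⟩
    intro z hz
    rw [mem_insert, mem_singleton] at hz
    rw [mem_sdiff, mem_singleton]
    rcases hz with rfl | rfl
    · exact ⟨hx, hxa⟩
    · exact ⟨hy, hya⟩
  have h2 : three_m L a {x, y} ∈ (fun x => dg L {a, x}) '' (({x, y} : Finset ι) : Set ι) := by
    unfold three_m
    refine Nat.sInf_mem ?_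
    exact ⟨_, x, by simp, rfl⟩
  obtain ⟨z, hz, hz2⟩ := h2
  simp only [coe_insert, coe_singleton, Set.mem_insert_iff, Set.mem_singleton_iff] at hz
  simp only at hz2
  rcases hz with rfl | rfl
  · left; rw [hz2]; exact h1
  · right; rw [hz2]; exact h1

private theorem three_sum_s {L : Finset (Finset ι)} (hL : IsNor 4 L) :
    ∑ F ∈ L, three_s L F ≤ 72 * L.card := by
  unfold three_s
  rw [three_sum_lk L (fun a t => ∑ p ∈ t.powersetCard 2, three_m L a p)]
  have h1 : ∀ a ∈ verts L, ∑ t ∈ lk L {a}, ∑ p ∈ t.powersetCard 2, three_m L a p ≤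
      18 * dg L {a} := by
    intro a ha
    obtain ⟨F, hF, haF⟩ := Pool.TSph.mem_verts.1 ha
    have hs : IsSphere2 (lk L {a}) := by
      refine hL.sphere {a} ?_
      rw [Pool.TSphD.mem_fc]
      exact ⟨by simp, F, hF, by simpa using haF⟩
    rw [← card_lk]
    refine min_deg hs _ ?_
    intro e he x hx
    obtain ⟨-, t, ht, het⟩ := Pool.TSphD.mem_fc.1 he
    have hd := (Pool.TSphD.mem_lk'.1 ht).1
    have hxa : x ≠ a := by
      rintro rfl
      exact disjoint_left.1 hd (mem_singleton_self _) (het hx)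
    rw [dg_lk L (by rw [disjoint_singleton]; exact hxa.symm)]
    exact three_m_le L a hx
  refine (sum_le_sum h1).trans ?_
  rw [← mul_sum]
  have h2 : ∑ a ∈ verts L, dg L {a} = 4 * L.card := by
    have h3 := three_sum_vert L (fun _ => 1)
    simp only [mul_one, sum_const, nsmul_eq_mul] at h3
    have h5 : ∑ F ∈ L, ((F.card : ℕ) : ℝ) = L.card * 4 := by
      rw [sum_congr rfl (fun F hF => show ((F.card : ℕ) : ℝ) = 4 by rw [hL.card F hF]; norm_num),
        sum_const, nsmul_eq_mul]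
    rw [h5] at h3
    have : (∑ a ∈ verts L, dg L {a} : ℕ) = L.card * 4 := by exact_mod_cast h3
    omega
  omega

private theorem three_sq {L : Finset (Finset ι)} (N : ι → ℝ) (hN : ∀ x, 0 ≤ N x) :
    ∑ e ∈ fc 2 L, ∏ x ∈ e, N x ≤ (∑ x ∈ verts L, N x) ^ 2 := by
  rcases (fc 2 L).eq_empty_or_nonempty with h0 | ⟨e0, he0⟩
  · rw [h0, sum_empty]
    positivity
  obtain ⟨x0, -, -, -⟩ := card_eq_two.1 (Pool.TSphD.mem_fc.1 he0).1
  have hp : ∀ e : Finset ι, ∃ p : ι × ι, e ∈ fc 2 L → p.1 ≠ p.2 ∧ e = {p.1, p.2} := by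
    intro e
    by_cases he : e ∈ fc 2 L
    · obtain ⟨x, y, hxy, rfl⟩ := card_eq_two.1 (Pool.TSphD.mem_fc.1 he).1
      exact ⟨(x, y), fun _ => ⟨hxy, rfl⟩⟩
    · exact ⟨(x0, x0), fun h => absurd h he⟩
  choose p hp using hp
  have h1 : ∑ e ∈ fc 2 L, ∏ x ∈ e, N x = ∑ q ∈ (fc 2 L).image p, N q.1 * N q.2 := by
    rw [sum_image]
    · refine sum_congr rfl fun e he => ?_
      obtain ⟨h1, h2⟩ := hp e he
      nth_rewrite 1 [h2]
      rw [prod_pair h1]
    · intro e he e' he' hee
      rw [(hp e he).2, (hp e' he').2, hee]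
  rw [h1, sq, sum_mul_sum, ← sum_product']
  refine sum_le_sum_of_subset_of_nonneg ?_ fun q _ _ => mul_nonneg (hN _) (hN _)
  intro q hq
  obtain ⟨e, he, rfl⟩ := mem_image.1 hq
  obtain ⟨-, F, hF, heF⟩ := Pool.TSphD.mem_fc.1 he
  obtain ⟨-, h2⟩ := hp e he
  rw [mem_product, Pool.TSph.mem_verts, Pool.TSph.mem_verts]
  have m1 : ∀ x y : ι, e = {x, y} → x ∈ e ∧ y ∈ e := by
    rintro x y rfl
    simp
  obtain ⟨m2, m3⟩ := m1 _ _ h2
  exact ⟨⟨F, hF, heF m2⟩, ⟨F, hF, heF m3⟩⟩

private theorem three_facet {L : Finset (Finset ι)} {F : Finset ι} (hF : F ∈ L)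
    (h4 : F.card = 4) :
    ∑ v ∈ F, Real.log (dg L {v}) ≤ 2 * Real.log L.card +
      ∑ e ∈ F.powersetCard 2, (∏ x ∈ e, (dg L {x} : ℝ)) / dg L e / L.card +
        2 * (three_s L F : ℝ) := by
  obtain ⟨a, F1, ha, rfl, h3⟩ := card_eq_succ.1 h4
  obtain ⟨b, c, d, hbc, hbd, hcd, rfl⟩ := card_eq_three.1 h3
  simp only [mem_insert, mem_singleton, not_or] at ha
  obtain ⟨hab, hac, had⟩ := ha
  set F : Finset ι := {a, b, c, d} with hFd
  have ma : a ∈ F := by simp [hFd]
  have mb : b ∈ F := by simp [hFd]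
  have mc : c ∈ F := by simp [hFd]
  have md : d ∈ F := by simp [hFd]
  have hpos : ∀ s ⊆ F, (0 : ℝ) < dg L s := by
    intro s hs
    have : 0 < dg L s := card_pos.2 ⟨F, mem_filter.2 ⟨hF, hs⟩⟩
    exact_mod_cast this
  have hn : (0 : ℝ) < L.card := by
    have : 0 < L.card := card_pos.2 ⟨F, hF⟩
    exact_mod_cast this
  have key : ∀ x y z w : ι, x ∈ F → y ∈ F → z ∈ F → w ∈ F → x ≠ y → z ≠ w → x ≠ z → x ≠ w →
      dg L {x, y} ≤ three_s L F → dg L {z, w} ≤ three_s L F →
      Real.log (dg L {x}) + Real.log (dg L {y}) + (Real.log (dg L {z}) + Real.log (dg L {w})) ≤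
        2 * Real.log L.card +
      ∑ e ∈ F.powersetCard 2, (∏ x ∈ e, (dg L {x} : ℝ)) / dg L e / L.card +
        2 * (three_s L F : ℝ) := by
    intro x y z w hx hy hz hw hxy hzw hxz hxw h1 h2
    have e1 := three_pair (hpos {x} (by simpa using hx)) (hpos {y} (by simpa using hy))
      (hpos {x, y} (by simp [insert_subset_iff, hx, hy])) hn
      (show ((dg L {x, y} : ℕ) : ℝ) ≤ (three_s L F : ℝ) by exact_mod_cast h1)
    have e2 := three_pair (hpos {z} (by simpa using hz)) (hpos {w} (by simpa using hw))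
      (hpos {z, w} (by simp [insert_subset_iff, hz, hw])) hn
      (show ((dg L {z, w} : ℕ) : ℝ) ≤ (three_s L F : ℝ) by exact_mod_cast h2)
    have hne : ({x, y} : Finset ι) ≠ {z, w} := by
      intro h
      have : x ∈ ({z, w} : Finset ι) := by rw [← h]; simp
      simp only [mem_insert, mem_singleton] at this
      tauto
    have e3 : (dg L {x} : ℝ) * dg L {y} / dg L {x, y} / L.card +
        (dg L {z} : ℝ) * dg L {w} / dg L {z, w} / L.card ≤
          ∑ e ∈ F.powersetCard 2, (∏ x ∈ e, (dg L {x} : ℝ)) / dg L e / L.card := by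
      have e4 : ∑ e ∈ ({{x, y}, {z, w}} : Finset (Finset ι)),
          (∏ x ∈ e, (dg L {x} : ℝ)) / dg L e / L.card =
          (dg L {x} : ℝ) * dg L {y} / dg L {x, y} / L.card +
            (dg L {z} : ℝ) * dg L {w} / dg L {z, w} / L.card := by
        rw [sum_pair hne, prod_pair hxy, prod_pair hzw]
      rw [← e4]
      refine sum_le_sum_of_subset_of_nonneg ?_ fun e _ _ => by positivity
      intro e he
      simp only [mem_insert, mem_singleton] at he
      rw [mem_powersetCard]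
      rcases he with rfl | rfl
      · exact ⟨by simp [insert_subset_iff, hx, hy], card_pair hxy⟩
      · exact ⟨by simp [insert_subset_iff, hz, hw], card_pair hzw⟩
    linarith
  have hsum : ∑ v ∈ F, Real.log (dg L {v}) =
      Real.log (dg L {a}) + Real.log (dg L {b}) + (Real.log (dg L {c}) + Real.log (dg L {d})) := by
    rw [hFd, sum_insert (by simp [hab, hac, had]), sum_insert (by simp [hbc, hbd]),
      sum_pair hcd]
    ring
  have oa := three_or L ma mb mc (Ne.symm hab) (Ne.symm hac) hbc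
  have ob := three_or L mb ma md hab (Ne.symm hbd) had
  have oc := three_or L mc md ma (Ne.symm hcd) hac (Ne.symm had)
  have od := three_or L md mc mb hcd hbd (Ne.symm hbc)
  rw [pair_comm b a] at ob
  rw [pair_comm c a] at oc
  rw [pair_comm d c, pair_comm d b] at od
  have hor : (dg L {a, b} ≤ three_s L F ∧ dg L {c, d} ≤ three_s L F) ∨
      (dg L {a, c} ≤ three_s L F ∧ dg L {b, d} ≤ three_s L F) := by
    tauto
  rcases hor with ⟨h1, h2⟩ | ⟨h1, h2⟩
  · rw [hsum]
    exact key a b c d ma mb mc md hab hcd hac had h1 h2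
  · have := key a c b d ma mc mb md hac hbd hab had h1 h2
    rw [hsum]
    linarith

/-- `∑_v n_v log n_v ≤ 2 n log n + C n`. For a facet `F = {a, b, c, e}` and a vertex `a` let `σ_a` be the
sum of the three minima of two of the numbers `n_ab, n_ac, n_ae` (degrees in the link of `a`);
`∑_F ∑_a σ_a ≤ 72 n` by `min_deg` for all vertex links. `σ = ∑_a σ_a`. At most one of the three edges at `a` has
`n_ax > σ`, so these edges are disjoint and one of the three matchings `AB | CD` has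
`n_AB, n_CD ≤ σ`. `∑_F log (n_A n_B / n_AB) ≤ n log ((1/n) ∑_{edges} n_A n_B) ≤ n log (16 n)`
(concavity of `log`; `∑_F n_A n_B / n_AB ≤ ∑_{edges AB} n_A n_B ≤ (∑_v n_v)² = 16 n²`), so
`∑_F (log n_A + log n_B) ≤ n log (16 n) + ∑_F log σ ≤ n log (16 n) + 72 n`, the same for `CD`. -/
theorem three_mfd {L : Finset (Finset ι)} (hL : IsNor 4 L) (hne : L.Nonempty) :
    ∑ v ∈ verts L, (dg L {v} : ℝ) * Real.log (dg L {v}) ≤
      2 * L.card * Real.log L.card + 200 * L.card := by
  have hn : (0 : ℝ) < L.card := by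
    have : 0 < L.card := card_pos.2 hne
    exact_mod_cast this
  rw [three_sum_vert]
  refine (sum_le_sum fun F hF => three_facet hF (hL.card F hF)).trans ?_
  rw [sum_add_distrib, sum_add_distrib, sum_const, nsmul_eq_mul, ← mul_sum,
    three_sum_edge L (fun e => (∏ x ∈ e, (dg L {x} : ℝ)) / dg L e / L.card)]
  have h1 : (∑ F ∈ L, (three_s L F : ℝ)) ≤ 72 * L.card := by
    exact_mod_cast three_sum_s hL
  have h2 : ∑ e ∈ fc 2 L, (dg L e : ℝ) * ((∏ x ∈ e, (dg L {x} : ℝ)) / dg L e / L.card) =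
      (∑ e ∈ fc 2 L, ∏ x ∈ e, (dg L {x} : ℝ)) / L.card := by
    rw [sum_div]
    refine sum_congr rfl fun e he => ?_
    obtain ⟨-, F, hF, heF⟩ := Pool.TSphD.mem_fc.1 he
    have : 0 < dg L e := card_pos.2 ⟨F, mem_filter.2 ⟨hF, heF⟩⟩
    have h : (0 : ℝ) < dg L e := by exact_mod_cast this
    field_simp
  have h3 : ∑ v ∈ verts L, (dg L {v} : ℝ) = L.card * 4 := by
    have h3 := three_sum_vert L (fun _ => 1)
    simp only [mul_one, sum_const, nsmul_eq_mul] at h3
    rw [h3, sum_congr rfl (fun F hF => show ((F.card : ℕ) : ℝ) = 4 by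
      rw [hL.card F hF]; norm_num), sum_const, nsmul_eq_mul]
  have h4 := three_sq (L := L) (fun x => (dg L {x} : ℝ)) (fun _ => by positivity)
  rw [h3] at h4
  rw [h2]
  have h5 : (∑ e ∈ fc 2 L, ∏ x ∈ e, (dg L {x} : ℝ)) / L.card ≤ 16 * L.card := by
    rw [div_le_iff₀ hn]
    nlinarith
  nlinarith

end Pool.TSphM
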