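import Pool.Agent.Lib.MP_3de3a3_co.M.Defs
import Pool.Agent.Lib.MP_3de3a3_co.M.Three
import Pool.Agent.Lib.MP_3de3a3_co.M.SumDg
import Pool.Agent.Lib.MP_3de3a3_co.M.Links

/-! # The last two levels (module M/LamLast) -/

set_option autoImplicit false

namespace Pool.TSphM

open Finset
open Pool.TSph (verts IsSphere2 adj comp Ep PhiK)
open Pool.TSphD (fc rdg lk Lo PM side IsLF mv Closings)

variable {ι : Type*} [DecidableEq ι]

open Pool.TSphD (mem_fc mem_verts_lk)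

private theorem lamlast_sum (F : Finset (Finset ι)) (j : ℕ) (g : Finset ι → ℝ) :
    ∑ t ∈ fc j F, ∑ v ∈ verts (lk F t), g (insert v t) =
      ((j : ℝ) + 1) * ∑ s ∈ fc (j + 1) F, g s := by
  classical
  have h1 : ∑ s ∈ fc (j + 1) F, ∑ v ∈ s, g s = ((j : ℝ) + 1) * ∑ s ∈ fc (j + 1) F, g s := by
    rw [Finset.mul_sum]
    refine Finset.sum_congr rfl fun s hs => ?_
    rw [Finset.sum_const, (mem_fc.mp hs).1, nsmul_eq_mul]
    push_cast
    ring
  rw [← h1, Finset.sum_sigma', Finset.sum_sigma']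
  refine Finset.sum_bij' (fun p _ => ⟨insert p.2 p.1, p.2⟩) (fun p _ => ⟨p.1.erase p.2, p.2⟩)
    ?_ ?_ ?_ ?_ ?_
  · rintro ⟨t, v⟩ hp
    rw [Finset.mem_sigma] at hp ⊢
    obtain ⟨ht, hv⟩ := hp
    obtain ⟨hvt, a, ha, hta, hva⟩ := mem_verts_lk.mp hv
    refine ⟨mem_fc.mpr ⟨?_, a, ha, Finset.insert_subset hva hta⟩, Finset.mem_insert_self _ _⟩
    rw [Finset.card_insert_of_notMem hvt, (mem_fc.mp ht).1]
  · rintro ⟨s, v⟩ hp
    rw [Finset.mem_sigma] at hp ⊢
    obtain ⟨hs, hv⟩ := hp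
    obtain ⟨hsc, a, ha, hsa⟩ := mem_fc.mp hs
    have hv' : v ∈ s := hv
    refine ⟨mem_fc.mpr ⟨?_, a, ha, (Finset.erase_subset _ _).trans hsa⟩,
      mem_verts_lk.mpr ⟨Finset.notMem_erase _ _, a, ha, (Finset.erase_subset _ _).trans hsa,
        hsa hv'⟩⟩
    rw [Finset.card_erase_of_mem hv', hsc]
    rfl
  · rintro ⟨t, v⟩ hp
    rw [Finset.mem_sigma] at hp
    have hvt := (mem_verts_lk.mp hp.2).1
    simp only
    rw [Finset.erase_insert hvt]
  · rintro ⟨s, v⟩ hp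
    rw [Finset.mem_sigma] at hp
    have hv' : v ∈ s := hp.2
    simp only
    rw [Finset.insert_erase hv']
  · rintro ⟨t, v⟩ _
    rfl

/-- Apply `three_mfd` to the link of every `t' ∈ fc (d - 4) F` and sum:
`(d - 3) ∑_{t ∈ fc (d-3) F} n_t log n_t ≤ 2 ∑_{t'} n_t' log n_t' + 200 ∑_{t'} n_t'`; with
`C(d, d-3) (d - 3) = 4 C(d, d-4)`: `4 Λ_(d-3) ≤ 2 Λ_(d-4) + 200`. -/
theorem lam_last {d : ℕ} (hd : 4 ≤ d) {F : Finset (Finset ι)} (hF : IsNor d F)
    (hne : F.Nonempty) : Lam d F (d - 3) ≤ Dl d F (d - 3) + 100 := by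
  obtain ⟨j, rfl⟩ : ∃ j, d = j + 4 := ⟨d - 4, by omega⟩
  have e1 : j + 4 - 3 = j + 1 := by omega
  unfold Dl
  rw [e1, Nat.add_sub_cancel]
  set N : ℝ := (F.card : ℝ) with hN
  have hNpos : 0 < N := by
    rw [hN]
    exact_mod_cast hne.card_pos
  set S0 : ℝ := ∑ s ∈ fc j F, (dg F s : ℝ) * ls F s with hS0
  set S1 : ℝ := ∑ s ∈ fc (j + 1) F, (dg F s : ℝ) * ls F s with hS1
  have hC : (0 : ℝ) < ((j + 4).choose j : ℕ) := by
    exact_mod_cast Nat.choose_pos (by omega)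
  have hC1 : (0 : ℝ) < ((j + 4).choose (j + 1) : ℕ) := by
    exact_mod_cast Nat.choose_pos (by omega)
  have hCC : (((j + 4).choose (j + 1) : ℕ) : ℝ) * (j + 1) = ((j + 4).choose j : ℕ) * 4 := by
    have h := Nat.choose_succ_right_eq (j + 4) j
    have e2 : j + 4 - j = 4 := by omega
    rw [e2] at h
    exact_mod_cast h
  have hmain : ((j : ℝ) + 1) * S1 ≤ 2 * S0 + 200 * (N * ((j + 4).choose j : ℕ)) := by
    rw [hS1, ← lamlast_sum]
    have hd : ∑ t ∈ fc j F, (dg F t : ℝ) = N * ((j + 4).choose j : ℕ) := by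
      have h := sum_dg (d := j + 4) (F := F) hF.card j
      rw [hN]
      exact_mod_cast h
    rw [← hd, hS0, Finset.mul_sum, Finset.mul_sum, ← Finset.sum_add_distrib]
    refine Finset.sum_le_sum fun t ht => ?_
    have hL : IsNor 4 (lk F t) := by
      have h := nor_link hF ht (by omega)
      have e3 : j + 4 - j = 4 := by omega
      rwa [e3] at h
    have hLne : (lk F t).Nonempty := by
      obtain ⟨_, a, ha, hta⟩ := mem_fc.mp ht
      exact ⟨a \ t, Finset.mem_image.mpr ⟨a, Finset.mem_filter.mpr ⟨ha, hta⟩, rfl⟩⟩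
    have h3 := three_mfd hL hLne
    rw [card_lk] at h3
    have h4 : ∑ v ∈ verts (lk F t), (dg (lk F t) {v} : ℝ) * Real.log (dg (lk F t) {v}) =
        ∑ v ∈ verts (lk F t), (dg F (insert v t) : ℝ) * ls F (insert v t) := by
      refine Finset.sum_congr rfl fun v hv => ?_
      have hvt := (mem_verts_lk.mp hv).1
      rw [dg_lk F (Finset.disjoint_singleton_right.mpr hvt), Finset.union_comm,
        ← Finset.insert_eq]
      rfl
    rw [h4] at h3
    refine h3.trans (le_of_eq ?_)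
    unfold ls
    ring
  have hL1 : Lam (j + 4) F (j + 1) = S1 / (N * ((j + 4).choose (j + 1) : ℕ)) := rfl
  have hL0 : Lam (j + 4) F j = S0 / (N * ((j + 4).choose j : ℕ)) := rfl
  have h1 : 4 * Lam (j + 4) F (j + 1) = ((j : ℝ) + 1) * S1 / (N * ((j + 4).choose j : ℕ)) := by
    rw [hL1, eq_div_iff (by positivity)]
    have h5 : S1 / (N * ((j + 4).choose (j + 1) : ℕ)) * (N * ((j + 4).choose (j + 1) : ℕ)) = S1 :=
      div_mul_cancel₀ _ (by positivity)
    calc 4 * (S1 / (N * ((j + 4).choose (j + 1) : ℕ))) * (N * ((j + 4).choose j : ℕ))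
        = S1 / (N * ((j + 4).choose (j + 1) : ℕ)) * (N * (((j + 4).choose j : ℕ) * 4)) := by ring
      _ = (S1 / (N * ((j + 4).choose (j + 1) : ℕ)) * (N * ((j + 4).choose (j + 1) : ℕ))) *
          ((j : ℝ) + 1) := by rw [← hCC]; ring
      _ = ((j : ℝ) + 1) * S1 := by rw [h5]; ring
  have h2 : ((j : ℝ) + 1) * S1 / (N * ((j + 4).choose j : ℕ)) ≤ 2 * Lam (j + 4) F j + 200 := by
    rw [hL0, div_le_iff₀ (by positivity)]
    have h6 : S0 / (N * ((j + 4).choose j : ℕ)) * (N * ((j + 4).choose j : ℕ)) = S0 :=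
      div_mul_cancel₀ _ (by positivity)
    calc ((j : ℝ) + 1) * S1 ≤ 2 * S0 + 200 * (N * ((j + 4).choose j : ℕ)) := hmain
      _ = 2 * (S0 / (N * ((j + 4).choose j : ℕ)) * (N * ((j + 4).choose j : ℕ))) +
          200 * (N * ((j + 4).choose j : ℕ)) := by rw [h6]
      _ = _ := by ring
  linarith

end Pool.TSphM
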