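import Pool.Agent.Lib.MP_3de3a3_co.M.Defs
import Pool.Agent.Lib.MP_3de3a3_co.M.NorRig
import Pool.Agent.Lib.MP_3de3a3_co.M.Edge
import Pool.Agent.Lib.MP_3de3a3_co.M.Links

/-! # The lower bound theorem for facets (module M/Lbt) -/

set_option autoImplicit false

namespace Pool.TSphM

open Finset
open Pool.TSph (verts IsSphere2 adj comp Ep PhiK)
open Pool.TSphD (fc rdg lk Lo PM side IsLF mv Closings)

variable {ι : Type*} [DecidableEq ι]

private theorem lbt_mem_verts_lk {L : Finset (Finset ι)} {x y : ι} :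
    y ∈ verts (lk L {x}) ↔ adj L x y := by
  rw [Pool.TSph.mem_verts]
  constructor
  · rintro ⟨s, hs, hy⟩
    obtain ⟨hd, h⟩ := Pool.TSphD.mem_lk'.1 hs
    rw [disjoint_singleton_left] at hd
    refine ⟨?_, {x} ∪ s, h, mem_union_left _ (mem_singleton_self x), mem_union_right _ hy⟩
    rintro rfl
    exact hd hy
  · rintro ⟨hne, t, ht, hx, hy⟩
    refine ⟨t \ {x}, Pool.TSphD.mem_lk.2 ⟨t, ht, singleton_subset_iff.2 hx, rfl⟩, ?_⟩
    rw [mem_sdiff, mem_singleton]
    exact ⟨hy, fun h => hne h.symm⟩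

private theorem lbt_deg {L : Finset (Finset ι)} (x : ι) :
    (verts (lk L {x})).card = ((fc 2 L).filter (fun t => x ∈ t)).card := by
  refine card_bij (fun y _ => ({x, y} : Finset ι)) ?_ ?_ ?_
  · intro y hy
    rw [mem_filter]
    exact ⟨(adj_iff L x y).1 (lbt_mem_verts_lk.1 hy), mem_insert_self _ _⟩
  · intro y hy z hz h
    have hne : x ≠ y := (lbt_mem_verts_lk.1 hy).1
    have h1 : y ∈ ({x, z} : Finset ι) := by
      rw [← h]
      exact mem_insert_of_mem (mem_singleton_self y)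
    rw [mem_insert, mem_singleton] at h1
    rcases h1 with h1 | h1
    · exact absurd h1.symm hne
    · exact h1
  · intro t ht
    obtain ⟨ht1, hx⟩ := mem_filter.1 ht
    obtain ⟨hc, s, hs, hts⟩ := Pool.TSphD.mem_fc.1 ht1
    obtain ⟨a, b, hab, rfl⟩ := card_eq_two.1 hc
    rw [mem_insert, mem_singleton] at hx
    rcases hx with rfl | rfl
    · exact ⟨b, lbt_mem_verts_lk.2 ((adj_iff L x b).2 ht1), rfl⟩
    · refine ⟨a, lbt_mem_verts_lk.2 ((adj_iff L x a).2 ?_), pair_comm _ _⟩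
      rw [pair_comm]
      exact ht1

private theorem lbt_sum {V : Finset ι} {E : Finset (Finset ι)} {r : ℕ} (hE : ∀ t ∈ E, t ⊆ V)
    (hc : ∀ t ∈ E, t.card = r) :
    ∑ x ∈ V, (E.filter (fun t => x ∈ t)).card = r * E.card := by
  have h1 : ∀ x ∈ V, (E.filter (fun t => x ∈ t)).card = ∑ t ∈ E, if x ∈ t then 1 else 0 := by
    intro x _
    rw [card_filter]
  rw [sum_congr rfl h1, sum_comm]
  have h2 : ∀ t ∈ E, (∑ x ∈ V, if x ∈ t then 1 else 0) = r := by
    intro t ht
    rw [← card_filter, ← hc t ht]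
    congr 1
    ext x
    rw [mem_filter]
    exact ⟨fun h => h.2, fun h => ⟨hE t ht h, h⟩⟩
  rw [sum_congr rfl h2, sum_const, smul_eq_mul, mul_comm]

/-- Induction on `d`; `d = 3` is the Euler relation. For `d + 1`: the links of the vertices satisfy
`(d - 1) m_x ≤ N_x + (d + 1)(d - 2)`, the sum over the vertices gives
`2 (d - 1) E ≤ (d + 1) |L| + (d + 1)(d - 2) V`, and `E ≥ (d + 1) V - (d + 1)(d + 2)/2` by
`grig_nor`, `edge_count`. So `2 (d - 1) V - (d - 1)(d + 2) ≤ |L| + (d - 2) V`. -/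
theorem lbt {d : ℕ} (hd : 3 ≤ d) {L : Finset (Finset ι)} (hL : IsNor d L) (hne : L.Nonempty) :
    ((d : ℝ) - 1) * (verts L).card ≤ L.card + ((d : ℝ) + 1) * (d - 2) := by
  induction d, hd using Nat.le_induction generalizing L with
  | base =>
    have h0 : (∅ : Finset ι) ∈ fc (3 - 3) L := by
      obtain ⟨s, hs⟩ := hne
      exact Pool.TSphD.mem_fc.2 ⟨rfl, s, hs, empty_subset s⟩
    have h1 := (hL.sphere ∅ h0).euler
    have h2 : lk L ∅ = L := by
      ext t
      rw [Pool.TSphD.mem_lk', empty_union]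
      exact ⟨fun h => h.2, fun h => ⟨disjoint_empty_left _, h⟩⟩
    rw [h2] at h1
    have h3 : (2 : ℝ) * (verts L).card = L.card + 4 := by exact_mod_cast h1
    push_cast
    linarith
  | succ d hd ih =>
    have hd3 : (3 : ℝ) ≤ d := by exact_mod_cast hd
    have hsub : ∀ t ∈ fc 2 L, t ⊆ verts L := by
      intro t ht x hx
      obtain ⟨_, s, hs, hts⟩ := Pool.TSphD.mem_fc.1 ht
      exact Pool.TSph.mem_verts.2 ⟨s, hs, hts hx⟩
    have hsubL : ∀ t ∈ L, t ⊆ verts L := fun t ht x hx => Pool.TSph.mem_verts.2 ⟨t, ht, hx⟩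
    -- the sum over the vertices
    have hE := lbt_sum hsub (r := 2) (fun t ht => (Pool.TSphD.mem_fc.1 ht).1)
    have hF := lbt_sum hsubL (r := d + 1) (fun t ht => hL.card t ht)
    have hx : ∀ x ∈ verts L, ((d : ℝ) - 1) * (((fc 2 L).filter (fun t => x ∈ t)).card : ℝ) ≤
        ((L.filter (fun t => x ∈ t)).card : ℝ) + ((d : ℝ) + 1) * (d - 2) := by
      intro x hx
      obtain ⟨s, hs, hxs⟩ := Pool.TSph.mem_verts.1 hx
      have hfx : ({x} : Finset ι) ∈ fc 1 L :=
        Pool.TSphD.mem_fc.2 ⟨card_singleton x, s, hs, singleton_subset_iff.2 hxs⟩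
      have hnl : IsNor (d + 1 - 1) (lk L {x}) := nor_link hL hfx (by omega)
      have hnl' : IsNor d (lk L {x}) := hnl
      have hnel : (lk L {x}).Nonempty :=
        ⟨s \ {x}, Pool.TSphD.mem_lk.2 ⟨s, hs, singleton_subset_iff.2 hxs, rfl⟩⟩
      have h1 := ih hnl' hnel
      rw [lbt_deg, card_lk] at h1
      have h2 : dg L {x} = (L.filter (fun t => x ∈ t)).card := by
        unfold dg up
        congr 1
        ext t
        rw [mem_filter, mem_filter, singleton_subset_iff]
      rw [h2] at h1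
      exact h1
    have hsum := sum_le_sum hx
    rw [← mul_sum, sum_add_distrib, sum_const, nsmul_eq_mul] at hsum
    have hE' : (∑ x ∈ verts L, (((fc 2 L).filter (fun t => x ∈ t)).card : ℝ)) =
        2 * (fc 2 L).card := by exact_mod_cast hE
    have hF' : (∑ x ∈ verts L, ((L.filter (fun t => x ∈ t)).card : ℝ)) =
        ((d : ℝ) + 1) * L.card := by exact_mod_cast hF
    rw [hE', hF'] at hsum
    -- the number of edges
    obtain ⟨p, hp, hrig⟩ := grig_nor (d := d + 1) (by omega) hL hne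
    obtain ⟨θ, hθ⟩ : ∃ θ : ι × ℕ → ℝ, MvPolynomial.eval θ p ≠ 0 := by
      by_contra hcon
      push Not at hcon
      exact hp (MvPolynomial.funext fun θ => by rw [hcon θ, map_zero])
    have hr := hrig θ hθ
    have hadj : adj L = fun x y => ({x, y} : Finset ι) ∈ fc 2 L := by
      funext x y
      exact propext (adj_iff L x y)
    rw [hadj] at hr
    have hpow : fc 2 L ⊆ (verts L).powersetCard 2 := by
      intro t ht
      rw [mem_powersetCard]
      exact ⟨hsub t ht, (Pool.TSphD.mem_fc.1 ht).1⟩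
    have hec := edge_count (d + 1) (verts L) (fc 2 L) hpow (pt (d + 1) θ) hr
    have hec' : 2 * (((d : ℝ) + 1) * (verts L).card) ≤
        2 * (fc 2 L).card + ((d : ℝ) + 1) * ((d : ℝ) + 1 + 1) := by exact_mod_cast hec
    push_cast
    have hd1 : (0 : ℝ) < (d : ℝ) + 1 := by linarith
    have h5 : ((d : ℝ) - 1) * (2 * (((d : ℝ) + 1) * (verts L).card) -
        ((d : ℝ) + 1) * ((d : ℝ) + 1 + 1)) ≤ ((d : ℝ) - 1) * (2 * (fc 2 L).card) :=
      mul_le_mul_of_nonneg_left (by linarith) (by linarith)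
    have h6 : ((d : ℝ) + 1) * (((d : ℝ) + 1 - 1) * (verts L).card) ≤
        ((d : ℝ) + 1) * (L.card + ((d : ℝ) + 1 + 1) * ((d : ℝ) + 1 - 2)) := by
      nlinarith
    exact le_of_mul_le_mul_left h6 hd1

end Pool.TSphM
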