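import Pool.Agent.Lib.MP_3de3a3_co.M.Defs
import Pool.Agent.Lib.MP_3de3a3_co.M.Lbt
import Pool.Agent.Lib.MP_3de3a3_co.M.SumDg
import Pool.Agent.Lib.MP_3de3a3_co.M.MinF

/-! # The bound for a level by the lower bound theorem (module M/LbtJ) -/

set_option autoImplicit false

namespace Pool.TSphM

open Finset
open Pool.TSph (verts IsSphere2 adj comp Ep PhiK)
open Pool.TSphD (fc rdg lk Lo PM side IsLF mv Closings)

variable {ι : Type*} [DecidableEq ι]

private theorem lbtj_pos {d j : ℕ} (hjd : j + 3 ≤ d) : (0 : ℝ) < (d : ℝ) - 1 - j := by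
  have h : ((j + 3 : ℕ) : ℝ) ≤ d := by exact_mod_cast hjd
  push_cast at h
  linarith

private theorem lbtj_vl {d j : ℕ} {F : Finset (Finset ι)} (hF : IsNor d F) {s : Finset ι}
    (hs : s ∈ fc j F) (hjd : j + 3 ≤ d) :
    vl F s - ((d : ℝ) - j) ≤ ((dg F s : ℝ) - 2) / ((d : ℝ) - 1 - j) := by
  have hL := nor_link hF hs hjd
  have hc := card_lk F s
  have hge := dg_ge hF hs hjd
  have hne : (lk F s).Nonempty := by
    rw [← Finset.card_pos, hc]
    omega
  have h := lbt (d := d - j) (by omega) hL hne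
  rw [hc, Nat.cast_sub (by omega : j ≤ d)] at h
  rw [le_div_iff₀ (lbtj_pos hjd)]
  unfold vl
  linarith

private theorem lbtj_Ej {d j : ℕ} (hj : j ≤ d) : Ej d j * (d.choose j : ℝ) = (j : ℝ) / (d + 1) := by
  unfold Ej
  have h1 := Nat.choose_mul_factorial_mul_factorial hj
  have h2 : (d.choose j : ℝ) * j.factorial * (d - j).factorial = d.factorial := by
    exact_mod_cast h1
  have h3 : (d.factorial : ℝ) ≠ 0 := by exact_mod_cast d.factorial_ne_zero
  have h4 : (d : ℝ) + 1 ≠ 0 := by positivity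
  rw [Nat.factorial_succ, div_mul_eq_mul_div]
  push_cast
  rw [div_eq_div_iff (mul_ne_zero h4 h3) h4, ← h2]
  ring

private theorem lbtj_Ej_nonneg (d j : ℕ) : 0 ≤ Ej d j := by
  unfold Ej
  positivity

/-- `lbt` for the link of `s`, `|s| = j`, `e = d - 1 - j`:
`m - (d - j) ≤ (dg F s - 2) / e`, so `bet ≤ Ej d j * ((dg F s - 2) / e - (d + 1) / j)`; multiply by
`dl F s ≥ 0`, sum, `sum_dg_dl`, `Ej d j * C(d, j) = j / (d + 1)`. -/
theorem bb_lbt {d : ℕ} {F : Finset (Finset ι)} (hF : IsNor d F) (hne : F.Nonempty) {j : ℕ}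
    (hj : 1 ≤ j) (hjd : j + 3 ≤ d) :
    bb d F j ≤ (j : ℝ) / (((d : ℝ) + 1) * (d - 1 - j)) * Dl d F j -
      Ej d j * (2 / ((d : ℝ) - 1 - j) + (d + 1) / j) * sg F j := by
  have he := lbtj_pos hjd
  have hn : (0 : ℝ) < F.card := by exact_mod_cast Finset.card_pos.2 hne
  have hX := sum_dg_dl hF.card hne hj (by omega : j ≤ d)
  have hE := lbtj_Ej (by omega : j ≤ d)
  have h1 : ∑ s ∈ fc j F, bet d j (vl F s) * dl F s ≤
      ∑ s ∈ fc j F, (Ej d j / ((d : ℝ) - 1 - j) * ((dg F s : ℝ) * dl F s) -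
        Ej d j * (2 / ((d : ℝ) - 1 - j) + (d + 1) / j) * dl F s) := by
    refine Finset.sum_le_sum fun s hs => ?_
    have hge := dg_ge hF hs hjd
    have h2 : 0 ≤ dl F s := dl_nonneg F (by omega)
    have h3 := lbtj_vl hF hs hjd
    have h4 : bet d j (vl F s) ≤
        Ej d j * (((dg F s : ℝ) - 2) / ((d : ℝ) - 1 - j) - (d + 1) / j) := by
      unfold bet
      exact mul_le_mul_of_nonneg_left (sub_le_sub_right h3 _) (lbtj_Ej_nonneg d j)
    refine le_trans (mul_le_mul_of_nonneg_right h4 h2) (le_of_eq ?_)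
    field_simp
    ring
  rw [Finset.sum_sub_distrib, ← Finset.mul_sum, ← Finset.mul_sum, hX] at h1
  unfold bb sg
  rw [div_le_iff₀ hn]
  refine le_trans h1 (le_of_eq ?_)
  have h5 : Ej d j / ((d : ℝ) - 1 - j) * ((F.card : ℝ) * (d.choose j : ℝ) * Dl d F j) =
      (Ej d j * (d.choose j : ℝ)) / ((d : ℝ) - 1 - j) * (F.card * Dl d F j) := by ring
  rw [h5, hE]
  have h6 : (d : ℝ) + 1 ≠ 0 := by positivity
  have h7 : (j : ℝ) ≠ 0 := by
    have : 0 < j := hj
    positivity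
  have h8 : (F.card : ℝ) ≠ 0 := hn.ne'
  have h9 : (d : ℝ) - 1 - j ≠ 0 := he.ne'
  generalize ∑ s ∈ fc j F, dl F s = Y
  generalize Dl d F j = X
  generalize Ej d j = E
  field_simp

/-- The last level: `bet ≤ Ej d (d-3) * dg F t / 2`, `ls F t ≥ 0`. -/
theorem last_ls {d : ℕ} (hd : 4 ≤ d) {F : Finset (Finset ι)} (hF : IsNor d F)
    (hne : F.Nonempty) :
    ∑ t ∈ fc (d - 3) F, bet d (d - 3) (vl F t) * ls F t ≤
      F.card * (((d : ℝ) - 3) / (2 * (d + 1)) * Lam d F (d - 3)) := by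
  obtain ⟨j, rfl⟩ : ∃ j, d = j + 3 := ⟨d - 3, by omega⟩
  rw [Nat.add_sub_cancel]
  have hn : (0 : ℝ) < F.card := by exact_mod_cast Finset.card_pos.2 hne
  have hE := lbtj_Ej (by omega : j ≤ j + 3)
  have hj : (1 : ℝ) ≤ j := by exact_mod_cast (by omega : 1 ≤ j)
  have h1 : ∑ s ∈ fc j F, bet (j + 3) j (vl F s) * ls F s ≤
      ∑ s ∈ fc j F, Ej (j + 3) j / 2 * ((dg F s : ℝ) * ls F s) := by
    refine Finset.sum_le_sum fun s hs => ?_
    have h2 : 0 ≤ ls F s := ls_nonneg F s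
    have h3 := lbtj_vl hF hs (le_refl (j + 3))
    have h4 : bet (j + 3) j (vl F s) ≤ Ej (j + 3) j / 2 * (dg F s : ℝ) := by
      have e1 : Ej (j + 3) j / 2 * (dg F s : ℝ) = Ej (j + 3) j * ((dg F s : ℝ) / 2) := by ring
      rw [e1]
      unfold bet
      refine mul_le_mul_of_nonneg_left ?_ (lbtj_Ej_nonneg (j + 3) j)
      have e2 : (((j + 3 : ℕ) : ℝ) - 1 - j) = 2 := by
        push_cast
        ring
      rw [e2] at h3
      have h5 : (0 : ℝ) ≤ (((j + 3 : ℕ) : ℝ) + 1) / j := by positivity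
      linarith
    refine le_trans (mul_le_mul_of_nonneg_right h4 h2) (le_of_eq ?_)
    ring
  refine le_trans h1 (le_of_eq ?_)
  rw [← Finset.mul_sum]
  unfold Lam
  have h8 : (F.card : ℝ) ≠ 0 := hn.ne'
  have h9 : ((j + 3).choose j : ℝ) ≠ 0 := by
    exact_mod_cast (Nat.choose_pos (by omega : j ≤ j + 3)).ne'
  have h6 : ((j : ℝ) + 3 + 1) ≠ 0 := by positivity
  have e3 : Ej (j + 3) j = (j : ℝ) / (j + 3 + 1) / ((j + 3).choose j : ℝ) := by
    rw [eq_div_iff h9, hE]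
    push_cast
    ring
  rw [e3]
  generalize ∑ s ∈ fc j F, (dg F s : ℝ) * ls F s = Y
  push_cast
  field_simp
  ring

end Pool.TSphM
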