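import Pool.Agent.Lib.MP_3de3a3_co.M.Defs

/-! # Linear programming (module M/Lp) -/

set_option autoImplicit false

namespace Pool.TSphM

open Finset
open Pool.TSph (verts IsSphere2 adj comp Ep PhiK)
open Pool.TSphD (fc rdg lk Lo PM side IsLF mv Closings)

variable {ι : Type*} [DecidableEq ι]

/-- The exponent: `d (d - 3) / ((d + 1) (d (d - 3) + 4))` for `d ≤ 8`,
`(3 d - 13) / (2 (d - 2) (d + 1))` for `d ≥ 9`. -/
noncomputable def cd (d : ℕ) : ℝ :=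
  if d ≤ 8 then (d : ℝ) * (d - 3) / ((d + 1) * (d * (d - 3) + 4))
  else (3 * (d : ℝ) - 13) / (2 * (d - 2) * (d + 1))

private theorem lp_4 (c : ℝ) (hc : 0 ≤ c) (D σ b : ℕ → ℝ) (Λ l : ℝ)
    (hΛ : 0 ≤ Λ) (hl : 0 ≤ l) (hD : ∀ j, 1 ≤ j → j + 3 ≤ 4 → 0 ≤ D j)
    (hs : (∑ j ∈ Icc 1 (4 - 3), D j) + Λ = l)
    (h1 : ∀ j, 1 ≤ j → j + 3 ≤ 4 → b j ≤ (j : ℝ) / (((((4 : ℕ) : ℝ)) + 1) * (((4 : ℕ) : ℝ) - 1 - j)) * D j -
      Ej 4 j * (2 / (((4 : ℕ) : ℝ) - 1 - j) + (((4 : ℕ) : ℝ) + 1) / j) * σ j)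
    (h2 : ∀ j, 1 ≤ j → j + 4 ≤ 4 → b j ≤ (j : ℝ) / (((4 : ℕ) : ℝ) + 1) * (D j - D (j + 1)) +
      Ej 4 j * (j + 1) * σ (j + 1) - Ej 4 j * ((((4 : ℕ) : ℝ) - j) + (((4 : ℕ) : ℝ) + 1) / j) * σ j + c)
    (h3 : ∀ j, 1 ≤ j → j + 3 ≤ 4 → 0 ≤ σ j ∧ (((4 : ℕ) : ℝ) - j + 1) * σ j ≤ Nat.choose 4 j * D j)
    (h4 : ∀ j, 1 ≤ j → j + 4 ≤ 4 → D (j + 1) ≤ D j + c)
    (h5 : Λ ≤ D (4 - 3) + c) :
    (∑ j ∈ Icc 1 (4 - 3), b j) + (((4 : ℕ) : ℝ) - 3) / (2 * (((4 : ℕ) : ℝ) + 1)) * Λ ≤ cd 4 * l + 100 * c := by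
  have a1 := h1 1 (by norm_num) (by norm_num)
  have d1 := hD 1 (by norm_num) (by norm_num)
  obtain ⟨s1, t1⟩ := h3 1 (by norm_num) (by norm_num)
  have hI : Icc 1 (4 - 3) = ({1} : Finset ℕ) := by decide
  rw [hI] at hs ⊢
  rw [Finset.sum_singleton] at hs ⊢
  clear h1 h2 h3 h4 hD
  norm_num [Ej, cd, Nat.factorial, Nat.choose] at a1 t1 h5 hs ⊢
  linarith

private theorem lp_5 (c : ℝ) (hc : 0 ≤ c) (D σ b : ℕ → ℝ) (Λ l : ℝ)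
    (hΛ : 0 ≤ Λ) (hl : 0 ≤ l) (hD : ∀ j, 1 ≤ j → j + 3 ≤ 5 → 0 ≤ D j)
    (hs : (∑ j ∈ Icc 1 (5 - 3), D j) + Λ = l)
    (h1 : ∀ j, 1 ≤ j → j + 3 ≤ 5 → b j ≤ (j : ℝ) / (((((5 : ℕ) : ℝ)) + 1) * (((5 : ℕ) : ℝ) - 1 - j)) * D j -
      Ej 5 j * (2 / (((5 : ℕ) : ℝ) - 1 - j) + (((5 : ℕ) : ℝ) + 1) / j) * σ j)
    (h2 : ∀ j, 1 ≤ j → j + 4 ≤ 5 → b j ≤ (j : ℝ) / (((5 : ℕ) : ℝ) + 1) * (D j - D (j + 1)) +
      Ej 5 j * (j + 1) * σ (j + 1) - Ej 5 j * ((((5 : ℕ) : ℝ) - j) + (((5 : ℕ) : ℝ) + 1) / j) * σ j + c)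
    (h3 : ∀ j, 1 ≤ j → j + 3 ≤ 5 → 0 ≤ σ j ∧ (((5 : ℕ) : ℝ) - j + 1) * σ j ≤ Nat.choose 5 j * D j)
    (h4 : ∀ j, 1 ≤ j → j + 4 ≤ 5 → D (j + 1) ≤ D j + c)
    (h5 : Λ ≤ D (5 - 3) + c) :
    (∑ j ∈ Icc 1 (5 - 3), b j) + (((5 : ℕ) : ℝ) - 3) / (2 * (((5 : ℕ) : ℝ) + 1)) * Λ ≤ cd 5 * l + 100 * c := by
  have a1 := h1 1 (by norm_num) (by norm_num)
  have d1 := hD 1 (by norm_num) (by norm_num)
  obtain ⟨s1, t1⟩ := h3 1 (by norm_num) (by norm_num)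
  have b1 := h2 1 (by norm_num) (by norm_num)
  have e1 := h4 1 (by norm_num) (by norm_num)
  have a2 := h1 2 (by norm_num) (by norm_num)
  have d2 := hD 2 (by norm_num) (by norm_num)
  obtain ⟨s2, t2⟩ := h3 2 (by norm_num) (by norm_num)
  have hI : Icc 1 (5 - 3) = ({1, 2} : Finset ℕ) := by decide
  rw [hI] at hs ⊢
  rw [Finset.sum_insert (by decide)] at hs ⊢
  rw [Finset.sum_singleton] at hs ⊢
  clear h1 h2 h3 h4 hD
  norm_num [Ej, cd, Nat.factorial, Nat.choose] at a1 t1 b1 e1 a2 t2 h5 hs ⊢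
  linarith

private theorem lp_6 (c : ℝ) (hc : 0 ≤ c) (D σ b : ℕ → ℝ) (Λ l : ℝ)
    (hΛ : 0 ≤ Λ) (hl : 0 ≤ l) (hD : ∀ j, 1 ≤ j → j + 3 ≤ 6 → 0 ≤ D j)
    (hs : (∑ j ∈ Icc 1 (6 - 3), D j) + Λ = l)
    (h1 : ∀ j, 1 ≤ j → j + 3 ≤ 6 → b j ≤ (j : ℝ) / (((((6 : ℕ) : ℝ)) + 1) * (((6 : ℕ) : ℝ) - 1 - j)) * D j -
      Ej 6 j * (2 / (((6 : ℕ) : ℝ) - 1 - j) + (((6 : ℕ) : ℝ) + 1) / j) * σ j)
    (h2 : ∀ j, 1 ≤ j → j + 4 ≤ 6 → b j ≤ (j : ℝ) / (((6 : ℕ) : ℝ) + 1) * (D j - D (j + 1)) +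
      Ej 6 j * (j + 1) * σ (j + 1) - Ej 6 j * ((((6 : ℕ) : ℝ) - j) + (((6 : ℕ) : ℝ) + 1) / j) * σ j + c)
    (h3 : ∀ j, 1 ≤ j → j + 3 ≤ 6 → 0 ≤ σ j ∧ (((6 : ℕ) : ℝ) - j + 1) * σ j ≤ Nat.choose 6 j * D j)
    (h4 : ∀ j, 1 ≤ j → j + 4 ≤ 6 → D (j + 1) ≤ D j + c)
    (h5 : Λ ≤ D (6 - 3) + c) :
    (∑ j ∈ Icc 1 (6 - 3), b j) + (((6 : ℕ) : ℝ) - 3) / (2 * (((6 : ℕ) : ℝ) + 1)) * Λ ≤ cd 6 * l + 100 * c := by
  have a1 := h1 1 (by norm_num) (by norm_num)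
  have d1 := hD 1 (by norm_num) (by norm_num)
  obtain ⟨s1, t1⟩ := h3 1 (by norm_num) (by norm_num)
  have b1 := h2 1 (by norm_num) (by norm_num)
  have e1 := h4 1 (by norm_num) (by norm_num)
  have a2 := h1 2 (by norm_num) (by norm_num)
  have d2 := hD 2 (by norm_num) (by norm_num)
  obtain ⟨s2, t2⟩ := h3 2 (by norm_num) (by norm_num)
  have b2 := h2 2 (by norm_num) (by norm_num)
  have e2 := h4 2 (by norm_num) (by norm_num)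
  have a3 := h1 3 (by norm_num) (by norm_num)
  have d3 := hD 3 (by norm_num) (by norm_num)
  obtain ⟨s3, t3⟩ := h3 3 (by norm_num) (by norm_num)
  have hI : Icc 1 (6 - 3) = ({1, 2, 3} : Finset ℕ) := by decide
  rw [hI] at hs ⊢
  rw [Finset.sum_insert (by decide)] at hs ⊢
  rw [Finset.sum_insert (by decide)] at hs ⊢
  rw [Finset.sum_singleton] at hs ⊢
  clear h1 h2 h3 h4 hD
  norm_num [Ej, cd, Nat.factorial, Nat.choose] at a1 t1 b1 e1 a2 t2 b2 e2 a3 t3 h5 hs ⊢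
  linarith

private theorem lp_7 (c : ℝ) (hc : 0 ≤ c) (D σ b : ℕ → ℝ) (Λ l : ℝ)
    (hΛ : 0 ≤ Λ) (hl : 0 ≤ l) (hD : ∀ j, 1 ≤ j → j + 3 ≤ 7 → 0 ≤ D j)
    (hs : (∑ j ∈ Icc 1 (7 - 3), D j) + Λ = l)
    (h1 : ∀ j, 1 ≤ j → j + 3 ≤ 7 → b j ≤ (j : ℝ) / (((((7 : ℕ) : ℝ)) + 1) * (((7 : ℕ) : ℝ) - 1 - j)) * D j -
      Ej 7 j * (2 / (((7 : ℕ) : ℝ) - 1 - j) + (((7 : ℕ) : ℝ) + 1) / j) * σ j)
    (h2 : ∀ j, 1 ≤ j → j + 4 ≤ 7 → b j ≤ (j : ℝ) / (((7 : ℕ) : ℝ) + 1) * (D j - D (j + 1)) +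
      Ej 7 j * (j + 1) * σ (j + 1) - Ej 7 j * ((((7 : ℕ) : ℝ) - j) + (((7 : ℕ) : ℝ) + 1) / j) * σ j + c)
    (h3 : ∀ j, 1 ≤ j → j + 3 ≤ 7 → 0 ≤ σ j ∧ (((7 : ℕ) : ℝ) - j + 1) * σ j ≤ Nat.choose 7 j * D j)
    (h4 : ∀ j, 1 ≤ j → j + 4 ≤ 7 → D (j + 1) ≤ D j + c)
    (h5 : Λ ≤ D (7 - 3) + c) :
    (∑ j ∈ Icc 1 (7 - 3), b j) + (((7 : ℕ) : ℝ) - 3) / (2 * (((7 : ℕ) : ℝ) + 1)) * Λ ≤ cd 7 * l + 100 * c := by
  have a1 := h1 1 (by norm_num) (by norm_num)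
  have d1 := hD 1 (by norm_num) (by norm_num)
  obtain ⟨s1, t1⟩ := h3 1 (by norm_num) (by norm_num)
  have b1 := h2 1 (by norm_num) (by norm_num)
  have e1 := h4 1 (by norm_num) (by norm_num)
  have a2 := h1 2 (by norm_num) (by norm_num)
  have d2 := hD 2 (by norm_num) (by norm_num)
  obtain ⟨s2, t2⟩ := h3 2 (by norm_num) (by norm_num)
  have b2 := h2 2 (by norm_num) (by norm_num)
  have e2 := h4 2 (by norm_num) (by norm_num)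
  have a3 := h1 3 (by norm_num) (by norm_num)
  have d3 := hD 3 (by norm_num) (by norm_num)
  obtain ⟨s3, t3⟩ := h3 3 (by norm_num) (by norm_num)
  have b3 := h2 3 (by norm_num) (by norm_num)
  have e3 := h4 3 (by norm_num) (by norm_num)
  have a4 := h1 4 (by norm_num) (by norm_num)
  have d4 := hD 4 (by norm_num) (by norm_num)
  obtain ⟨s4, t4⟩ := h3 4 (by norm_num) (by norm_num)
  have hI : Icc 1 (7 - 3) = ({1, 2, 3, 4} : Finset ℕ) := by decide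
  rw [hI] at hs ⊢
  rw [Finset.sum_insert (by decide)] at hs ⊢
  rw [Finset.sum_insert (by decide)] at hs ⊢
  rw [Finset.sum_insert (by decide)] at hs ⊢
  rw [Finset.sum_singleton] at hs ⊢
  clear h1 h2 h3 h4 hD
  norm_num [Ej, cd, Nat.factorial, Nat.choose] at a1 t1 b1 e1 a2 t2 b2 e2 a3 t3 b3 e3 a4 t4 h5 hs ⊢
  linarith

private theorem lp_8 (c : ℝ) (hc : 0 ≤ c) (D σ b : ℕ → ℝ) (Λ l : ℝ)
    (hΛ : 0 ≤ Λ) (hl : 0 ≤ l) (hD : ∀ j, 1 ≤ j → j + 3 ≤ 8 → 0 ≤ D j)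
    (hs : (∑ j ∈ Icc 1 (8 - 3), D j) + Λ = l)
    (h1 : ∀ j, 1 ≤ j → j + 3 ≤ 8 → b j ≤ (j : ℝ) / (((((8 : ℕ) : ℝ)) + 1) * (((8 : ℕ) : ℝ) - 1 - j)) * D j -
      Ej 8 j * (2 / (((8 : ℕ) : ℝ) - 1 - j) + (((8 : ℕ) : ℝ) + 1) / j) * σ j)
    (h2 : ∀ j, 1 ≤ j → j + 4 ≤ 8 → b j ≤ (j : ℝ) / (((8 : ℕ) : ℝ) + 1) * (D j - D (j + 1)) +
      Ej 8 j * (j + 1) * σ (j + 1) - Ej 8 j * ((((8 : ℕ) : ℝ) - j) + (((8 : ℕ) : ℝ) + 1) / j) * σ j + c)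
    (h3 : ∀ j, 1 ≤ j → j + 3 ≤ 8 → 0 ≤ σ j ∧ (((8 : ℕ) : ℝ) - j + 1) * σ j ≤ Nat.choose 8 j * D j)
    (h4 : ∀ j, 1 ≤ j → j + 4 ≤ 8 → D (j + 1) ≤ D j + c)
    (h5 : Λ ≤ D (8 - 3) + c) :
    (∑ j ∈ Icc 1 (8 - 3), b j) + (((8 : ℕ) : ℝ) - 3) / (2 * (((8 : ℕ) : ℝ) + 1)) * Λ ≤ cd 8 * l + 100 * c := by
  have a1 := h1 1 (by norm_num) (by norm_num)
  have d1 := hD 1 (by norm_num) (by norm_num)
  obtain ⟨s1, t1⟩ := h3 1 (by norm_num) (by norm_num)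
  have b1 := h2 1 (by norm_num) (by norm_num)
  have e1 := h4 1 (by norm_num) (by norm_num)
  have a2 := h1 2 (by norm_num) (by norm_num)
  have d2 := hD 2 (by norm_num) (by norm_num)
  obtain ⟨s2, t2⟩ := h3 2 (by norm_num) (by norm_num)
  have b2 := h2 2 (by norm_num) (by norm_num)
  have e2 := h4 2 (by norm_num) (by norm_num)
  have a3 := h1 3 (by norm_num) (by norm_num)
  have d3 := hD 3 (by norm_num) (by norm_num)
  obtain ⟨s3, t3⟩ := h3 3 (by norm_num) (by norm_num)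
  have b3 := h2 3 (by norm_num) (by norm_num)
  have e3 := h4 3 (by norm_num) (by norm_num)
  have a4 := h1 4 (by norm_num) (by norm_num)
  have d4 := hD 4 (by norm_num) (by norm_num)
  obtain ⟨s4, t4⟩ := h3 4 (by norm_num) (by norm_num)
  have b4 := h2 4 (by norm_num) (by norm_num)
  have e4 := h4 4 (by norm_num) (by norm_num)
  have a5 := h1 5 (by norm_num) (by norm_num)
  have d5 := hD 5 (by norm_num) (by norm_num)
  obtain ⟨s5, t5⟩ := h3 5 (by norm_num) (by norm_num)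
  have hI : Icc 1 (8 - 3) = ({1, 2, 3, 4, 5} : Finset ℕ) := by decide
  rw [hI] at hs ⊢
  rw [Finset.sum_insert (by decide)] at hs ⊢
  rw [Finset.sum_insert (by decide)] at hs ⊢
  rw [Finset.sum_insert (by decide)] at hs ⊢
  rw [Finset.sum_insert (by decide)] at hs ⊢
  rw [Finset.sum_singleton] at hs ⊢
  clear h1 h2 h3 h4 hD
  norm_num [Ej, cd, Nat.factorial, Nat.choose] at a1 t1 b1 e1 a2 t2 b2 e2 a3 t3 b3 e3 a4 t4 b4 e4 a5 t5 h5 hs ⊢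
  linarith


private theorem lp_nonneg (d j : ℕ) : 0 ≤ Ej d j := by
  unfold Ej
  positivity

private theorem lp_E (d j : ℕ) (hj : j + 1 ≤ d) :
    Ej d j * ((j : ℝ) + 1) ^ 2 = Ej d (j + 1) * (j * ((d : ℝ) - j)) := by
  obtain ⟨r, rfl⟩ : ∃ r, d = j + 1 + r := ⟨d - (j + 1), by omega⟩
  have e1 : j + 1 + r - j = r + 1 := by omega
  have e2 : j + 1 + r - (j + 1) = r := by omega
  unfold Ej
  rw [e1, e2, Nat.factorial_succ r, Nat.factorial_succ j]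
  have hf : (((j + 1 + r + 1).factorial : ℕ) : ℝ) ≠ 0 := by
    exact_mod_cast (Nat.factorial_pos _).ne'
  field_simp
  push_cast
  ring

private theorem lp_choose (d j : ℕ) (hj : j ≤ d) :
    Ej d j * (d.choose j : ℝ) = j / ((d : ℝ) + 1) := by
  have h1 := Nat.choose_mul_factorial_mul_factorial hj
  have h2 : (d.choose j : ℝ) * (j.factorial : ℝ) * ((d - j).factorial : ℝ) = (d.factorial : ℝ) := by
    exact_mod_cast h1
  have hf : ((d.factorial : ℕ) : ℝ) ≠ 0 := by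
    exact_mod_cast (Nat.factorial_pos _).ne'
  have hd : ((d : ℝ) + 1) ≠ 0 := by positivity
  unfold Ej
  rw [Nat.factorial_succ]
  push_cast
  rw [div_mul_eq_mul_div, div_eq_div_iff (by positivity) hd]
  calc (j : ℝ) * ((d - j).factorial : ℝ) * (j.factorial : ℝ) * (d.choose j : ℝ) * ((d : ℝ) + 1)
      = j * ((d.choose j : ℝ) * (j.factorial : ℝ) * ((d - j).factorial : ℝ)) * ((d : ℝ) + 1) := by
        ring
    _ = j * (((d : ℝ) + 1) * (d.factorial : ℝ)) := by rw [h2]; ring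

private theorem lp_T1 (m : ℕ) (D : ℕ → ℝ) :
    ∑ j ∈ Icc 1 m, (j : ℝ) * (D j - D (j + 1)) = ∑ j ∈ Icc 1 m, D j - m * D (m + 1) := by
  induction m with
  | zero => simp
  | succ m ih =>
    rw [Finset.sum_Icc_succ_top (by omega), Finset.sum_Icc_succ_top (by omega), ih]
    push_cast
    ring

private theorem lp_T2 (d m : ℕ) (hm : m + 4 ≤ d) (σ : ℕ → ℝ)
    (hσ : ∀ j, 1 ≤ j → j + 3 ≤ d → 0 ≤ σ j) :
    ∑ j ∈ Icc 1 m, (Ej d j * ((j : ℝ) + 1) * σ (j + 1) -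
      Ej d j * (((d : ℝ) - j) + (d + 1) / j) * σ j) ≤ Ej d m * ((m : ℝ) + 1) * σ (m + 1) := by
  induction m with
  | zero => simp [Ej]
  | succ m ih =>
    rw [Finset.sum_Icc_succ_top (by omega)]
    have h1 := ih (by omega)
    have h2 : Ej d m * ((m : ℝ) + 1) ≤
        Ej d (m + 1) * (((d : ℝ) - ((m + 1 : ℕ) : ℝ)) + (d + 1) / ((m + 1 : ℕ) : ℝ)) := by
      have h3 := lp_E d m (by omega)
      have hm1 : (0 : ℝ) < (m : ℝ) + 1 := by positivity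
      have h4 : Ej d m * ((m : ℝ) + 1) = Ej d (m + 1) * (m * ((d : ℝ) - m) / (m + 1)) := by
        field_simp
        linarith
      rw [h4]
      refine mul_le_mul_of_nonneg_left ?_ (lp_nonneg d (m + 1))
      push_cast
      have hdm : (m : ℝ) + 5 ≤ d := by exact_mod_cast (by omega : m + 5 ≤ d)
      rw [div_le_iff₀ hm1]
      have h5 : ((d : ℝ) - (m + 1) + (d + 1) / (m + 1)) * (m + 1) =
          ((d : ℝ) - (m + 1)) * (m + 1) + (d + 1) := by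
        field_simp
      rw [h5]
      nlinarith
    have h6 := mul_le_mul_of_nonneg_right h2 (hσ (m + 1) (by omega) (by omega))
    linarith

private theorem lp_big (m : ℕ) (hm : 5 ≤ m) (c : ℝ) (hc : 0 ≤ c) (D σ b : ℕ → ℝ) (Λ l : ℝ)
    (hΛ : 0 ≤ Λ) (hD : ∀ j, 1 ≤ j → j + 3 ≤ m + 4 → 0 ≤ D j)
    (hs : (∑ j ∈ Icc 1 (m + 1), D j) + Λ = l)
    (h1 : ∀ j, 1 ≤ j → j + 3 ≤ m + 4 → b j ≤
      (j : ℝ) / ((((m + 4 : ℕ) : ℝ) + 1) * (((m + 4 : ℕ) : ℝ) - 1 - j)) * D j -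
      Ej (m + 4) j * (2 / (((m + 4 : ℕ) : ℝ) - 1 - j) + (((m + 4 : ℕ) : ℝ) + 1) / j) * σ j)
    (h2 : ∀ j, 1 ≤ j → j + 4 ≤ m + 4 → b j ≤
      (j : ℝ) / (((m + 4 : ℕ) : ℝ) + 1) * (D j - D (j + 1)) +
      Ej (m + 4) j * (j + 1) * σ (j + 1) -
      Ej (m + 4) j * ((((m + 4 : ℕ) : ℝ) - j) + (((m + 4 : ℕ) : ℝ) + 1) / j) * σ j + c)
    (h3 : ∀ j, 1 ≤ j → j + 3 ≤ m + 4 → 0 ≤ σ j ∧
      (((m + 4 : ℕ) : ℝ) - j + 1) * σ j ≤ (m + 4).choose j * D j)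
    (h4 : ∀ j, 1 ≤ j → j + 4 ≤ m + 4 → D (j + 1) ≤ D j + c)
    (h5 : Λ ≤ D (m + 1) + c) :
    (∑ j ∈ Icc 1 (m + 1), b j) +
      (((m + 4 : ℕ) : ℝ) - 3) / (2 * (((m + 4 : ℕ) : ℝ) + 1)) * Λ ≤
      cd (m + 4) * l + (((m : ℝ) + 1) ^ 2 + 2 + (m + 5) * m) * c := by
  have hM : (5 : ℝ) ≤ m := by exact_mod_cast hm
  have hcast : ((m + 4 : ℕ) : ℝ) = (m : ℝ) + 4 := by push_cast; ring
  have hq : (0 : ℝ) < (m : ℝ) + 5 := by linarith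
  have hq1 : (0 : ℝ) < (m : ℝ) + 1 := by linarith
  have hq2 : (0 : ℝ) < (m : ℝ) + 2 := by linarith
  rw [Finset.sum_Icc_succ_top (by omega)] at hs ⊢
  set S : ℝ := ∑ j ∈ Icc 1 m, D j with hS
  set B : ℝ := ∑ j ∈ Icc 1 m, b j with hB
  set e : ℝ := Ej (m + 4) (m + 1) * σ (m + 1) with he
  -- the sum of the lower levels
  have step1 : ((m : ℝ) + 5) * B ≤ S - m * D (m + 1) +
      (2 * 2 * m / (m + 1)) * ((m + 5) * e) + (m + 5) * m * c := by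
    have a1 : B ≤ ∑ j ∈ Icc 1 m, ((j : ℝ) / (((m + 4 : ℕ) : ℝ) + 1) * (D j - D (j + 1)) +
        Ej (m + 4) j * (j + 1) * σ (j + 1) -
        Ej (m + 4) j * ((((m + 4 : ℕ) : ℝ) - j) + (((m + 4 : ℕ) : ℝ) + 1) / j) * σ j + c) := by
      refine Finset.sum_le_sum fun j hj => ?_
      rw [mem_Icc] at hj
      exact h2 j hj.1 (by omega)
    have a2 : ∑ j ∈ Icc 1 m, ((j : ℝ) / (((m + 4 : ℕ) : ℝ) + 1) * (D j - D (j + 1)) +
        Ej (m + 4) j * (j + 1) * σ (j + 1) -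
        Ej (m + 4) j * ((((m + 4 : ℕ) : ℝ) - j) + (((m + 4 : ℕ) : ℝ) + 1) / j) * σ j + c) =
        (((m + 4 : ℕ) : ℝ) + 1)⁻¹ * (∑ j ∈ Icc 1 m, (j : ℝ) * (D j - D (j + 1))) +
        (∑ j ∈ Icc 1 m, (Ej (m + 4) j * ((j : ℝ) + 1) * σ (j + 1) -
          Ej (m + 4) j * ((((m + 4 : ℕ) : ℝ) - j) + (((m + 4 : ℕ) : ℝ) + 1) / j) * σ j)) +
        m * c := by
      have a3 : (m : ℝ) * c = ∑ _j ∈ Icc 1 m, c := by
        rw [Finset.sum_const, Nat.card_Icc, nsmul_eq_mul]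
        simp
      rw [a3, Finset.mul_sum, ← Finset.sum_add_distrib, ← Finset.sum_add_distrib]
      refine Finset.sum_congr rfl fun j _ => ?_
      rw [div_eq_inv_mul]
      ring
    have a4 := lp_T2 (m + 4) m (by omega) σ (fun j hj hj' => (h3 j hj hj').1)
    rw [a2, lp_T1] at a1
    have a5 : Ej (m + 4) m * ((m : ℝ) + 1) * σ (m + 1) = (2 * 2 * m / (m + 1)) * e := by
      have a6 := lp_E (m + 4) m (by omega)
      rw [hcast] at a6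
      rw [he]
      field_simp
      have a7 : Ej (m + 4) m * ((m : ℝ) + 1) ^ 2 = Ej (m + 4) (m + 1) * (m * 4) := by
        rw [a6]; ring
      linear_combination (σ (m + 1)) * a7
    rw [a5] at a4
    rw [hcast] at a1 a4
    have a8 : ((m : ℝ) + 5) * B ≤ ((m : ℝ) + 5) * (((m : ℝ) + 4 + 1)⁻¹ * (S - m * D (m + 1)) +
        (2 * 2 * m / (m + 1)) * e + m * c) := by
      refine mul_le_mul_of_nonneg_left ?_ hq.le
      linarith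
    have a9 : ((m : ℝ) + 5) * (((m : ℝ) + 4 + 1)⁻¹ * (S - m * D (m + 1)) +
        (2 * 2 * m / (m + 1)) * e + m * c) = S - m * D (m + 1) +
      (2 * 2 * m / (m + 1)) * ((m + 5) * e) + (m + 5) * m * c := by
      have : (m : ℝ) + 4 + 1 = m + 5 := by ring
      rw [this]
      field_simp
    linarith
  have step2 : ((m : ℝ) + 5) * b (m + 1) ≤ (m + 1) / 2 * D (m + 1) -
      (1 + (m + 5) / (m + 1)) * ((m + 5) * e) := by
    have a1 := h1 (m + 1) (by omega) (by omega)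
    rw [hcast] at a1
    have a2 : (m : ℝ) + 4 - 1 - ((m + 1 : ℕ) : ℝ) = 2 := by push_cast; ring
    have a3 : ((m + 1 : ℕ) : ℝ) = (m : ℝ) + 1 := by push_cast; ring
    have a4 : (m : ℝ) + 4 + 1 = m + 5 := by ring
    rw [a2, a3, a4] at a1
    have a5 := mul_le_mul_of_nonneg_left a1 hq.le
    have a6 : ((m : ℝ) + 5) * (((m : ℝ) + 1) / ((m + 5) * 2) * D (m + 1) -
        Ej (m + 4) (m + 1) * (2 / 2 + (m + 5) / (m + 1)) * σ (m + 1)) =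
        (m + 1) / 2 * D (m + 1) - (1 + (m + 5) / (m + 1)) * ((m + 5) * e) := by
      rw [he]
      field_simp
    linarith
  have step3 : ((m : ℝ) + 5) * e ≤ (m + 1) / 4 * D (m + 1) := by
    have a1 := (h3 (m + 1) (by omega) (by omega)).2
    have a2 := mul_le_mul_of_nonneg_left a1 (lp_nonneg (m + 4) (m + 1))
    have a3 := lp_choose (m + 4) (m + 1) (by omega)
    rw [hcast] at a1 a2 a3
    have a4 : ((m + 1 : ℕ) : ℝ) = (m : ℝ) + 1 := by push_cast; ring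
    rw [a4] at a2 a3
    have a5 : Ej (m + 4) (m + 1) * (((m + 4).choose (m + 1) : ℝ) * D (m + 1)) =
        ((m : ℝ) + 1) / (m + 5) * D (m + 1) := by
      rw [← mul_assoc, a3]
      congr 2
      ring
    rw [a5] at a2
    have a6 : Ej (m + 4) (m + 1) * (((m : ℝ) + 4 - (m + 1) + 1) * σ (m + 1)) = 4 * e := by
      rw [he]; ring
    rw [a6] at a2
    have a7 : ((m : ℝ) + 5) * (4 * e) ≤ ((m : ℝ) + 5) * (((m : ℝ) + 1) / (m + 5) * D (m + 1)) :=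
      mul_le_mul_of_nonneg_left a2 hq.le
    have a8 : ((m : ℝ) + 5) * (((m : ℝ) + 1) / (m + 5) * D (m + 1)) = (m + 1) * D (m + 1) := by
      field_simp
    linarith
  have step4 : (2 * 2 * (m : ℝ) / (m + 1)) * ((m + 5) * e) -
      (1 + (m + 5) / (m + 1)) * ((m + 5) * e) ≤ ((m : ℝ) - 3) / 2 * D (m + 1) := by
    have a1 : (2 * 2 * (m : ℝ) / (m + 1)) * ((m + 5) * e) -
      (1 + (m + 5) / (m + 1)) * ((m + 5) * e) = ((2 * m - 6) / (m + 1)) * ((m + 5) * e) := by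
      field_simp
      ring
    have a2 : (0 : ℝ) ≤ (2 * m - 6) / (m + 1) := div_nonneg (by linarith) hq1.le
    have a3 := mul_le_mul_of_nonneg_left step3 a2
    have a4 : ((2 * (m : ℝ) - 6) / (m + 1)) * ((m + 1) / 4 * D (m + 1)) =
        (m - 3) / 2 * D (m + 1) := by
      field_simp
      ring
    linarith
  have step5 : ((m : ℝ) + 5) * (B + b (m + 1) +
      (((m + 4 : ℕ) : ℝ) - 3) / (2 * (((m + 4 : ℕ) : ℝ) + 1)) * Λ) ≤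
      S - D (m + 1) + (m + 1) / 2 * Λ + (m + 5) * m * c := by
    have a1 : ((m : ℝ) + 5) * ((((m + 4 : ℕ) : ℝ) - 3) / (2 * (((m + 4 : ℕ) : ℝ) + 1)) * Λ) =
        (m + 1) / 2 * Λ := by
      rw [hcast]
      have : (m : ℝ) + 4 + 1 = m + 5 := by ring
      rw [this]
      field_simp
      ring
    have a2 : ((m : ℝ) + 5) * (B + b (m + 1) +
      (((m + 4 : ℕ) : ℝ) - 3) / (2 * (((m + 4 : ℕ) : ℝ) + 1)) * Λ) =
      ((m : ℝ) + 5) * B + ((m : ℝ) + 5) * b (m + 1) +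
      ((m : ℝ) + 5) * ((((m + 4 : ℕ) : ℝ) - 3) / (2 * (((m + 4 : ℕ) : ℝ) + 1)) * Λ) := by ring
    rw [a2, a1]
    linarith
  -- all levels are at least the last one
  have step7 : ((m : ℝ) + 2) * Λ ≤ l + (m + 1) ^ 2 * c := by
    have a1 : ∀ i : ℕ, i ≤ m → Λ - (i + 1 : ℝ) * c ≤ D (m + 1 - i) := by
      intro i
      induction i with
      | zero =>
        intro _
        simp only [Nat.sub_zero]
        push_cast
        linarith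
      | succ i ih =>
        intro hi
        have b1 := ih (by omega)
        have b2 := h4 (m + 1 - (i + 1)) (by omega) (by omega)
        have b3 : m + 1 - (i + 1) + 1 = m + 1 - i := by omega
        rw [b3] at b2
        have b4 : ((i + 1 : ℕ) : ℝ) = (i : ℝ) + 1 := by push_cast; ring
        rw [b4]
        linarith
    have a2 : ∀ j ∈ Icc 1 m, Λ - ((m : ℝ) + 1) * c ≤ D j := by
      intro j hj
      rw [mem_Icc] at hj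
      have b1 := a1 (m + 1 - j) (by omega)
      have b2 : m + 1 - (m + 1 - j) = j := by omega
      rw [b2] at b1
      have b3 : (((m + 1 - j : ℕ) : ℝ) + 1) * c ≤ ((m : ℝ) + 1) * c := by
        refine mul_le_mul_of_nonneg_right ?_ hc
        have : ((m + 1 - j : ℕ) : ℝ) ≤ m := by exact_mod_cast (by omega : m + 1 - j ≤ m)
        linarith
      linarith
    have a3 : (m : ℝ) * (Λ - (m + 1) * c) ≤ S := by
      have := Finset.sum_le_sum a2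
      rw [Finset.sum_const, Nat.card_Icc, nsmul_eq_mul] at this
      simpa using this
    nlinarith
  have hcd : ((m : ℝ) + 5) * cd (m + 4) = 1 + (m - 5) / (2 * (m + 2)) := by
    have h8 : ¬ (m + 4 ≤ 8) := by omega
    unfold cd
    rw [if_neg h8, hcast]
    have e1 : (m : ℝ) + 4 - 2 = m + 2 := by ring
    have e2 : (m : ℝ) + 4 + 1 = m + 5 := by ring
    rw [e1, e2]
    field_simp
    ring
  have hα : (0 : ℝ) ≤ (m - 5) / (2 * (m + 2)) := div_nonneg (by linarith) (by linarith)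
  have hα1 : ((m : ℝ) - 5) / (2 * (m + 2)) ≤ 1 := by
    rw [div_le_one (by linarith)]
    linarith
  have step8 : ((m : ℝ) - 5) / 2 * Λ ≤ (m - 5) / (2 * (m + 2)) * (l + (m + 1) ^ 2 * c) := by
    have a1 := mul_le_mul_of_nonneg_left step7 hα
    have a2 : ((m : ℝ) - 5) / (2 * (m + 2)) * ((m + 2) * Λ) = (m - 5) / 2 * Λ := by
      field_simp
    linarith
  have step9 : ((m : ℝ) - 5) / (2 * (m + 2)) * ((m + 1) ^ 2 * c) ≤ (m + 1) ^ 2 * c := by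
    have : (0 : ℝ) ≤ (m + 1) ^ 2 * c := by positivity
    nlinarith
  have hfin : ((m : ℝ) + 5) * (B + b (m + 1) +
      (((m + 4 : ℕ) : ℝ) - 3) / (2 * (((m + 4 : ℕ) : ℝ) + 1)) * Λ) ≤
      ((m : ℝ) + 5) * (cd (m + 4) * l + (((m : ℝ) + 1) ^ 2 + 2 + (m + 5) * m) * c) := by
    have a1 : ((m : ℝ) + 5) * (cd (m + 4) * l + (((m : ℝ) + 1) ^ 2 + 2 + (m + 5) * m) * c) =
        (1 + (m - 5) / (2 * (m + 2))) * l +
        (m + 5) * ((((m : ℝ) + 1) ^ 2 + 2 + (m + 5) * m) * c) := by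
      rw [← hcd]; ring
    have a2 : (((m : ℝ) + 1) ^ 2 + 2 + (m + 5) * m) * c ≤
        (m + 5) * ((((m : ℝ) + 1) ^ 2 + 2 + (m + 5) * m) * c) := by
      have : (0 : ℝ) ≤ (((m : ℝ) + 1) ^ 2 + 2 + (m + 5) * m) * c := by positivity
      nlinarith
    rw [a1]
    nlinarith
  exact le_of_mul_le_mul_left hfin hq


/-- `k = d - 3`. `d ≤ 8`: for every `d = 4, …, 8` put the numbers `Ej d j`, `C(d, j)` in (`simp`,
`norm_num [Ej, Nat.factorial, Nat.choose]`) and use `linarith` (the multipliers exist: for `d = 4`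
the sum is at most `a₁ (D₁ + Λ)`; in general level `j < k` uses `θ_j` times `h1` plus
`1 - θ_j` times `h2`, with `y_j = j (1 - θ_j)`, `(j - y_j)/(k + 2 - j) + y_j - y_(j-1) = c (d + 1)`).
`d ≥ 9`: use `h2` for `j < k` and `h1` for `j = k`. The coefficients of `σ j`, `j < k`, are `≤ 0`
(`Ej d j * ((d - j) + (d + 1)/j) = Ej d (j-1) * j * (j+1)/(j-1)`), the coefficient of `σ k` is
`Ej d k * (2 - 8/k)` (`Ej d (k-1) = 4 (k-1) Ej d k / k²`), use `h3`: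
`(d + 1) * sum ≤ ∑_{j<k} D j - D k + (k/2) Λ = (∑_{j≤k} D j + Λ) - 2 D k + (k/2 - 1) Λ
≤ l + (k/2 - 3) Λ + C`, and `(k + 1) Λ ≤ l + C` by `h4`, `h5`. -/
theorem lp (d : ℕ) (hd : 4 ≤ d) (c : ℝ) (hc : 0 ≤ c) : ∃ C : ℝ, ∀ (D σ b : ℕ → ℝ) (Λ l : ℝ),
    0 ≤ Λ → 0 ≤ l → (∀ j, 1 ≤ j → j + 3 ≤ d → 0 ≤ D j) →
    (∑ j ∈ Icc 1 (d - 3), D j) + Λ = l →
    (∀ j, 1 ≤ j → j + 3 ≤ d → b j ≤ (j : ℝ) / (((d : ℝ) + 1) * (d - 1 - j)) * D j -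
      Ej d j * (2 / ((d : ℝ) - 1 - j) + (d + 1) / j) * σ j) →
    (∀ j, 1 ≤ j → j + 4 ≤ d → b j ≤ (j : ℝ) / (d + 1) * (D j - D (j + 1)) +
      Ej d j * (j + 1) * σ (j + 1) - Ej d j * (((d : ℝ) - j) + (d + 1) / j) * σ j + c) →
    (∀ j, 1 ≤ j → j + 3 ≤ d → 0 ≤ σ j ∧ ((d : ℝ) - j + 1) * σ j ≤ d.choose j * D j) →
    (∀ j, 1 ≤ j → j + 4 ≤ d → D (j + 1) ≤ D j + c) →
    Λ ≤ D (d - 3) + c →
    (∑ j ∈ Icc 1 (d - 3), b j) + ((d : ℝ) - 3) / (2 * (d + 1)) * Λ ≤ cd d * l + C := by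
  rcases Nat.lt_or_ge 8 d with h9 | h8
  · obtain ⟨m, rfl⟩ : ∃ m, d = m + 4 := ⟨d - 4, by omega⟩
    refine ⟨(((m : ℝ) + 1) ^ 2 + 2 + (m + 5) * m) * c, ?_⟩
    intro D σ b Λ l hΛ hl hD hs h1 h2 h3 h4 h5
    have e1 : m + 4 - 3 = m + 1 := by omega
    rw [e1] at hs h5 ⊢
    exact lp_big m (by omega) c hc D σ b Λ l hΛ hD hs h1 h2 h3 h4 h5
  · refine ⟨100 * c, ?_⟩
    interval_cases d
    · exact fun D σ b Λ l hΛ hl hD hs h1 h2 h3 h4 h5 =>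
        lp_4 c hc D σ b Λ l hΛ hl hD hs h1 h2 h3 h4 h5
    · exact fun D σ b Λ l hΛ hl hD hs h1 h2 h3 h4 h5 =>
        lp_5 c hc D σ b Λ l hΛ hl hD hs h1 h2 h3 h4 h5
    · exact fun D σ b Λ l hΛ hl hD hs h1 h2 h3 h4 h5 =>
        lp_6 c hc D σ b Λ l hΛ hl hD hs h1 h2 h3 h4 h5
    · exact fun D σ b Λ l hΛ hl hD hs h1 h2 h3 h4 h5 =>
        lp_7 c hc D σ b Λ l hΛ hl hD hs h1 h2 h3 h4 h5
    · exact fun D σ b Λ l hΛ hl hD hs h1 h2 h3 h4 h5 =>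
        lp_8 c hc D σ b Λ l hΛ hl hD hs h1 h2 h3 h4 h5

end Pool.TSphM
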