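import Pool.Agent.Lib.MP_3de3a3_co.M.Defs
import Pool.Agent.Lib.MP_3de3a3_co.M.SumDg

/-! # The second differences, negative part (module M/Neg) -/

set_option autoImplicit false

namespace Pool.TSphM

open Finset
open Pool.TSph (verts IsSphere2 adj comp Ep PhiK)
open Pool.TSphD (fc rdg lk Lo PM side IsLF mv Closings)

variable {ι : Type*} [DecidableEq ι]

/-- The second difference at `t`: the average over the ordered pairs `u ≠ v` of elements of `t` of
`log (n_(t-u-v) n_t / (n_(t-u) n_(t-v)))`. -/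
noncomputable def X2 (F : Finset (Finset ι)) (t : Finset ι) : ℝ :=
  av t (fun u => dl F (t.erase u)) - dl F t

private theorem neg_swap (t : Finset ι) (f : ι → ι → ℝ) :
    ∑ u ∈ t, ∑ v ∈ t.erase u, f u v = ∑ v ∈ t, ∑ u ∈ t.erase v, f u v := by
  apply Finset.sum_comm'
  intro x y
  simp only [mem_erase]
  constructor
  · rintro ⟨h1, h2, h3⟩
    exact ⟨⟨Ne.symm h2, h1⟩, h3⟩
  · rintro ⟨⟨h1, h2⟩, h3⟩
    exact ⟨h2, Ne.symm h1, h3⟩

private theorem neg_X2_eq (F : Finset (Finset ι)) {j : ℕ} (hj : 1 ≤ j) {t : Finset ι}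
    (ht : t.card = j + 1) :
    X2 F t = (∑ u ∈ t, ∑ v ∈ t.erase u, (ls F ((t.erase u).erase v) - ls F (t.erase u)
      - ls F (t.erase v) + ls F t)) / ((j : ℝ) * (j + 1)) := by
  have hj0 : (j : ℝ) ≠ 0 := by positivity
  have hj1 : ((j : ℝ) + 1) ≠ 0 := by positivity
  have hc : ∀ u ∈ t, (t.erase u).card = j := by
    intro u hu
    rw [card_erase_of_mem hu, ht]; omega
  have h1 : av t (fun u => dl F (t.erase u)) =
      (∑ u ∈ t, ∑ v ∈ t.erase u, (ls F ((t.erase u).erase v) - ls F (t.erase u))) /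
        ((j : ℝ) * (j + 1)) := by
    have e : ∀ u ∈ t, dl F (t.erase u) =
        (∑ v ∈ t.erase u, (ls F ((t.erase u).erase v) - ls F (t.erase u))) / (j : ℝ) := by
      intro u hu
      unfold dl av
      rw [hc u hu]
    unfold av
    rw [ht, Finset.sum_congr rfl e, ← Finset.sum_div, div_div]
    push_cast
    rfl
  have h2 : dl F t = (∑ u ∈ t, ∑ v ∈ t.erase u, (ls F (t.erase v) - ls F t)) /
        ((j : ℝ) * (j + 1)) := by
    rw [neg_swap t (fun u v => ls F (t.erase v) - ls F t)]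
    unfold dl av
    rw [ht]
    have : ∀ v ∈ t, ∑ u ∈ t.erase v, (ls F (t.erase v) - ls F t) =
        (j : ℝ) * (ls F (t.erase v) - ls F t) := by
      intro v hv
      rw [Finset.sum_const, hc v hv, nsmul_eq_mul]
    rw [Finset.sum_congr rfl this, ← Finset.mul_sum]
    push_cast
    field_simp
  unfold X2
  rw [h1, h2, ← sub_div, ← Finset.sum_sub_distrib]
  congr 1
  apply Finset.sum_congr rfl
  intro u hu
  rw [← Finset.sum_sub_distrib]
  apply Finset.sum_congr rfl
  intro v hv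
  ring

private theorem neg_dg_pos {F : Finset (Finset ι)} {t a : Finset ι} (ha : a ∈ F) (h : t ⊆ a) :
    0 < (dg F t : ℝ) := by
  have : 0 < dg F t := card_pos.mpr ⟨a, by simp [up, ha, h]⟩
  exact_mod_cast this

private theorem neg_log_le {a b c e : ℝ} (ha : 0 < a) (hb : 0 < b) (hc : 0 < c) (he : 0 < e) :
    -(Real.log a - Real.log b - Real.log c + Real.log e) ≤ b * c / (a * e) := by
  have hz : 0 < b * c / (a * e) := by positivity
  have h := Real.log_le_sub_one_of_pos hz
  have h2 : Real.log (b * c / (a * e)) = Real.log b + Real.log c - (Real.log a + Real.log e) := by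
    rw [Real.log_div (by positivity) (by positivity), Real.log_mul hb.ne' hc.ne',
      Real.log_mul ha.ne' he.ne']
  linarith

/-- The sum over `u` outside `s` of `n_(s+u)`. -/
private theorem neg_sum_insert {d : ℕ} {F : Finset (Finset ι)} (hF : ∀ a ∈ F, a.card = d)
    (s V : Finset ι) (hV : ∀ a ∈ F, a ⊆ V) :
    ∑ u ∈ V, (if u ∉ s then (dg F (insert u s) : ℝ) else 0) =
      (((d - s.card : ℕ)) : ℝ) * (dg F s : ℝ) := by
  have h1 : ∀ u ∈ V, (if u ∉ s then (dg F (insert u s) : ℝ) else 0) =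
      ∑ a ∈ up F s, (if u ∈ a \ s then (1 : ℝ) else 0) := by
    intro u hu
    by_cases hus : u ∈ s
    · simp [hus]
    · simp only [hus, not_false_eq_true, if_true, mem_sdiff, and_true]
      rw [Finset.sum_boole]
      congr 1
      unfold dg up
      congr 1
      ext a
      simp only [mem_filter, insert_subset_iff]
      tauto
  rw [Finset.sum_congr rfl h1, Finset.sum_comm]
  have h2 : ∀ a ∈ up F s, ∑ u ∈ V, (if u ∈ a \ s then (1 : ℝ) else 0) =
      ((d - s.card : ℕ) : ℝ) := by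
    intro a ha
    have haF : a ∈ F := (mem_filter.mp ha).1
    have hsa : s ⊆ a := (mem_filter.mp ha).2
    rw [Finset.sum_boole]
    have : V.filter (fun u => u ∈ a \ s) = a \ s := by
      ext u
      simp only [mem_filter, mem_sdiff]
      constructor
      · rintro ⟨_, h⟩; exact h
      · rintro ⟨h, h'⟩; exact ⟨hV a haF h, h, h'⟩
    rw [this, card_sdiff_of_subset hsa, hF a haF]
  rw [Finset.sum_congr rfl h2, Finset.sum_const, nsmul_eq_mul]
  unfold dg
  ring

private theorem neg_triple {d : ℕ} {F : Finset (Finset ι)} (hF : ∀ a ∈ F, a.card = d) {j : ℕ}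
    (hj : 1 ≤ j) :
    ∑ t ∈ fc (j + 1) F, ∑ u ∈ t, ∑ v ∈ t.erase u,
      (dg F (t.erase u) : ℝ) * dg F (t.erase v) / dg F ((t.erase u).erase v) ≤
      (d : ℝ) ^ 2 * (2 ^ d * F.card) := by
  set V : Finset ι := F.biUnion id with hVd
  have hV : ∀ a ∈ F, a ⊆ V := fun a ha => subset_biUnion_of_mem id ha
  set G : Finset ι × ι × ι → ℝ := fun p =>
    (if p.2.1 ∉ p.1 then (dg F (insert p.2.1 p.1) : ℝ) else 0) *
      (if p.2.2 ∉ p.1 then (dg F (insert p.2.2 p.1) : ℝ) else 0) / dg F p.1 with hG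
  have hG0 : ∀ p, 0 ≤ G p := by
    intro p
    simp only [hG]
    apply div_nonneg
    · apply mul_nonneg <;> split_ifs <;> positivity
    · positivity
  -- the triples
  set A : Finset (Finset ι × ι × ι) :=
    ((fc (j + 1) F) ×ˢ (V ×ˢ V)).filter (fun p => p.2.1 ∈ p.1 ∧ p.2.2 ∈ p.1.erase p.2.1) with hA
  have h1 : ∑ t ∈ fc (j + 1) F, ∑ u ∈ t, ∑ v ∈ t.erase u,
      (dg F (t.erase u) : ℝ) * dg F (t.erase v) / dg F ((t.erase u).erase v) =
      ∑ p ∈ A, (dg F (p.1.erase p.2.1) : ℝ) * dg F (p.1.erase p.2.2) /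
        dg F ((p.1.erase p.2.1).erase p.2.2) := by
    rw [hA, Finset.sum_filter, Finset.sum_product]
    apply Finset.sum_congr rfl
    intro t ht
    obtain ⟨htc, a, haF, hta⟩ := Pool.TSphD.mem_fc.mp ht
    have htV : t ⊆ V := hta.trans (hV a haF)
    rw [Finset.sum_product]
    rw [← Finset.sum_subset htV]
    · apply Finset.sum_congr rfl
      intro u hu
      rw [← Finset.sum_subset ((erase_subset u t).trans htV)]
      · apply Finset.sum_congr rfl
        intro v hv
        simp only [hu, hv, and_self, if_true]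
      · intro v _ hv
        simp [hu, hv]
    · intro u _ hu
      apply Finset.sum_eq_zero
      intro v _
      simp [hu]
  set φ : Finset ι × ι × ι → Finset ι × ι × ι := fun p =>
    ((p.1.erase p.2.1).erase p.2.2, p.2.1, p.2.2) with hφ
  have h2 : ∀ p ∈ A, (dg F (p.1.erase p.2.1) : ℝ) * dg F (p.1.erase p.2.2) /
        dg F ((p.1.erase p.2.1).erase p.2.2) = G (φ p) := by
    rintro ⟨t, u, v⟩ hp
    simp only [hA, mem_filter, mem_product] at hp
    obtain ⟨⟨ht, huV, hvV⟩, hu, hv⟩ := hp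
    have hvt : v ∈ t := mem_of_mem_erase hv
    have hvu : v ≠ u := ne_of_mem_erase hv
    simp only [hG, hφ]
    have e1 : insert u ((t.erase u).erase v) = t.erase v := by
      rw [erase_right_comm]
      exact insert_erase (mem_erase.mpr ⟨hvu.symm, hu⟩)
    have e2 : insert v ((t.erase u).erase v) = t.erase u := insert_erase hv
    have n1 : u ∉ (t.erase u).erase v := by simp
    have n2 : v ∉ (t.erase u).erase v := by simp
    rw [if_pos n1, if_pos n2, e1, e2]
    ring
  have hinj : Set.InjOn φ A := by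
    rintro ⟨t, u, v⟩ hp ⟨t', u', v'⟩ hp' h
    simp only [hA, coe_filter, mem_product, Set.mem_ofPred_eq] at hp hp'
    obtain ⟨-, hu, hv⟩ := hp
    obtain ⟨-, hu', hv'⟩ := hp'
    simp only [hφ, Prod.mk.injEq] at h
    obtain ⟨h1, h2, h3⟩ := h
    subst h2; subst h3
    have : t = t' := by
      have e : insert u (insert v ((t.erase u).erase v)) = t := by
        rw [insert_erase hv, insert_erase hu]
      have e' : insert u (insert v ((t'.erase u).erase v)) = t' := by
        rw [insert_erase hv', insert_erase hu']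
      rw [← e, ← e', h1]
    simp [this]
  rw [h1, Finset.sum_congr rfl h2, ← Finset.sum_image hinj]
  have hsub : A.image φ ⊆ (fc (j - 1) F) ×ˢ (V ×ˢ V) := by
    intro p hp
    rw [mem_image] at hp
    obtain ⟨⟨t, u, v⟩, hp, rfl⟩ := hp
    simp only [hA, mem_filter, mem_product] at hp
    obtain ⟨⟨ht, huV, hvV⟩, hu, hv⟩ := hp
    obtain ⟨htc, a, haF, hta⟩ := Pool.TSphD.mem_fc.mp ht
    simp only [hφ, mem_product]
    refine ⟨Pool.TSphD.mem_fc.mpr ⟨?_, a, haF, ?_⟩, huV, hvV⟩
    · rw [card_erase_of_mem hv, card_erase_of_mem hu, htc]; omega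
    · exact (erase_subset _ _).trans ((erase_subset _ _).trans hta)
  refine (Finset.sum_le_sum_of_subset_of_nonneg hsub (fun p _ _ => hG0 p)).trans ?_
  rw [Finset.sum_product]
  have h3 : ∀ s ∈ fc (j - 1) F, ∑ q ∈ V ×ˢ V, G (s, q) ≤ (d : ℝ) ^ 2 * dg F s := by
    intro s hs
    obtain ⟨hsc, a, haF, hsa⟩ := Pool.TSphD.mem_fc.mp hs
    rw [Finset.sum_product]
    simp only [hG]
    have hpos : 0 < (dg F s : ℝ) := neg_dg_pos haF hsa
    have : ∑ u ∈ V, ∑ v ∈ V, (if u ∉ s then (dg F (insert u s) : ℝ) else 0) *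
        (if v ∉ s then (dg F (insert v s) : ℝ) else 0) / dg F s =
        (∑ u ∈ V, (if u ∉ s then (dg F (insert u s) : ℝ) else 0)) *
        (∑ v ∈ V, (if v ∉ s then (dg F (insert v s) : ℝ) else 0)) / dg F s := by
      rw [Finset.sum_mul_sum, Finset.sum_div]
      apply Finset.sum_congr rfl
      intro u _
      rw [Finset.sum_div]
    rw [this, neg_sum_insert hF s V hV]
    have hd : ((d - s.card : ℕ) : ℝ) ≤ d := by exact_mod_cast Nat.sub_le d s.card
    have hd0 : (0 : ℝ) ≤ ((d - s.card : ℕ) : ℝ) := by positivity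
    have e : ((d - s.card : ℕ) : ℝ) * (dg F s : ℝ) * (((d - s.card : ℕ) : ℝ) * (dg F s : ℝ)) /
        (dg F s : ℝ) = ((d - s.card : ℕ) : ℝ) ^ 2 * dg F s := by
      field_simp
    rw [e]
    apply mul_le_mul_of_nonneg_right _ hpos.le
    exact pow_le_pow_left₀ hd0 hd 2
  refine (Finset.sum_le_sum h3).trans ?_
  rw [← Finset.mul_sum]
  apply mul_le_mul_of_nonneg_left _ (by positivity)
  have h4 := sum_dg hF (j - 1)
  have h5 : ∑ s ∈ fc (j - 1) F, (dg F s : ℝ) = (F.card : ℝ) * (d.choose (j - 1) : ℕ) := by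
    exact_mod_cast h4
  rw [h5]
  have h6 : ((d.choose (j - 1) : ℕ) : ℝ) ≤ 2 ^ d := by
    exact_mod_cast Nat.choose_le_two_pow d (j - 1)
  nlinarith [Nat.cast_nonneg (α := ℝ) F.card]

/-- `X2 F t ≥ - av_(u ≠ v) Z`, `Z = n_(t-u) n_(t-v) / (n_(t-u-v) n_t)`, since
`log (1 / Z) ≥ - Z`. With `s = t - u - v`, `|s| = j - 1`:
`∑ t, n_t * av Z ≤ (1 / (j (j+1))) ∑ s, ∑_{u ≠ v} n_(s+u) n_(s+v) / n_s
≤ (1 / (j (j+1))) ∑ s, ((d - j + 1) n_s)² / n_s ≤ (d²) * n * C(d, j - 1)`
(`∑ u, n_(s+u) = (d - j + 1) n_s`). -/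
theorem sum_neg {d : ℕ} {F : Finset (Finset ι)} (hF : ∀ a ∈ F, a.card = d) {j : ℕ}
    (hj : 1 ≤ j) (hjd : j + 1 ≤ d) :
    ∑ t ∈ fc (j + 1) F, (dg F t : ℝ) * max 0 (-(X2 F t)) ≤ (d : ℝ) ^ 2 * 2 ^ d * F.card := by
  have key : ∀ t ∈ fc (j + 1) F, (dg F t : ℝ) * max 0 (-(X2 F t)) ≤
      ∑ u ∈ t, ∑ v ∈ t.erase u,
      (dg F (t.erase u) : ℝ) * dg F (t.erase v) / dg F ((t.erase u).erase v) := by
    intro t ht
    obtain ⟨htc, a, haF, hta⟩ := Pool.TSphD.mem_fc.mp ht
    have hn : 0 < (dg F t : ℝ) := neg_dg_pos haF hta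
    have hn1 : ∀ u, 0 < (dg F (t.erase u) : ℝ) := fun u =>
      neg_dg_pos haF ((erase_subset _ _).trans hta)
    have hn2 : ∀ u v, 0 < (dg F ((t.erase u).erase v) : ℝ) := fun u v =>
      neg_dg_pos haF ((erase_subset _ _).trans ((erase_subset _ _).trans hta))
    have hjj : (1 : ℝ) ≤ (j : ℝ) * (j + 1) := by
      have : (1 : ℝ) ≤ j := by exact_mod_cast hj
      nlinarith
    set S : ℝ := ∑ u ∈ t, ∑ v ∈ t.erase u,
      (dg F (t.erase u) : ℝ) * dg F (t.erase v) / dg F ((t.erase u).erase v) with hS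
    have hS0 : 0 ≤ S := by
      apply Finset.sum_nonneg; intro u _
      apply Finset.sum_nonneg; intro v _
      exact div_nonneg (mul_nonneg (hn1 u).le (hn1 v).le) (hn2 u v).le
    have hX : -(X2 F t) ≤ S / dg F t := by
      rw [neg_X2_eq F hj htc, ← neg_div, ← Finset.sum_neg_distrib]
      rw [div_le_iff₀ (by linarith)]
      have : ∑ u ∈ t, -∑ v ∈ t.erase u, (ls F ((t.erase u).erase v) - ls F (t.erase u)
          - ls F (t.erase v) + ls F t) ≤ S / dg F t := by
        rw [hS, Finset.sum_div]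
        apply Finset.sum_le_sum
        intro u hu
        rw [← Finset.sum_neg_distrib, Finset.sum_div]
        apply Finset.sum_le_sum
        intro v hv
        have := neg_log_le (hn2 u v) (hn1 u) (hn1 v) hn
        unfold ls
        refine this.trans (le_of_eq ?_)
        field_simp
      refine this.trans ?_
      have : 0 ≤ S / dg F t := div_nonneg hS0 hn.le
      nlinarith
    have hm : max 0 (-(X2 F t)) ≤ S / dg F t := max_le (div_nonneg hS0 hn.le) hX
    calc (dg F t : ℝ) * max 0 (-(X2 F t)) ≤ dg F t * (S / dg F t) :=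
          mul_le_mul_of_nonneg_left hm hn.le
      _ = S := by field_simp
  refine (Finset.sum_le_sum key).trans ((neg_triple hF hj).trans (le_of_eq ?_))
  ring

end Pool.TSphM
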