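import Pool.Agent.Lib.MP_3de3a3_co.M.Defs
import Pool.Agent.Lib.MP_3de3a3_co.M.Neg
import Pool.Agent.Lib.MP_3de3a3_co.M.SumDg
import Pool.Agent.Lib.MP_3de3a3_co.M.MinF

/-! # The telescoping bound for a level (module M/Lvl) -/

set_option autoImplicit false

namespace Pool.TSphM

open Finset
open Pool.TSph (verts IsSphere2 adj comp Ep PhiK)
open Pool.TSphD (fc rdg lk Lo PM side IsLF mv Closings)

variable {ι : Type*} [DecidableEq ι]

private theorem Lvl_av {F : Finset (Finset ι)} {j : ℕ} {t : Finset ι} (ht : t.card = j + 1) :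
    X2 F t = (∑ u ∈ t, dl F (t.erase u)) / ((j : ℝ) + 1) - dl F t := by
  unfold X2 av
  rw [ht]
  push_cast
  rfl

/-- `∑_{t ∈ fc (j+1) F} dg F t * X2 F t = n * C(d, j+1) * (Dl j - Dl (j+1))` (`sum_dg_erase` with
`h = dl F`, `sum_dg_dl`, `C(d, j+1) (j+1) = C(d, j) (d - j)`). -/
theorem sum_X2 {d : ℕ} {F : Finset (Finset ι)} (hF : ∀ a ∈ F, a.card = d) (hne : F.Nonempty)
    {j : ℕ} (hj : 1 ≤ j) (hjd : j + 1 ≤ d) :
    ∑ t ∈ fc (j + 1) F, (dg F t : ℝ) * X2 F t =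
      F.card * d.choose (j + 1) * (Dl d F j - Dl d F (j + 1)) := by
  have h1 := sum_dg_erase hF (by omega : j ≤ d) (dl F)
  have h2 := sum_dg_dl hF hne hj (by omega : j ≤ d)
  have h3 := sum_dg_dl hF hne (by omega : 1 ≤ j + 1) hjd
  have hj1 : ((j : ℝ) + 1) ≠ 0 := by positivity
  have hch : ((d.choose (j + 1) : ℕ) : ℝ) * ((j : ℝ) + 1) = (d.choose j : ℕ) * ((d : ℝ) - j) := by
    have := Nat.choose_succ_right_eq d j
    have hcast : ((d - j : ℕ) : ℝ) = (d : ℝ) - j := by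
      rw [Nat.cast_sub (by omega)]
    rw [← hcast]
    exact_mod_cast this
  have e : ∀ t ∈ fc (j + 1) F, (dg F t : ℝ) * X2 F t =
      ((dg F t : ℝ) * ∑ u ∈ t, dl F (t.erase u)) / ((j : ℝ) + 1) - (dg F t : ℝ) * dl F t := by
    intro t ht
    rw [Lvl_av (Pool.TSphD.mem_fc.mp ht).1]
    ring
  rw [Finset.sum_congr rfl e, Finset.sum_sub_distrib, ← Finset.sum_div, h1, h2, h3]
  have : ((d : ℝ) - j) * ((F.card : ℝ) * (d.choose j : ℕ) * Dl d F j) / ((j : ℝ) + 1) =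
      F.card * (d.choose (j + 1) : ℕ) * Dl d F j := by
    rw [div_eq_iff hj1]
    calc ((d : ℝ) - j) * ((F.card : ℝ) * (d.choose j : ℕ) * Dl d F j)
        = F.card * Dl d F j * ((d.choose j : ℕ) * ((d : ℝ) - j)) := by ring
      _ = F.card * Dl d F j * ((d.choose (j + 1) : ℕ) * ((j : ℝ) + 1)) := by rw [hch]
      _ = _ := by ring
  rw [this]
  ring

/-- `Dl` is almost nonincreasing: `sum_X2` and `sum_neg`. -/
theorem Dl_mono {d : ℕ} {F : Finset (Finset ι)} (hF : ∀ a ∈ F, a.card = d) (hne : F.Nonempty)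
    {j : ℕ} (hj : 1 ≤ j) (hjd : j + 1 ≤ d) :
    Dl d F (j + 1) ≤ Dl d F j + (d : ℝ) ^ 2 * 2 ^ d := by
  have h1 := sum_X2 hF hne hj hjd
  have h2 := sum_neg hF hj hjd
  have hn : 0 < (F.card : ℝ) := by exact_mod_cast hne.card_pos
  have hc : (1 : ℝ) ≤ ((d.choose (j + 1) : ℕ) : ℝ) := by
    exact_mod_cast Nat.choose_pos hjd
  have h3 : -∑ t ∈ fc (j + 1) F, (dg F t : ℝ) * max 0 (-(X2 F t)) ≤
      ∑ t ∈ fc (j + 1) F, (dg F t : ℝ) * X2 F t := by
    rw [← Finset.sum_neg_distrib]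
    apply Finset.sum_le_sum
    intro t _
    have h0 : (0 : ℝ) ≤ dg F t := Nat.cast_nonneg _
    have hm : -(X2 F t) ≤ max 0 (-(X2 F t)) := le_max_right _ _
    nlinarith
  have h4 : -((d : ℝ) ^ 2 * 2 ^ d) * F.card ≤
      (((d.choose (j + 1) : ℕ) : ℝ) * (Dl d F j - Dl d F (j + 1))) * F.card := by
    have : (((d.choose (j + 1) : ℕ) : ℝ) * (Dl d F j - Dl d F (j + 1))) * F.card =
      F.card * (d.choose (j + 1) : ℕ) * (Dl d F j - Dl d F (j + 1)) := by ring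
    rw [this, ← h1]
    linarith
  have h5 := le_of_mul_le_mul_right h4 hn
  by_contra hcon
  push Not at hcon
  have h6 : (0 : ℝ) ≤ (d : ℝ) ^ 2 * 2 ^ d := by positivity
  nlinarith

private theorem Lvl_mem_verts {F : Finset (Finset ι)} {s : Finset ι} {u : ι} :
    u ∈ verts (lk F s) ↔ u ∉ s ∧ ∃ a ∈ F, insert u s ⊆ a := by
  unfold lk
  simp only [Pool.TSph.mem_verts, mem_image, mem_filter]
  constructor
  · rintro ⟨b, ⟨a, ⟨ha, hsa⟩, rfl⟩, hu⟩
    rw [mem_sdiff] at hu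
    exact ⟨hu.2, a, ha, insert_subset hu.1 hsa⟩
  · rintro ⟨hu, a, ha, h⟩
    rw [insert_subset_iff] at h
    exact ⟨a \ s, ⟨a, ⟨ha, h.2⟩, rfl⟩, mem_sdiff.mpr ⟨h.1, hu⟩⟩

private theorem Lvl_double {F : Finset (Finset ι)} (j : ℕ) (h : Finset ι → ℝ) :
    ∑ s ∈ fc j F, vl F s * h s = ∑ t ∈ fc (j + 1) F, ∑ u ∈ t, h (t.erase u) := by
  have e1 : ∀ s ∈ fc j F, vl F s * h s = ∑ _u ∈ verts (lk F s), h s := by
    intro s _
    rw [Finset.sum_const, nsmul_eq_mul]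
    rfl
  rw [Finset.sum_congr rfl e1, Finset.sum_sigma', Finset.sum_sigma']
  refine Finset.sum_bij' (fun p _ => (⟨insert p.2 p.1, p.2⟩ : Σ _ : Finset ι, ι))
    (fun q _ => (⟨q.1.erase q.2, q.2⟩ : Σ _ : Finset ι, ι)) ?_ ?_ ?_ ?_ ?_
  · rintro ⟨s, u⟩ hp
    simp only [mem_sigma] at hp ⊢
    obtain ⟨hs, hu⟩ := hp
    obtain ⟨hu1, a, ha, h2⟩ := Lvl_mem_verts.mp hu
    refine ⟨Pool.TSphD.mem_fc.mpr ⟨?_, a, ha, h2⟩, mem_insert_self _ _⟩
    rw [card_insert_of_notMem hu1, (Pool.TSphD.mem_fc.mp hs).1]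
  · rintro ⟨t, u⟩ hq
    simp only [mem_sigma] at hq ⊢
    obtain ⟨ht, hu⟩ := hq
    obtain ⟨htc, a, ha, h2⟩ := Pool.TSphD.mem_fc.mp ht
    refine ⟨Pool.TSphD.mem_fc.mpr ⟨?_, a, ha, (erase_subset _ _).trans h2⟩, ?_⟩
    · rw [card_erase_of_mem hu, htc]; omega
    · rw [Lvl_mem_verts]
      refine ⟨by simp, a, ha, ?_⟩
      rw [insert_erase hu]; exact h2
  · rintro ⟨s, u⟩ hp
    simp only [mem_sigma] at hp
    obtain ⟨hs, hu⟩ := hp
    have hu1 := (Lvl_mem_verts.mp hu).1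
    simp [erase_insert hu1]
  · rintro ⟨t, u⟩ hq
    simp only [mem_sigma] at hq
    simp [insert_erase hq.2]
  · rintro ⟨s, u⟩ hp
    simp only [mem_sigma] at hp
    obtain ⟨hs, hu⟩ := hp
    have hu1 := (Lvl_mem_verts.mp hu).1
    simp [erase_insert hu1]

private theorem Lvl_Ej_nonneg (d j : ℕ) : 0 ≤ Ej d j := by
  unfold Ej
  positivity

private theorem Lvl_Ej_mul {d j : ℕ} (hjd : j + 1 ≤ d) :
    Ej d j * ((j : ℝ) + 1) / ((d : ℝ) - j) * (d.choose (j + 1) : ℕ) = (j : ℝ) / (d + 1) := by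
  obtain ⟨m, rfl⟩ : ∃ m, d = j + 1 + m := ⟨d - (j + 1), by omega⟩
  have h1 : ((j + 1 + m).choose (j + 1) : ℝ) * ((j + 1).factorial * m.factorial) =
      (j + 1 + m).factorial := by
    have := Nat.choose_mul_factorial_mul_factorial (show j + 1 ≤ j + 1 + m by omega)
    rw [show j + 1 + m - (j + 1) = m by omega] at this
    rw [← mul_assoc]
    exact_mod_cast this
  have h2 : ((j + 1 + m - j).factorial : ℝ) = (m + 1) * m.factorial := by
    rw [show j + 1 + m - j = m + 1 by omega, Nat.factorial_succ]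
    push_cast; ring
  have h3 : (((j + 1 + m) + 1).factorial : ℝ) = ((j + 1 + m : ℕ) + 1) * (j + 1 + m).factorial := by
    rw [Nat.factorial_succ]; push_cast; ring
  have h4 : (((j + 1).factorial : ℕ) : ℝ) = (j + 1) * j.factorial := by
    rw [Nat.factorial_succ]; push_cast; ring
  have p1 : (j.factorial : ℝ) ≠ 0 := by positivity
  have p2 : (m.factorial : ℝ) ≠ 0 := by positivity
  have p3 : ((j + 1 + m).factorial : ℝ) ≠ 0 := by positivity
  have p4 : ((j : ℝ) + 1 + m + 1) ≠ 0 := by positivity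
  have p5 : ((j : ℝ) + 1 + m - j) = m + 1 := by ring
  have p6 : ((m : ℝ) + 1) ≠ 0 := by positivity
  have p7 : ((j : ℝ) + 1) ≠ 0 := by positivity
  unfold Ej
  rw [h2, h3]
  push_cast
  rw [p5]
  set C : ℝ := ((j + 1 + m).choose (j + 1) : ℝ) with hC
  have hC0 : C ≠ 0 := by
    intro h
    rw [h, zero_mul] at h1
    exact p3 h1.symm
  rw [← h1, h4]
  field_simp

private theorem Lvl_Ej_le {d j : ℕ} (hjd : j + 1 ≤ d) :
    Ej d j * ((j : ℝ) + 1) / ((d : ℝ) - j) ≤ 1 := by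
  have h := Lvl_Ej_mul hjd
  have hc : (1 : ℝ) ≤ ((d.choose (j + 1) : ℕ) : ℝ) := by
    exact_mod_cast Nat.choose_pos hjd
  have hdj : (j : ℝ) + 1 ≤ d := by exact_mod_cast hjd
  have h0 : 0 ≤ Ej d j * ((j : ℝ) + 1) / ((d : ℝ) - j) := by
    apply div_nonneg (mul_nonneg (Lvl_Ej_nonneg d j) (by positivity)) (by linarith)
  have h1 : (j : ℝ) / (d + 1) ≤ 1 := by
    rw [div_le_one (by positivity)]; linarith
  nlinarith

/-- `∑_{s ∈ fc j F} vl F s * dl F s = ∑_{t ∈ fc (j+1) F} ∑_{u ∈ t} dl F (t - u)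
= (j + 1) ∑_t (dl F t + X2 F t)`, and `∑_t X2 F t ≤ ∑_t max 0 (X2 F t)
≤ (1 / (d - j)) ∑_t dg F t * max 0 (X2 F t)` as `dg F t ≥ d - j` (`dg_ge`),
`= (1 / (d - j)) (∑ dg X2 + ∑ dg max 0 (- X2))`. So with `sum_X2`, `sum_neg` and
`Ej d j * (j + 1) * C(d, j + 1) / (d - j) = j / (d + 1)`, `Ej d j ≤ 1`:
the claim, `bb d F j = Ej d j * ((∑ vl dl) / n - ((d - j) + (d + 1)/j) * sg F j)`. -/
theorem bb_tel {d : ℕ} {F : Finset (Finset ι)} (hF : IsNor d F) (hne : F.Nonempty) {j : ℕ}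
    (hj : 1 ≤ j) (hjd : j + 4 ≤ d) :
    bb d F j ≤ (j : ℝ) / (d + 1) * (Dl d F j - Dl d F (j + 1)) +
      Ej d j * (j + 1) * sg F (j + 1) - Ej d j * (((d : ℝ) - j) + (d + 1) / j) * sg F j +
      (d : ℝ) ^ 3 * 2 ^ d := by
  have hn : 0 < (F.card : ℝ) := by exact_mod_cast hne.card_pos
  have hdj : (j : ℝ) + 4 ≤ d := by exact_mod_cast hjd
  have hdj0 : 0 < (d : ℝ) - j := by linarith
  have hj1 : 0 < ((j : ℝ) + 1) := by positivity
  have hE := Lvl_Ej_nonneg d j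
  have h1 := sum_X2 hF.card hne hj (by omega : j + 1 ≤ d)
  have h2 := sum_neg hF.card hj (by omega : j + 1 ≤ d)
  -- the sum of `X2`
  have h3 : ∑ t ∈ fc (j + 1) F, X2 F t ≤
      (F.card * (d.choose (j + 1) : ℕ) * (Dl d F j - Dl d F (j + 1)) +
        (d : ℝ) ^ 2 * 2 ^ d * F.card) / ((d : ℝ) - j) := by
    rw [le_div_iff₀ hdj0, ← h1, Finset.sum_mul]
    have : ∑ t ∈ fc (j + 1) F, X2 F t * ((d : ℝ) - j) ≤
        ∑ t ∈ fc (j + 1) F, ((dg F t : ℝ) * X2 F t + (dg F t : ℝ) * max 0 (-(X2 F t))) := by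
      apply Finset.sum_le_sum
      intro t ht
      have hg := dg_ge hF ht (by omega : j + 1 + 3 ≤ d)
      have hg' : (d : ℝ) - j ≤ dg F t := by
        have : d - j ≤ dg F t := by omega
        have h' : ((d - j : ℕ) : ℝ) ≤ dg F t := by exact_mod_cast this
        rwa [Nat.cast_sub (by omega)] at h'
      rcases le_total 0 (X2 F t) with h0 | h0
      · have : max 0 (-(X2 F t)) = 0 := max_eq_left (by linarith)
        rw [this]
        nlinarith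
      · have : max 0 (-(X2 F t)) = -(X2 F t) := max_eq_right (by linarith)
        rw [this]
        nlinarith
    rw [Finset.sum_add_distrib] at this
    linarith
  -- the sum of `vl * dl`
  have h4 : ∑ s ∈ fc j F, vl F s * dl F s =
      ((j : ℝ) + 1) * ((∑ t ∈ fc (j + 1) F, dl F t) + ∑ t ∈ fc (j + 1) F, X2 F t) := by
    rw [Lvl_double, ← Finset.sum_add_distrib, Finset.mul_sum]
    apply Finset.sum_congr rfl
    intro t ht
    rw [Lvl_av (Pool.TSphD.mem_fc.mp ht).1]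
    field_simp
    ring
  have h5 : bb d F j = Ej d j * ((∑ s ∈ fc j F, vl F s * dl F s) / F.card) -
      Ej d j * (((d : ℝ) - j) + (d + 1) / j) * sg F j := by
    unfold bb sg bet
    rw [← mul_div_assoc, ← mul_div_assoc, ← sub_div, Finset.mul_sum, Finset.mul_sum,
      ← Finset.sum_sub_distrib]
    congr 1
    apply Finset.sum_congr rfl
    intro s _
    ring
  have h6 : Ej d j * ((∑ s ∈ fc j F, vl F s * dl F s) / F.card) ≤
      (j : ℝ) / (d + 1) * (Dl d F j - Dl d F (j + 1)) + Ej d j * (j + 1) * sg F (j + 1) +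
      Ej d j * ((j : ℝ) + 1) / ((d : ℝ) - j) * ((d : ℝ) ^ 2 * 2 ^ d) := by
    have e1 : (∑ s ∈ fc j F, vl F s * dl F s) / F.card ≤
        ((j : ℝ) + 1) * sg F (j + 1) + ((j : ℝ) + 1) / ((d : ℝ) - j) *
          ((d.choose (j + 1) : ℕ) * (Dl d F j - Dl d F (j + 1)) + (d : ℝ) ^ 2 * 2 ^ d) := by
      rw [h4, div_le_iff₀ hn]
      have e2 : (((j : ℝ) + 1) * sg F (j + 1) + ((j : ℝ) + 1) / ((d : ℝ) - j) *
          ((d.choose (j + 1) : ℕ) * (Dl d F j - Dl d F (j + 1)) + (d : ℝ) ^ 2 * 2 ^ d)) * F.card =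
          ((j : ℝ) + 1) * ((∑ t ∈ fc (j + 1) F, dl F t) +
            (F.card * (d.choose (j + 1) : ℕ) * (Dl d F j - Dl d F (j + 1)) +
            (d : ℝ) ^ 2 * 2 ^ d * F.card) / ((d : ℝ) - j)) := by
        unfold sg
        field_simp
      rw [e2]
      apply mul_le_mul_of_nonneg_left _ hj1.le
      linarith
    have e3 := mul_le_mul_of_nonneg_left e1 hE
    refine e3.trans (le_of_eq ?_)
    rw [← Lvl_Ej_mul (by omega : j + 1 ≤ d)]
    ring
  have h7 := Lvl_Ej_le (by omega : j + 1 ≤ d)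
  have h8 : Ej d j * ((j : ℝ) + 1) / ((d : ℝ) - j) * ((d : ℝ) ^ 2 * 2 ^ d) ≤
      (d : ℝ) ^ 3 * 2 ^ d := by
    have hd1 : (1 : ℝ) ≤ d := by linarith [(Nat.cast_nonneg j : (0:ℝ) ≤ j)]
    have h0 : (0 : ℝ) ≤ (d : ℝ) ^ 2 * 2 ^ d := by positivity
    calc Ej d j * ((j : ℝ) + 1) / ((d : ℝ) - j) * ((d : ℝ) ^ 2 * 2 ^ d)
        ≤ 1 * ((d : ℝ) ^ 2 * 2 ^ d) := mul_le_mul_of_nonneg_right h7 h0
      _ ≤ d * ((d : ℝ) ^ 2 * 2 ^ d) := mul_le_mul_of_nonneg_right hd1 h0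
      _ = _ := by ring
  rw [h5]
  linarith

/-- `0 ≤ sg`, and `(d - j + 1) * sg F j ≤ C(d, j) * Dl d F j` (`dg_ge`, `sum_dg_dl`). -/
theorem sg_bounds {d : ℕ} {F : Finset (Finset ι)} (hF : IsNor d F) (hne : F.Nonempty) {j : ℕ}
    (hj : 1 ≤ j) (hjd : j + 3 ≤ d) :
    0 ≤ sg F j ∧ ((d : ℝ) - j + 1) * sg F j ≤ d.choose j * Dl d F j := by
  have hn : 0 < (F.card : ℝ) := by exact_mod_cast hne.card_pos
  have hg : ∀ s ∈ fc j F, (d : ℝ) - j + 1 ≤ dg F s := by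
    intro s hs
    have := dg_ge hF hs hjd
    have h' : ((d - j + 1 : ℕ) : ℝ) ≤ dg F s := by exact_mod_cast this
    rw [Nat.cast_add, Nat.cast_sub (by omega)] at h'
    simpa using h'
  have hdj : (j : ℝ) + 3 ≤ d := by exact_mod_cast hjd
  have h0 : ∀ s ∈ fc j F, 0 ≤ dl F s := by
    intro s hs
    apply dl_nonneg
    have := hg s hs
    have h1 : (0 : ℝ) < dg F s := by linarith
    exact_mod_cast h1
  constructor
  · unfold sg
    exact div_nonneg (Finset.sum_nonneg h0) hn.le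
  · unfold sg
    rw [← mul_div_assoc, div_le_iff₀ hn, Finset.mul_sum]
    have h2 := sum_dg_dl hF.card hne hj (by omega : j ≤ d)
    have h3 : ∑ s ∈ fc j F, ((d : ℝ) - j + 1) * dl F s ≤ ∑ s ∈ fc j F, (dg F s : ℝ) * dl F s := by
      apply Finset.sum_le_sum
      intro s hs
      exact mul_le_mul_of_nonneg_right (hg s hs) (h0 s hs)
    rw [h2] at h3
    refine h3.trans (le_of_eq ?_)
    ring

end Pool.TSphM
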