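import Pool.Agent.Lib.MP_3de3a3_co.M.Defs
import Pool.Agent.Lib.MP_3de3a3_co.M.ExPos
import Pool.Agent.Lib.MP_3de3a3_co.M.Cost
import Pool.Agent.Lib.MP_3de3a3_co.M.LbtJ
import Pool.Agent.Lib.MP_3de3a3_co.M.Lvl
import Pool.Agent.Lib.MP_3de3a3_co.M.LamLast
import Pool.Agent.Lib.MP_3de3a3_co.M.Lp
import Pool.Agent.Lib.MP_3de3a3_co.M.SumDg

/-! # Cheap local certificates (module M/Cheap) -/

set_option autoImplicit false

namespace Pool.TSphM

open Finset
open Pool.TSph (verts IsSphere2 adj comp Ep PhiK)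
open Pool.TSphD (fc rdg lk Lo PM side IsLF mv Closings)

variable {ι : Type*} [DecidableEq ι]

/-- `exists_pos`, `cost_le`, `last_ls`, and `lp` with `D = Dl d F`, `σ = sg F`, `b = bb d F`,
`Λ = Lam d F (d - 3)`, `l = log n` (`Lam_zero`, telescoping). -/
theorem exists_cheap (d : ℕ) (hd : 4 ≤ d) : ∃ C : ℝ, ∀ (κ : Type) [Fintype κ] [DecidableEq κ]
    (F : Finset (Finset κ)), IsNor d F → F.Nonempty →
    ∃ M T0 rk e lev T, LCert (d - 1) F M T0 rk e lev T ∧
      ∑ t ∈ M \ T0, ls F (lev t) ≤ F.card * (cd d * Real.log F.card) + C * F.card := by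
  obtain ⟨k, rfl⟩ : ∃ k, d = k + 3 := ⟨d - 3, by omega⟩
  have hk : 0 < k := by omega
  have hc1 : (0 : ℝ) ≤ ((k + 3 : ℕ) : ℝ) ^ 3 * 2 ^ (k + 3) := by positivity
  have hc2 : (0 : ℝ) ≤ ((k + 3 : ℕ) : ℝ) ^ 2 * 2 ^ (k + 3) := by positivity
  obtain ⟨C, hC⟩ := lp (k + 3) hd (((k + 3 : ℕ) : ℝ) ^ 3 * 2 ^ (k + 3) +
    ((k + 3 : ℕ) : ℝ) ^ 2 * 2 ^ (k + 3) + 100) (by positivity)
  refine ⟨C + 1, fun κ _ _ F hF hne => ?_⟩
  obtain ⟨pos, hpos, hcost⟩ := exists_pos hk hF hne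
  obtain ⟨M, T0, rk, e, lev, T, hL, hle⟩ := cost_le hk hF hne hpos
  refine ⟨M, T0, rk, e, lev, T, hL, hle.trans (hcost.trans ?_)⟩
  have hl0 : ∀ s, 0 ≤ ls F s := fun s => Real.log_natCast_nonneg _
  have hn : (0 : ℝ) < F.card := by exact_mod_cast hne.card_pos
  have hLam : 0 ≤ Lam (k + 3) F (k + 3 - 3) := by
    unfold Lam
    refine div_nonneg (Finset.sum_nonneg fun s _ => mul_nonneg (Nat.cast_nonneg _) (hl0 s)) ?_
    positivity
  have htel : ∀ m : ℕ, (∑ j ∈ Icc 1 m, Dl (k + 3) F j) + Lam (k + 3) F m =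
      Real.log F.card := by
    intro m
    induction m with
    | zero => simp [Lam_zero hne]
    | succ m ih =>
      rw [Finset.sum_Icc_succ_top (by omega), ← ih]
      simp only [Dl, Nat.add_sub_cancel]
      ring
  have h := hC (Dl (k + 3) F) (sg F) (bb (k + 3) F) (Lam (k + 3) F (k + 3 - 3))
    (Real.log F.card) hLam (Real.log_natCast_nonneg _)
    (fun j hj hjd => by
      obtain ⟨h1, h2⟩ := sg_bounds hF hne hj hjd
      have h3 : (0 : ℝ) < ((k + 3).choose j : ℝ) := by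
        exact_mod_cast Nat.choose_pos (by omega)
      have h4 : (0 : ℝ) ≤ ((k + 3 : ℕ) : ℝ) - j + 1 := by
        have h5 : (j : ℝ) ≤ ((k + 3 : ℕ) : ℝ) := by exact_mod_cast (by omega : j ≤ k + 3)
        linarith
      have h6 : 0 ≤ ((k + 3).choose j : ℝ) * Dl (k + 3) F j := (mul_nonneg h4 h1).trans h2
      exact nonneg_of_mul_nonneg_right h6 h3)
    (htel (k + 3 - 3))
    (fun j hj hjd => bb_lbt hF hne hj hjd)
    (fun j hj hjd => (bb_tel hF hne hj hjd).trans (by linarith))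
    (fun j hj hjd => sg_bounds hF hne hj hjd)
    (fun j hj hjd => (Dl_mono hF.card hne hj (by omega)).trans (by linarith))
    ((lam_last hd hF hne).trans (by linarith))
  have hlast := last_ls hd hF hne
  have h0 : ls F ∅ ≤ F.card := by
    have e : dg F ∅ = F.card := by simp [dg, up]
    unfold ls
    rw [e]
    exact Real.log_le_self hn.le
  simp only [Nat.add_sub_cancel] at h hlast
  have h7 := mul_le_mul_of_nonneg_left h hn.le
  have e1 : (F.card : ℝ) * ((∑ j ∈ Icc 1 k, bb (k + 3) F j) +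
      (((k + 3 : ℕ) : ℝ) - 3) / (2 * (((k + 3 : ℕ) : ℝ) + 1)) * Lam (k + 3) F k) =
      (F.card : ℝ) * (∑ j ∈ Icc 1 k, bb (k + 3) F j) + F.card *
      ((((k + 3 : ℕ) : ℝ) - 3) / (2 * (((k + 3 : ℕ) : ℝ) + 1)) * Lam (k + 3) F k) := by ring
  rw [e1] at h7
  have e2 : (F.card : ℝ) * (cd (k + 3) * Real.log F.card + C) =
      F.card * (cd (k + 3) * Real.log F.card) + C * F.card := by ring
  rw [e2] at h7
  linarith

end Pool.TSphM
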