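import Pool.Agent.Lib.MP_3de3a3_co.M.Defs
import Pool.Agent.Lib.MP_3de3a3_co.DMv
import Pool.Agent.Lib.MP_3de3a3_co.DVertexEq
import Pool.Agent.Lib.MP_3de3a3_co.DTransM

/-! # Complexes with the same gluing function are isomorphic (module M/Iso) -/

set_option autoImplicit false

namespace Pool.TSphM

open Finset
open Pool.TSph (verts IsSphere2 adj comp Ep PhiK)
open Pool.TSphD (fc rdg lk Lo PM side IsLF mv Closings)

variable {ι : Type*} [DecidableEq ι]

/-- Every labelled facet is `lam j ∘ g` for exactly one pair (see `rep_unique`, `rep_exists` in the file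
DTransM.lean). -/
theorem glu_unique {δ n : ℕ} {F : Finset (Finset ι)} {lam : Fin n → Fin (δ + 1) → ι} {g : Glu δ n}
    (hc : IsGlu F lam g) {j j' : Fin n} {σ σ' : Equiv.Perm (Fin (δ + 1))}
    (h : lam j ∘ σ = lam j' ∘ σ') : j = j' ∧ σ = σ' := by
  have hj : j = j' := hc.inj j j' (by
    rw [← Pool.TSphD.TransM_image (lam j) σ, h, Pool.TSphD.TransM_image (lam j') σ'])
  subst hj
  exact ⟨rfl, Equiv.ext fun x => (hc.lf j).1 (congrFun h x)⟩

theorem glu_exists {δ n : ℕ} {F : Finset (Finset ι)} {lam : Fin n → Fin (δ + 1) → ι} {g : Glu δ n}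
    (hc : IsGlu F lam g) {f : Fin (δ + 1) → ι} (hf : IsLF F f) :
    ∃ j, ∃ σ : Equiv.Perm (Fin (δ + 1)), f = lam j ∘ σ := by
  obtain ⟨j, hj⟩ := hc.surj _ hf.2
  obtain ⟨σ, hσ⟩ := Pool.TSphD.exists_perm (hc.lf j).1 hf.1 hj.symm
  exact ⟨j, σ, hσ⟩

private theorem iso_transfer {δ n : ℕ} {F₁ F₂ : Finset (Finset ι)}
    {lam₁ lam₂ : Fin n → Fin (δ + 1) → ι} {g : Glu δ n}
    (i₁ : IsGlu F₁ lam₁ g) (i₂ : IsGlu F₂ lam₂ g)
    (i : Fin n) (a : Fin (δ + 1)) (j : Fin n) (σ : Equiv.Perm (Fin (δ + 1)))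
    (h : mv F₁ a (lam₁ i) = lam₁ j ∘ σ) : mv F₂ a (lam₂ i) = lam₂ j ∘ σ := by
  have h1 := i₁.glu i a
  rw [h] at h1
  obtain ⟨hj, hσ⟩ := glu_unique i₁ h1
  rw [i₂.glu i a, ← hj, ← hσ]

private theorem iso_vertex {δ n : ℕ} {F₁ F₂ : Finset (Finset ι)}
    {lam₁ lam₂ : Fin n → Fin (δ + 1) → ι} {g : Glu δ n} (h₁ : PM δ F₁)
    (hc₁ : IsGlu F₁ lam₁ g)
    (ht : ∀ (i : Fin n) (a : Fin (δ + 1)) (j : Fin n) (g : Equiv.Perm (Fin (δ + 1))),
      mv F₁ a (lam₁ i) = lam₁ j ∘ g → mv F₂ a (lam₂ i) = lam₂ j ∘ g)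
    (i j : Fin n) (a b : Fin (δ + 1)) (h : lam₁ i a = lam₁ j b) : lam₂ i a = lam₂ j b := by
  have hpath := h₁.star (lam₁ i a) _ (hc₁.lf i).2 _ (hc₁.lf j).2
    (mem_image_of_mem _ (mem_univ a)) (by rw [h]; exact mem_image_of_mem _ (mem_univ b))
  have key : ∀ t, Relation.ReflTransGen (fun u v => v ∈ F₁ ∧ (u ∩ v).card = δ ∧
      lam₁ i a ∈ u ∩ v) (univ.image (lam₁ i)) t → t ∈ F₁ ∧
      ∀ (j : Fin n) (b : Fin (δ + 1)), univ.image (lam₁ j) = t → lam₁ i a = lam₁ j b →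
        lam₂ i a = lam₂ j b := by
    intro t hst
    induction hst with
    | refl =>
      refine ⟨(hc₁.lf i).2, ?_⟩
      intro j b hj hb
      have hij : j = i := hc₁.inj j i hj
      subst hij
      rw [(hc₁.lf j).1 hb]
    | @tail u v _ huv ih =>
      obtain ⟨hv, hcard, hx⟩ := huv
      refine ⟨hv, ?_⟩
      intro j b hj hb
      obtain ⟨j', hj'⟩ := hc₁.surj u ih.1
      obtain ⟨hxu, hxv⟩ := mem_inter.1 hx
      rw [← hj'] at hxu hcard hx
      obtain ⟨b', _, hb'⟩ := mem_image.1 hxu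
      have h2 := ih.2 j' b' hj' hb'.symm
      obtain ⟨c', hc', hcs⟩ := Pool.TSphD.VertexEq_side (hc₁.lf j').1 hcard
      rcases Pool.TSphD.facet_of_side h₁ (hc₁.lf j') c' hv hc' with h3 | h3
      · exfalso
        rw [h3, inter_self, card_image_of_injective _ (hc₁.lf j').1, card_univ,
          Fintype.card_fin] at hcard
        omega
      · obtain ⟨k, g, hkg⟩ := glu_exists hc₁ (Pool.TSphD.mv_isLF h₁ (hc₁.lf j') c')
        have hk : k = j := by
          apply hc₁.inj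
          rw [hj, h3, hkg, Pool.TSphD.TransM_image]
        subst hk
        have h4 := ht j' c' k g hkg
        have hbc : b' ≠ c' := by
          rintro rfl
          have h5 := hcs hx
          rw [← hb'] at h5
          obtain ⟨d, hd, hde⟩ := mem_image.1 h5
          exact (mem_erase.1 hd).1 ((hc₁.lf j').1 hde)
        have h5 := congrFun hkg b'
        rw [Pool.TSphD.mv_off _ _ hbc, hb', hb] at h5
        have h6 : b = g b' := (hc₁.lf k).1 h5
        have h7 := congrFun h4 b'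
        rw [Pool.TSphD.mv_off _ _ hbc] at h7
        rw [h2, h7, h6]
        rfl
  exact (key _ hpath).2 j b rfl h


/-- Copy `vertex_eq` (file DVertexEq.lean) and `iso_of_code` (file DIso.lean) with `IsGlu` in place of
`HasCode`; the hypothesis `ht` of `vertex_eq` follows from `glu_unique`: if
`mv F₁ a (lam₁ i) = lam₁ j ∘ σ` then `g (i, a) = (j, σ)`, so `mv F₂ a (lam₂ i) = lam₂ j ∘ σ`. -/
theorem iso_of_glu [Fintype ι] {δ n : ℕ} {F₁ F₂ : Finset (Finset ι)}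
    {lam₁ lam₂ : Fin n → Fin (δ + 1) → ι} {g : Glu δ n} (h₁ : PM δ F₁) (h₂ : PM δ F₂)
    (i₁ : IsGlu F₁ lam₁ g) (i₂ : IsGlu F₂ lam₂ g) :
    ∃ π : Equiv.Perm ι, F₂ = F₁.image (fun σ => σ.image π) := by
  classical
  have v12 := iso_vertex (lam₂ := lam₂) (F₂ := F₂) h₁ i₁ (iso_transfer i₁ i₂)
  have v21 := iso_vertex (lam₂ := lam₁) (F₂ := F₁) h₂ i₂ (iso_transfer i₂ i₁)
  let f : ι → ι := fun x => if h : ∃ p : Fin n × Fin (δ + 1), lam₁ p.1 p.2 = x
    then lam₂ h.choose.1 h.choose.2 else x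
  have hf : ∀ i a, f (lam₁ i a) = lam₂ i a := by
    intro i a
    have hex : ∃ p : Fin n × Fin (δ + 1), lam₁ p.1 p.2 = lam₁ i a := ⟨(i, a), rfl⟩
    have h1 : f (lam₁ i a) = lam₂ hex.choose.1 hex.choose.2 := dif_pos hex
    rw [h1]
    exact v12 _ _ _ _ hex.choose_spec
  have hinj : Set.InjOn f (↑(univ.image (fun p : Fin n × Fin (δ + 1) => lam₁ p.1 p.2)) : Set ι) := by
    intro x hx y hy hxy
    obtain ⟨⟨i, a⟩, _, rfl⟩ := mem_image.1 (mem_coe.1 hx)
    obtain ⟨⟨j, b⟩, _, rfl⟩ := mem_image.1 (mem_coe.1 hy)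
    simp only at hxy ⊢
    rw [hf, hf] at hxy
    exact v21 _ _ _ _ hxy
  obtain ⟨g, hg⟩ := Finset.exists_equiv_extend_of_card_eq (t := (univ : Finset ι))
    (s := univ.image (fun p : Fin n × Fin (δ + 1) => lam₁ p.1 p.2)) (f := f)
    (by rw [card_univ]) (subset_univ _) hinj
  let π : Equiv.Perm ι := g.trans (Equiv.subtypeUnivEquiv (fun x => mem_univ x))
  have hπ : ∀ i a, π (lam₁ i a) = lam₂ i a := by
    intro i a
    have h1 : π (lam₁ i a) = f (lam₁ i a) :=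
      hg (lam₁ i a) (mem_image.2 ⟨(i, a), mem_univ _, rfl⟩)
    rw [h1, hf]
  have himg : ∀ i, (univ.image (lam₁ i)).image π = univ.image (lam₂ i) := by
    intro i
    rw [image_image]
    refine image_congr ?_
    intro a _
    exact hπ i a
  refine ⟨π, ?_⟩
  ext s
  rw [mem_image]
  constructor
  · intro hs
    obtain ⟨i, hi⟩ := i₂.surj s hs
    exact ⟨_, (i₁.lf i).2, by rw [himg, hi]⟩
  · rintro ⟨σ, hσ, rfl⟩
    obtain ⟨i, hi⟩ := i₁.surj σ hσ
    rw [← hi, himg]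
    exact (i₂.lf i).2


end Pool.TSphM
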