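import Pool.Agent.Lib.MP_3de3a3_co.M.Defs
import Pool.Agent.Lib.MP_3de3a3_co.M.Iso
import Pool.Agent.Lib.MP_3de3a3_co.DRot
import Pool.Agent.Lib.MP_3de3a3_co.DTransStep

/-! # Decoding a closing ridge (module M/Clos) -/

set_option autoImplicit false

namespace Pool.TSphM

open Finset
open Pool.TSph (verts IsSphere2 adj comp Ep PhiK)
open Pool.TSphD (fc rdg lk Lo PM side IsLF mv Closings)
open Pool.TSphD (rot rot_return rot_isLF rot_off side_rot side_comp mv_off mv_isLF mv_comp mv_mv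
  mv_ne mv_unique isLF_comp side_mem_rdg TransStep_mem_side TransStep_erase TransStep_erase_inj)

variable {ι : Type*} [DecidableEq ι]

/-- Copy `transfer_step` (file DTransStep.lean): the label is `m` (`kclos` in both complexes). In the
walk around `e₁ (side (lam₁ i) a)` all the ridges which are crossed are in `T₁` or have smaller rank
(`erank`), so `hg` applies to the sides used. The last side `(j₁, σ₁ m)` of the walk is the
same ridge of `F₁`; its kind is also a closing: otherwise it would be a tree side or a pointer, so in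
`M₁` (`ktree`, `kptr`). In `F₂` the two sides are closings with the same closing face, if they were
different ridges each of them would have smaller rank than the other. -/
theorem clos_step {δ n : ℕ} {F₁ F₂ : Finset (Finset ι)} {L : Lbl δ n}
    {lam₁ lam₂ : Fin n → Fin (δ + 1) → ι} {g₁ g₂ : Glu δ n} {M₁ M₂ T₁ T₂ : Finset (Finset ι)}
    {rk₁ rk₂ : Finset ι → ℕ} {e₁ e₂ lev₁ lev₂ : Finset ι → Finset ι}
    {X₁ X₂ : Finset ι → Finset (Finset ι)} (h₁ : PM δ F₁) (h₂ : PM δ F₂)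
    (c₁ : HasL F₁ L lam₁ g₁ M₁ T₁ rk₁ e₁ lev₁ X₁) (c₂ : HasL F₂ L lam₂ g₂ M₂ T₂ rk₂ e₂ lev₂ X₂)
    (i : Fin n) (a m : Fin (δ + 1)) (hm : L.2.2.1 (i, a) = Sum.inr (Sum.inl m))
    (hg : ∀ (i' : Fin n) (a' : Fin (δ + 1)), side (lam₁ i') a' ∈ T₁ ∨
      rk₁ (side (lam₁ i') a') < rk₁ (side (lam₁ i) a) → g₂ (i', a') = g₁ (i', a')) :
    g₂ (i, a) = g₁ (i, a) := by
  have hlf1 : ∀ i, IsLF F₁ (lam₁ i) := c₁.isg.lf
  have hlf2 : ∀ i, IsLF F₂ (lam₂ i) := c₂.isg.lf
  -- the gluing function determines the moves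
  have ih : ∀ (i' : Fin n) (a' : Fin (δ + 1)), side (lam₁ i') a' ∈ T₁ ∨
        rk₁ (side (lam₁ i') a') < rk₁ (side (lam₁ i) a) →
        ∀ (j : Fin n) (g : Equiv.Perm (Fin (δ + 1))), mv F₁ a' (lam₁ i') = lam₁ j ∘ g →
          mv F₂ a' (lam₂ i') = lam₂ j ∘ g := by
    intro i' a' hia j g hj
    have h3 := hg i' a' hia
    have h4 := c₁.isg.glu i' a'
    rw [hj] at h4
    obtain ⟨e1, e2⟩ := glu_unique c₁.isg h4
    rw [c₂.isg.glu i' a', h3, e1, e2]
  obtain ⟨hM, hma, he1⟩ := c₁.kclos i a m hm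
  -- it is enough to compare the moves
  suffices hmain : ∀ (j : Fin n) (g : Equiv.Perm (Fin (δ + 1))), mv F₁ a (lam₁ i) = lam₁ j ∘ g →
      mv F₂ a (lam₂ i) = lam₂ j ∘ g by
    have h3 := hmain _ _ (c₁.isg.glu i a)
    rw [c₂.isg.glu i a] at h3
    obtain ⟨e1, e2⟩ := glu_unique c₂.isg h3
    exact Prod.ext e1 e2
  intro j g h
  obtain ⟨d, hd, hret, hne⟩ := rot_return h₁ (a := a) (m := m) hma.symm (hlf1 i)
  have hLF : ∀ s, IsLF F₁ ((rot F₁ a m)^[s] (lam₁ i)) := fun s => rot_isLF h₁ (hlf1 i) s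
  -- the walk
  have walk : ∀ s, s < d → ∀ (j : Fin n) (g : Equiv.Perm (Fin (δ + 1))),
      (rot F₁ a m)^[s] (lam₁ i) = lam₁ j ∘ g → (rot F₂ a m)^[s] (lam₂ i) = lam₂ j ∘ g := by
    intro s
    induction s with
    | zero =>
      intro _ j g hj
      have h0 : lam₁ i ∘ (1 : Equiv.Perm (Fin (δ + 1))) = lam₁ j ∘ g := hj
      obtain ⟨rfl, rfl⟩ := glu_unique c₁.isg h0
      rfl
    | succ s ihs =>
      intro hs j g hj
      obtain ⟨j', g', hj'⟩ := glu_exists c₁.isg (hLF s)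
      have h2 := ihs (by omega) j' g' hj'
      obtain ⟨j'', g'', hj''⟩ := glu_exists c₁.isg (mv_isLF h₁ (hlf1 j') (g' m))
      have key : mv F₂ (g' m) (lam₂ j') = lam₂ j'' ∘ g'' := by
        refine ih j' (g' m) ?_ j'' g'' hj''
        have ht' : side (lam₁ j') (g' m) = side ((rot F₁ a m)^[s + 1] (lam₁ i)) a := by
          rw [Function.iterate_succ_apply', side_rot, hj', side_comp]
        refine c₁.cert.erank _ (side_mem_rdg (hlf1 i) a) hM _
          (side_mem_rdg (hlf1 j') (g' m)) ?_ ?_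
        · rw [he1, TransStep_erase (hlf1 i).1, ht']
          intro x hx
          obtain ⟨b, hb, rfl⟩ := mem_image.1 hx
          have hbm : b ≠ m := (mem_erase.1 hb).1
          have hba : b ≠ a := (mem_erase.1 (mem_erase.1 hb).2).1
          rw [← rot_off (F := F₁) (f := lam₁ i) (s + 1) hba hbm]
          exact TransStep_mem_side hba
        · rw [ht']
          exact hne (s + 1) (by omega) hs
      have e1 : (rot F₁ a m)^[s + 1] (lam₁ i) = lam₁ j'' ∘ (g'' * g' * Equiv.swap a m) := by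
        rw [Function.iterate_succ_apply', hj', rot, mv_comp h₁ (hlf1 j'), hj'']
        rfl
      have e2 : (rot F₂ a m)^[s + 1] (lam₂ i) = lam₂ j'' ∘ (g'' * g' * Equiv.swap a m) := by
        rw [Function.iterate_succ_apply', h2, rot, mv_comp h₂ (hlf2 j'), key]
        rfl
      obtain ⟨rfl, rfl⟩ := glu_unique c₁.isg (hj.symm.trans e1)
      exact e2
  -- the last facet
  obtain ⟨j₁, s₁, hj₁⟩ := glu_exists c₁.isg (hLF (d - 1))
  have hj₂ := walk (d - 1) (by omega) j₁ s₁ hj₁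
  have hr1 : rot F₁ a m (lam₁ j₁ ∘ s₁) = lam₁ i := by
    have hd1 : (d - 1).succ = d := Nat.succ_pred_eq_of_pos hd
    rw [← hj₁, ← Function.iterate_succ_apply' (rot F₁ a m), hd1]
    exact hret
  have hr2 : lam₁ i m = lam₁ j₁ (s₁ a) := by
    have := congrFun hr1 m
    rw [← this]
    simp only [rot, Function.comp_apply, Equiv.swap_apply_right]
    rw [mv_off F₁ _ hma.symm]
    rfl
  have hr3 : side (lam₁ j₁) (s₁ m) = side (lam₁ i) a := by
    rw [← side_comp, ← side_rot F₁ a m, hr1]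
  obtain ⟨m'', hm''⟩ : ∃ m'', L.2.2.1 (j₁, s₁ m) = Sum.inr (Sum.inl m'') := by
    rcases hl : L.2.2.1 (j₁, s₁ m) with u | m'' | ⟨S, b⟩
    · exfalso
      have h3 := c₁.ktree j₁ (s₁ m) hl
      rw [hr3] at h3
      exact hM (c₁.cert.sub0 h3)
    · exact ⟨m'', rfl⟩
    · exfalso
      have h3 := (c₁.kptr j₁ (s₁ m) S b hl).1
      rw [hr3] at h3
      exact hM h3
  obtain ⟨-, hm1, he2⟩ := c₁.kclos _ _ _ hm''
  have hmeq : m'' = s₁ a := by
    have h3 : (side (lam₁ i) a).erase (lam₁ i m) = (side (lam₁ i) a).erase (lam₁ j₁ m'') := by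
      rw [← he1, ← hr3, he2]
    have h4 := TransStep_erase_inj (TransStep_mem_side hma)
      (by rw [← hr3]; exact TransStep_mem_side hm1) h3
    rw [hr2] at h4
    exact ((hlf1 j₁).1 h4).symm
  subst hmeq
  -- second complex
  obtain ⟨hn1, -, hf1⟩ := c₂.kclos i a m hm
  obtain ⟨hn2, hm2, hf2⟩ := c₂.kclos j₁ (s₁ m) (s₁ a) hm''
  have hagree : ∀ b, b ≠ a → b ≠ m → lam₂ j₁ (s₁ b) = lam₂ i b := by
    intro b hba hbm
    have := rot_off (F := F₂) (f := lam₂ i) (d - 1) hba hbm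
    rw [hj₂] at this
    exact this
  have heq : e₂ (side (lam₂ i) a) = e₂ (side (lam₂ j₁) (s₁ m)) := by
    rw [hf1, hf2, TransStep_erase (hlf2 i).1, TransStep_erase (hlf2 j₁).1]
    ext x
    simp only [mem_image, mem_erase, mem_univ, and_true]
    constructor
    · rintro ⟨b, ⟨hbm, hba⟩, rfl⟩
      exact ⟨s₁ b, ⟨fun h => hba (s₁.injective h), fun h => hbm (s₁.injective h)⟩,
        hagree b hba hbm⟩
    · rintro ⟨b, ⟨hba, hbm⟩, rfl⟩
      refine ⟨s₁.symm b, ⟨?_, ?_⟩, ?_⟩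
      · intro h; apply hbm; rw [← h, Equiv.apply_symm_apply]
      · intro h; apply hba; rw [← h, Equiv.apply_symm_apply]
      · rw [← hagree (s₁.symm b)]
        · rw [Equiv.apply_symm_apply]
        · intro h; apply hba; rw [← h, Equiv.apply_symm_apply]
        · intro h; apply hbm; rw [← h, Equiv.apply_symm_apply]
  have htt : side (lam₂ i) a = side (lam₂ j₁) (s₁ m) := by
    by_contra hcon
    have q1 := c₂.cert.erank _ (side_mem_rdg (hlf2 i) a) hn1 _
      (side_mem_rdg (hlf2 j₁) (s₁ m))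
      (by rw [heq]; exact (c₂.cert.esub _ (side_mem_rdg (hlf2 j₁) (s₁ m)) hn2).1)
      (Ne.symm hcon)
    have q2 := c₂.cert.erank _ (side_mem_rdg (hlf2 j₁) (s₁ m)) hn2 _
      (side_mem_rdg (hlf2 i) a)
      (by rw [← heq]; exact (c₂.cert.esub _ (side_mem_rdg (hlf2 i) a) hn1).1) hcon
    rcases q1 with q1 | q1
    · exact hn2 (c₂.cert.sub0 q1)
    · rcases q2 with q2 | q2
      · exact hn1 (c₂.cert.sub0 q2)
      · omega
  have hmm : lam₂ i m = lam₂ j₁ (s₁ a) := by
    have h3 : (side (lam₂ i) a).erase (lam₂ i m) =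
        (side (lam₂ i) a).erase (lam₂ j₁ (s₁ a)) := by
      rw [← hf1, heq, hf2, htt]
    exact TransStep_erase_inj (TransStep_mem_side hma)
      (by rw [htt]; exact TransStep_mem_side hm2) h3
  -- the two labelled facets
  have hE : ∀ (F : Finset (Finset ι)) (_ : PM δ F) (p q : Fin (δ + 1) → ι), IsLF F p → IsLF F q →
      p ∘ Equiv.swap a m = mv F m q → mv F a p = q ∘ Equiv.swap a m := by
    intro F hF p q hp hq hpq
    have h5 : mv F m (p ∘ Equiv.swap a m) = q := by rw [hpq, mv_mv hF hq]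
    rw [mv_comp hF hp, Equiv.swap_apply_right] at h5
    rw [← h5]
    ext x
    simp
  have hlfg : ∀ (F : Finset (Finset ι)) (p : Fin (δ + 1) → ι) (σ : Equiv.Perm (Fin (δ + 1))), IsLF F p →
      IsLF F (p ∘ σ) := fun F p σ hp => isLF_comp hp σ
  have hcase := mv_unique h₂ (hlfg _ _ s₁ (hlf2 j₁)) (hlfg _ _ (Equiv.swap a m) (hlf2 i)) m
    (by
      intro b hbm
      by_cases hba : b = a
      · subst hba
        simp only [Function.comp_apply, Equiv.swap_apply_left]
        exact hmm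
      · simp only [Function.comp_apply]
        rw [Equiv.swap_apply_of_ne_of_ne hba hbm, hagree b hba hbm])
  have hr1' : lam₁ i ∘ Equiv.swap a m = mv F₁ m (lam₁ j₁ ∘ s₁) := by
    rw [← hr1, rot]
    ext x
    simp
  rcases hcase with hcase | hcase
  · exfalso
    obtain ⟨rfl, hg⟩ := glu_unique c₂.isg hcase
    rw [← hg] at hr1'
    have h6 := mv_ne h₁ (hlfg _ _ (Equiv.swap a m) (hlf1 i)) m
    rw [← hr1'] at h6
    exact h6 (mem_image_of_mem _ (mem_univ _))
  · have h7 := hE F₂ h₂ _ _ (hlf2 i) (hlfg _ _ s₁ (hlf2 j₁)) hcase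
    have h8 := hE F₁ h₁ _ _ (hlf1 i) (hlfg _ _ s₁ (hlf1 j₁)) hr1'
    have h9 : lam₁ j ∘ g = lam₁ j₁ ∘ (s₁ * Equiv.swap a m) := by
      rw [← h, h8]; rfl
    obtain ⟨rfl, rfl⟩ := glu_unique c₁.isg h9
    rw [h7]; rfl

end Pool.TSphM
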