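import Pool.Agent.Lib.MP_3de3a3_co.M.Defs
import Pool.Agent.Lib.MP_3de3a3_co.M.Iso

/-! # The product of the weights (module M/Prod) -/

set_option autoImplicit false

namespace Pool.TSphM

open Finset
open Pool.TSph (verts IsSphere2 adj comp Ep PhiK)
open Pool.TSphD (fc rdg lk Lo PM side IsLF mv Closings)

variable {ι : Type*} [DecidableEq ι]

/-- The weight of a side: for a pointer side with the mark `true` the number of facets which contain
its face, times `(δ + 1)!`. -/
def wt {δ n : ℕ} (F : Finset (Finset ι)) (L : Lbl δ n) (lam : Fin n → Fin (δ + 1) → ι)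
    (x : Fin n × Fin (δ + 1)) : ℕ :=
  match L.2.2.1 x with
  | Sum.inr (Sum.inr (S, true)) => dg F (S.image (lam x.1)) * (δ + 1).factorial
  | _ => 1

private theorem prod_dg_pos {F : Finset (Finset ι)} {s a : Finset ι} (ha : a ∈ F) (h : s ⊆ a) :
    1 ≤ dg F s :=
  card_pos.2 ⟨a, mem_filter.2 ⟨ha, h⟩⟩

theorem wt_pos {δ n : ℕ} {F : Finset (Finset ι)} {L : Lbl δ n}
    {lam : Fin n → Fin (δ + 1) → ι} {g : Glu δ n} {M T0 : Finset (Finset ι)} {rk : Finset ι → ℕ}
    {e lev : Finset ι → Finset ι} {T : Finset ι → Finset (Finset ι)}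
    (hc : HasL F L lam g M T0 rk e lev T) (x : Fin n × Fin (δ + 1)) : 1 ≤ wt F L lam x := by
  unfold wt
  split
  · rename_i S _
    have h1 : 1 ≤ dg F (S.image (lam x.1)) :=
      prod_dg_pos (hc.isg.lf x.1).2 (image_subset_image (subset_univ _))
    exact Nat.mul_pos h1 (Nat.factorial_pos _)
  · exact le_rfl

private theorem prod_side_inj {δ : ℕ} {f : Fin (δ + 1) → ι} (hf : Function.Injective f)
    {a b : Fin (δ + 1)} (h : side f a = side f b) : a = b := by
  by_contra hab
  apply Pool.TSphD.Mv_notMem hf a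
  rw [h]
  exact mem_image_of_mem f (mem_erase.2 ⟨hab, mem_univ a⟩)

/-- Every ridge of `M \ T0` has exactly one side with the mark `true` (`kptr`: the other side has the
opposite mark, and a ridge has exactly two sides), and `lev` of the ridge is `S.image (lam i)`. -/
theorem prod_wt {δ n : ℕ} {F : Finset (Finset ι)} {L : Lbl δ n}
    {lam : Fin n → Fin (δ + 1) → ι} {g : Glu δ n} {M T0 : Finset (Finset ι)} {rk : Finset ι → ℕ}
    {e lev : Finset ι → Finset ι} {T : Finset ι → Finset (Finset ι)} (hF : PM δ F)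
    (hc : HasL F L lam g M T0 rk e lev T) :
    ∏ x, wt F L lam x ≤ (δ + 1).factorial ^ ((δ + 1) * n) * ∏ t ∈ M \ T0, dg F (lev t) := by
  classical
  set P : Finset (Fin n × Fin (δ + 1)) :=
    univ.filter (fun x => ∃ S, L.2.2.1 x = Sum.inr (Sum.inr (S, true))) with hP
  have hPx : ∀ x ∈ P, side (lam x.1) x.2 ∈ M \ T0 ∧
      wt F L lam x = dg F (lev (side (lam x.1) x.2)) * (δ + 1).factorial := by
    intro x hx
    obtain ⟨S, hS⟩ := (mem_filter.1 hx).2
    obtain ⟨h1, h2, h3, h4, h5⟩ := hc.kptr x.1 x.2 S true hS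
    refine ⟨mem_sdiff.2 ⟨h1, h2⟩, ?_⟩
    rw [h4]
    unfold wt
    rw [hS]
  have hout : ∀ x ∉ P, wt F L lam x = 1 := by
    intro x hx
    unfold wt
    split
    · rename_i S hS
      exact absurd (mem_filter.2 ⟨mem_univ x, S, hS⟩) hx
    · rfl
  have h1 : ∏ x, wt F L lam x = ∏ x ∈ P, wt F L lam x := by
    symm
    exact prod_subset (subset_univ P) fun x _ hx => hout x hx
  have h2 : ∏ x ∈ P, wt F L lam x =
      (∏ x ∈ P, dg F (lev (side (lam x.1) x.2))) * (δ + 1).factorial ^ P.card := by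
    rw [prod_congr rfl fun x hx => (hPx x hx).2, prod_mul_distrib, prod_const]
  have hinj : Set.InjOn (fun x : Fin n × Fin (δ + 1) => side (lam x.1) x.2) (P : Set _) := by
    rintro ⟨i, a⟩ hx ⟨j, b⟩ hy hxy
    have hxy' : side (lam i) a = side (lam j) b := hxy
    have hsub : side (lam i) a ⊆ univ.image (lam j) := by
      rw [hxy']
      exact Pool.TSphD.Mv_sub _ _
    rcases Pool.TSphD.facet_of_side hF (hc.isg.lf i) a (hc.isg.lf j).2 hsub with h | h
    · have hij : j = i := hc.isg.inj j i h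
      subst hij
      rw [prod_side_inj (hc.isg.lf j).1 hxy']
    · exfalso
      rw [hc.isg.glu i a] at h
      have himg : univ.image (lam (g (i, a)).1 ∘ (g (i, a)).2) = univ.image (lam (g (i, a)).1) := by
        ext y
        simp only [mem_image, mem_univ, true_and, Function.comp_apply]
        constructor
        · rintro ⟨c, rfl⟩
          exact ⟨_, rfl⟩
        · rintro ⟨c, rfl⟩
          exact ⟨(g (i, a)).2.symm c, by simp⟩
      rw [himg] at h
      have hj : j = (g (i, a)).1 := hc.isg.inj _ _ h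
      have hs : side (lam (g (i, a)).1) ((g (i, a)).2 a) = side (lam i) a := by
        rw [← Pool.TSphD.side_comp, ← hc.isg.glu i a, Pool.TSphD.side_mv]
      have hb : (g (i, a)).2 a = b := by
        apply prod_side_inj (hc.isg.lf j).1
        rw [← hxy', ← hs, ← hj]
      obtain ⟨S, hS⟩ := (mem_filter.1 hx).2
      obtain ⟨S', hS'⟩ := (mem_filter.1 hy).2
      obtain ⟨-, -, -, -, h5⟩ := hc.kptr i a S true hS
      rw [hb, ← hj, hS'] at h5
      simp at h5
  have h3 : ∏ x ∈ P, dg F (lev (side (lam x.1) x.2)) ≤ ∏ t ∈ M \ T0, dg F (lev t) := by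
    rw [← prod_image (f := fun t => dg F (lev t)) hinj]
    apply prod_le_prod_of_subset_of_one_le'
    · intro t ht
      obtain ⟨x, hx, rfl⟩ := mem_image.1 ht
      exact (hPx x hx).1
    · intro t ht _
      obtain ⟨h4, h5⟩ := mem_sdiff.1 ht
      obtain ⟨_, a, ha, hta⟩ := Pool.TSphD.mem_rdg.1 (hc.cert.sub h4)
      exact prod_dg_pos ha ((hc.cert.lsub t h4 h5).trans hta)
  have h4 : P.card ≤ (δ + 1) * n := by
    refine (card_le_univ P).trans (le_of_eq ?_)
    rw [Fintype.card_prod, Fintype.card_fin, Fintype.card_fin, mul_comm]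
  rw [h1, h2, mul_comm]
  exact Nat.mul_le_mul (Nat.pow_le_pow_right (Nat.factorial_pos _) h4) h3

end Pool.TSphM
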