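import Pool.Agent.Lib.MP_3de3a3_co.M.Defs
import Pool.Agent.Lib.MP_3de3a3_co.M.Iso

/-! # Decoding a pointer (module M/Ptr) -/

set_option autoImplicit false

namespace Pool.TSphM

open Finset
open Pool.TSph (verts IsSphere2 adj comp Ep PhiK)
open Pool.TSphD (fc rdg lk Lo PM side IsLF mv Closings)

variable {ι : Type*} [DecidableEq ι]

private theorem ptr_count {δ n : ℕ} {F : Finset (Finset ι)} {lam : Fin n → Fin (δ + 1) → ι}
    {g : Glu δ n} (hc : IsGlu F lam g) (s : Finset ι) :
    dg F s = (univ.filter (fun j : Fin n => s ⊆ univ.image (lam j))).card := by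
  unfold dg up
  have h : F.filter (fun a => s ⊆ a) =
      (univ.filter (fun j : Fin n => s ⊆ univ.image (lam j))).image
        (fun j => univ.image (lam j)) := by
    ext a
    simp only [mem_filter, mem_image, mem_univ, true_and]
    constructor
    · rintro ⟨ha, hs⟩
      obtain ⟨j, rfl⟩ := hc.surj a ha
      exact ⟨j, by simpa using hs, by ext; simp⟩
    · rintro ⟨j, hj, rfl⟩
      exact ⟨by simpa using (hc.lf j).2, by simpa using hj⟩
  rw [h, card_image_of_injective _ (fun i j hij => hc.inj i j hij)]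

private theorem ptr_side {δ : ℕ} {F : Finset (Finset ι)} {f : Fin (δ + 1) → ι} (h : PM δ F)
    (hf : IsLF F f) {v : Finset ι} (hv : v ∈ F) (hr : univ.image f ∩ v ∈ rdg δ F) :
    ∃ a, univ.image f ∩ v = side f a ∧ v = univ.image (mv F a f) := by
  have h1 : (univ.image f).card = δ + 1 := h.card _ hf.2
  have h2 : (univ.image f ∩ v).card = δ := (Pool.TSphD.mem_rdg.1 hr).1
  have h3 : (univ.image f \ (univ.image f ∩ v)).card = 1 := by
    rw [card_sdiff_of_subset inter_subset_left]
    omega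
  obtain ⟨y, hy⟩ := card_eq_one.1 h3
  have hy1 : y ∈ univ.image f \ (univ.image f ∩ v) := by rw [hy]; exact mem_singleton_self y
  obtain ⟨a, -, rfl⟩ := mem_image.1 (mem_sdiff.1 hy1).1
  have hsub : side f a ⊆ univ.image f ∩ v := by
    intro z hz
    by_contra hn
    have hz2 : z ∈ univ.image f \ (univ.image f ∩ v) :=
      mem_sdiff.2 ⟨Pool.TSphD.Mv_sub f a hz, hn⟩
    rw [hy, mem_singleton] at hz2
    rw [hz2] at hz
    exact Pool.TSphD.Mv_notMem hf.1 a hz
  have heq : side f a = univ.image f ∩ v :=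
    eq_of_subset_of_card_le hsub (by rw [h2, Pool.TSphD.Mv_card hf.1 a])
  refine ⟨a, heq.symm, ?_⟩
  rcases Pool.TSphD.facet_of_side h hf a hv (by rw [heq]; exact inter_subset_right) with h4 | h4
  · rw [h4, inter_self, h1] at h2
    omega
  · exact h4

private theorem ptr_pos {δ n : ℕ} {F : Finset (Finset ι)} {lam : Fin n → Fin (δ + 1) → ι}
    {g : Glu δ n} (hc : IsGlu F lam g) (i : Fin n) (a : Fin (δ + 1))
    (S : Finset (Fin (δ + 1))) (ha : a ∉ S) :
    (S.image (g (i, a)).2).image (lam (g (i, a)).1) = S.image (lam i) ∧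
      univ.image (mv F a (lam i)) = univ.image (lam (g (i, a)).1) := by
  constructor
  · rw [image_image, ← hc.glu i a]
    refine image_congr ?_
    intro b hb
    exact Pool.TSphD.mv_off F (lam i) (fun h => ha (h ▸ mem_coe.1 hb))
  · rw [hc.glu i a, Pool.TSphD.TransM_image]

/-- Let `s₁ = S.image (lam₁ i)`, `s₂ = S.image (lam₂ i)`.
(A) Claim: if the facet number `j` of `F₂` contains `s₂` then the facet number `j` of `F₁` contains `s₁`.
By `lconn` of `F₂` (for the ridge `side (lam₂ i) a`, `lev₂` of it is `s₂`) there is a chain of facets of `F₂`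
containing `s₂` from `i` to `j` with consecutive intersections in `X₂ s₂`. Invariant: the facet of `F₂`
in the chain has the number `i'`, and there is `S'` with `S'.image (lam₂ i') = s₂` and
`S'.image (lam₁ i') = s₁`. Step: the ridge is `side (lam₂ i') a'` with `a' ∉ S'`, it is in
`X₂ (S'.image (lam₂ i'))`, so `a' ∈ L.2.2.2 i' S'` (`marks`), so `side (lam₁ i') a' ∈ X₁ s₁`, which is in
`T₁` or of smaller rank than `side (lam₁ i) a` (`lrank`, `lev₁` of this ridge is `s₁`); by `hg`
`g₂ (i', a') = g₁ (i', a') = (j', σ)`, the next facet of `F₂` is `j'` and `S'.image σ` satisfies the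
invariant. (B) The converse claim: in the same way with a chain of `F₁` (`lconn` of `F₁`), its ridges
are in `X₁ s₁`. The first conclusion is (A) for `j = (g₂ (i, a)).1` (this facet contains
`side (lam₂ i) a`, so `s₂` as `a ∉ S`), the second is (A) and (B): `dg F s` is the number of
indices `j` with `s ⊆ univ.image (lam j)`. -/
theorem ptr_step {δ n : ℕ} {F₁ F₂ : Finset (Finset ι)} {L : Lbl δ n}
    {lam₁ lam₂ : Fin n → Fin (δ + 1) → ι} {g₁ g₂ : Glu δ n} {M₁ M₂ T₁ T₂ : Finset (Finset ι)}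
    {rk₁ rk₂ : Finset ι → ℕ} {e₁ e₂ lev₁ lev₂ : Finset ι → Finset ι}
    {X₁ X₂ : Finset ι → Finset (Finset ι)} (h₁ : PM δ F₁) (h₂ : PM δ F₂)
    (c₁ : HasL F₁ L lam₁ g₁ M₁ T₁ rk₁ e₁ lev₁ X₁) (c₂ : HasL F₂ L lam₂ g₂ M₂ T₂ rk₂ e₂ lev₂ X₂)
    (i : Fin n) (a : Fin (δ + 1)) (S : Finset (Fin (δ + 1))) (b : Bool)
    (hk : L.2.2.1 (i, a) = Sum.inr (Sum.inr (S, b)))
    (hg : ∀ (i' : Fin n) (a' : Fin (δ + 1)), side (lam₁ i') a' ∈ T₁ ∨
      rk₁ (side (lam₁ i') a') < rk₁ (side (lam₁ i) a) → g₂ (i', a') = g₁ (i', a')) :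
    S.image (lam₁ i) ⊆ univ.image (lam₁ (g₂ (i, a)).1) ∧
      dg F₁ (S.image (lam₁ i)) = dg F₂ (S.image (lam₂ i)) := by
  obtain ⟨hM1, hT1, haS, hl1, -⟩ := c₁.kptr i a S b hk
  obtain ⟨hM2, hT2, -, hl2, -⟩ := c₂.kptr i a S b hk
  -- the step
  have step : ∀ (i' : Fin n) (S' : Finset (Fin (δ + 1))) (a' : Fin (δ + 1)), a' ∉ S' →
      S'.image (lam₁ i') = S.image (lam₁ i) → S'.image (lam₂ i') = S.image (lam₂ i) →
      side (lam₁ i') a' ∈ X₁ (S.image (lam₁ i)) →
      ∃ (j' : Fin n) (S'' : Finset (Fin (δ + 1))), S''.image (lam₁ j') = S.image (lam₁ i) ∧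
        S''.image (lam₂ j') = S.image (lam₂ i) ∧
        univ.image (mv F₁ a' (lam₁ i')) = univ.image (lam₁ j') ∧
        univ.image (mv F₂ a' (lam₂ i')) = univ.image (lam₂ j') := by
    intro i' S' a' ha' e1 e2 hX
    have hlr := c₁.cert.lrank _ hM1 hT1 (side (lam₁ i') a') (by rw [hl1]; exact hX)
    have hgg := hg i' a' hlr
    obtain ⟨p1, q1⟩ := ptr_pos c₁.isg i' a' S' ha'
    obtain ⟨p2, q2⟩ := ptr_pos c₂.isg i' a' S' ha'
    rw [hgg] at p2 q2
    exact ⟨(g₁ (i', a')).1, S'.image (g₁ (i', a')).2, p1.trans e1, p2.trans e2, q1, q2⟩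
  have hA : ∀ j, S.image (lam₂ i) ⊆ univ.image (lam₂ j) →
      S.image (lam₁ i) ⊆ univ.image (lam₁ j) := by
    intro j hj
    have hchain := c₂.cert.lconn _ hM2 hT2 (univ.image (lam₂ i)) (c₂.isg.lf i).2
      (univ.image (lam₂ j)) (c₂.isg.lf j).2
      (by rw [hl2]; exact image_subset_image (subset_univ S)) (by rw [hl2]; exact hj)
    simp only [hl2] at hchain
    have key : ∀ v, Relation.ReflTransGen (fun a b => b ∈ F₂ ∧ S.image (lam₂ i) ⊆ a ∩ b ∧
        a ∩ b ∈ X₂ (S.image (lam₂ i))) (univ.image (lam₂ i)) v →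
        ∃ (j' : Fin n) (S' : Finset (Fin (δ + 1))), univ.image (lam₂ j') = v ∧
          S'.image (lam₁ j') = S.image (lam₁ i) ∧ S'.image (lam₂ j') = S.image (lam₂ i) := by
      intro v hv
      induction hv with
      | refl => exact ⟨i, S, rfl, rfl, rfl⟩
      | tail h1 h2 ih =>
        rename_i u v
        obtain ⟨i', S', rfl, e1, e2⟩ := ih
        obtain ⟨hv, hsub, hX⟩ := h2
        have hr : univ.image (lam₂ i') ∩ v ∈ rdg δ F₂ :=
          c₂.cert.Tsub _ hM2 hT2 (by rw [hl2]; exact hX)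
        obtain ⟨a', hside, hva⟩ := ptr_side h₂ (c₂.isg.lf i') hv hr
        have ha' : a' ∉ S' := by
          intro hmem
          have h3 : lam₂ i' a' ∈ side (lam₂ i') a' := by
            rw [← hside]
            apply hsub
            rw [← e2]
            exact mem_image_of_mem _ hmem
          exact Pool.TSphD.Mv_notMem (c₂.isg.lf i').1 a' h3
        have hX2 : side (lam₂ i') a' ∈ X₂ (S'.image (lam₂ i')) := by
          rw [e2, ← hside]; exact hX
        have hX1 : side (lam₁ i') a' ∈ X₁ (S.image (lam₁ i)) := by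
          rw [← e1]; exact (c₁.marks i' S' a').1 ((c₂.marks i' S' a').2 hX2)
        obtain ⟨j', S'', f1, f2, f3, f4⟩ := step i' S' a' ha' e1 e2 hX1
        exact ⟨j', S'', by rw [hva, f4], f1, f2⟩
    obtain ⟨j', S', e0, e1, e2⟩ := key _ hchain
    have hjj := c₂.isg.inj j' j e0
    subst hjj
    rw [← e1]
    exact image_subset_image (subset_univ S')
  have hB : ∀ j, S.image (lam₁ i) ⊆ univ.image (lam₁ j) →
      S.image (lam₂ i) ⊆ univ.image (lam₂ j) := by
    intro j hj
    have hchain := c₁.cert.lconn _ hM1 hT1 (univ.image (lam₁ i)) (c₁.isg.lf i).2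
      (univ.image (lam₁ j)) (c₁.isg.lf j).2
      (by rw [hl1]; exact image_subset_image (subset_univ S)) (by rw [hl1]; exact hj)
    simp only [hl1] at hchain
    have key : ∀ v, Relation.ReflTransGen (fun a b => b ∈ F₁ ∧ S.image (lam₁ i) ⊆ a ∩ b ∧
        a ∩ b ∈ X₁ (S.image (lam₁ i))) (univ.image (lam₁ i)) v →
        ∃ (j' : Fin n) (S' : Finset (Fin (δ + 1))), univ.image (lam₁ j') = v ∧
          S'.image (lam₁ j') = S.image (lam₁ i) ∧ S'.image (lam₂ j') = S.image (lam₂ i) := by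
      intro v hv
      induction hv with
      | refl => exact ⟨i, S, rfl, rfl, rfl⟩
      | tail h1 h2 ih =>
        rename_i u v
        obtain ⟨i', S', rfl, e1, e2⟩ := ih
        obtain ⟨hv, hsub, hX⟩ := h2
        have hr : univ.image (lam₁ i') ∩ v ∈ rdg δ F₁ :=
          c₁.cert.Tsub _ hM1 hT1 (by rw [hl1]; exact hX)
        obtain ⟨a', hside, hva⟩ := ptr_side h₁ (c₁.isg.lf i') hv hr
        have ha' : a' ∉ S' := by
          intro hmem
          have h3 : lam₁ i' a' ∈ side (lam₁ i') a' := by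
            rw [← hside]
            apply hsub
            rw [← e1]
            exact mem_image_of_mem _ hmem
          exact Pool.TSphD.Mv_notMem (c₁.isg.lf i').1 a' h3
        have hX1 : side (lam₁ i') a' ∈ X₁ (S.image (lam₁ i)) := by
          rw [← hside]; exact hX
        obtain ⟨j', S'', f1, f2, f3, f4⟩ := step i' S' a' ha' e1 e2 hX1
        exact ⟨j', S'', by rw [hva, f3], f1, f2⟩
    obtain ⟨j', S', e0, e1, e2⟩ := key _ hchain
    have hjj := c₁.isg.inj j' j e0
    subst hjj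
    rw [← e2]
    exact image_subset_image (subset_univ S')
  constructor
  · apply hA
    have h3 := (ptr_pos c₂.isg i a S haS).1
    rw [← h3]
    exact image_subset_image (subset_univ _)
  · rw [ptr_count c₁.isg, ptr_count c₂.isg]
    congr 1
    ext j
    simp only [mem_filter, mem_univ, true_and]
    exact ⟨hB j, hA j⟩

end Pool.TSphM
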