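import Pool.Agent.Lib.MP_3de3a3_co.M.Defs
import Pool.Agent.Lib.MP_3de3a3_co.M.Adapt
import Pool.Agent.Lib.MP_3de3a3_co.M.Clos
import Pool.Agent.Lib.MP_3de3a3_co.M.Ptr
import Pool.Agent.Lib.MP_3de3a3_co.M.Prod

/-! # The gluing functions with a given label (module M/Class) -/

set_option autoImplicit false

namespace Pool.TSphM

open Finset
open Pool.TSph (verts IsSphere2 adj comp Ep PhiK)
open Pool.TSphD (fc rdg lk Lo PM side IsLF mv Closings)

variable {ι : Type*} [DecidableEq ι]

/-- The value of the gluing function is determined by the neighbouring labelled facet. -/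
theorem class_glu_eq {δ n : ℕ} {F : Finset (Finset ι)} {lam : Fin n → Fin (δ + 1) → ι}
    {g : Glu δ n} (hc : IsGlu F lam g) {i j : Fin n} {a : Fin (δ + 1)}
    {σ : Equiv.Perm (Fin (δ + 1))} (h : mv F a (lam i) = lam j ∘ σ) : g (i, a) = (j, σ) := by
  have h1 := hc.glu i a
  rw [h] at h1
  obtain ⟨h2, h3⟩ := glu_unique hc h1
  exact Prod.ext h2.symm h3.symm

/-- The sides of the kind tree are glued as the label says. -/
theorem class_tree {δ n : ℕ} {F₁ F₂ : Finset (Finset ι)} {L : Lbl δ n}
    {lam₁ lam₂ : Fin n → Fin (δ + 1) → ι} {g₁ g₂ : Glu δ n} {M₁ M₂ T₁ T₂ : Finset (Finset ι)}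
    {rk₁ rk₂ : Finset ι → ℕ} {e₁ e₂ lev₁ lev₂ : Finset ι → Finset ι}
    {X₁ X₂ : Finset ι → Finset (Finset ι)} (h₁ : PM δ F₁) (h₂ : PM δ F₂)
    (c₁ : HasL F₁ L lam₁ g₁ M₁ T₁ rk₁ e₁ lev₁ X₁) (c₂ : HasL F₂ L lam₂ g₂ M₂ T₂ rk₂ e₂ lev₂ X₂)
    (i : Fin n) (a : Fin (δ + 1)) (hk : L.2.2.1 (i, a) = Sum.inl ()) :
    g₂ (i, a) = g₁ (i, a) := by
  have key : ∀ (F : Finset (Finset ι)) (lam : Fin n → Fin (δ + 1) → ι) (g : Glu δ n)
      (M T : Finset (Finset ι)) (rk : Finset ι → ℕ) (e lev : Finset ι → Finset ι)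
      (X : Finset ι → Finset (Finset ι)), PM δ F → HasL F L lam g M T rk e lev X →
      (∀ i' : Fin n, 0 < (i' : ℕ) → L.1 i' = i → L.2.1 i' = a → g (i, a) = (i', 1)) ∧
      (0 < (i : ℕ) → L.2.1 i = a → g (i, a) = (L.1 i, 1)) := by
    intro F lam g M T rk e lev X hF hc
    refine ⟨?_, ?_⟩
    · intro i' hi' h1 h2
      have h3 := hc.tree i' hi'
      rw [h1, h2] at h3
      exact class_glu_eq hc.isg h3.symm
    · intro hi h2
      have h3 := hc.tree i hi
      rw [h2] at h3
      refine class_glu_eq hc.isg ?_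
      have h4 := congrArg (mv F a) h3
      rw [Pool.TSphD.mv_mv hF (hc.isg.lf _)] at h4
      exact h4
  obtain ⟨k1, k1'⟩ := key F₁ lam₁ g₁ M₁ T₁ rk₁ e₁ lev₁ X₁ h₁ c₁
  obtain ⟨k2, k2'⟩ := key F₂ lam₂ g₂ M₂ T₂ rk₂ e₂ lev₂ X₂ h₂ c₂
  rcases c₁.cover i a (c₁.ktree i a hk) with ⟨i', hi', h3, h4⟩ | ⟨h3, h4⟩
  · rw [k1 i' hi' h3 h4, k2 i' hi' h3 h4]
  · rw [k1' h3 h4, k2' h3 h4]

/-- The gluing function at the other side of a ridge. -/
theorem class_back {δ n : ℕ} {F : Finset (Finset ι)} {lam : Fin n → Fin (δ + 1) → ι}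
    {g : Glu δ n} (hF : PM δ F) (hc : IsGlu F lam g) {i j : Fin n} {a : Fin (δ + 1)}
    {σ : Equiv.Perm (Fin (δ + 1))} : g (i, a) = (j, σ) ↔ g (j, σ a) = (i, σ.symm) := by
  constructor
  · intro h
    refine class_glu_eq hc ?_
    have h1 := hc.glu i a
    rw [h] at h1
    have h2 := Pool.TSphD.mv_comp hF (hc.lf j) σ a
    have h1' : mv F a (lam i) = lam j ∘ σ := h1
    rw [← h1', Pool.TSphD.mv_mv hF (hc.lf i)] at h2
    rw [h2]
    funext x
    simp only [Function.comp_apply, Equiv.apply_symm_apply]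
  · intro h
    refine class_glu_eq hc ?_
    have h1 := hc.glu j (σ a)
    rw [h] at h1
    have h1' : mv F (σ a) (lam j) = lam i ∘ σ.symm := h1
    have h2 := Pool.TSphD.mv_comp hF (hc.lf j) σ a
    have h3 : mv F a (lam j ∘ σ) = lam i := by
      rw [h2, h1']
      funext x
      simp only [Function.comp_apply, Equiv.symm_apply_apply]
    rw [← h3, Pool.TSphD.mv_mv hF (Pool.TSphD.isLF_comp (hc.lf j) σ)]

/-- The two sides of a ridge have the same ridge. -/
theorem class_side {δ n : ℕ} {F : Finset (Finset ι)} {lam : Fin n → Fin (δ + 1) → ι}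
    {g : Glu δ n} (hc : IsGlu F lam g) (i : Fin n) (a : Fin (δ + 1)) :
    side (lam (g (i, a)).1) ((g (i, a)).2 a) = side (lam i) a := by
  rw [← Pool.TSphD.side_comp, ← hc.glu i a, Pool.TSphD.side_mv]

/-- The number of indices of the facets which contain `s`. -/
theorem class_dg {δ n : ℕ} {F : Finset (Finset ι)} {lam : Fin n → Fin (δ + 1) → ι}
    {g : Glu δ n} (hc : IsGlu F lam g) (s : Finset ι) :
    (univ.filter (fun j => s ⊆ univ.image (lam j))).card ≤ dg F s := by
  unfold dg up
  refine card_le_card_of_injOn (fun j => univ.image (lam j)) ?_ ?_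
  · intro j hj
    exact mem_coe.2 (mem_filter.2 ⟨(hc.lf j).2, (mem_filter.1 (mem_coe.1 hj)).2⟩)
  · intro j _ j' _ h
    exact hc.inj j j' h

/-- For every `g` of the set choose a complex etc. Apply `adapt` with `N g x = wt F_g L lam_g x` and
`Q := (δ + 1)! ^ ((δ + 1) n) * Q` (`wt_pos`, `prod_wt`). Given `P ≠ univ` and `g`: choose `x = (i, a) ∉ P`
with the smallest `rank` (`0` if the ridge is in `T0`, else `rk + 1`), and among these, if possible,
one whose kind is not a pointer with mark `false`. Let `g''` agree with `g` on `P`. Then `g'' = g` at all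
sides whose ridge is in `T0` or of smaller rank than the ridge of `x`, if the ridge of `x` is not in `T0`.
Kind of `x`: tree: `g'' x = g x` as both are determined by `L` (`cover`, `tree`, `glu_unique`,
`mv_mv`). Closing: `clos_step`. Pointer with mark `true`: by `ptr_step` the value `g'' x` is in
`{j | S.image (lam i) ⊆ univ.image (lam j)} × Perm`, a set with
`dg F (S.image (lam i)) * (δ + 1)!` elements, and this is also the weight for `g'`. Pointer with
mark `false`: the other side `x'` of the ridge has mark `true` and the same rank, so `x' ∈ P` by the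
choice of `x`, and `g'' x` is determined by `g'' x' = g x'` (`mv_mv`, `mv_comp`, `glu_unique`). -/
theorem card_class (κ : Type*) [Fintype κ] [DecidableEq κ] {δ n : ℕ} (L : Lbl δ n) (Q : ℕ)
    (G : Finset (Glu δ n))
    (hG : ∀ g ∈ G, ∃ (F : Finset (Finset κ)) (lam : Fin n → Fin (δ + 1) → κ)
      (M T0 : Finset (Finset κ)) (rk : Finset κ → ℕ) (e lev : Finset κ → Finset κ)
      (T : Finset κ → Finset (Finset κ)), PM δ F ∧ HasL F L lam g M T0 rk e lev T ∧
        ∏ t ∈ M \ T0, dg F (lev t) ≤ Q) :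
    G.card ≤ (δ + 1).factorial ^ ((δ + 1) * n) * Q := by
  classical
  choose F lam M T0 rk e lev T hF hL hQ using hG
  have hN : ∀ g (hg : g ∈ G) (x : Fin n × Fin (δ + 1)),
      (if h : g ∈ G then wt (F g h) L (lam g h) x else 1) = wt (F g hg) L (lam g hg) x := by
    intro g hg x
    rw [dif_pos hg]
  refine adapt G (fun g x => if h : g ∈ G then wt (F g h) L (lam g h) x else 1) _ ?_ ?_ ?_
  · intro g hg x
    simp only [hN g hg]
    exact wt_pos (hL g hg) x
  · intro P hP g hg
    obtain ⟨y₀, hy₀⟩ : ∃ y, y ∉ P := by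
      by_contra hcon
      push Not at hcon
      exact hP (eq_univ_iff_forall.2 hcon)
    -- the measure
    let r : Fin n × Fin (δ + 1) → ℕ := fun y =>
      if side (lam g hg y.1) y.2 ∈ T0 g hg then 0 else rk g hg (side (lam g hg y.1) y.2) + 1
    let pf : Fin n × Fin (δ + 1) → ℕ := fun y =>
      if ∃ S, L.2.2.1 y = Sum.inr (Sum.inr (S, false)) then 1 else 0
    let μ : Fin n × Fin (δ + 1) → ℕ := fun y => 2 * r y + pf y
    have hpf : ∀ y, pf y ≤ 1 := by
      intro y
      simp only [pf]
      split_ifs <;> omega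
    obtain ⟨x, hx, hmin⟩ := exists_min_image (univ.filter (fun y => y ∉ P)) μ
      ⟨y₀, mem_filter.2 ⟨mem_univ _, hy₀⟩⟩
    have hxP : x ∉ P := (mem_filter.1 hx).2
    have hmin' : ∀ y, μ y < μ x → y ∈ P := by
      intro y hy
      by_contra hyP
      have := hmin y (mem_filter.2 ⟨mem_univ _, hyP⟩)
      omega
    obtain ⟨i, a⟩ := x
    have hlow : side (lam g hg i) a ∉ T0 g hg → ∀ g'' ∈ G, (∀ y ∈ P, g'' y = g y) →
        ∀ (i' : Fin n) (a' : Fin (δ + 1)), side (lam g hg i') a' ∈ T0 g hg ∨
        rk g hg (side (lam g hg i') a') < rk g hg (side (lam g hg i) a) →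
        g'' (i', a') = g (i', a') := by
      intro hT g'' _ hagree i' a' hlt
      refine hagree _ (hmin' _ ?_)
      have h1 : r (i, a) = rk g hg (side (lam g hg i) a) + 1 := if_neg hT
      have h2 : r (i', a') + 1 ≤ r (i, a) := by
        rw [h1]
        by_cases hT' : side (lam g hg i') a' ∈ T0 g hg
        · have h3 : r (i', a') = 0 := if_pos hT'
          omega
        · have h3 : r (i', a') = rk g hg (side (lam g hg i') a') + 1 := if_neg hT'
          rcases hlt with hlt | hlt
          · exact absurd hlt hT'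
          · omega
      have h4 := hpf (i', a')
      show 2 * r (i', a') + pf (i', a') < 2 * r (i, a) + pf (i, a)
      omega
    refine ⟨(i, a), hxP, ?_⟩
    intro g' hg' hagree'
    simp only [hN g' hg']
    -- if the value is determined
    have one : (∀ g'' ∈ G, (∀ y ∈ P, g'' y = g y) → g'' (i, a) = g (i, a)) →
        ((G.filter (fun g'' => ∀ y ∈ P, g'' y = g y)).image (fun g'' => g'' (i, a))).card ≤
          wt (F g' hg') L (lam g' hg') (i, a) := by
      intro hdet
      refine le_trans ?_ (wt_pos (hL g' hg') (i, a))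
      refine card_le_one.2 ?_
      intro u hu v hv
      obtain ⟨g1, hg1, rfl⟩ := mem_image.1 hu
      obtain ⟨g2, hg2, rfl⟩ := mem_image.1 hv
      obtain ⟨hg1, hg1'⟩ := mem_filter.1 hg1
      obtain ⟨hg2, hg2'⟩ := mem_filter.1 hg2
      rw [hdet g1 hg1 hg1', hdet g2 hg2 hg2']
    rcases hk : L.2.2.1 (i, a) with u | m | ⟨S, b⟩
    · -- tree
      refine one ?_
      intro g'' hg'' _
      exact class_tree (hF g hg) (hF g'' hg'') (hL g hg) (hL g'' hg'') i a hk
    · -- closing
      refine one ?_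
      intro g'' hg'' hagree
      have hT : side (lam g hg i) a ∉ T0 g hg := fun h =>
        ((hL g hg).kclos i a m hk).1 ((hL g hg).cert.sub0 h)
      exact clos_step (hF g hg) (hF g'' hg'') (hL g hg) (hL g'' hg'') i a m hk
        (hlow hT g'' hg'' hagree)
    · have hT : side (lam g hg i) a ∉ T0 g hg := ((hL g hg).kptr i a S b hk).2.1
      have hlow' := hlow hT
      cases b with
      | false =>
        refine one ?_
        intro g'' hg'' hagree
        obtain ⟨j, σ, hjσ⟩ : ∃ j σ, g (i, a) = (j, σ) := ⟨_, _, rfl⟩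
        have hk' := ((hL g hg).kptr i a S false hk).2.2.2.2
        have hs' := class_side (hL g hg).isg i a
        rw [hjσ] at hk' hs'
        simp only [Bool.not_false] at hk' hs'
        have hxx : (j, σ a) ∈ P := by
          refine hmin' _ ?_
          have h1 : r (j, σ a) = r (i, a) := by
            simp only [r, hs']
          have h2 : pf (i, a) = 1 := if_pos ⟨S, hk⟩
          have h3 : pf (j, σ a) = 0 := by
            refine if_neg ?_
            rintro ⟨S', hS'⟩
            rw [hk'] at hS'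
            simp at hS'
          show 2 * r (j, σ a) + pf (j, σ a) < 2 * r (i, a) + pf (i, a)
          omega
        have h4 := (class_back (hF g hg) (hL g hg).isg).1 hjσ
        have h5 := hagree _ hxx
        rw [h4] at h5
        rw [(class_back (hF g'' hg'') (hL g'' hg'').isg).2 h5, hjσ]
      | true =>
        have hp := fun g'' hg'' (hagree : ∀ y ∈ P, g'' y = g y) =>
          ptr_step (hF g hg) (hF g'' hg'') (hL g hg) (hL g'' hg'') i a S true hk
            (hlow' g'' hg'' hagree)
        have hw : wt (F g' hg') L (lam g' hg') (i, a) =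
            dg (F g hg) (S.image (lam g hg i)) * (δ + 1).factorial := by
          rw [(hp g' hg' hagree').2]
          simp only [wt, hk]
        rw [hw]
        have hcard : ((univ.filter (fun j => S.image (lam g hg i) ⊆ univ.image (lam g hg j))) ×ˢ
            (univ : Finset (Equiv.Perm (Fin (δ + 1))))).card ≤
            dg (F g hg) (S.image (lam g hg i)) * (δ + 1).factorial := by
          rw [card_product, card_univ, Fintype.card_perm, Fintype.card_fin]
          exact Nat.mul_le_mul_right _ (class_dg (hL g hg).isg _)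
        refine le_trans (card_le_card ?_) hcard
        intro u hu
        obtain ⟨g'', hg'', rfl⟩ := mem_image.1 hu
        obtain ⟨hg'', hagree⟩ := mem_filter.1 hg''
        exact mem_product.2 ⟨mem_filter.2 ⟨mem_univ _, (hp g'' hg'' hagree).1⟩, mem_univ _⟩
  · intro g hg
    simp only [hN g hg]
    exact (prod_wt (hF g hg) (hL g hg)).trans (Nat.mul_le_mul_left _ (hQ g hg))

end Pool.TSphM
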