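import Pool.Agent.Lib.MP_3de3a3_co.DCertDef
import Pool.Agent.Lib.MP_3de3a3_co.DLab
import Pool.Agent.Lib.MP_3de3a3_co.DAvg

/-! # Normal pseudomanifolds, local certificates, rigidity (definitions) -/

set_option autoImplicit false

namespace Pool.TSphM

open Finset
open Pool.TSph (verts IsSphere2 adj comp Ep PhiK)
open Pool.TSphD (fc rdg lk Lo PM side IsLF mv Closings)

variable {ι : Type*} [DecidableEq ι]

/-- `F` is the set of facets of a normal pseudomanifold of dimension `d - 1` whose faces with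
`d - 3` vertices have triangulated 2-spheres as links: all facets have `d` vertices, for every set
`s` with at most `d - 3` elements any two facets which contain `s` are joined by a chain of facets
containing `s` in which consecutive facets have `d - 1` common vertices, and the link of every face
with `d - 3` vertices is a triangulated 2-sphere. -/
structure IsNor (d : ℕ) (F : Finset (Finset ι)) : Prop where
  card : ∀ s ∈ F, s.card = d
  star : ∀ s : Finset ι, s.card + 3 ≤ d → ∀ a ∈ F, ∀ b ∈ F, s ⊆ a → s ⊆ b →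
    Relation.ReflTransGen (fun a b => b ∈ F ∧ (a ∩ b).card + 1 = d ∧ s ⊆ a ∩ b) a b
  sphere : ∀ s ∈ fc (d - 3) F, IsSphere2 (lk F s)

/-- The facets which contain `s`. -/
def up (F : Finset (Finset ι)) (s : Finset ι) : Finset (Finset ι) := F.filter (fun a => s ⊆ a)

/-- The number of facets which contain `s`. -/
def dg (F : Finset (Finset ι)) (s : Finset ι) : ℕ := (up F s).card

/-! ## Local certificates -/

/-- A local certificate: `T0` is a spanning tree of the dual graph, every ridge which is not in `M`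
is closed around a codimension 2 face `e t` (all other ridges which contain `e t` are in `T0` or have
smaller rank), and every other ridge `t ∈ M` is a pointer inside the star of its face `lev t`, which is
connected by the set `T (lev t)` of ridges which are in `T0` or have smaller rank. -/
structure LCert (δ : ℕ) (F M T0 : Finset (Finset ι)) (rk : Finset ι → ℕ)
    (e lev : Finset ι → Finset ι) (T : Finset ι → Finset (Finset ι)) : Prop where
  sub : M ⊆ rdg δ F
  sub0 : T0 ⊆ M
  card0 : T0.card + 1 ≤ F.card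
  conn : ∀ s ∈ F, ∀ t ∈ F, Relation.ReflTransGen (fun a b => b ∈ F ∧ a ∩ b ∈ T0) s t
  esub : ∀ t ∈ rdg δ F, t ∉ M → e t ⊆ t ∧ (e t).card + 1 = δ
  erank : ∀ t ∈ rdg δ F, t ∉ M → ∀ t' ∈ rdg δ F, e t ⊆ t' → t' ≠ t → t' ∈ T0 ∨ rk t' < rk t
  lsub : ∀ t ∈ M, t ∉ T0 → lev t ⊆ t
  Tsub : ∀ t ∈ M, t ∉ T0 → T (lev t) ⊆ rdg δ F
  lrank : ∀ t ∈ M, t ∉ T0 → ∀ t' ∈ T (lev t), t' ∈ T0 ∨ rk t' < rk t
  lconn : ∀ t ∈ M, t ∉ T0 → ∀ a ∈ F, ∀ b ∈ F, lev t ⊆ a → lev t ⊆ b →
    Relation.ReflTransGen (fun a b => b ∈ F ∧ lev t ⊆ a ∩ b ∧ a ∩ b ∈ T (lev t)) a b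

/-- Kinds of sides: tree, closing with a position, pointer with the positions of its face and a
mark which distinguishes the two sides of the ridge. -/
abbrev Kind (δ : ℕ) : Type := Unit ⊕ (Fin (δ + 1) ⊕ (Finset (Fin (δ + 1)) × Bool))

/-- Labels: parent function, sides of the tree edges, kinds of all sides, marks of the sides which
belong to `T s`, for every facet and every set of positions. -/
abbrev Lbl (δ n : ℕ) : Type :=
  (Fin n → Fin n) × (Fin n → Fin (δ + 1)) × (Fin n × Fin (δ + 1) → Kind δ) ×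
    (Fin n → Finset (Fin (δ + 1)) → Finset (Fin (δ + 1)))

/-- The gluing function of all sides. -/
abbrev Glu (δ n : ℕ) : Type := Fin n × Fin (δ + 1) → Fin n × Equiv.Perm (Fin (δ + 1))

/-- `lam` is a numbering of the facets of `F` by labelled facets, `g` is its gluing function. -/
structure IsGlu {δ n : ℕ} (F : Finset (Finset ι)) (lam : Fin n → Fin (δ + 1) → ι) (g : Glu δ n) :
    Prop where
  lf : ∀ i, IsLF F (lam i)
  surj : ∀ s ∈ F, ∃ i, univ.image (lam i) = s
  inj : ∀ i j, univ.image (lam i) = univ.image (lam j) → i = j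
  glu : ∀ i a, mv F a (lam i) = lam (g (i, a)).1 ∘ (g (i, a)).2

/-- The label `L` describes the certificate in terms of the numbering. -/
structure HasL {δ n : ℕ} (F : Finset (Finset ι)) (L : Lbl δ n) (lam : Fin n → Fin (δ + 1) → ι)
    (g : Glu δ n) (M T0 : Finset (Finset ι)) (rk : Finset ι → ℕ) (e lev : Finset ι → Finset ι)
    (T : Finset ι → Finset (Finset ι)) : Prop where
  cert : LCert δ F M T0 rk e lev T
  isg : IsGlu F lam g
  tree : ∀ i : Fin n, 0 < (i : ℕ) → lam i = mv F (L.2.1 i) (lam (L.1 i))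
  cover : ∀ i a, side (lam i) a ∈ T0 →
    (∃ i' : Fin n, 0 < (i' : ℕ) ∧ L.1 i' = i ∧ L.2.1 i' = a) ∨ (0 < (i : ℕ) ∧ L.2.1 i = a)
  ktree : ∀ i a, L.2.2.1 (i, a) = Sum.inl () → side (lam i) a ∈ T0
  kclos : ∀ i a m, L.2.2.1 (i, a) = Sum.inr (Sum.inl m) →
    side (lam i) a ∉ M ∧ m ≠ a ∧ e (side (lam i) a) = (side (lam i) a).erase (lam i m)
  kptr : ∀ i a S b, L.2.2.1 (i, a) = Sum.inr (Sum.inr (S, b)) →
    side (lam i) a ∈ M ∧ side (lam i) a ∉ T0 ∧ a ∉ S ∧ lev (side (lam i) a) = S.image (lam i) ∧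
      L.2.2.1 ((g (i, a)).1, (g (i, a)).2 a) = Sum.inr (Sum.inr (S.image (g (i, a)).2, !b))
  marks : ∀ i S a, a ∈ L.2.2.2 i S ↔ side (lam i) a ∈ T (S.image (lam i))

/-! ## Vertex orders -/

/-- The elements of `s` are above all other elements of `t ⊇ s`. -/
abbrev Top (pos : ι → ℕ) (s t : Finset ι) : Prop := s ⊆ t ∧ ∀ y ∈ t \ s, ∀ x ∈ s, pos y < pos x

/-- The vertices of the link of `s` which are not lower than all vertices of `s`. -/
def Wo (F : Finset (Finset ι)) (pos : ι → ℕ) (s : Finset ι) : Finset ι :=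
  verts (lk F s) \ Lo F pos s

/-- The ridges which contain `s` and a vertex of `Wo F pos s`. -/
def Yr (k : ℕ) (F : Finset (Finset ι)) (pos : ι → ℕ) (s : Finset ι) : Finset (Finset ι) :=
  (rdg (k + 2) F).filter (fun t => s ⊆ t ∧ ¬ Disjoint t (Wo F pos s))

/-- The number of facets with the top part `s`. -/
def Nn (F : Finset (Finset ι)) (pos : ι → ℕ) (s : Finset ι) : ℕ :=
  (F.filter (fun a => Top pos s a)).card

/-- The number of faces with `j` vertices of the complex `L` which are contained in `U`. -/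
def fin (j : ℕ) (L : Finset (Finset ι)) (U : Finset ι) : ℕ := ((fc j L).filter (fun t => t ⊆ U)).card

/-- A nested family: connecting sets `B s` of ridges. -/
structure Nest (k : ℕ) (F : Finset (Finset ι)) (pos : ι → ℕ) (Cl : Finset (Finset ι))
    (B : Finset ι → Finset (Finset ι)) : Prop where
  last : ∀ s ∈ fc k F, B s = (rdg (k + 2) F \ Cl).filter (fun t => Top pos s t)
  sub : ∀ j < k, ∀ s ∈ fc j F, B s ⊆ (Lo F pos s).biUnion (fun u => B (insert u s))
  card : ∀ j < k, ∀ s ∈ fc j F, (B s).card + 1 ≤ comp (adj (lk F s)) (Wo F pos s) + Nn F pos s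
  conn : ∀ j ≤ k, ∀ s ∈ fc j F, ∀ a ∈ F, ∀ b ∈ F, s ⊆ a → s ⊆ b →
    Relation.ReflTransGen (fun a b => b ∈ F ∧ s ⊆ a ∩ b ∧ a ∩ b ∈ B s ∪ Yr k F pos s) a b

/-- The sum of `h` over the lowest elements of `s` (there is one if `pos` is injective and `s` is
nonempty). -/
noncomputable def mn (pos : ι → ℕ) (s : Finset ι) (h : ι → ℝ) : ℝ :=
  ∑ x ∈ s.filter (fun x => ∀ y ∈ s, pos x ≤ pos y), h x

/-- The average of `h` over the elements of `s`. -/
noncomputable def av (s : Finset ι) (h : ι → ℝ) : ℝ := (∑ x ∈ s, h x) / s.card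

/-! ## Averages -/

/-- The logarithm of the number of facets which contain `s`. -/
noncomputable def ls (F : Finset (Finset ι)) (s : Finset ι) : ℝ := Real.log (dg F s)

/-- The average over `x ∈ s` of `log (n_(s - x) / n_s)`. -/
noncomputable def dl (F : Finset (Finset ι)) (s : Finset ι) : ℝ :=
  av s (fun x => ls F (s.erase x) - ls F s)

/-- The constant `j (d - j)! j! / (d + 1)!`. -/
noncomputable def Ej (d j : ℕ) : ℝ :=
  j * (d - j).factorial * j.factorial / (d + 1).factorial

/-- The expected number of components (minus one) of the part of the link above `s`, for a face `s`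
with `j` vertices whose link has `m` vertices. -/
noncomputable def bet (d j : ℕ) (m : ℝ) : ℝ := Ej d j * ((m - (d - j)) - (d + 1) / j)

/-- The number of vertices of the link of `s`. -/
noncomputable def vl (F : Finset (Finset ι)) (s : Finset ι) : ℝ := ((verts (lk F s)).card : ℝ)

/-- The size biased mean of `log n_s` over the faces `s` with `j` vertices. -/
noncomputable def Lam (d : ℕ) (F : Finset (Finset ι)) (j : ℕ) : ℝ :=
  (∑ s ∈ fc j F, dg F s * ls F s) / (F.card * d.choose j)

/-- The difference of the means of two levels. -/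
noncomputable def Dl (d : ℕ) (F : Finset (Finset ι)) (j : ℕ) : ℝ := Lam d F (j - 1) - Lam d F j

/-- The sum of `dl` over the faces with `j` vertices, divided by the number of facets. -/
noncomputable def sg (F : Finset (Finset ι)) (j : ℕ) : ℝ := (∑ s ∈ fc j F, dl F s) / F.card

/-- The cost of the level `j`, divided by the number of facets. -/
noncomputable def bb (d : ℕ) (F : Finset (Finset ι)) (j : ℕ) : ℝ :=
  (∑ s ∈ fc j F, bet d j (vl F s) * dl F s) / F.card

/-! ## Rigidity -/

/-- The points with the coordinates `θ (x, i)`, `i ≤ D`. -/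
def pt (D : ℕ) (θ : ι × ℕ → ℝ) (x : ι) : Fin (D + 1) → ℝ := fun i => θ (x, (i : ℕ))

/-- The graph with the vertex set `V` and the adjacency `A` is infinitesimally rigid at the points
`θ x` of the projective space of dimension `D`. -/
def Rig (D : ℕ) (V : Finset ι) (A : ι → ι → Prop) (θ : ι → Fin (D + 1) → ℝ) : Prop :=
  ∀ v : ι → Fin (D + 1) → ℝ, (∀ x ∈ V, θ x ⬝ᵥ v x = 0) →
    (∀ x ∈ V, ∀ y ∈ V, A x y → θ x ⬝ᵥ v y + θ y ⬝ᵥ v x = 0) →
    ∃ S : Matrix (Fin (D + 1)) (Fin (D + 1)) ℝ, S.transpose = -S ∧ ∀ x ∈ V, v x = S.mulVec (θ x)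

/-- The graph is rigid at all points outside the zero set of a polynomial. -/
def GRig (D : ℕ) (V : Finset ι) (A : ι → ι → Prop) : Prop :=
  ∃ p : MvPolynomial (ι × ℕ) ℝ, p ≠ 0 ∧
    ∀ θ : ι × ℕ → ℝ, MvPolynomial.eval θ p ≠ 0 → Rig D V A (pt D θ)

end Pool.TSphM
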