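import Pool.Agent.Lib.MP_3de3a3_co.M.Defs
import Pool.Agent.Lib.MP_3de3a3_co.M.Iso
import Pool.Agent.Lib.MP_3de3a3_co.DLamBfs
import Pool.Agent.Lib.MP_3de3a3_co.DExCode

/-! # Existence of the label (module M/LblEx) -/

set_option autoImplicit false

namespace Pool.TSphM

open Finset
open Pool.TSph (verts IsSphere2 adj comp Ep PhiK)
open Pool.TSphD (fc rdg lk Lo PM side IsLF mv Closings)

variable {ι : Type*} [DecidableEq ι]

private theorem lblEx_side_inj {δ : ℕ} {f : Fin (δ + 1) → ι} (hf : Function.Injective f)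
    {a b : Fin (δ + 1)} (h : side f a = side f b) : a = b := by
  by_contra hab
  have h1 : f a ∈ side f b := mem_image_of_mem _ (mem_erase.2 ⟨hab, mem_univ _⟩)
  rw [← h, side, mem_image] at h1
  obtain ⟨c, hc, hca⟩ := h1
  exact (mem_erase.1 hc).1 (hf hca)

private theorem lblEx_exists_side {δ : ℕ} {f : Fin (δ + 1) → ι} (hf : Function.Injective f)
    {t : Finset ι} (ht : t ⊆ univ.image f) (h3 : t.card = δ) : ∃ a, t = side f a := by
  have h4 : (univ.image f).card = δ + 1 := by
    rw [card_image_of_injective _ hf, card_univ, Fintype.card_fin]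
  have h5 : (univ.image f \ t).Nonempty := by
    rw [← card_pos, card_sdiff_of_subset ht]
    omega
  obtain ⟨v, hv⟩ := h5
  rw [mem_sdiff, mem_image] at hv
  obtain ⟨⟨a, _, rfl⟩, hv⟩ := hv
  refine ⟨a, Finset.eq_of_subset_of_card_le ?_ (by rw [Pool.TSphD.Mv_card hf, h3])⟩
  intro z hz
  obtain ⟨c, _, rfl⟩ := mem_image.1 (ht hz)
  refine mem_image_of_mem _ (mem_erase.2 ⟨?_, mem_univ _⟩)
  rintro rfl
  exact hv hz

private theorem lblEx_exists_erase {δ : ℕ} {f : Fin (δ + 1) → ι} (hf : Function.Injective f)
    {a : Fin (δ + 1)} {u : Finset ι} (hu : u ⊆ side f a) (h2 : u.card + 1 = δ) :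
    ∃ m, m ≠ a ∧ u = (side f a).erase (f m) := by
  have h5 : (side f a \ u).Nonempty := by
    rw [← card_pos, card_sdiff_of_subset hu, Pool.TSphD.Mv_card hf]
    omega
  obtain ⟨v, hv⟩ := h5
  rw [mem_sdiff] at hv
  obtain ⟨h6, h7⟩ := hv
  have h8 := h6
  rw [side, mem_image] at h8
  obtain ⟨m, hm, rfl⟩ := h8
  refine ⟨m, (mem_erase.1 hm).1, Finset.eq_of_subset_of_card_le ?_ ?_⟩
  · intro z hz
    refine mem_erase.2 ⟨?_, hu hz⟩
    rintro rfl
    exact h7 hz
  · rw [card_erase_of_mem h6, Pool.TSphD.Mv_card hf]; omega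

/-- As `exists_code` (file DExCode.lean). Take `exists_lam` with `M := T0`. The ridges
`side (lam i) (k i)`, `0 < i`, are `n - 1` different elements of `T0`, so by `card0` they are all of
`T0` (`cover`). The gluing function exists by `exists_perm` (as `hrep` there). Kinds: `Sum.inl ()` iff
the ridge is in `T0`; a closing with the position `m` of the vertex of the ridge which is not in `e`; for
a pointer the set of positions of `lev` and a mark: choose for every ridge of `M \ T0` one of its two
sides (mark `true`), the other one gets `false`; the side on the other side of `(i, a)` is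
`((g (i, a)).1, (g (i, a)).2 a)`. -/
theorem exists_lbl {δ n : ℕ} {F M T0 : Finset (Finset ι)} {rk : Finset ι → ℕ}
    {e lev : Finset ι → Finset ι} {T : Finset ι → Finset (Finset ι)} (hF : PM δ F) (hn : 0 < n)
    (hc : F.card = n) (hC : LCert δ F M T0 rk e lev T) :
    ∃ L : Lbl δ n, Monotone L.1 ∧ ∃ lam g, HasL F L lam g M T0 rk e lev T := by
  classical
  have hne : F.Nonempty := by rw [← card_pos, hc]; exact hn
  obtain ⟨lam, p, k, hlf, hinj, hsurj, hmono, htree⟩ :=
    Pool.TSphD.exists_lam hF hne hc (hC.sub0.trans hC.sub) hC.conn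
  -- the numbers of the neighbouring facets
  have hrep : ∀ f : Fin (δ + 1) → ι, IsLF F f →
      ∃ j, ∃ g : Equiv.Perm (Fin (δ + 1)), f = lam j ∘ g := by
    intro f hf
    obtain ⟨j, hj⟩ := hsurj _ hf.2
    obtain ⟨g, hg⟩ := Pool.TSphD.exists_perm (hlf j).1 hf.1 hj.symm
    exact ⟨j, g, hg⟩
  -- facets which contain a side
  have hfac : ∀ i a j, side (lam i) a ⊆ univ.image (lam j) →
      j = i ∨ univ.image (lam j) = univ.image (mv F a (lam i)) := by
    intro i a j h
    rcases Pool.TSphD.facet_of_side hF (hlf i) a (hlf j).2 h with h1 | h1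
    · left; exact hinj _ _ h1
    · right; exact h1
  have hside : ∀ i a, side (lam i) a ⊆ univ.image (lam i) := fun i a => Pool.TSphD.Mv_sub _ _
  let tr : Fin n → Finset ι := fun i => side (lam i) (k i)
  have htr2 : ∀ i : Fin n, 0 < (i : ℕ) → side (lam (p i)) (k i) = tr i := by
    intro i hi
    have h1 := (htree i hi).2.2
    show side (lam (p i)) (k i) = side (lam i) (k i)
    rw [h1, Pool.TSphD.side_mv]
  have hfac2 : ∀ i : Fin n, 0 < (i : ℕ) → ∀ j, tr i ⊆ univ.image (lam j) → j = i ∨ j = p i := by
    intro i hi j hj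
    rcases hfac i (k i) j hj with h1 | h1
    · left; exact h1
    · right
      have h2 := (htree i hi).2.2
      rw [h2, Pool.TSphD.mv_mv hF (hlf (p i))] at h1
      exact hinj _ _ h1
  let T' : Finset (Finset ι) := (univ.filter (fun i : Fin n => 0 < (i : ℕ))).image tr
  have hTM : T' ⊆ T0 := by
    intro t ht
    obtain ⟨i, hi, rfl⟩ := mem_image.1 ht
    exact (htree i (mem_filter.1 hi).2).2.1
  have htrinj : Set.InjOn tr (univ.filter (fun i : Fin n => 0 < (i : ℕ)) : Finset (Fin n)) := by
    intro i hi j hj hij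
    have hi' : 0 < (i : ℕ) := (mem_filter.1 (mem_coe.1 hi)).2
    have hj' : 0 < (j : ℕ) := (mem_filter.1 (mem_coe.1 hj)).2
    have h1 : tr i ⊆ univ.image (lam j) := by rw [hij]; exact hside j (k j)
    have h2 : tr j ⊆ univ.image (lam i) := by rw [← hij]; exact hside i (k i)
    rcases hfac2 i hi' j h1 with h3 | h3
    · exact h3.symm
    · rcases hfac2 j hj' i h2 with h4 | h4
      · exact h4
      · have h5 := (htree i hi').1
        have h6 := (htree j hj').1
        rw [← h3] at h5
        rw [← h4] at h6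
        exact absurd (lt_trans h5 h6) (lt_irrefl _)
  have hTcard : T'.card = n - 1 := by
    rw [card_image_of_injOn htrinj]
    have h1 : (univ.filter (fun i : Fin n => 0 < (i : ℕ))) = univ.erase ⟨0, hn⟩ := by
      ext i
      simp only [mem_filter, mem_univ, true_and, mem_erase, ne_eq, and_true]
      rw [Fin.ext_iff]
      exact Nat.pos_iff_ne_zero
    rw [h1, card_erase_of_mem (mem_univ _), card_univ, Fintype.card_fin]
  have hT0 : T' = T0 := by
    refine Finset.eq_of_subset_of_card_le hTM ?_
    have := hC.card0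
    omega
  -- a side for every ridge of `M`
  have hex : ∀ t ∈ M, ∃ q : Fin n × Fin (δ + 1), side (lam q.1) q.2 = t := by
    intro t ht
    obtain ⟨h3, s, hs, hts⟩ := Pool.TSphD.mem_rdg.1 (hC.sub ht)
    obtain ⟨i, hi⟩ := hsurj s hs
    rw [← hi] at hts
    obtain ⟨a, ha⟩ := lblEx_exists_side (hlf i).1 hts h3
    exact ⟨(i, a), ha.symm⟩
  haveI : Nonempty (Fin n × Fin (δ + 1)) := ⟨(⟨0, hn⟩, 0)⟩
  choose! ch hch using hex
  -- the gluing data
  have hgl : ∀ q : Fin n × Fin (δ + 1), ∃ r : Fin n × Equiv.Perm (Fin (δ + 1)),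
      mv F q.2 (lam q.1) = lam r.1 ∘ r.2 := by
    intro q
    obtain ⟨j, g, h⟩ := hrep _ (Pool.TSphD.mv_isLF hF (hlf q.1) q.2)
    exact ⟨(j, g), h⟩
  choose g hg using hgl
  -- the labels
  have hlab : ∀ q : Fin n × Fin (δ + 1), ∃ m, side (lam q.1) q.2 ∉ M →
      m ≠ q.2 ∧ e (side (lam q.1) q.2) = (side (lam q.1) q.2).erase (lam q.1 m) := by
    intro q
    by_cases h : side (lam q.1) q.2 ∈ M
    · exact ⟨0, fun h' => absurd h h'⟩
    · obtain ⟨h1, h2⟩ := hC.esub _ (Pool.TSphD.side_mem_rdg (hlf q.1) q.2) h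
      obtain ⟨m, hm⟩ := lblEx_exists_erase (hlf q.1).1 h1 h2
      exact ⟨m, fun _ => hm⟩
  choose lb hlb using hlab
  let pos : Fin n × Fin (δ + 1) → Finset (Fin (δ + 1)) := fun q =>
    univ.filter (fun c => lam q.1 c ∈ lev (side (lam q.1) q.2))
  let K : Fin n × Fin (δ + 1) → Kind δ := fun q =>
    if side (lam q.1) q.2 ∈ T0 then Sum.inl ()
    else if side (lam q.1) q.2 ∈ M then
      Sum.inr (Sum.inr (pos q, decide (q = ch (side (lam q.1) q.2))))
    else Sum.inr (Sum.inl (lb q))
  have hK1 : ∀ q, side (lam q.1) q.2 ∈ T0 → K q = Sum.inl () := fun q h => if_pos h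
  have hK2 : ∀ q, side (lam q.1) q.2 ∉ T0 → side (lam q.1) q.2 ∈ M →
      K q = Sum.inr (Sum.inr (pos q, decide (q = ch (side (lam q.1) q.2)))) := by
    intro q h1 h2
    simp only [K, if_neg h1, if_pos h2]
  have hK3 : ∀ q, side (lam q.1) q.2 ∉ M → K q = Sum.inr (Sum.inl (lb q)) := by
    intro q h2
    have h1 : side (lam q.1) q.2 ∉ T0 := fun h => h2 (hC.sub0 h)
    simp only [K, if_neg h1, if_neg h2]
  refine ⟨(p, k, K, fun i S => univ.filter (fun a => side (lam i) a ∈ T (S.image (lam i)))),
    hmono, lam, g, ⟨hC, ⟨hlf, hsurj, hinj, fun i a => hg (i, a)⟩,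
      fun i hi => (htree i hi).2.2, ?_, ?_, ?_, ?_, ?_⟩⟩
  · -- cover
    intro i a ht
    rw [← hT0] at ht
    obtain ⟨i', hi', heq⟩ := mem_image.1 ht
    have hi0 : 0 < (i' : ℕ) := (mem_filter.1 hi').2
    have h1 : tr i' ⊆ univ.image (lam i) := by rw [heq]; exact hside i a
    rcases hfac2 i' hi0 i h1 with h2 | h2
    · right
      subst h2
      exact ⟨hi0, lblEx_side_inj (hlf i).1 heq⟩
    · left
      refine ⟨i', hi0, h2.symm, ?_⟩
      have h3 := htr2 i' hi0
      rw [← h2, heq] at h3
      exact lblEx_side_inj (hlf i).1 h3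
  · -- ktree
    intro i a h
    change K (i, a) = Sum.inl () at h
    by_contra hT
    by_cases hM : side (lam i) a ∈ M
    · rw [hK2 (i, a) hT hM] at h
      exact absurd h Sum.inr_ne_inl
    · rw [hK3 (i, a) hM] at h
      exact absurd h Sum.inr_ne_inl
  · -- kclos
    intro i a m h
    change K (i, a) = Sum.inr (Sum.inl m) at h
    by_cases hM : side (lam i) a ∈ M
    · exfalso
      by_cases hT : side (lam i) a ∈ T0
      · rw [hK1 (i, a) hT] at h
        exact absurd h Sum.inl_ne_inr
      · rw [hK2 (i, a) hT hM] at h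
        exact absurd (Sum.inr.inj h) Sum.inr_ne_inl
    · rw [hK3 (i, a) hM] at h
      have h1 := Sum.inl.inj (Sum.inr.inj h)
      have h2 := hlb (i, a) hM
      rw [h1] at h2
      exact ⟨hM, h2⟩
  · -- kptr
    intro i a S b h
    change K (i, a) = Sum.inr (Sum.inr (S, b)) at h
    have hT : side (lam i) a ∉ T0 := by
      intro hT
      rw [hK1 (i, a) hT] at h
      exact absurd h Sum.inl_ne_inr
    have hM : side (lam i) a ∈ M := by
      by_contra hM
      rw [hK3 (i, a) hM] at h
      exact absurd (Sum.inr.inj h) Sum.inl_ne_inr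
    rw [hK2 (i, a) hT hM] at h
    have h1 := Sum.inr.inj (Sum.inr.inj h)
    obtain ⟨h2, h3⟩ := Prod.ext_iff.1 h1
    have hS : S = univ.filter (fun c => lam i c ∈ lev (side (lam i) a)) := h2.symm
    have hb : b = decide ((i, a) = ch (side (lam i) a)) := h3.symm
    have hlev := hC.lsub _ hM hT
    have haS : ∀ c, c ∈ S ↔ lam i c ∈ lev (side (lam i) a) := by
      intro c
      rw [hS, mem_filter]
      exact ⟨fun h => h.2, fun h => ⟨mem_univ _, h⟩⟩
    -- the other side
    have hglu := hg (i, a)
    change mv F a (lam i) = lam (g (i, a)).1 ∘ (g (i, a)).2 at hglu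
    set j := (g (i, a)).1 with hj
    set σ := (g (i, a)).2 with hσ
    have hsj : side (lam j) (σ a) = side (lam i) a := by
      rw [← Pool.TSphD.side_comp, ← hglu, Pool.TSphD.side_mv]
    have hoff : ∀ c, c ≠ a → lam j (σ c) = lam i c := by
      intro c hca
      have h4 := congrFun hglu c
      rw [Pool.TSphD.mv_off F (lam i) hca] at h4
      exact h4.symm
    have himg : univ.image (mv F a (lam i)) = univ.image (lam j) := by
      rw [hglu]
      ext z
      simp only [mem_image, mem_univ, true_and, Function.comp]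
      constructor
      · rintro ⟨c, rfl⟩; exact ⟨σ c, rfl⟩
      · rintro ⟨c, rfl⟩; exact ⟨σ.symm c, by simp⟩
    have hij : j ≠ i := by
      intro hji
      have h4 := Pool.TSphD.image_mv_ne hF (hlf i) a
      rw [himg, hji] at h4
      exact h4 rfl
    refine ⟨hM, hT, ?_, ?_, ?_⟩
    · rw [haS]
      intro h4
      exact Pool.TSphD.Mv_notMem (hlf i).1 a (hlev h4)
    · ext z
      rw [mem_image]
      constructor
      · intro hz
        obtain ⟨c, _, rfl⟩ := mem_image.1 (hside i a (hlev hz))
        exact ⟨c, (haS c).2 hz, rfl⟩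
      · rintro ⟨c, hc1, rfl⟩
        exact (haS c).1 hc1
    · show K (j, σ a) = Sum.inr (Sum.inr (S.image σ, !b))
      have hT' : side (lam (j, σ a).1) (j, σ a).2 ∉ T0 := by
        show side (lam j) (σ a) ∉ T0
        rw [hsj]; exact hT
      have hM' : side (lam (j, σ a).1) (j, σ a).2 ∈ M := by
        show side (lam j) (σ a) ∈ M
        rw [hsj]; exact hM
      rw [hK2 (j, σ a) hT' hM']
      have e1 : pos (j, σ a) = S.image σ := by
        show univ.filter (fun c => lam j c ∈ lev (side (lam j) (σ a))) = S.image σ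
        rw [hsj]
        ext c
        rw [mem_filter, mem_image]
        constructor
        · rintro ⟨-, h4⟩
          have h5 : σ.symm c ≠ a := by
            intro h5
            have h6 : c = σ a := by rw [← h5, Equiv.apply_symm_apply]
            rw [h6] at h4
            have h7 := hlev h4
            rw [← hsj] at h7
            exact Pool.TSphD.Mv_notMem (hlf j).1 (σ a) h7
          refine ⟨σ.symm c, ?_, Equiv.apply_symm_apply _ _⟩
          rw [haS, ← hoff _ h5, Equiv.apply_symm_apply]
          exact h4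
        · rintro ⟨c', h4, rfl⟩
          refine ⟨mem_univ _, ?_⟩
          have h5 : c' ≠ a := by
            rintro rfl
            exact Pool.TSphD.Mv_notMem (hlf i).1 c' (hlev ((haS c').1 h4))
          rw [hoff c' h5]
          exact (haS c').1 h4
      have e2 : decide ((j, σ a) = ch (side (lam (j, σ a).1) (j, σ a).2)) = !b := by
        show decide ((j, σ a) = ch (side (lam j) (σ a))) = !b
        rw [hsj, hb]
        have hs := hch _ hM
        set q := ch (side (lam i) a) with hq
        have h4 : side (lam i) a ⊆ univ.image (lam q.1) := by rw [← hs]; exact hside _ _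
        by_cases hqi : (i, a) = q
        · have h5 : (j, σ a) ≠ q := by
            rw [← hqi]
            intro h5
            exact hij (congrArg Prod.fst h5)
          rw [decide_eq_false h5, decide_eq_true hqi]
          rfl
        · have h5 : (j, σ a) = q := by
            rcases hfac i a q.1 h4 with h6 | h6
            · exfalso
              apply hqi
              refine Prod.ext h6.symm ?_
              rw [h6] at hs
              exact (lblEx_side_inj (hlf i).1 hs).symm
            · rw [himg] at h6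
              have h7 := hinj _ _ h6
              refine Prod.ext h7.symm ?_
              rw [h7, ← hsj] at hs
              exact (lblEx_side_inj (hlf j).1 hs).symm
          rw [decide_eq_true h5, decide_eq_false hqi]
          rfl
      rw [e1, e2]
  · -- marks
    intro i S a
    show a ∈ univ.filter (fun a => side (lam i) a ∈ T (S.image (lam i))) ↔ _
    rw [mem_filter]
    exact ⟨fun h => h.2, fun h => ⟨mem_univ _, h⟩⟩

end Pool.TSphM
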