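import Pool.Agent.Lib.MP_3de3a3_co.M.Defs
import Pool.Agent.Lib.MP_3de3a3_co.M.Class
import Pool.Agent.Lib.MP_3de3a3_co.M.LblEx
import Pool.Agent.Lib.MP_3de3a3_co.M.CardL
import Pool.Agent.Lib.MP_3de3a3_co.M.Iso

/-! # The encoding theorem for local certificates (module M/Enc) -/

set_option autoImplicit false

namespace Pool.TSphM

open Finset
open Pool.TSph (verts IsSphere2 adj comp Ep PhiK)
open Pool.TSphD (fc rdg lk Lo PM side IsLF mv Closings)

variable {ι : Type*} [DecidableEq ι]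

/-- For every label with monotone parent function let `G_L` be the set of the gluing functions of
complexes with this label and cost at most `Q` (`card_class`, `card_lbl`); for every such gluing function
choose one complex. `exists_lbl`, `iso_of_glu`. -/
theorem lencoding (κ : Type*) [Fintype κ] [DecidableEq κ] (δ n Q : ℕ) (hn : 0 < n) :
    ∃ S : Finset (Finset (Finset κ)),
      S.card ≤ (cL δ * (δ + 1).factorial ^ (δ + 1)) ^ n * Q ∧
      ∀ F : Finset (Finset κ), F.card = n → PM δ F →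
        (∃ M T0 rk e lev T, LCert δ F M T0 rk e lev T ∧ ∏ t ∈ M \ T0, dg F (lev t) ≤ Q) →
        ∃ G ∈ S, ∃ π : Equiv.Perm κ, G = F.image (fun σ => σ.image π) := by
  classical
  let P : Lbl δ n → Glu δ n → Finset (Finset κ) → Prop := fun L g F =>
    ∃ (lam : Fin n → Fin (δ + 1) → κ) (M T0 : Finset (Finset κ)) (rk : Finset κ → ℕ)
      (e lev : Finset κ → Finset κ) (T : Finset κ → Finset (Finset κ)), PM δ F ∧
        HasL F L lam g M T0 rk e lev T ∧ ∏ t ∈ M \ T0, dg F (lev t) ≤ Q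
  let gset : Lbl δ n → Finset (Glu δ n) := fun L => univ.filter (fun g => ∃ F, P L g F)
  let Fc : Lbl δ n → Glu δ n → Finset (Finset κ) := fun L g =>
    if h : ∃ F, P L g F then h.choose else ∅
  have hFc : ∀ L g, (∃ F, P L g F) → P L g (Fc L g) := by
    intro L g h
    have h1 : Fc L g = h.choose := dif_pos h
    rw [h1]
    exact h.choose_spec
  have hcard : ∀ L, (gset L).card ≤ (δ + 1).factorial ^ ((δ + 1) * n) * Q := by
    intro L
    refine card_class κ L Q (gset L) (fun g hg => ?_)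
    obtain ⟨F, lam, M, T0, rk, e, lev, T, h⟩ := (mem_filter.1 hg).2
    exact ⟨F, lam, M, T0, rk, e, lev, T, h⟩
  refine ⟨(univ.filter (fun L : Lbl δ n => Monotone L.1)).biUnion
    (fun L => (gset L).image (Fc L)), ?_, ?_⟩
  · calc _ ≤ ∑ L ∈ univ.filter (fun L : Lbl δ n => Monotone L.1), ((gset L).image (Fc L)).card :=
          card_biUnion_le
      _ ≤ ∑ L ∈ univ.filter (fun L : Lbl δ n => Monotone L.1),
          (δ + 1).factorial ^ ((δ + 1) * n) * Q :=
          sum_le_sum fun L _ => card_image_le.trans (hcard L)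
      _ = (univ.filter (fun L : Lbl δ n => Monotone L.1)).card *
          ((δ + 1).factorial ^ ((δ + 1) * n) * Q) := by rw [sum_const, smul_eq_mul]
      _ ≤ cL δ ^ n * ((δ + 1).factorial ^ ((δ + 1) * n) * Q) :=
          Nat.mul_le_mul_right _ (card_lbl δ n)
      _ = (cL δ * (δ + 1).factorial ^ (δ + 1)) ^ n * Q := by
          rw [mul_pow, ← pow_mul, mul_assoc]
  · rintro F hF hPM ⟨M, T0, rk, e, lev, T, hC, hQ⟩
    obtain ⟨L, hL, lam, g, hH⟩ := exists_lbl hPM hn hF hC
    have hex : ∃ F, P L g F := ⟨F, lam, M, T0, rk, e, lev, T, hPM, hH, hQ⟩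
    obtain ⟨lam', M', T0', rk', e', lev', T', hPM', hH', _⟩ := hFc L g hex
    obtain ⟨π, hπ⟩ := iso_of_glu hPM hPM' hH.isg hH'.isg
    exact ⟨Fc L g, mem_biUnion.2 ⟨L, mem_filter.2 ⟨mem_univ _, hL⟩,
      mem_image.2 ⟨g, mem_filter.2 ⟨mem_univ _, hex⟩, rfl⟩⟩, π, hπ⟩

end Pool.TSphM
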