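import Pool.Agent.Lib.MP_3de3a3_co.M.Links
import Pool.Agent.Lib.MP_3de3a3_co.DTotal

/-! # Dimension four and the Euler characteristic (module M/Eu5) -/

set_option autoImplicit false

namespace Pool.TSphM

open Finset
open Pool.TSph (verts IsSphere2)
open Pool.TSphD (fc rdg lk IsMfdD card_rdg euler_count mfd_pm total)

variable {ι : Type*} [DecidableEq ι]

/-- The Euler characteristic of the complex with the facets `F` (facets have five vertices). -/
def chi5 (F : Finset (Finset ι)) : ℤ :=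
  (fc 1 F).card - (fc 2 F).card + (fc 3 F).card - (fc 4 F).card + F.card

theorem Eu5_rel {F : Finset (Finset ι)} (hF : IsMfdD 2 F) :
    6 * chi5 F = 6 * (fc 1 F).card - 2 * (fc 2 F).card + F.card := by
  have h1 := card_rdg (k := 2) (mfd_pm hF)
  have h2 := euler_count hF
  have e1 : (rdg (2 + 2) F).card = (fc 4 F).card := rfl
  have e2 : (2 + 3).choose 3 = 10 := by decide
  rw [e1] at h1
  rw [e2] at h2
  norm_num at h1 h2
  unfold chi5
  have h1' : (2 : ℤ) * (fc 4 F).card = 5 * F.card := by exact_mod_cast h1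
  have h2' : (6 : ℤ) * (fc 3 F).card = 10 * F.card + 4 * (fc 2 F).card := by exact_mod_cast h2
  linarith

/-- There is `C` such that the complexes with `n` facets which are `IsNor 5` and have Euler
characteristic at most `c` fall into at most `C ^ n * n ^ ((n + 4 c) / 10)` classes. -/
theorem final5 : ∃ C : ℕ, ∀ n c : ℕ, 0 < n → ∃ S : Finset (Finset (Finset (Fin (5 * n)))),
    S.card ^ 10 ≤ C ^ n * n ^ (n + 4 * c) ∧
    ∀ F : Finset (Finset (Fin (5 * n))), F.card = n → IsNor 5 F → chi5 F ≤ c →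
      ∃ G ∈ S, ∃ π : Equiv.Perm (Fin (5 * n)), G = F.image (fun σ => σ.image π) := by
  obtain ⟨C, hC⟩ := total (k := 2) (by norm_num)
  refine ⟨11 ^ 10 * (C + 1), fun n c hn => ?_⟩
  obtain ⟨S, -, hS2, hS3⟩ := hC n
  have hf : ∀ f : ℕ, n ≤ 2 * f + 6 * c →
      (S.filter (fun G => (fc 2 G).card = f)).card ^ 10 ≤ (C + 1) ^ n * n ^ (n + 4 * c) := by
    intro f hfn
    have h1 := hS2 f
    set A := (S.filter (fun G => (fc 2 G).card = f)).card with hA
    have e1 : 2 * (2 + 1) * (2 + 3) * (2 + 4) = 180 := by norm_num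
    have e2 : 2 * (2 + 1) * (2 + 3) * n = 30 * n := by ring
    rw [e1, e2] at h1
    have h2 : (A ^ 10) ^ 18 ≤ ((C + 1) ^ n * n ^ (n + 4 * c)) ^ 18 := by
      calc (A ^ 10) ^ 18 = A ^ 180 := by rw [← pow_mul]
        _ ≤ C ^ n * n ^ (30 * n - 24 * f) := h1
        _ ≤ ((C + 1) ^ n) ^ 18 * n ^ ((n + 4 * c) * 18) := by
            refine Nat.mul_le_mul ?_ (Nat.pow_le_pow_right hn (by omega))
            calc C ^ n ≤ (C + 1) ^ n := Nat.pow_le_pow_left (Nat.le_succ C) n
              _ = ((C + 1) ^ n) ^ 1 := (pow_one _).symm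
              _ ≤ _ := Nat.pow_le_pow_right (Nat.pow_pos (Nat.succ_pos C)) (by norm_num)
        _ = _ := by rw [mul_pow, ← pow_mul n]
    exact (Nat.pow_le_pow_iff_left (by norm_num)).1 h2
  let S' := (range (10 * n + 1)).biUnion (fun f =>
    if n ≤ 2 * f + 6 * c then S.filter (fun G => (fc 2 G).card = f) else ∅)
  have hS' : ∀ f, ((if n ≤ 2 * f + 6 * c then S.filter (fun G => (fc 2 G).card = f)
      else ∅) : Finset (Finset (Finset (Fin (5 * n))))).card ^ 10 ≤
        (C + 1) ^ n * n ^ (n + 4 * c) := by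
    intro f
    by_cases h : n ≤ 2 * f + 6 * c
    · rw [if_pos h]; exact hf f h
    · rw [if_neg h, card_empty]
      simp
  refine ⟨S', ?_, fun F hF hN hχ => ?_⟩
  · obtain ⟨f0, -, hmax⟩ := exists_max_image (range (10 * n + 1))
      (fun f => ((if n ≤ 2 * f + 6 * c then S.filter (fun G => (fc 2 G).card = f)
        else ∅) : Finset (Finset (Finset (Fin (5 * n))))).card)
      ⟨0, mem_range.2 (Nat.succ_pos _)⟩
    set B := ((if n ≤ 2 * f0 + 6 * c then S.filter (fun G => (fc 2 G).card = f0)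
        else ∅) : Finset (Finset (Finset (Fin (5 * n))))).card with hB
    have h1 : S'.card ≤ (10 * n + 1) * B := by
      refine card_biUnion_le.trans ?_
      refine (Finset.sum_le_card_nsmul _ _ B (fun f hf => hmax f hf)).trans ?_
      rw [card_range, smul_eq_mul]
    have h4 : 10 * n + 1 ≤ 11 ^ n := by
      have h := one_add_mul_le_pow (a := (10 : ℤ)) (by norm_num) n
      rw [show (1 : ℤ) + 10 = 11 by norm_num] at h
      have h' : ((10 * n + 1 : ℕ) : ℤ) ≤ ((11 ^ n : ℕ) : ℤ) := by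
        push_cast
        linarith
      exact_mod_cast h'
    calc S'.card ^ 10 ≤ ((10 * n + 1) * B) ^ 10 := Nat.pow_le_pow_left h1 _
      _ = (10 * n + 1) ^ 10 * B ^ 10 := mul_pow _ _ _
      _ ≤ (11 ^ n) ^ 10 * ((C + 1) ^ n * n ^ (n + 4 * c)) :=
          Nat.mul_le_mul (Nat.pow_le_pow_left h4 _) (hS' f0)
      _ = (11 ^ 10 * (C + 1)) ^ n * n ^ (n + 4 * c) := by
          rw [← pow_mul, mul_comm n 10, pow_mul, mul_pow, mul_assoc]
  · have hM : IsMfdD 2 F := nor_mfd (by norm_num) hN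
    obtain ⟨G, hG, π, hπ⟩ := hS3 F hF hM
    have hcard : (fc 2 G).card = (fc 2 F).card := by rw [hπ, Pool.TSphD.card_fc_image]
    have h10 : (fc 2 F).card ≤ 10 * n := by
      have h := Pool.TSphD.card_fc_le hM.card 2
      have e : (2 + 3).choose 2 = 10 := by decide
      rw [e, hF] at h
      exact h
    have hb : n ≤ 2 * (fc 2 F).card + 6 * c := by
      have h1 := Eu5_rel hM
      have h2 : (0 : ℤ) ≤ (fc 1 F).card := Int.natCast_nonneg _
      have h3 : (n : ℤ) = F.card := by rw [hF]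
      have h4 : (n : ℤ) ≤ 2 * (fc 2 F).card + 6 * c := by linarith
      exact_mod_cast h4
    refine ⟨G, mem_biUnion.2 ⟨(fc 2 F).card, mem_range.2 (Nat.lt_succ_of_le h10), ?_⟩, π, hπ⟩
    rw [if_pos hb]
    exact mem_filter.2 ⟨hG, hcard⟩

end Pool.TSphM
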