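import Pool.Agent.Lib.MP_3de3a3_co.M.Defs
import Pool.Agent.Lib.MP_3de3a3_co.M.Links
import Pool.Agent.Lib.MP_3de3a3_co.M.Cheap
import Pool.Agent.Lib.MP_3de3a3_co.M.Enc

/-! # The theorem (module M/Final) -/

set_option autoImplicit false

namespace Pool.TSphM

open Finset
open Pool.TSph (verts IsSphere2 adj comp Ep PhiK)
open Pool.TSphD (fc rdg lk Lo PM side IsLF mv Closings)

variable {ι : Type*} [DecidableEq ι]

private theorem final_real {a : ℝ} {x : ℕ} (A : ℕ) (C₁ c : ℝ) (m r n : ℕ) (hn : 0 < n)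
    (hc : c * m = r) (hx : (x : ℝ) ≤ (A : ℝ) ^ n * a)
    (hA : a ≤ Real.exp (n * (c * Real.log n) + C₁ * n)) {C : ℕ}
    (hC : (A : ℝ) ^ m * Real.exp (C₁ * m) ≤ C) : x ^ m ≤ C ^ n * n ^ (r * n) := by
  have hn' : (0 : ℝ) < n := by exact_mod_cast hn
  have h1 : (x : ℝ) ^ m ≤ ((A : ℝ) ^ n * Real.exp (n * (c * Real.log n) + C₁ * n)) ^ m := by
    apply pow_le_pow_left₀ (Nat.cast_nonneg _)
    exact hx.trans (mul_le_mul_of_nonneg_left hA (by positivity))
  have h2 : ((A : ℝ) ^ n * Real.exp (n * (c * Real.log n) + C₁ * n)) ^ m =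
      ((A : ℝ) ^ m * Real.exp (C₁ * m)) ^ n * (n : ℝ) ^ (r * n) := by
    have e1 : (n : ℝ) ^ (r * n) = Real.exp (((r * n : ℕ) : ℝ) * Real.log n) := by
      rw [Real.exp_nat_mul, Real.exp_log hn']
    rw [mul_pow, mul_pow, e1, ← pow_mul, ← pow_mul, ← Real.exp_nat_mul, ← Real.exp_nat_mul,
      mul_assoc, ← Real.exp_add, mul_comm n m]
    congr 2
    push_cast
    rw [← hc]
    ring
  have h3 : ((A : ℝ) ^ m * Real.exp (C₁ * m)) ^ n * (n : ℝ) ^ (r * n) ≤
      (C : ℝ) ^ n * (n : ℝ) ^ (r * n) := by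
    apply mul_le_mul_of_nonneg_right _ (by positivity)
    exact pow_le_pow_left₀ (by positivity) hC n
  have h4 : (x : ℝ) ^ m ≤ (C : ℝ) ^ n * (n : ℝ) ^ (r * n) := by
    rw [← h2] at h3
    exact h1.trans h3
  exact_mod_cast h4

/-- For `n ≥ 1` let `Q = ⌊exp (cd d * n * log n + C n)⌋`, apply `lencoding` with `κ = Fin (d n)` and
`δ = d - 1`; `∏ dg F (lev t) = exp (∑ ls F (lev t))`. -/
theorem final (d : ℕ) (hd : 4 ≤ d) :
    ∃ C : ℕ, ∀ n : ℕ, ∃ S : Finset (Finset (Finset (Fin (d * n)))),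
      (d ≤ 8 → S.card ^ ((d + 1) * (d * (d - 3) + 4)) ≤ C ^ n * n ^ (d * (d - 3) * n)) ∧
      (9 ≤ d → S.card ^ (2 * (d - 2) * (d + 1)) ≤ C ^ n * n ^ ((3 * d - 13) * n)) ∧
      ∀ F : Finset (Finset (Fin (d * n))), F.card = n → IsNor d F →
        ∃ G ∈ S, ∃ π : Equiv.Perm (Fin (d * n)), G = F.image (fun σ => σ.image π) := by
  classical
  obtain ⟨C₁, hC₁⟩ := exists_cheap d hd
  set A : ℕ := cL (d - 1) * (d - 1 + 1).factorial ^ (d - 1 + 1) with hA
  set m₁ : ℕ := (d + 1) * (d * (d - 3) + 4) with hm₁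
  set m₂ : ℕ := 2 * (d - 2) * (d + 1) with hm₂
  refine ⟨⌈(A : ℝ) ^ m₁ * Real.exp (C₁ * m₁)⌉₊ + ⌈(A : ℝ) ^ m₂ * Real.exp (C₁ * m₂)⌉₊, fun n => ?_⟩
  rcases Nat.eq_zero_or_pos n with rfl | hn
  · refine ⟨{∅}, ?_, ?_, ?_⟩
    · intro _; simp
    · intro _; simp
    · intro F hF _
      refine ⟨∅, by simp, 1, ?_⟩
      rw [Finset.card_eq_zero.1 hF]; simp
  · obtain ⟨S, hS, hS'⟩ := lencoding (Fin (d * n)) (d - 1) n
      ⌊Real.exp (n * (cd d * Real.log n) + C₁ * n)⌋₊ hn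
    have hx : (S.card : ℝ) ≤ (A : ℝ) ^ n *
        ((⌊Real.exp (n * (cd d * Real.log n) + C₁ * n)⌋₊ : ℕ) : ℝ) := by
      exact_mod_cast hS
    have hfl : ((⌊Real.exp (n * (cd d * Real.log n) + C₁ * n)⌋₊ : ℕ) : ℝ) ≤
        Real.exp (n * (cd d * Real.log n) + C₁ * n) := Nat.floor_le (Real.exp_pos _).le
    refine ⟨S, ?_, ?_, ?_⟩
    · intro h8
      apply final_real A C₁ (cd d) m₁ (d * (d - 3)) n hn _ hx hfl
      · push_cast
        exact (Nat.le_ceil _).trans (le_add_of_nonneg_right (Nat.cast_nonneg _))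
      · obtain ⟨k, rfl⟩ : ∃ k, d = k + 3 := ⟨d - 3, by omega⟩
        rw [hm₁, cd, if_pos h8]
        push_cast [Nat.add_sub_cancel]
        have : ((k : ℝ) + 3 + 1) * ((k + 3) * ((k : ℝ) + 3 - 3) + 4) ≠ 0 := by
          have : (0 : ℝ) ≤ k := Nat.cast_nonneg _
          have e : (k : ℝ) + 3 - 3 = k := by ring
          rw [e]; positivity
        rw [div_mul_eq_mul_div, div_eq_iff this]
        ring
    · intro h9
      apply final_real A C₁ (cd d) m₂ (3 * d - 13) n hn _ hx hfl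
      · push_cast
        exact (Nat.le_ceil _).trans (le_add_of_nonneg_left (Nat.cast_nonneg _))
      · rw [hm₂, cd, if_neg (by omega), Nat.cast_sub (by omega), Nat.cast_mul, Nat.cast_mul,
          Nat.cast_sub (by omega)]
        push_cast
        have h9' : (9 : ℝ) ≤ d := by exact_mod_cast h9
        have : 2 * ((d : ℝ) - 2) * (d + 1) ≠ 0 := by
          have : (0 : ℝ) < (d : ℝ) - 2 := by linarith
          positivity
        rw [div_mul_eq_mul_div, div_eq_iff this]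
    · intro F hF hnor
      have hpm : PM (d - 1) F := by
        obtain ⟨k, rfl⟩ : ∃ k, d = k + 3 := ⟨d - 3, by omega⟩
        exact nor_pm hnor (by omega)
      have hne : F.Nonempty := by
        rw [← Finset.card_pos, hF]; exact hn
      obtain ⟨M, T0, rk, e, lev, T, hL, hcost⟩ := hC₁ (Fin (d * n)) F hnor hne
      refine hS' F hF hpm ⟨M, T0, rk, e, lev, T, hL, ?_⟩
      apply Nat.le_floor
      rw [hF] at hcost
      calc ((∏ t ∈ M \ T0, dg F (lev t) : ℕ) : ℝ) = ∏ t ∈ M \ T0, ((dg F (lev t) : ℕ) : ℝ) := by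
            push_cast; rfl
        _ ≤ ∏ t ∈ M \ T0, Real.exp (ls F (lev t)) := by
            apply Finset.prod_le_prod
            · intro _ _; exact Nat.cast_nonneg _
            · intro t _; exact Real.le_exp_log _
        _ = Real.exp (∑ t ∈ M \ T0, ls F (lev t)) := (Real.exp_sum _ _).symm
        _ ≤ _ := Real.exp_le_exp.2 hcost

end Pool.TSphM
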