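import Pool.Agent.Lib.MP_3de3a3_co.M.Defs

/-! # The join with the boundary of a simplex (definition) -/

set_option autoImplicit false

namespace Pool.TSphM

open Finset

variable {ι : Type*} [DecidableEq ι]

/-- The facets of the join of the complex with the facets `M` and the boundary of the simplex with
the vertex set `T`. -/
def jn (M : Finset (Finset ι)) (T : Finset ι) : Finset (Finset ι) :=
  M.biUnion (fun a => T.image (fun t => a ∪ T.erase t))

end Pool.TSphM
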