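import Pool.Agent.Lib.MP_3de3a3_co.M.Defs
import Pool.Agent.Lib.MP_3de3a3_co.M.JDefs
import Pool.Agent.Lib.MP_3de3a3_co.M.Links

/-! # Joins with the boundary of a simplex: numbers and links (module M/JCard) -/

set_option autoImplicit false

namespace Pool.TSphM

open Finset
open Pool.TSph (verts IsSphere2 adj comp)
open Pool.TSphD (fc rdg lk PM)

variable {ι : Type*} [DecidableEq ι]

private theorem JCard_mem {M : Finset (Finset ι)} {T b : Finset ι} :
    b ∈ jn M T ↔ ∃ a ∈ M, ∃ t ∈ T, a ∪ T.erase t = b := by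
  simp only [jn, mem_biUnion, mem_image]

private theorem JCard_dis {M : Finset (Finset ι)} {T : Finset ι} (hdis : Disjoint (verts M) T)
    {a : Finset ι} (ha : a ∈ M) : ∀ x ∈ a, x ∉ T := fun x hx h =>
  (disjoint_left.1 hdis) (Pool.TSph.mem_verts.2 ⟨a, ha, hx⟩) h

private theorem JCard_sdiff {M : Finset (Finset ι)} {T : Finset ι} (hdis : Disjoint (verts M) T)
    {a : Finset ι} (ha : a ∈ M) (t : ι) : (a ∪ T.erase t) \ T = a := by
  ext x
  rw [mem_sdiff, mem_union, mem_erase]
  constructor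
  · rintro ⟨h | h, h2⟩
    · exact h
    · exact absurd h.2 h2
  · intro h
    exact ⟨Or.inl h, JCard_dis hdis ha x h⟩

private theorem JCard_inj {M : Finset (Finset ι)} {T : Finset ι} (hdis : Disjoint (verts M) T)
    {a b : Finset ι} (ha : a ∈ M) (hb : b ∈ M) {t u : ι} (hu : u ∈ T)
    (h : a ∪ T.erase t = b ∪ T.erase u) : a = b ∧ t = u := by
  constructor
  · rw [← JCard_sdiff hdis ha t, h, JCard_sdiff hdis hb u]
  · by_contra hne
    have h1 : u ∈ a ∪ T.erase t := mem_union_right _ (mem_erase.2 ⟨fun e => hne e.symm, hu⟩)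
    rw [h, mem_union] at h1
    rcases h1 with h1 | h1
    · exact JCard_dis hdis hb u h1 hu
    · exact (mem_erase.1 h1).1 rfl

theorem jn_card {M : Finset (Finset ι)} {T : Finset ι} (hM : ∀ a ∈ M, a.card = 4)
    (hdis : Disjoint (verts M) T) :
    (∀ b ∈ jn M T, b.card + 1 = 4 + T.card) ∧ (jn M T).card = M.card * T.card := by
  constructor
  · intro b hb
    obtain ⟨a, ha, t, ht, rfl⟩ := JCard_mem.1 hb
    have h1 : Disjoint a (T.erase t) := disjoint_left.2 fun x hx h =>
      JCard_dis hdis ha x hx (mem_of_mem_erase h)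
    rw [card_union_of_disjoint h1, hM a ha, card_erase_of_mem ht]
    have h2 : 0 < T.card := card_pos.2 ⟨t, ht⟩
    omega
  · have e : jn M T = (M ×ˢ T).image (fun p => p.1 ∪ T.erase p.2) := by
      ext b
      rw [JCard_mem, mem_image]
      constructor
      · rintro ⟨a, ha, t, ht, h⟩
        exact ⟨(a, t), mem_product.2 ⟨ha, ht⟩, h⟩
      · rintro ⟨p, hp, h⟩
        exact ⟨p.1, (mem_product.1 hp).1, p.2, (mem_product.1 hp).2, h⟩
    rw [e, card_image_of_injOn, card_product]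
    intro p hp q hq h
    rw [mem_coe, mem_product] at hp hq
    obtain ⟨h1, h2⟩ := JCard_inj hdis hp.1 hq.1 hq.2 h
    exact Prod.ext h1 h2

/-- The facets which contain `T.erase t` are the `a ∪ T.erase t`. -/
theorem lk_jn {M : Finset (Finset ι)} {T : Finset ι} (hdis : Disjoint (verts M) T) {t : ι}
    (ht : t ∈ T) : lk (jn M T) (T.erase t) = M := by
  ext x
  rw [Pool.TSphD.mem_lk]
  have hd : ∀ a ∈ M, (a ∪ T.erase t) \ T.erase t = a := by
    intro a ha
    ext y
    rw [mem_sdiff, mem_union]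
    constructor
    · rintro ⟨h | h, h2⟩
      · exact h
      · exact absurd h h2
    · intro h
      exact ⟨Or.inl h, fun h2 => JCard_dis hdis ha y h (mem_of_mem_erase h2)⟩
  constructor
  · rintro ⟨s, hs, h1, h2⟩
    obtain ⟨a, ha, u, hu, rfl⟩ := JCard_mem.1 hs
    have hut : u = t := by
      by_contra hne
      have h3 := h1 (mem_erase.2 ⟨hne, hu⟩)
      rcases mem_union.1 h3 with h4 | h4
      · exact JCard_dis hdis ha u h4 hu
      · exact (mem_erase.1 h4).1 rfl
    rw [hut, hd a ha] at h2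
    rw [← h2]
    exact ha
  · intro hx
    exact ⟨x ∪ T.erase t, JCard_mem.2 ⟨x, hx, t, ht, rfl⟩, subset_union_right, hd x hx⟩

/-- The link of `s` is the join of the link of `s \ T` with the boundary of the simplex `T \ s`, if
`s \ T` is a face of `M` and `T \ s` is nonempty. -/
theorem lk_jn_face {M : Finset (Finset ι)} {T : Finset ι} (hdis : Disjoint (verts M) T)
    {s : Finset ι} (hs : s ∈ fc s.card (jn M T)) :
    lk (jn M T) s = jn (lk M (s \ T)) (T \ s) := by
  have hd : ∀ a ∈ M, ∀ t ∈ T, (a ∪ T.erase t) \ s = a \ (s \ T) ∪ (T \ s).erase t := by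
    intro a ha t _
    have h0 := JCard_dis hdis ha
    ext y
    simp only [mem_sdiff, mem_union, mem_erase]
    have h1 := h0 y
    tauto
  ext x
  rw [Pool.TSphD.mem_lk, JCard_mem]
  constructor
  · rintro ⟨b, hb, h1, h2⟩
    obtain ⟨a, ha, t, ht, rfl⟩ := JCard_mem.1 hb
    have h0 := JCard_dis hdis ha
    have hts : t ∉ s := by
      intro h
      rcases mem_union.1 (h1 h) with h4 | h4
      · exact h0 t h4 ht
      · exact (mem_erase.1 h4).1 rfl
    refine ⟨a \ (s \ T), Pool.TSphD.mem_lk.2 ⟨a, ha, ?_, rfl⟩, t, mem_sdiff.2 ⟨ht, hts⟩, ?_⟩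
    · intro y hy
      obtain ⟨hy1, hy2⟩ := mem_sdiff.1 hy
      rcases mem_union.1 (h1 hy1) with h4 | h4
      · exact h4
      · exact absurd (mem_of_mem_erase h4) hy2
    · rw [← hd a ha t ht, h2]
  · rintro ⟨c, hc, t, ht, h2⟩
    obtain ⟨a, ha, h3, rfl⟩ := Pool.TSphD.mem_lk.1 hc
    obtain ⟨ht1, ht2⟩ := mem_sdiff.1 ht
    refine ⟨a ∪ T.erase t, JCard_mem.2 ⟨a, ha, t, ht1, rfl⟩, ?_, ?_⟩
    · intro y hy
      by_cases hyT : y ∈ T
      · exact mem_union_right _ (mem_erase.2 ⟨fun e => ht2 (e ▸ hy), hyT⟩)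
      · exact mem_union_left _ (h3 (mem_sdiff.2 ⟨hy, hyT⟩))
    · rw [hd a ha t ht1, h2]

end Pool.TSphM
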