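import Pool.Agent.Lib.MP_3de3a3_co.M.Defs

/-! # Complexes with the same image are isomorphic (module M/JIso) -/

set_option autoImplicit false

namespace Pool.TSphM

open Finset
open Pool.TSph (verts IsSphere2 adj comp)
open Pool.TSphD (fc rdg lk PM)

variable {ι : Type*} [DecidableEq ι]

/-- `h'⁻¹ ∘ h` is a bijection from the vertices of `M` to the vertices of `M'`, extend it to a
permutation (see `iso_of_code`, file DIso.lean). -/
theorem iso_of_images {α β : Type*} [Fintype α] [DecidableEq α] [DecidableEq β]
    {M M' : Finset (Finset α)} {h h' : α → β} (hh : Function.Injective h)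
    (hh' : Function.Injective h')
    (heq : M.image (fun a => a.image h) = M'.image (fun a => a.image h')) :
    ∃ ρ : Equiv.Perm α, M' = M.image (fun a => a.image ρ) := by
  classical
  -- the partial inverse
  let f : α → α := fun v => if hv : ∃ w, h' w = h v then hv.choose else v
  have hf : ∀ a ∈ M, ∀ v ∈ a, h' (f v) = h v := by
    intro a ha v hv
    have h1 : a.image h ∈ M'.image (fun a => a.image h') := by
      rw [← heq]
      exact mem_image_of_mem _ ha
    obtain ⟨b, -, hb⟩ := mem_image.1 h1
    have h2 : h v ∈ b.image h' := by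
      have h3 : b.image h' = a.image h := hb
      rw [h3]
      exact mem_image_of_mem _ hv
    obtain ⟨w, -, hw⟩ := mem_image.1 h2
    have hex : ∃ w, h' w = h v := ⟨w, hw⟩
    simp only [f, dif_pos hex]
    exact hex.choose_spec
  have hinj : Set.InjOn f (M.biUnion id : Finset α) := by
    intro v hv w hw hvw
    rw [mem_coe, mem_biUnion] at hv hw
    obtain ⟨a, ha, hva⟩ := hv
    obtain ⟨b, hb, hwb⟩ := hw
    apply hh
    rw [← hf a ha v hva, ← hf b hb w hwb, hvw]
  obtain ⟨g, hg⟩ := Finset.exists_equiv_extend_of_card_eq (α := α) (t := (Finset.univ : Finset α))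
    (by simp) (s := M.biUnion id) (f := f) (subset_univ _) hinj
  let ρ : Equiv.Perm α := g.trans (Equiv.subtypeUnivEquiv (fun x => mem_univ x))
  have hρ : ∀ a ∈ M, a.image ρ = a.image f := by
    intro a ha
    refine image_congr ?_
    intro v hv
    exact hg v (mem_biUnion.2 ⟨a, ha, hv⟩)
  have hfh : ∀ a ∈ M, (a.image ρ).image h' = a.image h := by
    intro a ha
    rw [hρ a ha, image_image]
    refine image_congr ?_
    intro v hv
    exact hf a ha v hv
  refine ⟨ρ, ?_⟩
  ext b
  constructor
  · intro hb
    have h1 : b.image h' ∈ M.image (fun a => a.image h) := by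
      rw [heq]
      exact mem_image_of_mem (fun a => a.image h') hb
    obtain ⟨a, ha, hab⟩ := mem_image.1 h1
    refine mem_image.2 ⟨a, ha, ?_⟩
    refine Finset.image_injective hh' ?_
    exact (hfh a ha).trans hab
  · intro hb
    obtain ⟨a, ha, rfl⟩ := mem_image.1 hb
    have h1 : a.image h ∈ M'.image (fun a => a.image h') := by
      rw [← heq]
      exact mem_image_of_mem _ ha
    obtain ⟨b, hb, hab⟩ := mem_image.1 h1
    have h2 : b = a.image ρ := Finset.image_injective hh' (hab.trans (hfh a ha).symm)
    rw [← h2]
    exact hb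

end Pool.TSphM
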