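import Pool.Agent.Lib.MP_3de3a3_co.M.Defs
import Pool.Agent.Lib.MP_3de3a3_co.M.Links
import Pool.Agent.Lib.MP_3de3a3_co.MfdPM

/-! # Closed 3-manifolds are normal (module M/JMfd) -/

set_option autoImplicit false

namespace Pool.TSphM

open Finset
open Pool.TSph (verts IsSphere2 adj comp)
open Pool.TSphD (fc rdg lk PM)

variable {ι : Type*} [DecidableEq ι]

private theorem lk_singleton (F : Finset (Finset ι)) (x : ι) :
    lk F {x} = Pool.TSph.link F x := by
  simp only [lk, Pool.TSph.link, singleton_subset_iff, sdiff_singleton_eq_erase]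

/-- `fc 1 F` are the `{x}`, `x ∈ verts F`, and `lk F {x} = link F x`. The star of `∅` is `F`, the star of
`{x}` is connected because the link of `x` is a 2-sphere. -/
theorem mfd3_nor {F : Finset (Finset ι)} (hF : Pool.TSph.IsMfd3 F) : IsNor 4 F := by
  refine ⟨hF.card4, ?_, ?_⟩
  · intro s hs a ha b hb hsa hsb
    rcases Nat.lt_or_ge s.card 1 with h0 | h1
    · have hs0 : s = ∅ := card_eq_zero.1 (by omega)
      subst hs0
      refine Relation.ReflTransGen.mono ?_ _ _ (hF.conn a ha b hb)
      intro p q hpq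
      exact ⟨hpq.1, by rw [hpq.2], empty_subset _⟩
    · have hs1 : s.card = 1 := by omega
      obtain ⟨x, rfl⟩ := card_eq_one.1 hs1
      refine Relation.ReflTransGen.mono ?_ _ _ ((Pool.TSph.mfd_pm hF).star x a ha b hb
        (singleton_subset_iff.1 hsa) (singleton_subset_iff.1 hsb))
      intro p q hpq
      exact ⟨hpq.1, by rw [hpq.2.1], singleton_subset_iff.2 hpq.2.2⟩
  · intro s hs
    obtain ⟨hs1, a, ha, hsa⟩ := Pool.TSphD.mem_fc.1 hs
    obtain ⟨x, rfl⟩ := card_eq_one.1 hs1
    rw [lk_singleton]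
    exact hF.sphere x (Pool.TSph.mem_verts.2 ⟨a, ha, singleton_subset_iff.1 hsa⟩)

end Pool.TSphM
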