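import Pool.Agent.Lib.MP_3de3a3_co.M.Defs
import Pool.Agent.Lib.MP_3de3a3_co.M.JDefs
import Pool.Agent.Lib.MP_3de3a3_co.LinkCyc

/-! # The suspension of a cycle is a 2-sphere (module M/JSa) -/

set_option autoImplicit false

namespace Pool.TSphM

open Finset
open Pool.TSph (verts IsSphere2 adj comp)
open Pool.TSphD (fc rdg lk PM)
open Pool.TSph (LinkCycle exists_linkCycle)

variable {ι : Type*} [DecidableEq ι]

private theorem JSa_lift {α β : Type*} {p : α → α → Prop} {q : β → β → Prop} (f : α → β)
    (h : ∀ a b, p a b → q (f a) (f b)) {a b : α} (hab : Relation.ReflTransGen p a b) :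
    Relation.ReflTransGen q (f a) (f b) := by
  induction hab with
  | refl => exact Relation.ReflTransGen.refl
  | tail _ h2 ih => exact ih.tail (h _ _ h2)

private theorem JSa_mem_verts {L : Finset (Finset ι)} {x : ι} : x ∈ verts L ↔ ∃ s ∈ L, x ∈ s :=
  Pool.TSph.mem_verts

private theorem JSa_mem {C : Finset (Finset ι)} {r s : ι} (hrs : r ≠ s) {t : Finset ι} :
    t ∈ jn C {r, s} ↔ ∃ e ∈ C, ∃ p, (p = r ∨ p = s) ∧ t = insert p e := by
  have h1 : ({r, s} : Finset ι).erase r = {s} := by
    rw [erase_insert]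
    simpa using hrs
  have h2 : ({r, s} : Finset ι).erase s = {r} := by
    rw [Finset.pair_comm, erase_insert]
    simpa using hrs.symm
  constructor
  · intro h
    obtain ⟨e, he, h⟩ := mem_biUnion.1 h
    obtain ⟨q, hq, rfl⟩ := mem_image.1 h
    rw [mem_insert, mem_singleton] at hq
    rcases hq with rfl | rfl
    · exact ⟨e, he, s, Or.inr rfl, by rw [h1, union_comm, insert_eq]⟩
    · exact ⟨e, he, r, Or.inl rfl, by rw [h2, union_comm, insert_eq]⟩
  · rintro ⟨e, he, p, hp, rfl⟩
    refine mem_biUnion.2 ⟨e, he, mem_image.2 ?_⟩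
    rcases hp with rfl | rfl
    · exact ⟨s, by simp, by rw [h2, union_comm, insert_eq]⟩
    · exact ⟨r, by simp, by rw [h1, union_comm, insert_eq]⟩

private theorem JSa_count {C : Finset (Finset ι)} (h1 : ∀ e ∈ C, e.card = 2)
    (h2 : ∀ u ∈ verts C, (C.filter (fun e => u ∈ e)).card = 2) : (verts C).card = C.card := by
  have h := Finset.sum_card_bipartiteAbove_eq_sum_card_bipartiteBelow
    (s := verts C) (t := C) (fun (u : ι) (e : Finset ι) => u ∈ e)
  have h3 : ∑ u ∈ verts C, (Finset.bipartiteAbove (fun (u : ι) (e : Finset ι) => u ∈ e) C u).card =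
      ∑ _u ∈ verts C, 2 := Finset.sum_congr rfl fun u hu => h2 u hu
  have h4 : ∑ e ∈ C, (Finset.bipartiteBelow (fun (u : ι) (e : Finset ι) => u ∈ e)
      (verts C) e).card = ∑ _e ∈ C, 2 := by
    refine Finset.sum_congr rfl fun e he => ?_
    rw [← h1 e he]
    congr 1
    ext x
    simp only [Finset.mem_bipartiteBelow]
    exact ⟨fun h => h.2, fun h => ⟨JSa_mem_verts.2 ⟨e, he, h⟩, h⟩⟩
  rw [h3, h4] at h
  simp only [Finset.sum_const, smul_eq_mul] at h
  omega

/-- the suspension of a cycle -/
private theorem JSa_susp {C : Finset (Finset ι)} {r s : ι} (hrs : r ≠ s) (hr : r ∉ verts C)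
    (hs : s ∉ verts C) (hne : C.Nonempty) (h1 : ∀ e ∈ C, e.card = 2)
    (h2 : ∀ u ∈ verts C, (C.filter (fun e => u ∈ e)).card = 2)
    (h3 : ∀ e ∈ C, ∀ e' ∈ C,
      Relation.ReflTransGen (fun a b => b ∈ C ∧ (a ∩ b).card = 1) e e') :
    IsSphere2 (jn C {r, s}) := by
  have hP : ∀ p, (p = r ∨ p = s) → p ∉ verts C := by
    rintro p (rfl | rfl)
    · exact hr
    · exact hs
  have hPe : ∀ p, (p = r ∨ p = s) → ∀ e ∈ C, p ∉ e := fun p hp e he hpe =>
    hP p hp (JSa_mem_verts.2 ⟨e, he, hpe⟩)
  have hinj : ∀ p, (p = r ∨ p = s) → ∀ e ∈ C, ∀ e' ∈ C, insert p e = insert p e' → e = e' := by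
    intro p hp e he e' he' h
    rw [← erase_insert (hPe p hp e he), h, erase_insert (hPe p hp e' he')]
  -- steps
  have hstep1 : ∀ p, (p = r ∨ p = s) → ∀ a b : Finset ι, b ∈ C → (a ∩ b).card = 1 →
      (insert p a ∩ insert p b).card = 2 := by
    intro p hp a b hb hab
    rw [← insert_inter_distrib, card_insert_of_notMem
      (fun h => hPe p hp b hb (mem_inter.1 h).2), hab]
  have hstep2 : ∀ p, (p = r ∨ p = s) → ∀ q, (q = r ∨ q = s) → p ≠ q → ∀ e ∈ C,
      insert p e ∩ insert q e = e := by
    intro p hp q hq hpq e he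
    ext x
    simp only [mem_inter, mem_insert]
    constructor
    · rintro ⟨h4 | h4, h5 | h5⟩
      · exact absurd (h4.symm.trans h5) hpq
      · exact h5
      · exact h4
      · exact h4
    · exact fun h => ⟨Or.inr h, Or.inr h⟩
  have hmem : ∀ p, (p = r ∨ p = s) → ∀ e ∈ C, insert p e ∈ jn C {r, s} := fun p hp e he =>
    (JSa_mem hrs).2 ⟨e, he, p, hp, rfl⟩
  have hchain : ∀ p, (p = r ∨ p = s) → ∀ e ∈ C, ∀ e' ∈ C,
      Relation.ReflTransGen (fun a b => b ∈ jn C {r, s} ∧ (a ∩ b).card = 2 ∧ p ∈ a ∩ b)
        (insert p e) (insert p e') := by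
    intro p hp e he e' he'
    refine JSa_lift (insert p) ?_ (h3 e he e' he')
    rintro a b ⟨hb, hab⟩
    exact ⟨hmem p hp b hb, hstep1 p hp a b hb hab,
      mem_inter.2 ⟨mem_insert_self _ _, mem_insert_self _ _⟩⟩
  refine ⟨?_, ?_, ?_, ?_, ?_⟩
  · intro t ht
    obtain ⟨e, he, p, hp, rfl⟩ := (JSa_mem hrs).1 ht
    rw [card_insert_of_notMem (hPe p hp e he), h1 e he]
  · intro t ht f hft hf
    obtain ⟨e, he, p, hp, rfl⟩ := (JSa_mem hrs).1 ht
    by_cases hpf : p ∈ f
    · have h4 : (f.erase p).card = 1 := by rw [card_erase_of_mem hpf, hf]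
      obtain ⟨u, hu⟩ := Finset.card_eq_one.1 h4
      have huf : u ∈ f.erase p := by rw [hu]; exact mem_singleton_self _
      have hue : u ∈ e := by
        rcases mem_insert.1 (hft (mem_erase.1 huf).2) with h | h
        · exact absurd h (mem_erase.1 huf).1
        · exact h
      have huC : u ∈ verts C := JSa_mem_verts.2 ⟨e, he, hue⟩
      have hfe : f = {p, u} := by rw [← insert_erase hpf, hu]
      have h5 : (jn C {r, s}).filter (fun t => f ⊆ t) =
          (C.filter (fun e => u ∈ e)).image (insert p) := by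
        ext t'
        simp only [mem_filter, mem_image]
        constructor
        · rintro ⟨ht', hft'⟩
          obtain ⟨e', he', q, hq, rfl⟩ := (JSa_mem hrs).1 ht'
          have hpq : p = q := by
            rcases mem_insert.1 (hft' hpf) with h | h
            · exact h
            · exact absurd h (hPe p hp e' he')
          subst hpq
          refine ⟨e', ⟨he', ?_⟩, rfl⟩
          rcases mem_insert.1 (hft' (mem_erase.1 huf).2) with h | h
          · exact absurd h (mem_erase.1 huf).1
          · exact h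
        · rintro ⟨e', ⟨he', hu'⟩, rfl⟩
          refine ⟨hmem p hp e' he', ?_⟩
          rw [hfe]
          intro x hx
          rcases mem_insert.1 hx with h | h
          · rw [h]
            exact mem_insert_self _ _
          · rw [mem_singleton.1 h]
            exact mem_insert_of_mem hu'
      rw [h5, card_image_of_injOn, h2 u huC]
      intro a ha b hb hab
      exact hinj p hp a (mem_filter.1 (mem_coe.1 ha)).1 b (mem_filter.1 (mem_coe.1 hb)).1 hab
    · have hfe : f ⊆ e := by
        intro x hx
        rcases mem_insert.1 (hft hx) with h | h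
        · exact absurd (h ▸ hx) hpf
        · exact h
      have hfe' : f = e := Finset.eq_of_subset_of_card_le hfe (by rw [h1 e he, hf])
      subst hfe'
      have h5 : (jn C {r, s}).filter (fun t => f ⊆ t) = {insert r f, insert s f} := by
        ext t'
        simp only [mem_filter, mem_insert, mem_singleton]
        constructor
        · rintro ⟨ht', hft'⟩
          obtain ⟨e', he', q, hq, rfl⟩ := (JSa_mem hrs).1 ht'
          have hfe' : f ⊆ e' := by
            intro x hx
            rcases mem_insert.1 (hft' hx) with h | h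
            · exact absurd (h ▸ hx) (hPe q hq f he)
            · exact h
          have hfe2 : f = e' :=
            Finset.eq_of_subset_of_card_le hfe' (by rw [h1 e' he', hf])
          subst hfe2
          rcases hq with rfl | rfl
          · exact Or.inl rfl
          · exact Or.inr rfl
        · rintro (rfl | rfl)
          · exact ⟨hmem r (Or.inl rfl) f he, subset_insert _ _⟩
          · exact ⟨hmem s (Or.inr rfl) f he, subset_insert _ _⟩
      rw [h5]
      refine Finset.card_pair ?_
      intro h
      have h6 : r ∈ insert s f := h ▸ mem_insert_self r f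
      rcases mem_insert.1 h6 with h7 | h7
      · exact hrs h7
      · exact hPe r (Or.inl rfl) f he h7
  · intro t ht t' ht'
    obtain ⟨e, he, p, hp, rfl⟩ := (JSa_mem hrs).1 ht
    obtain ⟨e', he', q, hq, rfl⟩ := (JSa_mem hrs).1 ht'
    have h4 : Relation.ReflTransGen (fun a b => b ∈ jn C {r, s} ∧ (a ∩ b).card = 2)
        (insert p e) (insert p e') :=
      JSa_lift id (fun a b h => ⟨h.1, h.2.1⟩) (hchain p hp e he e' he')
    by_cases hpq : p = q
    · rw [← hpq]
      exact h4
    · refine h4.tail ⟨hmem q hq e' he', ?_⟩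
      rw [hstep2 p hp q hq hpq e' he', h1 e' he']
  · intro x t ht t' ht' hxt hxt'
    obtain ⟨e, he, p, hp, rfl⟩ := (JSa_mem hrs).1 ht
    obtain ⟨e', he', q, hq, rfl⟩ := (JSa_mem hrs).1 ht'
    by_cases hxp : x = p
    · subst hxp
      have hxq : x = q := by
        rcases mem_insert.1 hxt' with h | h
        · exact h
        · exact absurd h (hPe x hp e' he')
      rw [← hxq]
      exact hchain x hp e he e' he'
    · have hxe : x ∈ e := by
        rcases mem_insert.1 hxt with h | h
        · exact absurd h hxp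
        · exact h
      have hxe' : x ∈ e' := by
        rcases mem_insert.1 hxt' with h | h
        · exact absurd (h ▸ hxe) (hPe q hq e he)
        · exact h
      have h4 : Relation.ReflTransGen
          (fun a b => b ∈ jn C {r, s} ∧ (a ∩ b).card = 2 ∧ x ∈ a ∩ b)
          (insert p e) (insert p e') := by
        by_cases hee : e = e'
        · rw [hee]
        · refine Relation.ReflTransGen.single ⟨hmem p hp e' he', hstep1 p hp e e' he' ?_, ?_⟩
          · have h5 : 0 < (e ∩ e').card := Finset.card_pos.2 ⟨x, mem_inter.2 ⟨hxe, hxe'⟩⟩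
            have h6 : (e ∩ e').card ≠ 2 := by
              intro h6
              apply hee
              have h7 : e ∩ e' = e :=
                Finset.eq_of_subset_of_card_le inter_subset_left (by rw [h1 e he, h6])
              have h8 : e ∩ e' = e' :=
                Finset.eq_of_subset_of_card_le inter_subset_right (by rw [h1 e' he', h6])
              rw [← h7, h8]
            have h9 : (e ∩ e').card ≤ 2 := (card_le_card inter_subset_left).trans (h1 e he).le
            omega
          · exact mem_inter.2 ⟨mem_insert_of_mem hxe, mem_insert_of_mem hxe'⟩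
      by_cases hpq : p = q
      · rw [← hpq]
        exact h4
      · refine h4.tail ⟨hmem q hq e' he', ?_, ?_⟩
        · rw [hstep2 p hp q hq hpq e' he', h1 e' he']
        · exact mem_inter.2 ⟨mem_insert_of_mem hxe', mem_insert_of_mem hxe'⟩
  · have h4 : verts (jn C {r, s}) = insert r (insert s (verts C)) := by
      ext x
      rw [JSa_mem_verts, mem_insert, mem_insert, JSa_mem_verts]
      constructor
      · rintro ⟨t, ht, hx⟩
        obtain ⟨e, he, p, hp, rfl⟩ := (JSa_mem hrs).1 ht
        rcases mem_insert.1 hx with h | h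
        · rcases hp with rfl | rfl
          · exact Or.inl h
          · exact Or.inr (Or.inl h)
        · exact Or.inr (Or.inr ⟨e, he, h⟩)
      · obtain ⟨e₀, he₀⟩ := hne
        rintro (h | h | ⟨e, he, h⟩)
        · exact ⟨_, hmem r (Or.inl rfl) e₀ he₀, by rw [h]; exact mem_insert_self _ _⟩
        · exact ⟨_, hmem s (Or.inr rfl) e₀ he₀, by rw [h]; exact mem_insert_self _ _⟩
        · exact ⟨_, hmem r (Or.inl rfl) e he, mem_insert_of_mem h⟩
    have h5 : jn C {r, s} = C.image (insert r) ∪ C.image (insert s) := by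
      ext t
      rw [JSa_mem hrs, mem_union, mem_image, mem_image]
      constructor
      · rintro ⟨e, he, p, rfl | rfl, rfl⟩
        · exact Or.inl ⟨e, he, rfl⟩
        · exact Or.inr ⟨e, he, rfl⟩
      · rintro (⟨e, he, rfl⟩ | ⟨e, he, rfl⟩)
        · exact ⟨e, he, r, Or.inl rfl, rfl⟩
        · exact ⟨e, he, s, Or.inr rfl, rfl⟩
    have h6 : Disjoint (C.image (insert r)) (C.image (insert s)) := by
      rw [disjoint_left]
      intro t ht ht'
      obtain ⟨e, he, rfl⟩ := mem_image.1 ht
      obtain ⟨e', he', h⟩ := mem_image.1 ht'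
      have h7 : r ∈ insert s e' := h ▸ mem_insert_self r e
      rcases mem_insert.1 h7 with h8 | h8
      · exact hrs h8
      · exact hPe r (Or.inl rfl) e' he' h8
    have h7 : (C.image (insert r)).card = C.card :=
      card_image_of_injOn fun a ha b hb hab =>
        hinj r (Or.inl rfl) a (mem_coe.1 ha) b (mem_coe.1 hb) hab
    have h8 : (C.image (insert s)).card = C.card :=
      card_image_of_injOn fun a ha b hb hab =>
        hinj s (Or.inr rfl) a (mem_coe.1 ha) b (mem_coe.1 hb) hab
    have h9 : r ∉ insert s (verts C) := by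
      intro h
      rcases mem_insert.1 h with h10 | h10
      · exact hrs h10
      · exact hr h10
    rw [h4, card_insert_of_notMem h9, card_insert_of_notMem hs, h5, card_union_of_disjoint h6,
      h7, h8, JSa_count h1 h2]
    omega

/-- The link of `w` is a cycle `a 0, …, a (c-1)` (`exists_linkCycle`), so the facets of the join are
`{a i, a (i+1), r}` and `{a i, a (i+1), s}`; `2 (c + 2) = 2 c + 4`. -/
theorem jn_two {L : Finset (Finset ι)} (hL : IsSphere2 L) {w r s : ι} (hw : w ∈ verts L)
    (hrs : r ≠ s) (hr : r ∉ verts (lk L {w})) (hs : s ∉ verts (lk L {w})) :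
    IsSphere2 (jn (lk L {w}) {r, s}) := by
  have hmem : ∀ e : Finset ι, e ∈ lk L {w} ↔ ∃ t ∈ L, w ∈ t ∧ t \ {w} = e := by
    intro e
    rw [Pool.TSphD.mem_lk]
    simp only [singleton_subset_iff]
  refine JSa_susp hrs hr hs ?_ ?_ ?_ ?_
  · obtain ⟨t, ht, hwt⟩ := JSa_mem_verts.1 hw
    exact ⟨_, (hmem _).2 ⟨t, ht, hwt, rfl⟩⟩
  · intro e he
    obtain ⟨t, ht, hwt, rfl⟩ := (hmem e).1 he
    rw [card_sdiff_of_subset (singleton_subset_iff.2 hwt), hL.card3 t ht, card_singleton]
  · intro u hu
    obtain ⟨e, he, hue⟩ := JSa_mem_verts.1 hu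
    obtain ⟨t, ht, hwt, rfl⟩ := (hmem e).1 he
    obtain ⟨hut, huw⟩ := mem_sdiff.1 hue
    rw [mem_singleton] at huw
    have h1 := hL.edge t ht {w, u} (by
      intro x hx
      rcases mem_insert.1 hx with h | h
      · rw [h]; exact hwt
      · rw [mem_singleton.1 h]; exact hut) (Finset.card_pair (Ne.symm huw))
    have h2 : (lk L {w}).filter (fun e => u ∈ e) =
        (L.filter (fun s => ({w, u} : Finset ι) ⊆ s)).image (fun s => s \ {w}) := by
      ext e'
      simp only [mem_filter, mem_image]
      constructor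
      · rintro ⟨he', hue'⟩
        obtain ⟨t', ht', hwt', rfl⟩ := (hmem e').1 he'
        refine ⟨t', ⟨ht', ?_⟩, rfl⟩
        intro x hx
        rcases mem_insert.1 hx with h | h
        · rw [h]; exact hwt'
        · rw [mem_singleton.1 h]; exact (mem_sdiff.1 hue').1
      · rintro ⟨t', ⟨ht', hsub⟩, rfl⟩
        have hwt' : w ∈ t' := hsub (mem_insert_self _ _)
        have hut' : u ∈ t' := hsub (mem_insert_of_mem (mem_singleton_self _))
        exact ⟨(hmem _).2 ⟨t', ht', hwt', rfl⟩, mem_sdiff.2 ⟨hut', by
          rw [mem_singleton]; exact huw⟩⟩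
    rw [h2, card_image_of_injOn, h1]
    intro a ha b hb hab
    have ha' : ({w} : Finset ι) ⊆ a := singleton_subset_iff.2
      ((mem_filter.1 (mem_coe.1 ha)).2 (mem_insert_self _ _))
    have hb' : ({w} : Finset ι) ⊆ b := singleton_subset_iff.2
      ((mem_filter.1 (mem_coe.1 hb)).2 (mem_insert_self _ _))
    have hab' : a \ {w} = b \ {w} := hab
    rw [← union_sdiff_of_subset ha', hab', union_sdiff_of_subset hb']
  · intro e he e' he'
    obtain ⟨t, ht, hwt, rfl⟩ := (hmem e).1 he
    obtain ⟨t', ht', hwt', rfl⟩ := (hmem e').1 he'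
    refine JSa_lift (fun s => s \ {w}) ?_ (hL.star w t ht t' ht' hwt hwt')
    rintro a b ⟨hb, hab, hwab⟩
    refine ⟨(hmem _).2 ⟨b, hb, (mem_inter.1 hwab).2, rfl⟩, ?_⟩
    have h1 : (a \ {w}) ∩ (b \ {w}) = (a ∩ b) \ {w} := by
      ext x
      simp only [mem_inter, mem_sdiff]
      tauto
    show ((a \ {w}) ∩ (b \ {w})).card = 1
    rw [h1, card_sdiff_of_subset (singleton_subset_iff.2 hwab), hab, card_singleton]

end Pool.TSphM
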