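import Pool.Agent.Lib.MP_3de3a3_co.M.Defs
import Pool.Agent.Lib.MP_3de3a3_co.M.JDefs

/-! # Small spheres (module M/JSb) -/

set_option autoImplicit false

namespace Pool.TSphM

open Finset
open Pool.TSph (verts IsSphere2 adj comp)
open Pool.TSphD (fc rdg lk PM)

variable {ι : Type*} [DecidableEq ι]

private theorem jsb_mem_verts {L : Finset (Finset ι)} {x : ι} : x ∈ verts L ↔ ∃ s ∈ L, x ∈ s := by
  simp [verts]

/-- two erasures meet in a set with two elements less -/
private theorem jsb_inter {R : Finset ι} {s t : ι} (hs : s ∈ R) (ht : t ∈ R) (hst : s ≠ t) :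
    (R.erase s ∩ R.erase t).card + 2 = R.card := by
  have h1 : R.erase s ∩ R.erase t = (R.erase s).erase t := by
    ext z
    simp only [mem_inter, mem_erase]
    tauto
  have h2 : t ∈ R.erase s := mem_erase.2 ⟨hst.symm, ht⟩
  have h3 := card_erase_add_one hs
  have h4 := card_erase_add_one h2
  rw [h1]
  omega

/-- Two points joined with the boundary of a triangle: six triangles, five vertices. -/
theorem jn_three {x y : ι} {R : Finset ι} (hR : R.card = 3) (hxy : x ≠ y) (hx : x ∉ R)
    (hy : y ∉ R) : IsSphere2 (jn {{x}, {y}} R) := by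
  classical
  let P : Finset (ι × ι) := ({x, y} : Finset ι) ×ˢ R
  let f : ι × ι → Finset ι := fun p => insert p.1 (R.erase p.2)
  have hP : ∀ p, p ∈ P ↔ (p.1 = x ∨ p.1 = y) ∧ p.2 ∈ R := by
    intro p
    simp [P]
  have hPR : ∀ p ∈ P, p.1 ∉ R := by
    intro p hp
    rcases ((hP p).1 hp).1 with h | h
    · rw [h]; exact hx
    · rw [h]; exact hy
  have hL : jn {{x}, {y}} R = P.image f := by
    ext s
    simp only [jn, mem_biUnion, mem_image, mem_insert, mem_singleton, P, f, mem_product, Prod.exists]
    constructor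
    · rintro ⟨a, ha, t, ht, rfl⟩
      rcases ha with rfl | rfl
      · exact ⟨x, t, ⟨Or.inl rfl, ht⟩, by rw [insert_eq]⟩
      · exact ⟨y, t, ⟨Or.inr rfl, ht⟩, by rw [insert_eq]⟩
    · rintro ⟨u, t, ⟨hu, ht⟩, rfl⟩
      refine ⟨{u}, ?_, t, ht, by rw [insert_eq]⟩
      rcases hu with rfl | rfl
      · left; rfl
      · right; rfl
  have hinj : Set.InjOn f (P : Set (ι × ι)) := by
    intro p hp q hq hpq
    have hp' := (hP p).1 (mem_coe.1 hp)
    have hq' := (hP q).1 (mem_coe.1 hq)
    have hp2 := hPR p (mem_coe.1 hp)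
    have hq2 := hPR q (mem_coe.1 hq)
    have hpq' : insert p.1 (R.erase p.2) = insert q.1 (R.erase q.2) := hpq
    refine Prod.ext ?_ ?_
    · have h1 : p.1 ∈ insert q.1 (R.erase q.2) := by rw [← hpq']; exact mem_insert_self _ _
      rcases mem_insert.1 h1 with h | h
      · exact h
      · exact absurd (mem_of_mem_erase h) hp2
    · by_contra hne
      have h1 : p.2 ∈ insert q.1 (R.erase q.2) := mem_insert_of_mem (mem_erase.2 ⟨hne, hp'.2⟩)
      rw [← hpq'] at h1
      rcases mem_insert.1 h1 with h | h
      · exact hp2 (h ▸ hp'.2)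
      · exact (mem_erase.1 h).1 rfl
  have hcard : ∀ p ∈ P, (f p).card = 3 := by
    intro p hp
    have h1 : p.1 ∉ R.erase p.2 := fun h => hPR p hp (mem_of_mem_erase h)
    show (insert p.1 (R.erase p.2)).card = 3
    rw [card_insert_of_notMem h1, card_erase_of_mem ((hP p).1 hp).2, hR]
  -- one step: change the first component
  have step1 : ∀ p ∈ P, ∀ u, (u, p.2) ∈ P → u ≠ p.1 →
      (f p ∩ f (u, p.2)).card = 2 ∧ ∀ z ∈ R, z ∈ f p → z ∈ f p ∩ f (u, p.2) := by
    intro p hp u hu hne
    have h1 : f p ∩ f (u, p.2) = R.erase p.2 := by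
      ext z
      simp only [f, mem_inter, mem_insert]
      constructor
      · rintro ⟨h2 | h2, h3 | h3⟩
        · exact absurd (h3.symm.trans h2) hne
        · exact h3
        · exact h2
        · exact h2
      · intro h2
        exact ⟨Or.inr h2, Or.inr h2⟩
    refine ⟨by rw [h1, card_erase_of_mem ((hP p).1 hp).2, hR], ?_⟩
    intro z hz hzp
    rw [h1]
    have hzp' : z ∈ insert p.1 (R.erase p.2) := hzp
    rcases mem_insert.1 hzp' with h | h
    · exact absurd (h ▸ hz) (hPR p hp)
    · exact h
  -- one step: change the second component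
  have step2 : ∀ p ∈ P, ∀ t, (p.1, t) ∈ P → t ≠ p.2 →
      (f p ∩ f (p.1, t)).card = 2 := by
    intro p hp t ht hne
    have h1 : f p ∩ f (p.1, t) = insert p.1 (R.erase p.2 ∩ R.erase t) := by
      show insert p.1 (R.erase p.2) ∩ insert p.1 (R.erase t) = _
      rw [insert_inter_distrib]
    have h2 : (R.erase p.2 ∩ R.erase t).card + 2 = R.card :=
      jsb_inter ((hP p).1 hp).2 ((hP _).1 ht).2 hne.symm
    have h3 : p.1 ∉ R.erase p.2 ∩ R.erase t := by
      intro h
      exact hPR p hp (mem_of_mem_erase (mem_inter.1 h).1)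
    rw [h1, card_insert_of_notMem h3]
    omega
  rw [hL]
  refine ⟨?_, ?_, ?_, ?_, ?_⟩
  · intro t ht
    obtain ⟨p, hp, rfl⟩ := mem_image.1 ht
    exact hcard p hp
  · intro t ht e he he2
    obtain ⟨p, hp, rfl⟩ := mem_image.1 ht
    rw [filter_image, card_image_of_injOn (hinj.mono (by
      intro q hq
      exact mem_coe.2 (mem_filter.1 (mem_coe.1 hq)).1))]
    have hp' := (hP p).1 hp
    by_cases hpe : p.1 ∈ e
    · -- the other vertex
      have h1 : (e.erase p.1).card = 1 := by
        rw [card_erase_of_mem hpe, he2]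
      obtain ⟨r, hr⟩ := card_eq_one.1 h1
      have hre : r ∈ e := mem_of_mem_erase (by rw [hr]; exact mem_singleton_self r)
      have hrp : r ≠ p.1 := by
        have : r ∈ e.erase p.1 := by rw [hr]; exact mem_singleton_self r
        exact (mem_erase.1 this).1
      have hrR : r ∈ R := by
        have h2 : r ∈ insert p.1 (R.erase p.2) := he hre
        rcases mem_insert.1 h2 with h | h
        · exact absurd h hrp
        · exact mem_of_mem_erase h
      have he' : e = {p.1, r} := by
        rw [← insert_erase hpe, hr]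
      have h2 : P.filter (fun q => e ⊆ f q) = ({p.1} : Finset ι) ×ˢ (R.erase r) := by
        ext q
        rw [mem_filter, hP, mem_product, mem_singleton, mem_erase]
        constructor
        · rintro ⟨hq', hqe⟩
          have hq := (hP q).2 hq'
          have h3 : p.1 ∈ insert q.1 (R.erase q.2) := hqe hpe
          have h4 : p.1 = q.1 := by
            rcases mem_insert.1 h3 with h | h
            · exact h
            · exact absurd (mem_of_mem_erase h) (hPR p hp)
          refine ⟨h4.symm, ?_, hq'.2⟩
          have h5 : r ∈ insert q.1 (R.erase q.2) := hqe hre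
          rcases mem_insert.1 h5 with h | h
          · exact absurd (h.trans h4.symm) hrp
          · exact fun h6 => (mem_erase.1 h).1 h6.symm
        · rintro ⟨h3, h4, h5⟩
          refine ⟨⟨by rw [h3]; exact hp'.1, h5⟩, ?_⟩
          rw [he']
          intro z hz
          show z ∈ insert q.1 (R.erase q.2)
          rcases mem_insert.1 hz with h | h
          · rw [h, h3]; exact mem_insert_self _ _
          · rw [mem_singleton.1 h]
            exact mem_insert_of_mem (mem_erase.2 ⟨h4.symm, hrR⟩)
      rw [h2, card_product, card_singleton, card_erase_of_mem hrR, hR]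
    · have he' : e = R.erase p.2 := by
        refine eq_of_subset_of_card_le ?_ ?_
        · intro z hz
          have h1 : z ∈ insert p.1 (R.erase p.2) := he hz
          rcases mem_insert.1 h1 with h | h
          · exact absurd (h ▸ hz) hpe
          · exact h
        · rw [he2, card_erase_of_mem hp'.2, hR]
      have h2 : P.filter (fun q => e ⊆ f q) = ({x, y} : Finset ι) ×ˢ ({p.2} : Finset ι) := by
        ext q
        rw [mem_filter, hP, mem_product, mem_singleton, mem_insert, mem_singleton]
        constructor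
        · rintro ⟨hq', hqe⟩
          have hq := (hP q).2 hq'
          refine ⟨hq'.1, ?_⟩
          by_contra hne
          have h3 : q.2 ∈ e := by
            rw [he']
            exact mem_erase.2 ⟨hne, hq'.2⟩
          have h4 : q.2 ∈ insert q.1 (R.erase q.2) := hqe h3
          rcases mem_insert.1 h4 with h | h
          · exact hPR q hq (h ▸ hq'.2)
          · exact (mem_erase.1 h).1 rfl
        · rintro ⟨h3, h4⟩
          refine ⟨⟨h3, by rw [h4]; exact hp'.2⟩, ?_⟩
          rw [he', ← h4]
          exact subset_insert _ _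
      rw [h2, card_product, card_singleton, card_pair hxy]
  · intro s hs t ht
    obtain ⟨p, hp, rfl⟩ := mem_image.1 hs
    obtain ⟨q, hq, rfl⟩ := mem_image.1 ht
    have hp' := (hP p).1 hp
    have hq' := (hP q).1 hq
    have hmid : (q.1, p.2) ∈ P := (hP _).2 ⟨hq'.1, hp'.2⟩
    have h1 : Relation.ReflTransGen (fun a b => b ∈ P.image f ∧ (a ∩ b).card = 2) (f p)
        (f (q.1, p.2)) := by
      by_cases h : q.1 = p.1
      · rw [h]
      · exact Relation.ReflTransGen.single
          ⟨mem_image_of_mem f hmid, (step1 p hp q.1 hmid h).1⟩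
    refine h1.trans ?_
    by_cases h : q.2 = p.2
    · rw [← h]
    · exact Relation.ReflTransGen.single
        ⟨mem_image_of_mem f hq, step2 (q.1, p.2) hmid q.2 hq h⟩
  · intro z s hs t ht hzs hzt
    obtain ⟨p, hp, rfl⟩ := mem_image.1 hs
    obtain ⟨q, hq, rfl⟩ := mem_image.1 ht
    have hp' := (hP p).1 hp
    have hq' := (hP q).1 hq
    have hmid : (q.1, p.2) ∈ P := (hP _).2 ⟨hq'.1, hp'.2⟩
    have hzs' : z ∈ insert p.1 (R.erase p.2) := hzs
    have hzt' : z ∈ insert q.1 (R.erase q.2) := hzt
    have hzmid : z ∈ f (q.1, p.2) := by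
      show z ∈ insert q.1 (R.erase p.2)
      rcases mem_insert.1 hzt' with h | h
      · rw [h]; exact mem_insert_self _ _
      · rcases mem_insert.1 hzs' with h' | h'
        · exact absurd (h' ▸ mem_of_mem_erase h) (hPR p hp)
        · exact mem_insert_of_mem h'
    have h1 : Relation.ReflTransGen (fun a b => b ∈ P.image f ∧ (a ∩ b).card = 2 ∧ z ∈ a ∩ b) (f p)
        (f (q.1, p.2)) := by
      by_cases h : q.1 = p.1
      · rw [h]
      · exact Relation.ReflTransGen.single
          ⟨mem_image_of_mem f hmid, (step1 p hp q.1 hmid h).1, mem_inter.2 ⟨hzs, hzmid⟩⟩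
    refine h1.trans ?_
    by_cases h : q.2 = p.2
    · rw [← h]
    · exact Relation.ReflTransGen.single
        ⟨mem_image_of_mem f hq, step2 (q.1, p.2) hmid q.2 hq h, mem_inter.2 ⟨hzmid, hzt⟩⟩
  · have h1 : verts (P.image f) = insert x (insert y R) := by
      ext z
      rw [jsb_mem_verts]
      constructor
      · rintro ⟨s, hs, hz⟩
        obtain ⟨p, hp, rfl⟩ := mem_image.1 hs
        have hp' := (hP p).1 hp
        have hz' : z ∈ insert p.1 (R.erase p.2) := hz
        rcases mem_insert.1 hz' with h | h
        · rw [h]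
          rcases hp'.1 with h' | h'
          · rw [h']; exact mem_insert_self _ _
          · rw [h']; exact mem_insert_of_mem (mem_insert_self _ _)
        · exact mem_insert_of_mem (mem_insert_of_mem (mem_of_mem_erase h))
      · intro hz
        obtain ⟨t, ht⟩ : R.Nonempty := by rw [← card_pos, hR]; norm_num
        rcases mem_insert.1 hz with h | h
        · exact ⟨f (x, t), mem_image_of_mem f ((hP _).2 ⟨Or.inl rfl, ht⟩),
            by rw [h]; exact mem_insert_self _ _⟩
        · rcases mem_insert.1 h with h | h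
          · exact ⟨f (y, t), mem_image_of_mem f ((hP _).2 ⟨Or.inr rfl, ht⟩),
              by rw [h]; exact mem_insert_self _ _⟩
          · obtain ⟨t', ht', hne⟩ := exists_mem_ne (s := R) (by rw [hR]; norm_num) z
            exact ⟨f (x, t'), mem_image_of_mem f ((hP _).2 ⟨Or.inl rfl, ht'⟩),
              mem_insert_of_mem (mem_erase.2 ⟨hne.symm, h⟩)⟩
    have h2 : x ∉ insert y R := by
      rw [mem_insert]
      rintro (h | h)
      · exact hxy h
      · exact hx h
    rw [h1, card_image_of_injOn hinj, card_insert_of_notMem h2, card_insert_of_notMem hy, hR,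
      card_product, card_pair hxy, hR]

/-- The boundary of a tetrahedron. -/
theorem jn_four {R : Finset ι} (hR : R.card = 4) : IsSphere2 (jn {∅} R) := by
  classical
  have hL : jn {∅} R = R.image (fun t => R.erase t) := by
    ext s
    simp [jn]
  have hinj : Set.InjOn (fun t => R.erase t) (R : Set ι) := by
    intro s hs t ht hst
    by_contra hne
    have h1 : s ∈ R.erase t := mem_erase.2 ⟨hne, mem_coe.1 hs⟩
    have hst' : R.erase s = R.erase t := hst
    rw [← hst'] at h1
    exact (mem_erase.1 h1).1 rfl
  have hcard : ∀ t ∈ R, (R.erase t).card = 3 := by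
    intro t ht
    rw [card_erase_of_mem ht, hR]
  rw [hL]
  refine ⟨?_, ?_, ?_, ?_, ?_⟩
  · intro t ht
    obtain ⟨p, hp, rfl⟩ := mem_image.1 ht
    exact hcard p hp
  · intro t ht e he he2
    obtain ⟨p, hp, rfl⟩ := mem_image.1 ht
    have heR : e ⊆ R := he.trans (erase_subset _ _)
    rw [filter_image, card_image_of_injOn (hinj.mono (by
      intro q hq
      exact mem_coe.2 (mem_filter.1 (mem_coe.1 hq)).1))]
    have h1 : R.filter (fun q => e ⊆ R.erase q) = R \ e := by
      ext q
      rw [mem_filter, mem_sdiff]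
      refine and_congr_right fun hq => ?_
      constructor
      · intro h h'
        exact (mem_erase.1 (h h')).1 rfl
      · intro h z hz
        exact mem_erase.2 ⟨fun h' => h (h' ▸ hz), heR hz⟩
    rw [h1, card_sdiff_of_subset heR, hR, he2]
  · intro s hs t ht
    obtain ⟨p, hp, rfl⟩ := mem_image.1 hs
    obtain ⟨q, hq, rfl⟩ := mem_image.1 ht
    by_cases h : p = q
    · rw [h]
    · have h1 := jsb_inter hp hq h
      exact Relation.ReflTransGen.single ⟨mem_image_of_mem (fun t => R.erase t) hq, by omega⟩
  · intro z s hs t ht hzs hzt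
    obtain ⟨p, hp, rfl⟩ := mem_image.1 hs
    obtain ⟨q, hq, rfl⟩ := mem_image.1 ht
    by_cases h : p = q
    · rw [h]
    · have h1 := jsb_inter hp hq h
      exact Relation.ReflTransGen.single ⟨mem_image_of_mem (fun t => R.erase t) hq, by omega,
        mem_inter.2 ⟨hzs, hzt⟩⟩
  · have h1 : verts (R.image (fun t => R.erase t)) = R := by
      ext z
      rw [jsb_mem_verts]
      constructor
      · rintro ⟨s, hs, hz⟩
        obtain ⟨p, hp, rfl⟩ := mem_image.1 hs
        exact mem_of_mem_erase hz
      · intro hz
        obtain ⟨t', ht', hne⟩ := exists_mem_ne (s := R) (by rw [hR]; norm_num) z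
        exact ⟨R.erase t', mem_image_of_mem (fun t => R.erase t) ht', mem_erase.2 ⟨hne.symm, hz⟩⟩
    rw [h1, card_image_of_injOn hinj, hR]

end Pool.TSphM
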