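import Pool.Agent.Lib.MP_3de3a3_co.M.Defs
import Pool.Agent.Lib.MP_3de3a3_co.M.JDefs
import Pool.Agent.Lib.MP_3de3a3_co.M.Links

/-! # Joins: the stars are connected (module M/JStar) -/

set_option autoImplicit false

namespace Pool.TSphM

open Finset
open Pool.TSph (verts IsSphere2 adj comp)
open Pool.TSphD (fc rdg lk PM)

variable {ι : Type*} [DecidableEq ι]

private theorem JStar_mem {M : Finset (Finset ι)} {T b : Finset ι} :
    b ∈ jn M T ↔ ∃ a ∈ M, ∃ t ∈ T, a ∪ T.erase t = b := by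
  simp only [jn, mem_biUnion, mem_image]

private theorem JStar_dis {M : Finset (Finset ι)} {T : Finset ι} (hdis : Disjoint (verts M) T)
    {a : Finset ι} (ha : a ∈ M) : ∀ x ∈ a, x ∉ T := fun x hx h =>
  (disjoint_left.1 hdis) (Pool.TSph.mem_verts.2 ⟨a, ha, hx⟩) h

/-- The stars of all faces of `M` are strongly connected. -/
private theorem JStar_star {M : Finset (Finset ι)} (hM : IsNor 4 M) (σ : Finset ι) :
    ∀ a ∈ M, ∀ b ∈ M, σ ⊆ a → σ ⊆ b →
      Relation.ReflTransGen (fun a b => b ∈ M ∧ (a ∩ b).card = 3 ∧ σ ⊆ a ∩ b) a b := by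
  intro a ha b hb hσa hσb
  have ha4 := hM.card a ha
  have hb4 := hM.card b hb
  by_cases h1 : σ.card ≤ 1
  · refine Relation.ReflTransGen.mono ?_ _ _ (hM.star σ (by omega) a ha b hb hσa hσb)
    intro x y hxy
    exact ⟨hxy.1, by have := hxy.2.1; omega, hxy.2.2⟩
  by_cases h2 : σ.card = 2
  · obtain ⟨x, y, hxy, rfl⟩ := card_eq_two.1 h2
    have hxa : x ∈ a := hσa (mem_insert_self _ _)
    have hya : y ∈ a := hσa (mem_insert_of_mem (mem_singleton_self _))
    have hxb : x ∈ b := hσb (mem_insert_self _ _)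
    have hyb : y ∈ b := hσb (mem_insert_of_mem (mem_singleton_self _))
    have hL := hM.sphere {x} (Pool.TSphD.mem_fc.2 ⟨card_singleton x, a, ha,
      singleton_subset_iff.2 hxa⟩)
    have hmem : ∀ c ∈ M, x ∈ c → c.erase x ∈ lk M {x} := by
      intro c hc hx
      exact Pool.TSphD.mem_lk.2 ⟨c, hc, singleton_subset_iff.2 hx, sdiff_singleton_eq_erase x c⟩
    have hch := hL.star y (a.erase x) (hmem a ha hxa) (b.erase x) (hmem b hb hxb)
      (mem_erase.2 ⟨hxy.symm, hya⟩) (mem_erase.2 ⟨hxy.symm, hyb⟩)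
    have hlk : ∀ c ∈ lk M {x}, x ∉ c ∧ insert x c ∈ M := by
      intro c hc
      obtain ⟨h3, h4⟩ := Pool.TSphD.mem_lk'.1 hc
      exact ⟨disjoint_singleton_left.1 h3, by rwa [← insert_eq] at h4⟩
    have key : ∀ c, Relation.ReflTransGen
        (fun a b => b ∈ lk M {x} ∧ (a ∩ b).card = 2 ∧ y ∈ a ∩ b) (a.erase x) c →
        c ∈ lk M {x} ∧ Relation.ReflTransGen
          (fun a b => b ∈ M ∧ (a ∩ b).card = 3 ∧ ({x, y} : Finset ι) ⊆ a ∩ b) a (insert x c) := by
      intro c h
      induction h with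
      | refl => exact ⟨hmem a ha hxa, by rw [insert_erase hxa]⟩
      | @tail c e _ hce ih =>
        obtain ⟨i1, i2⟩ := ih
        obtain ⟨j1, j2, j3⟩ := hce
        refine ⟨j1, i2.tail ⟨(hlk e j1).2, ?_, ?_⟩⟩
        · rw [← insert_inter_distrib, card_insert_of_notMem, j2]
          exact fun h => (hlk c i1).1 (mem_inter.1 h).1
        · rw [← insert_inter_distrib]
          refine insert_subset (mem_insert_self _ _) ?_
          exact singleton_subset_iff.2 (mem_insert_of_mem j3)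
    have h5 := (key _ hch).2
    rwa [insert_erase hxb] at h5
  by_cases hab : a = b
  · rw [hab]
  · have h3 : σ ⊆ a ∩ b := subset_inter hσa hσb
    have h4 : (a ∩ b).card < 4 := by
      by_contra hcon
      push Not at hcon
      have e1 : a ∩ b = a := eq_of_subset_of_card_le inter_subset_left (by omega)
      have e2 : a ∩ b = b := eq_of_subset_of_card_le inter_subset_right (by omega)
      exact hab (e1.symm.trans e2)
    have h5 := card_le_card h3
    exact Relation.ReflTransGen.single ⟨hb, by omega, h3⟩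

/-- `s = σ ∪ τ`, `σ = s \ T`, `τ = s ∩ T`. The star of every face `σ` of `M` is strongly connected:
`|σ| ≤ 1` by `IsNor 4`, `|σ| = 2` by the links of the vertices (2-spheres), `|σ| = 3`: two facets
with a common triangle. For `a ∪ T.erase t`, `b ∪ T.erase t'`: go from `a` to `b` in the star of `σ`
(with `T.erase t` fixed), then `b ∪ T.erase t` and `b ∪ T.erase t'` have `d - 1` common vertices. -/
theorem jn_star {d : ℕ} (hd : 4 ≤ d) {M : Finset (Finset ι)} {T : Finset ι} (hM : IsNor 4 M)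
    (hT : T.card + 3 = d) (hdis : Disjoint (verts M) T) :
    ∀ s : Finset ι, s.card + 3 ≤ d → ∀ a ∈ jn M T, ∀ b ∈ jn M T, s ⊆ a → s ⊆ b →
      Relation.ReflTransGen (fun a b => b ∈ jn M T ∧ (a ∩ b).card + 1 = d ∧ s ⊆ a ∩ b) a b := by
  intro s _ a' ha' b' hb' hsa hsb
  obtain ⟨a, ha, t, ht, rfl⟩ := JStar_mem.1 ha'
  obtain ⟨b, hb, u, hu, rfl⟩ := JStar_mem.1 hb'
  have hσ : ∀ c ∈ M, ∀ v ∈ T, s ⊆ c ∪ T.erase v → s \ T ⊆ c ∧ v ∉ s := by
    intro c hc v hv hs
    constructor
    · intro y hy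
      obtain ⟨hy1, hy2⟩ := mem_sdiff.1 hy
      rcases mem_union.1 (hs hy1) with h4 | h4
      · exact h4
      · exact absurd (mem_of_mem_erase h4) hy2
    · intro h
      rcases mem_union.1 (hs h) with h4 | h4
      · exact JStar_dis hdis hc v h4 hv
      · exact (mem_erase.1 h4).1 rfl
  have hback : ∀ c : Finset ι, ∀ S : Finset ι, s \ T ⊆ c → s ∩ T ⊆ S → s ⊆ c ∪ S := by
    intro c S h1 h2 y hy
    by_cases hyT : y ∈ T
    · exact mem_union_right _ (h2 (mem_inter.2 ⟨hy, hyT⟩))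
    · exact mem_union_left _ (h1 (mem_sdiff.2 ⟨hy, hyT⟩))
  obtain ⟨ha1, hts⟩ := hσ a ha t ht hsa
  obtain ⟨hb1, hus⟩ := hσ b hb u hu hsb
  have hτ : s ∩ T ⊆ T.erase t := fun y hy =>
    mem_erase.2 ⟨fun e => hts (e ▸ (mem_inter.1 hy).1), (mem_inter.1 hy).2⟩
  -- the first part of the chain
  have h1 : ∀ c, Relation.ReflTransGen (fun a b => b ∈ M ∧ (a ∩ b).card = 3 ∧ s \ T ⊆ a ∩ b) a c →
      c ∈ M ∧ Relation.ReflTransGen (fun a b => b ∈ jn M T ∧ (a ∩ b).card + 1 = d ∧ s ⊆ a ∩ b)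
        (a ∪ T.erase t) (c ∪ T.erase t) := by
    intro c h
    induction h with
    | refl => exact ⟨ha, Relation.ReflTransGen.refl⟩
    | @tail c e _ hce ih =>
      obtain ⟨i1, i2⟩ := ih
      obtain ⟨j1, j2, j3⟩ := hce
      have e1 : (c ∪ T.erase t) ∩ (e ∪ T.erase t) = (c ∩ e) ∪ T.erase t :=
        (inter_union_distrib_right c e (T.erase t)).symm
      have e2 : Disjoint (c ∩ e) (T.erase t) := disjoint_left.2 fun x hx h =>
        JStar_dis hdis i1 x (mem_inter.1 hx).1 (mem_of_mem_erase h)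
      refine ⟨j1, i2.tail ⟨JStar_mem.2 ⟨e, j1, t, ht, rfl⟩, ?_, ?_⟩⟩
      · rw [e1, card_union_of_disjoint e2, j2, card_erase_of_mem ht]
        have h2 : 0 < T.card := card_pos.2 ⟨t, ht⟩
        omega
      · rw [e1]
        exact hback _ _ j3 hτ
  have h2 := (h1 b (JStar_star hM (s \ T) a ha b hb ha1 hb1)).2
  refine h2.trans ?_
  by_cases htu : t = u
  · rw [htu]
  · refine Relation.ReflTransGen.single ⟨hb', ?_, ?_⟩
    · have e1 : (b ∪ T.erase t) ∩ (b ∪ T.erase u) = b ∪ (T.erase t).erase u := by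
        rw [← union_inter_distrib_left]
        congr 1
        ext y
        simp only [mem_inter, mem_erase]
        tauto
      have e2 : Disjoint b ((T.erase t).erase u) := disjoint_left.2 fun x hx h =>
        JStar_dis hdis hb x hx (mem_of_mem_erase (mem_of_mem_erase h))
      have hu' : u ∈ T.erase t := mem_erase.2 ⟨fun e => htu e.symm, hu⟩
      rw [e1, card_union_of_disjoint e2, hM.card b hb, card_erase_of_mem hu', card_erase_of_mem ht]
      have h3 : 0 < (T.erase t).card := card_pos.2 ⟨u, hu'⟩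
      rw [card_erase_of_mem ht] at h3
      omega
    · exact subset_inter (hback _ _ hb1 hτ) hsb

end Pool.TSphM
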