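import Pool.Agent.Lib.MP_3de3a3_co.M.Defs
import Pool.Agent.Lib.MP_3de3a3_co.M.JCard
import Pool.Agent.Lib.MP_3de3a3_co.M.JStar
import Pool.Agent.Lib.MP_3de3a3_co.M.JSa
import Pool.Agent.Lib.MP_3de3a3_co.M.JSb

/-! # The join is a normal pseudomanifold (module M/JNor) -/

set_option autoImplicit false

namespace Pool.TSphM

open Finset
open Pool.TSph (verts IsSphere2 adj comp)
open Pool.TSphD (fc rdg lk PM)

variable {ι : Type*} [DecidableEq ι]

private theorem jnor_mem {M : Finset (Finset ι)} {T b : Finset ι} :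
    b ∈ jn M T ↔ ∃ a ∈ M, ∃ t ∈ T, a ∪ T.erase t = b := by
  simp [jn]

private theorem jnor_single (L : Finset (Finset ι)) (r : ι) : jn L {r} = L := by
  ext b
  rw [jnor_mem]
  simp

/-- `|s| = d - 3 = |T|`: `σ = s \ T` has `i ≥ 1` elements and `T \ s` has `i` elements, the link of `s` is
`jn (lk M σ) (T \ s)` (`lk_jn_face`). `i = 1`: `jn K {r} = K` is the link of a vertex. `i = 2`: `lk M σ` is
the link of a vertex in the link of a vertex, `jn_two`. `i = 3`: the link of a triangle consists of two
points (`PM.two`), `jn_three`. `i = 4`: `jn_four`. -/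
theorem jn_nor {d : ℕ} (hd : 4 ≤ d) {M : Finset (Finset ι)} {T : Finset ι} (hM : IsNor 4 M)
    (hT : T.card + 3 = d) (hdis : Disjoint (verts M) T) : IsNor d (jn M T) := by
  refine ⟨?_, jn_star hd hM hT hdis, ?_⟩
  · intro b hb
    have h1 := (jn_card hM.card hdis).1 b hb
    omega
  · intro s hs
    obtain ⟨hscard, b, hb, hsb⟩ := Pool.TSphD.mem_fc.mp hs
    obtain ⟨a, ha, t, ht, rfl⟩ := jnor_mem.mp hb
    have haT : Disjoint a T := by
      rw [Finset.disjoint_left] at hdis ⊢
      intro x hx
      exact hdis (Pool.TSph.mem_verts.mpr ⟨a, ha, hx⟩)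
    have hdisM : ∀ x ∈ T, ∀ c ∈ M, x ∉ c := by
      intro x hx c hc hxc
      exact Finset.disjoint_left.mp hdis (Pool.TSph.mem_verts.mpr ⟨c, hc, hxc⟩) hx
    have hts : t ∈ T \ s := by
      rw [Finset.mem_sdiff]
      refine ⟨ht, fun h => ?_⟩
      rcases Finset.mem_union.mp (hsb h) with h1 | h1
      · exact hdisM t ht a ha h1
      · exact absurd h1 (Finset.notMem_erase t T)
    have hσa : s \ T ⊆ a := by
      intro x hx
      rw [Finset.mem_sdiff] at hx
      rcases Finset.mem_union.mp (hsb hx.1) with h1 | h1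
      · exact h1
      · exact absurd (Finset.mem_of_mem_erase h1) hx.2
    have hcardeq : (s \ T).card = (T \ s).card := by
      have h1 := Finset.card_sdiff_add_card_inter s T
      have h2 := Finset.card_sdiff_add_card_inter T s
      rw [Finset.inter_comm T s] at h2
      omega
    have hpos : 0 < (T \ s).card := Finset.card_pos.mpr ⟨t, hts⟩
    have hle : (s \ T).card ≤ 4 := by
      have h1 := Finset.card_le_card hσa
      rwa [hM.card a ha] at h1
    rw [lk_jn_face hdis (by rw [hscard]; exact hs)]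
    have hR : ∀ x ∈ T \ s, x ∈ T := fun x hx => (Finset.mem_sdiff.mp hx).1
    -- vertices of `s \ T` give spheres
    have hsph : ∀ v ∈ s \ T, IsSphere2 (lk M {v}) := by
      intro v hv
      apply hM.sphere
      rw [Pool.TSphD.mem_fc]
      exact ⟨Finset.card_singleton v, a, ha, Finset.singleton_subset_iff.mpr (hσa hv)⟩
    generalize hσ : s \ T = σ at *
    generalize hρ : T \ s = ρ at *
    obtain ⟨i, hi⟩ : ∃ i, σ.card = i := ⟨_, rfl⟩
    have hi' : ρ.card = i := by omega
    have hi1 : 1 ≤ i := by omega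
    have hi4 : i ≤ 4 := by omega
    interval_cases i
    · -- `i = 1`
      obtain ⟨r, rfl⟩ := Finset.card_eq_one.mp hi'
      obtain ⟨v, rfl⟩ := Finset.card_eq_one.mp hi
      rw [jnor_single]
      exact hsph v (Finset.mem_singleton_self v)
    · -- `i = 2`
      obtain ⟨r, r', hrr, rfl⟩ := Finset.card_eq_two.mp hi'
      obtain ⟨v, w, hvw, rfl⟩ := Finset.card_eq_two.mp hi
      have hdd : Disjoint ({v} : Finset ι) {w} := by
        rw [Finset.disjoint_singleton]
        exact hvw
      have e : lk M {v, w} = lk (lk M {v}) {w} := by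
        rw [lk_lk M hdd]
        rfl
      have hnv : ∀ x ∈ T, x ∉ verts (lk (lk M {v}) {w}) := by
        intro x hx hx'
        rw [← e] at hx'
        obtain ⟨c, hc, hxc⟩ := Pool.TSph.mem_verts.mp hx'
        obtain ⟨c', hc', _, rfl⟩ := Pool.TSphD.mem_lk.mp hc
        exact hdisM x hx c' hc' (Finset.mem_sdiff.mp hxc).1
      rw [e]
      refine jn_two (hsph v (by simp)) ?_ hrr (hnv r (hR r (by simp))) (hnv r' (hR r' (by simp)))
      refine Pool.TSph.mem_verts.mpr ⟨a \ {v}, Pool.TSphD.mem_lk.mpr ⟨a, ha, ?_, rfl⟩, ?_⟩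
      · exact Finset.singleton_subset_iff.mpr (hσa (by simp))
      · rw [Finset.mem_sdiff, Finset.mem_singleton]
        exact ⟨hσa (by simp), hvw.symm⟩
    · -- `i = 3`
      obtain ⟨v, hv⟩ : σ.Nonempty := Finset.card_pos.mp (by omega)
      have hS := hsph v hv
      have hdd : Disjoint ({v} : Finset ι) (σ.erase v) := by
        rw [Finset.disjoint_singleton_left]
        exact Finset.notMem_erase v σ
      have e : lk M σ = lk (lk M {v}) (σ.erase v) := by
        rw [lk_lk M hdd, ← Finset.insert_eq, Finset.insert_erase hv]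
      have hav : a \ {v} ∈ lk M {v} :=
        Pool.TSphD.mem_lk.mpr ⟨a, ha, Finset.singleton_subset_iff.mpr (hσa hv), rfl⟩
      have hsub : σ.erase v ⊆ a \ {v} := by
        intro x hx
        rw [Finset.mem_sdiff, Finset.mem_singleton]
        exact ⟨hσa (Finset.mem_of_mem_erase hx), Finset.ne_of_mem_erase hx⟩
      have hc2 : (σ.erase v).card = 2 := by
        rw [Finset.card_erase_of_mem hv]
        omega
      have h2 := hS.edge _ hav _ hsub hc2
      have h3 : (lk M σ).card = 2 := by
        rw [e, card_lk]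
        exact h2
      have h4 : ∀ c ∈ lk M σ, c.card = 1 := by
        intro c hc
        obtain ⟨c', hc', hsc, rfl⟩ := Pool.TSphD.mem_lk.mp hc
        rw [Finset.card_sdiff_of_subset hsc, hM.card c' hc']
        omega
      obtain ⟨c₁, c₂, hcc, hlk⟩ := Finset.card_eq_two.mp h3
      obtain ⟨x, rfl⟩ := Finset.card_eq_one.mp (h4 c₁ (by rw [hlk]; simp))
      obtain ⟨y, rfl⟩ := Finset.card_eq_one.mp (h4 c₂ (by rw [hlk]; simp))
      have hnr : ∀ z, {z} ∈ lk M σ → z ∉ ρ := by
        intro z hz hzρ
        obtain ⟨c', hc', _, he⟩ := Pool.TSphD.mem_lk.mp hz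
        have hz' : z ∈ c' \ σ := by rw [he]; simp
        exact hdisM z (hR z hzρ) c' hc' (Finset.mem_sdiff.mp hz').1
      rw [hlk]
      exact jn_three hi' (fun h => hcc (by rw [h])) (hnr x (by rw [hlk]; simp))
        (hnr y (by rw [hlk]; simp))
    · -- `i = 4`
      have hσe : σ = a := Finset.eq_of_subset_of_card_le hσa (by rw [hM.card a ha, hi])
      subst hσe
      have e : lk M σ = {∅} := by
        ext c
        rw [Pool.TSphD.mem_lk, Finset.mem_singleton]
        constructor
        · rintro ⟨c', hc', hsc, rfl⟩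
          have : c' = σ := (Finset.eq_of_subset_of_card_le hsc
            (by rw [hM.card c' hc', hi])).symm
          rw [this, Finset.sdiff_self]
        · rintro rfl
          exact ⟨σ, ha, Finset.Subset.refl _, Finset.sdiff_self _⟩
      rw [e]
      exact jn_four hi'

end Pool.TSphM
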