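import Pool.Agent.Lib.MP_3de3a3_co.M.Defs
import Pool.Agent.Lib.MP_3de3a3_co.M.JMfd
import Pool.Agent.Lib.MP_3de3a3_co.M.JNor
import Pool.Agent.Lib.MP_3de3a3_co.M.JIso
import Pool.Agent.Lib.MP_3de3a3_co.MfdMap

/-! # From normal pseudomanifolds back to 3-manifolds (module M/JCnt) -/

set_option autoImplicit false

namespace Pool.TSphM

open Finset
open Pool.TSph (verts IsSphere2 adj comp)
open Pool.TSphD (fc rdg lk PM)

variable {ι : Type*} [DecidableEq ι]

private theorem jcnt_lk {α β : Type*} [DecidableEq α] [DecidableEq β] (F : Finset (Finset α))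
    (s : Finset α) {f : α → β} (hf : Function.Injective f) :
    lk (F.image (fun a => a.image f)) (s.image f) = (lk F s).image (fun a => a.image f) := by
  unfold lk
  ext t
  simp only [mem_image, mem_filter]
  constructor
  · rintro ⟨_, ⟨⟨a, ha, rfl⟩, hsa⟩, rfl⟩
    refine ⟨a \ s, ⟨a, ⟨ha, (image_subset_image_iff hf).1 hsa⟩, rfl⟩, ?_⟩
    exact image_sdiff _ _ hf
  · rintro ⟨_, ⟨a, ⟨ha, hsa⟩, rfl⟩, rfl⟩
    exact ⟨a.image f, ⟨⟨a, ha, rfl⟩, image_subset_image hsa⟩, (image_sdiff _ _ hf).symm⟩

private theorem jcnt_main {d m n : ℕ} (hd : 5 ≤ d) (hm : 1 ≤ m) (hn : n = m * (d - 3))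
    (S : Finset (Finset (Finset (Fin (d * n)))))
    (hS : ∀ F : Finset (Finset (Fin (d * n))), F.card = n → IsNor d F →
      ∃ G ∈ S, ∃ π : Equiv.Perm (Fin (d * n)), G = F.image (fun σ => σ.image π)) :
    ∃ S' : Finset (Finset (Finset (Fin (4 * m)))),
      S'.card ≤ S.card * (d * n) ^ d ∧
      ∀ M : Finset (Finset (Fin (4 * m))), M.card = m → Pool.TSph.IsMfd3 M →
        ∃ G ∈ S', ∃ π : Equiv.Perm (Fin (4 * m)), G = M.image (fun σ => σ.image π) := by
  classical
  have hdn : 4 * m + (d - 3) ≤ d * n := by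
    obtain ⟨k, rfl⟩ : ∃ k, d = k + 5 := ⟨d - 5, by omega⟩
    have h1 : k + 5 - 3 = k + 2 := by omega
    rw [hn, h1]
    nlinarith [Nat.zero_le (m * k), Nat.zero_le (m * k * k)]
  have hle : 4 * m ≤ d * n := by omega
  let f : Fin (4 * m) → Fin (d * n) := Fin.castLE hle
  have hf : Function.Injective f := Fin.castLE_injective hle
  have hcomp : d - 3 ≤ ((univ : Finset (Fin (4 * m))).image f)ᶜ.card := by
    rw [card_compl, card_image_of_injective _ hf, card_univ, Fintype.card_fin, Fintype.card_fin]
    omega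
  obtain ⟨T, hTs, hTc⟩ := exists_subset_card_eq hcomp
  have hT0 : T.Nonempty := by
    rw [← card_pos]
    omega
  obtain ⟨t, ht⟩ := hT0
  let Q : Finset (Finset (Fin (d * n))) × Finset (Fin (d * n)) →
      Finset (Finset (Fin (4 * m))) → Prop := fun p M0 =>
    ∃ h : Fin (4 * m) → Fin (d * n), Function.Injective h ∧
      lk p.1 p.2 = M0.image (fun a => a.image h)
  let g : Finset (Finset (Fin (d * n))) × Finset (Fin (d * n)) → Finset (Finset (Fin (4 * m))) :=
    fun p => if hq : ∃ M0, Q p M0 then hq.choose else ∅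
  refine ⟨(S ×ˢ (univ : Finset (Fin (d * n))).powersetCard (d - 4)).image g, ?_, ?_⟩
  · refine card_image_le.trans ?_
    rw [card_product, card_powersetCard, card_univ, Fintype.card_fin]
    refine Nat.mul_le_mul_left _ ((Nat.choose_le_pow _ _).trans ?_)
    exact Nat.pow_le_pow_right (by omega) (by omega)
  · intro M hMc hM
    obtain ⟨hM', hc'⟩ := Pool.TSph.mfd_map hM hf
    set M' : Finset (Finset (Fin (d * n))) := M.image (fun s => s.image f) with hM'def
    have hdis : Disjoint (verts M') T := by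
      rw [hM'def, Pool.TSph.MfdMap_verts]
      rw [disjoint_left]
      intro x hx hxT
      have h1 := hTs hxT
      rw [mem_compl] at h1
      exact h1 (image_subset_image (subset_univ _) hx)
    have hnor : IsNor d (jn M' T) := jn_nor (by omega) (mfd3_nor hM') (by omega) hdis
    have hcard : (jn M' T).card = n := by
      rw [(jn_card hM'.card4 hdis).2, hc', hMc, hTc, hn]
    obtain ⟨G, hG, π, hπ⟩ := hS (jn M' T) hcard hnor
    have hlk : lk G ((T.erase t).image π) = M.image (fun a => a.image (π ∘ f)) := by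
      rw [hπ, jcnt_lk _ _ π.injective, lk_jn hdis ht, hM'def, image_image]
      refine image_congr ?_
      intro a _
      simp only [Function.comp_apply]
      rw [image_image]
    have hQ : Q (G, (T.erase t).image π) M := ⟨π ∘ f, π.injective.comp hf, hlk⟩
    have hex : ∃ M0, Q (G, (T.erase t).image π) M0 := ⟨M, hQ⟩
    have hg : g (G, (T.erase t).image π) = hex.choose := dif_pos hex
    obtain ⟨h, hh, hlk2⟩ : Q (G, (T.erase t).image π) (g (G, (T.erase t).image π)) := by
      rw [hg]
      exact hex.choose_spec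
    refine ⟨g (G, (T.erase t).image π), ?_, ?_⟩
    · refine mem_image_of_mem _ (mem_product.2 ⟨hG, ?_⟩)
      rw [mem_powersetCard]
      refine ⟨subset_univ _, ?_⟩
      rw [card_image_of_injective _ π.injective, card_erase_of_mem ht, hTc]
      omega
    · exact iso_of_images (π.injective.comp hf) hh (hlk.symm.trans hlk2)

/-- Embed `Fin (4 m)` into `Fin (d n)` by `f` (`n = m (d - 3)`, there are at least `d - 3` further
points; let `T` be a set of `d - 3` of them and `t ∈ T`). For a closed 3-manifold `M` with `m` facets on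
`Fin (4 m)` the complex `N = jn (f M) T` is `IsNor d` and has `n` facets (`mfd3_nor`, see also
`mfd_map`, file MfdMap.lean), so some `G ∈ S` is `π N`, and `lk G (π (T.erase t)) = π f M`. For every pair
`(G, τ)`, `G ∈ S`, `τ` a set of `d - 4` points, choose, if possible, a 3-manifold `M'` with `m` facets and an
injection `h` with `lk G τ = h M'`; let `S'` be the set of these `M'` and use `iso_of_images`.
The number of sets `τ` is at most `(d n) ^ d`. -/
theorem jn_count {d m : ℕ} (hd : 5 ≤ d) (hm : 1 ≤ m)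
    (S : Finset (Finset (Finset (Fin (d * (m * (d - 3)))))))
    (hS : ∀ F : Finset (Finset (Fin (d * (m * (d - 3))))), F.card = m * (d - 3) → IsNor d F →
      ∃ G ∈ S, ∃ π : Equiv.Perm (Fin (d * (m * (d - 3)))), G = F.image (fun σ => σ.image π)) :
    ∃ S' : Finset (Finset (Finset (Fin (4 * m)))),
      S'.card ≤ S.card * (d * (m * (d - 3))) ^ d ∧
      ∀ M : Finset (Finset (Fin (4 * m))), M.card = m → Pool.TSph.IsMfd3 M →
        ∃ G ∈ S', ∃ π : Equiv.Perm (Fin (4 * m)), G = M.image (fun σ => σ.image π) := by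
  exact jcnt_main hd hm rfl S hS

end Pool.TSphM
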