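import Pool.Agent.Lib.MP_3de3a3_co.M.Defs
import Pool.Agent.Lib.MP_3de3a3_co.M.JCnt
import Pool.Agent.Lib.MP_3de3a3_co.Lower

/-! # The lower bound for normal pseudomanifolds (module M/JLow) -/

set_option autoImplicit false

namespace Pool.TSphM

open Finset
open Pool.TSph (verts IsSphere2 adj comp)
open Pool.TSphD (fc rdg lk PM)

variable {ι : Type*} [DecidableEq ι]

/-- The numerical inequality, for all large `k`. -/
private theorem jlow_num (d r : ℕ) (hd : 1 ≤ d) (hr : 1 ≤ r) (α ε : ℝ) (hε : 0 < ε)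
    (hα : α ≤ 1 / 10) : ∃ K : ℕ, ∀ k : ℕ, K ≤ k →
      (((k * r : ℕ) : ℝ)) ^ (α * k) * (((d * (k * r) : ℕ) : ℝ)) ^ d ≤ (k : ℝ) ^ ((α + ε) * k) := by
  have hcast : Filter.Tendsto (fun k : ℕ => (k : ℝ)) Filter.atTop Filter.atTop :=
    tendsto_natCast_atTop_atTop
  have hlog : Filter.Tendsto (fun k : ℕ => Real.log (k : ℝ)) Filter.atTop Filter.atTop :=
    Real.tendsto_log_atTop.comp hcast
  have hdr : (1 : ℝ) ≤ (d : ℝ) * r := by
    have h1 : (1 : ℝ) ≤ d := by exact_mod_cast hd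
    have h2 : (1 : ℝ) ≤ r := by exact_mod_cast hr
    nlinarith
  have hlr : 0 ≤ Real.log (r : ℝ) := Real.log_nonneg (by exact_mod_cast hr)
  have hldr : 0 ≤ Real.log ((d : ℝ) * r) := Real.log_nonneg hdr
  obtain ⟨K, hK⟩ := Filter.eventually_atTop.1
    (((hlog.eventually_ge_atTop (3 * Real.log r / (10 * ε))).and
      (hlog.eventually_ge_atTop 1)).and
      ((hcast.eventually_ge_atTop (3 * (d * Real.log (d * r)) / ε)).and
        ((hcast.eventually_ge_atTop (3 * d / ε)).and (Filter.eventually_ge_atTop 2))))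
  refine ⟨K, fun k hk => ?_⟩
  obtain ⟨⟨h1, h2⟩, h3, h4, h5⟩ := hK k hk
  have hk0 : (0 : ℝ) < k := by
    have : 0 < k := by omega
    exact_mod_cast this
  have hr0 : (0 : ℝ) < r := by exact_mod_cast hr
  have hd0 : (0 : ℝ) < d := by exact_mod_cast hd
  push_cast
  have e1 : ((k : ℝ) * r) ^ (α * k) = Real.exp ((Real.log k + Real.log r) * (α * k)) := by
    rw [Real.rpow_def_of_pos (by positivity), Real.log_mul hk0.ne' hr0.ne']
  have e2 : ((d : ℝ) * (k * r)) ^ d = Real.exp (d * (Real.log k + Real.log (d * r))) := by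
    rw [Real.exp_nat_mul, Real.exp_add, Real.exp_log hk0, Real.exp_log (by positivity)]
    congr 1
    ring
  have e3 : (k : ℝ) ^ ((α + ε) * k) = Real.exp (Real.log k * ((α + ε) * k)) := by
    rw [Real.rpow_def_of_pos hk0]
  rw [e1, e2, e3, ← Real.exp_add]
  refine Real.exp_le_exp.2 ?_
  rw [div_le_iff₀ (by positivity)] at h1
  rw [div_le_iff₀ hε] at h3 h4
  have hL : 0 < Real.log (k : ℝ) := by linarith
  -- the three terms
  have t1 : Real.log r * (α * k) ≤ ε / 3 * (Real.log k * k) := by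
    have a1 : Real.log r * (α * k) ≤ Real.log r * (1 / 10 * k) :=
      mul_le_mul_of_nonneg_left (mul_le_mul_of_nonneg_right hα hk0.le) hlr
    have a2 : Real.log r * (1 / 10) ≤ ε / 3 * Real.log k := by linarith
    nlinarith
  have t2 : (d : ℝ) * Real.log (d * r) ≤ ε / 3 * (Real.log k * k) := by
    have a1 : (d : ℝ) * Real.log (d * r) ≤ ε / 3 * k := by linarith
    have a2 : (k : ℝ) ≤ Real.log k * k := by nlinarith
    have a3 : ε / 3 * (k : ℝ) ≤ ε / 3 * (Real.log k * k) :=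
      mul_le_mul_of_nonneg_left a2 (by positivity)
    linarith
  have t3 : (d : ℝ) * Real.log k ≤ ε / 3 * (Real.log k * k) := by
    have a1 : (d : ℝ) ≤ ε / 3 * k := by linarith
    have a2 : (d : ℝ) * Real.log k ≤ ε / 3 * k * Real.log k :=
      mul_le_mul_of_nonneg_right a1 hL.le
    linarith
  have t4 : (Real.log k + Real.log r) * (α * k) + d * (Real.log k + Real.log (d * r)) =
      Real.log k * (α * k) + (Real.log r * (α * k) + d * Real.log (d * r) + d * Real.log k) := by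
    ring
  have t5 : Real.log k * ((α + ε) * k) = Real.log k * (α * k) + 3 * (ε / 3 * (Real.log k * k)) := by
    ring
  rw [t4, t5]
  linarith

/-- `d = 4`: `lower` (file Lower.lean) and `mfd3_nor`. `d ≥ 5`, `r = d - 3`: by `lower` for `ε r / 2` there
are arbitrarily large `m` with `m ^ ((1/10 - ε r / 2) m) ≤ |S'| ≤ |S| (d r m) ^ d` for every `S` as in
`jn_count`; with `n = r m`: `n ^ ((1/(10 r) - ε) n) = (r m) ^ ((1/10 - ε r) m)`, and
`(r m) ^ ((1/10 - ε r) m) * (d r m) ^ d ≤ m ^ ((1/10 - ε r / 2) m)` for large `m`. -/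
theorem nor_lower (d : ℕ) (hd : 4 ≤ d) (ε : ℝ) (hε : 0 < ε) (m : ℕ) :
    ∃ n : ℕ, m ≤ n ∧ ∀ S : Finset (Finset (Finset (Fin (d * n)))),
      (∀ F : Finset (Finset (Fin (d * n))), F.card = n → IsNor d F →
        ∃ G ∈ S, ∃ π : Equiv.Perm (Fin (d * n)), G = F.image (fun σ => σ.image π)) →
      (n : ℝ) ^ ((1 / (10 * ((d : ℝ) - 3)) - ε) * n) ≤ S.card := by
  rcases Nat.eq_or_lt_of_le hd with h4 | h5
  · subst h4
    obtain ⟨n, hn, h⟩ := Pool.TSph.lower ε hε m
    refine ⟨n, hn, fun S hS => ?_⟩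
    have h1 := h S (fun F hF hM => hS F hF (mfd3_nor hM))
    have h2 : (1 / (10 * (((4 : ℕ) : ℝ) - 3)) - ε) = 1 / 10 - ε := by norm_num
    rw [h2]
    exact h1
  · have hd5 : 5 ≤ d := h5
    obtain ⟨r, rfl⟩ : ∃ r, d = r + 3 := ⟨d - 3, by omega⟩
    have hr : 1 ≤ r := by omega
    have hr0 : (0 : ℝ) < r := by exact_mod_cast hr
    have hε' : 0 < ε * r / 2 := by positivity
    have hα : 1 / 10 - ε * r ≤ 1 / 10 := by
      have : 0 < ε * r := by positivity
      linarith
    obtain ⟨K, hK⟩ := jlow_num (r + 3) r (by omega) hr (1 / 10 - ε * r) (ε * r / 2) hε' hα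
    obtain ⟨k, hk, h⟩ := Pool.TSph.lower (ε * r / 2) hε' (max (max m K) 1)
    have hk1 : m ≤ k := le_trans (le_trans (le_max_left _ _) (le_max_left _ _)) hk
    have hk2 : K ≤ k := le_trans (le_trans (le_max_right _ _) (le_max_left _ _)) hk
    have hk3 : 1 ≤ k := le_trans (le_max_right _ _) hk
    have hk0 : (0 : ℝ) < k := by exact_mod_cast hk3
    refine ⟨k * (r + 3 - 3), ?_, fun S hS => ?_⟩
    · have h6 : r + 3 - 3 = r := by omega
      rw [h6]
      exact hk1.trans (Nat.le_mul_of_pos_right k hr)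
    · obtain ⟨S', hS', hM⟩ := jn_count hd5 hk3 S hS
      have h1 := h S' hM
      have h2 : (S'.card : ℝ) ≤ S.card * (((r + 3) * (k * r) : ℕ) : ℝ) ^ (r + 3) := by
        have hS2 : S'.card ≤ S.card * ((r + 3) * (k * r)) ^ (r + 3) := hS'
        exact_mod_cast hS2
      have h3 := hK k hk2
      have h4 : (1 / 10 - ε * r + ε * r / 2) = 1 / 10 - ε * r / 2 := by ring
      rw [h4] at h3
      have hpos : (0 : ℝ) < (((r + 3) * (k * r) : ℕ) : ℝ) ^ (r + 3) := by
        have : 0 < (r + 3) * (k * r) := by positivity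
        have h7 : (0 : ℝ) < (((r + 3) * (k * r) : ℕ) : ℝ) := by exact_mod_cast this
        exact pow_pos h7 _
      have h5 := le_of_mul_le_mul_right ((h3.trans h1).trans h2) hpos
      refine le_trans (le_of_eq ?_) h5
      have h6 : r + 3 - 3 = r := by omega
      rw [h6]
      congr 1
      push_cast
      have h8 : (r : ℝ) + 3 - 3 = r := by ring
      rw [h8]
      field_simp

end Pool.TSphM
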